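import Pool.Agent.W_2cf66e_h23.MainD

/-!
# MP_2cf66e_nt: compact semialgebraic sets (helper23)
-/

set_option autoImplicit false

noncomputable section

open MeasureTheory Set Filter Topology

namespace Pool.Agent.WSP

open Pool.Agent.CVol

variable {m : ℕ}

theorem cont_aevalQ (p : MvPolynomial (Fin m) ℚ) :
    Continuous (fun z : Fin m → ℝ => (MvPolynomial.aeval z p : ℝ)) := by
  induction p using MvPolynomial.induction_on with
  | C a =>
    simp only [MvPolynomial.algHom_C]
    exact continuous_const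
  | add p q hp hq =>
    simp only [map_add]
    exact hp.add hq
  | mul_X p j hp =>
    simp only [map_mul, MvPolynomial.aeval_X]
    exact hp.mul (continuous_apply j)

/-- Up to null sets a semialgebraic set is closed, and it is open. -/
theorem sa_closed {S : Set (Fin m → ℝ)} (hS : IsSA S) :
    (∃ F : Set (Fin m → ℝ), IsSA F ∧ IsClosed F ∧ F =ᵐ[volume] S) ∧
      ∃ G : Set (Fin m → ℝ), IsSA G ∧ IsOpen G ∧ G =ᵐ[volume] S := by
  induction hS with
  | pos p =>
    by_cases hp : p = 0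
    · have h : {x : Fin m → ℝ | 0 < MvPolynomial.aeval x p} = ∅ := by
        rw [hp]
        ext x
        simp
      rw [h]
      exact ⟨⟨∅, IsSA.empty, isClosed_empty, Filter.EventuallyEq.rfl⟩,
        ∅, IsSA.empty, isOpen_empty, Filter.EventuallyEq.rfl⟩
    · refine ⟨⟨{x | 0 ≤ MvPolynomial.aeval x p}, IsSA.nonneg p,
        isClosed_le continuous_const (cont_aevalQ p), ?_⟩,
        {x | 0 < MvPolynomial.aeval x p}, IsSA.pos p,
        isOpen_lt continuous_const (cont_aevalQ p), Filter.EventuallyEq.rfl⟩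
      have h0 : ∀ᵐ x : Fin m → ℝ, (MvPolynomial.aeval x p : ℝ) ≠ 0 := by
        rw [ae_iff]
        simp only [not_not]
        exact null_rat p hp
      filter_upwards [h0] with x hx
      refine propext ?_
      show (0 : ℝ) ≤ MvPolynomial.aeval x p ↔ (0 : ℝ) < MvPolynomial.aeval x p
      exact ⟨fun h => lt_of_le_of_ne h (Ne.symm hx), fun h => h.le⟩
  | compl _ ih =>
    obtain ⟨⟨F, h1, h2, h3⟩, G, h4, h5, h6⟩ := ih
    exact ⟨⟨Gᶜ, h4.compl, h5.isClosed_compl, h6.compl⟩, Fᶜ, h1.compl, h2.isOpen_compl, h3.compl⟩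
  | inter _ _ ih1 ih2 =>
    obtain ⟨⟨F, h1, h2, h3⟩, G, h4, h5, h6⟩ := ih1
    obtain ⟨⟨F', h1', h2', h3'⟩, G', h4', h5', h6'⟩ := ih2
    exact ⟨⟨F ∩ F', h1.inter h1', h2.inter h2', h3.inter h3'⟩, G ∩ G', h4.inter h4',
      h5.inter h5', h6.inter h6'⟩

/-- A bounded semialgebraic set has the volume of a compact one. -/
theorem sa_compact {S : Set (Fin m → ℝ)} (hS : IsSA S) (hb : Bornology.IsBounded S) :
    ∃ K : Set (Fin m → ℝ), IsSA K ∧ IsCompact K ∧ volume K = volume S := by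
  obtain ⟨⟨F, h1, h2, h3⟩, -⟩ := sa_closed hS
  obtain ⟨R, hR⟩ := hb.subset_closedBall (0 : Fin m → ℝ)
  obtain ⟨r, hr⟩ := exists_nat_ge (max R 0)
  have hr0 : (0 : ℝ) ≤ r := Nat.cast_nonneg r
  have hball : Metric.closedBall (0 : Fin m → ℝ) r = ⋂ i : Fin m,
      ({x : Fin m → ℝ | 0 ≤ MvPolynomial.aeval x
        (MvPolynomial.X i + MvPolynomial.C (r : ℚ) : MvPolynomial (Fin m) ℚ)} ∩
      {x : Fin m → ℝ | 0 ≤ MvPolynomial.aeval x
        (MvPolynomial.C (r : ℚ) - MvPolynomial.X i : MvPolynomial (Fin m) ℚ)}) := by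
    ext x
    rw [mem_closedBall_zero_iff, pi_norm_le_iff_of_nonneg hr0]
    simp only [mem_iInter, mem_inter_iff, Set.mem_ofPred_eq, map_add, map_sub,
      MvPolynomial.aeval_X, MvPolynomial.algHom_C, eq_ratCast, Rat.cast_natCast, Real.norm_eq_abs,
      abs_le]
    refine forall_congr' fun i => ?_
    constructor
    · rintro ⟨h4, h5⟩
      exact ⟨by linarith, by linarith⟩
    · rintro ⟨h4, h5⟩
      exact ⟨by linarith, by linarith⟩
  have hSA : IsSA (Metric.closedBall (0 : Fin m → ℝ) r) := by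
    rw [hball]
    exact IsSA.iInter _ fun i => (IsSA.nonneg _).inter (IsSA.nonneg _)
  have hsub : S ⊆ Metric.closedBall (0 : Fin m → ℝ) r :=
    hR.trans (Metric.closedBall_subset_closedBall ((le_max_left _ _).trans hr))
  refine ⟨F ∩ Metric.closedBall (0 : Fin m → ℝ) r, h1.inter hSA, ?_, ?_⟩
  · exact (isCompact_closedBall _ _).inter_left h2
  · have h4 : (F ∩ Metric.closedBall (0 : Fin m → ℝ) r : Set (Fin m → ℝ)) =ᵐ[volume]
        (S ∩ Metric.closedBall (0 : Fin m → ℝ) r : Set (Fin m → ℝ)) :=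
      h3.inter Filter.EventuallyEq.rfl
    rw [measure_congr h4, Set.inter_eq_self_of_subset_left hsub]

end Pool.Agent.WSP
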