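import Pool.Agent.W_2cf66e_h23.LuA13

/-!
# MP_2cf66e_nt: sets of finite volume and bounded sets of the same dimension (helper23)
-/

set_option autoImplicit false

noncomputable section

open MeasureTheory Set Filter Topology

namespace Pool.Agent.WSP

variable {k : ℕ}

theorem fib_pre (D : Set (Fin (k + 1) → ℝ)) (x : Fin k → ℝ) :
    fib D x = Prod.mk x ⁻¹' ((EE k).symm ⁻¹' D) := by
  ext y
  simp only [fib, Set.mem_ofPred_eq, mem_preimage, EE_symm]

theorem meas_fib {D : Set (Fin (k + 1) → ℝ)} (hD : MeasurableSet D) :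
    Measurable (fun x : Fin k → ℝ => volume (fib D x)) := by
  simp only [fib_pre]
  exact measurable_measure_prodMk_left ((EE k).symm.measurable hD)

theorem vol_fib {D : Set (Fin (k + 1) → ℝ)} (hD : MeasurableSet D) :
    volume D = ∫⁻ x : Fin k → ℝ, volume (fib D x) := by
  have h := lint_fub hD (f := fun _ => (1 : ENNReal)) measurable_const
  rw [setLIntegral_one] at h
  rw [h]
  refine lintegral_congr fun x => ?_
  rw [setLIntegral_one]

theorem under_DS {C : Set (Fin k → ℝ)} (hC : DS C) {c : (Fin k → ℝ) → ℝ} (hc : DF c) :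
    DS (under C c) := by
  have hz0 : DF (fun z : Fin (k + 1) → ℝ => z 0) := DF.var 0
  have h0 : DF (fun _ : Fin (k + 1) → ℝ => ((0 : ℤ) : ℝ)) := DF.const 0
  have h2 := DF.lt h0 hz0
  simp only [Int.cast_zero] at h2
  exact (DS.tl hC).and (h2.and (DF.lt hz0 (DF.tl hc)))

theorem fib_under (C : Set (Fin k → ℝ)) (c : (Fin k → ℝ) → ℝ) (x : Fin k → ℝ) :
    volume (fib (under C c) x) = C.indicator (fun x => ENNReal.ofReal (c x)) x := by
  by_cases hx : x ∈ C
  · have h : fib (under C c) x = Ioo 0 (c x) := by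
      ext y
      simp only [fib, under, Set.mem_ofPred_eq, tl_cons, Fin.cons_zero, mem_Ioo]
      exact ⟨fun h => h.2, fun h => ⟨hx, h⟩⟩
    rw [h, Real.volume_Ioo, sub_zero, Set.indicator_of_mem hx]
  · have h : fib (under C c) x = ∅ := by
      ext y
      simp only [fib, under, Set.mem_ofPred_eq, tl_cons, Fin.cons_zero, mem_empty_iff_false,
        iff_false]
      exact fun h => hx h.1
    rw [h, measure_empty, Set.indicator_of_notMem hx]

theorem vol_under {C : Set (Fin k → ℝ)} (hC : DS C) {c : (Fin k → ℝ) → ℝ} (hc : DF c) :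
    volume (under C c) = ∫⁻ x in C, ENNReal.ofReal (c x) := by
  rw [vol_fib (under_DS hC hc).meas, ← lintegral_indicator hC.meas]
  refine lintegral_congr fun x => ?_
  exact fib_under C c x

open scoped Classical in
/-- An open order connected set of finite measure. -/
theorem vol_open {F : Set ℝ} (ho : IsOpen F) (hc : OrdConnected F) (hv : volume F < ⊤) :
    volume F = if F.Nonempty ∧ 0 < sSup F - sInf F then ENNReal.ofReal (sSup F - sInf F) else 0 := by
  classical
  rcases Set.eq_empty_or_nonempty F with h | hn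
  · rw [h, measure_empty, if_neg]
    rintro ⟨h1, -⟩
    exact Set.not_nonempty_empty h1
  · obtain ⟨y0, hy0⟩ := hn
    have hba : BddAbove F := by
      by_contra hb
      have h1 : Ioi y0 ⊆ F := by
        intro y hy
        obtain ⟨z, hz, hyz⟩ := not_bddAbove_iff.1 hb y
        exact hc.out hy0 hz ⟨(le_of_lt hy), hyz.le⟩
      have h2 := measure_mono (μ := volume) h1
      rw [Real.volume_Ioi] at h2
      exact absurd hv (not_lt.2 h2)
    have hbb : BddBelow F := by
      by_contra hb
      have h1 : Iio y0 ⊆ F := by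
        intro y hy
        obtain ⟨z, hz, hyz⟩ := not_bddBelow_iff.1 hb y
        exact hc.out hz hy0 ⟨hyz.le, (le_of_lt hy)⟩
      have h2 := measure_mono (μ := volume) h1
      rw [Real.volume_Iio] at h2
      exact absurd hv (not_lt.2 h2)
    have h1 : F = Ioo (sInf F) (sSup F) := by
      ext y
      constructor
      · intro hy
        obtain ⟨ε, hε, hball⟩ := Metric.isOpen_iff.1 ho y hy
        have hd : 0 < ε / 2 := by positivity
        have hm : y - ε / 2 ∈ F := hball (by
          rw [Metric.mem_ball, Real.dist_eq, sub_sub_cancel_left, abs_neg, abs_of_pos hd]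
          linarith)
        have hp : y + ε / 2 ∈ F := hball (by
          rw [Metric.mem_ball, Real.dist_eq, add_sub_cancel_left, abs_of_pos hd]
          linarith)
        exact ⟨lt_of_le_of_lt (csInf_le hbb hm) (by linarith),
          lt_of_lt_of_le (by linarith) (le_csSup hba hp)⟩
      · rintro ⟨h2, h3⟩
        obtain ⟨p, hp, hpy⟩ := exists_lt_of_csInf_lt ⟨y0, hy0⟩ h2
        obtain ⟨q, hq, hyq⟩ := exists_lt_of_lt_csSup ⟨y0, hy0⟩ h3
        exact hc.out hp hq ⟨hpy.le, hyq.le⟩
    have h2 : 0 < sSup F - sInf F := by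
      have h3 := hy0
      rw [h1] at h3
      linarith [h3.1.trans h3.2]
    rw [if_pos ⟨⟨y0, hy0⟩, h2⟩]
    conv_lhs => rw [h1]
    rw [Real.volume_Ioo]

/-- One cell. -/
theorem cell_bdd {D : Set (Fin (k + 1) → ℝ)} (hD : DS D) (hv : volume D < ⊤)
    (hfib : ∀ x : Fin k → ℝ, IsOpen (fib D x) ∧ OrdConnected (fib D x)) :
    ∃ (I : ℕ) (B : Fin I → Set (Fin (k + 1) → ℝ)), (∀ i, DS (B i) ∧ Bornology.IsBounded (B i)) ∧
      volume D = ∑ i, volume (B i) := by
  classical
  obtain ⟨F, hF⟩ : ∃ F : (Fin k → ℝ) → ℝ, F = fun x => sSup (fib D x) - sInf (fib D x) := ⟨_, rfl⟩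
  have hFd : DF F := hF ▸ (DF.fibSup hD).sub (DF.fibInf hD)
  obtain ⟨C, hCdef⟩ : ∃ C : Set (Fin k → ℝ), C = {x | (fib D x).Nonempty ∧ 0 < F x} := ⟨_, rfl⟩
  have hC : DS C := by
    have h0 : DF (fun _ : Fin k → ℝ => ((0 : ℤ) : ℝ)) := DF.const 0
    have h2 := DF.lt h0 hFd
    simp only [Int.cast_zero] at h2
    rw [hCdef]
    exact (DS.nonemptyFib hD).and h2
  have hvf := vol_fib hD.meas
  have hfin : ∀ᵐ x : Fin k → ℝ, volume (fib D x) < ⊤ :=
    ae_lt_top (meas_fib hD.meas) (by rw [← hvf]; exact hv.ne)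
  have hval : volume D = ∫⁻ x in C, ENNReal.ofReal (F x) := by
    rw [hvf, ← lintegral_indicator hC.meas]
    refine lintegral_congr_ae ?_
    filter_upwards [hfin] with x hx
    rw [vol_open (hfib x).1 (hfib x).2 hx]
    by_cases h : x ∈ C
    · rw [Set.indicator_of_mem h]
      rw [hCdef] at h
      have h' : (fib D x).Nonempty ∧ 0 < sSup (fib D x) - sInf (fib D x) := by
        rw [hF] at h
        exact h
      rw [if_pos h', hF]
    · rw [Set.indicator_of_notMem h, if_neg]
      intro h1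
      apply h
      rw [hCdef, hF]
      exact h1
  have hone : DF (fun _ : Fin k → ℝ => ((1 : ℤ) : ℝ)) := DF.const 1
  have hFpos : ∀ x ∈ C, 0 < F x := by
    rw [hCdef]
    exact fun x hx => hx.2
  obtain ⟨N, M, I, E, Φ, J, hN, h1, h2⟩ := trAll k C F (fun _ => ((1 : ℤ) : ℝ)) hC hFd hone hFpos
    (fun x _ => by push_cast; exact le_rfl) (by rw [← hval]; exact hv)
  have hcd : ∀ i, DF (fun u => F (Φ i u) * J i u) := fun i =>
    (DF.comp hFd (fun j => (h1 i).2.2.1 j)).mul (h1 i).2.2.2.1
  refine ⟨I, fun i => under (E i) (fun u => F (Φ i u) * J i u), fun i => ⟨?_, ?_⟩, ?_⟩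
  · exact under_DS (h1 i).1 (hcd i)
  · obtain ⟨R, hR⟩ := (h1 i).2.1.subset_closedBall (0 : Fin k → ℝ)
    have hsub : under (E i) (fun u => F (Φ i u) * J i u) ⊆
        Metric.closedBall (0 : Fin (k + 1) → ℝ) (max R (max 1 M)) := by
      rintro z ⟨h3, h4, h5⟩
      have h6 := (h1 i).2.2.2.2 _ h3
      obtain ⟨h7, h8, h9⟩ := h6
      have h10 : 0 ≤ F (Φ i (tl z)) * J i (tl z) := mul_nonneg (hFpos _ h7).le h8
      have h11 : F (Φ i (tl z)) * J i (tl z) ≤ max 1 M := by
        rcases le_or_gt (F (Φ i (tl z)) * J i (tl z)) 1 with h | h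
        · exact h.trans (le_max_left _ _)
        · push_cast at h9
          rw [mul_one] at h9
          exact (le_self_pow₀ h.le hN.ne').trans (h9.trans (le_max_right _ _))
      rw [mem_closedBall_zero_iff, pi_norm_le_iff_of_nonneg (by positivity)]
      intro j
      refine Fin.cases ?_ (fun j' => ?_) j
      · rw [Real.norm_of_nonneg h4.le]
        exact (h5.le.trans h11).trans (le_max_right _ _)
      · have h12 := hR h3
        rw [mem_closedBall_zero_iff] at h12
        exact ((norm_le_pi_norm (tl z) j').trans h12).trans (le_max_left _ _)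
    exact Metric.isBounded_closedBall.subset hsub
  · rw [hval, h2 _ hFd.meas.ennreal_ofReal]
    refine Finset.sum_congr rfl fun i _ => ?_
    rw [vol_under (h1 i).1 (hcd i)]
    refine setLIntegral_congr_fun (h1 i).1.meas fun u hu => ?_
    have h3 := (h1 i).2.2.2.2 u hu
    exact (ENNReal.ofReal_mul (hFpos _ h3.1).le).symm

theorem fin_bdd (S : Set (Fin (k + 1) → ℝ)) (hS : DS S) (hv : volume S ≠ ⊤) :
    ∃ (I : ℕ) (B : Fin I → Set (Fin (k + 1) → ℝ)), (∀ i, DS (B i) ∧ Bornology.IsBounded (B i)) ∧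
      volume S = ∑ i, volume (B i) := by
  classical
  have hone : DF (fun _ : Fin (k + 1) → ℝ => ((1 : ℤ) : ℝ)) := DF.const 1
  obtain ⟨I, D, h1, h2, h3⟩ := cells S hS _ _ hone hone
  have hDv : ∀ i, volume (D i) < ⊤ := fun i =>
    lt_of_le_of_lt (measure_mono (h1 i).2.1) (lt_top_iff_ne_top.2 hv)
  have h4 : volume S = ∑ i, volume (D i) := by
    have h5 : volume S = volume (⋃ i, D i) := by
      refine le_antisymm ?_ (measure_mono (Set.iUnion_subset fun i => (h1 i).2.1))
      calc volume S ≤ volume ((⋃ i, D i) ∪ (S \ ⋃ i, D i)) := by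
            refine measure_mono fun z hz => ?_
            by_cases h : z ∈ ⋃ i, D i
            · exact Or.inl h
            · exact Or.inr ⟨hz, h⟩
        _ ≤ volume (⋃ i, D i) + volume (S \ ⋃ i, D i) := measure_union_le _ _
        _ = volume (⋃ i, D i) := by rw [h3, add_zero]
    rw [h5, measure_iUnion h2 fun i => (h1 i).1.meas, tsum_fintype]
  have h5 : ∀ i, ∃ (I : ℕ) (B : Fin I → Set (Fin (k + 1) → ℝ)),
      (∀ i, DS (B i) ∧ Bornology.IsBounded (B i)) ∧ volume (D i) = ∑ i, volume (B i) := fun i =>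
    cell_bdd (h1 i).1 (hDv i) fun x => ⟨((h1 i).2.2.1 x).1, ((h1 i).2.2.1 x).2.1⟩
  choose J B hB hBv using h5
  let e := Fintype.equivFin (Σ i : Fin I, Fin (J i))
  refine ⟨Fintype.card (Σ i : Fin I, Fin (J i)), fun j => B (e.symm j).1 (e.symm j).2,
    fun j => hB _ _, ?_⟩
  rw [h4, Finset.sum_congr rfl fun i _ => hBv i]
  rw [Equiv.sum_comp e.symm (fun p : Σ i : Fin I, Fin (J i) => volume (B p.1 p.2)),
    Fintype.sum_sigma]

end Pool.Agent.WSP
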