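import Pool.Agent.W_2cf66e_h23.Cont

/-!
# MP_2cf66e_nt, integrals over the whole space: the first order relation (helper23)
-/

set_option autoImplicit false

noncomputable section

open MvPolynomial

open scoped ComplexConjugate

namespace Pool.Agent.WSP

/-- The polynomial with coefficients `u + i v`. -/
def UU {m : ℕ} (u v : Fin (m + 1) → ℝ) (w : ℝ) : ℂ :=
  ∑ j : Fin (m + 1), ((u j : ℂ) + (v j : ℂ) * Complex.I) * (w : ℂ) ^ (j : ℕ)

/-- The points `a + i b`. -/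
def ZZ {m : ℕ} (a b : Fin (m + 1) → ℝ) (j : Fin (m + 1)) : ℂ := (a j : ℂ) + (b j : ℂ) * Complex.I

/-- The relation `∫ P/Q dw = π s` at the point `x`, in first order form. -/
def Rel {n : ℕ} (P Q : MvPolynomial (Fin (n + 1)) ℚ) (m : ℕ) (x : Fin n → ℝ) (s : ℝ) : Prop :=
  ∃ a b u v : Fin (m + 1) → ℝ, (∀ j, 0 < b j) ∧ s = -2 * v (Fin.last m) ∧
    ∀ w : ℝ, (aeval (Fin.cons w x : Fin (n + 1) → ℝ) P : ℝ) *
        Complex.normSq (CC (ZZ a b) (w : ℂ)) =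
      2 * (aeval (Fin.cons w x : Fin (n + 1) → ℝ) Q : ℝ) *
        (UU u v w * conj (CC (ZZ a b) (w : ℂ))).re

/-- The part of the subgraph of `x ↦ (1/π) ∫ P/Q dw` above `0`. -/
def Sub {n : ℕ} (P Q : MvPolynomial (Fin (n + 1)) ℚ) (m : ℕ) (y : Fin (n + 1) → ℝ) : Prop :=
  0 < y 0 ∧ ∃ s : ℝ, y 0 < s ∧ Rel P Q m (fun j => y j.succ) s

end Pool.Agent.WSP
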