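import Pool.Agent.W_2cf66e_h23.DefsU
import Pool.Agent.W_2cf66e_h78.Dfn

/-!
# MP_2cf66e_nt, bounded sets in the same dimension, leaf A1: calculus of definable functions (helper78)
-/

set_option autoImplicit false

noncomputable section

open MeasureTheory Set Filter Topology

namespace Pool.Agent.WSP

theorem isSA_DS {k : ℕ} {S : Set (Fin k → ℝ)} (h : Pool.Agent.CVol.IsSA S) : DS S := by
  induction h with
  | pos p =>
    obtain ⟨N, hN, hp⟩ := clearQ p
    have hN' : (0 : ℝ) < N := by exact_mod_cast hN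
    refine (U78.Df.lt (U78.PolyFun.const 0) hp).congr fun v => ?_
    simp only [Set.mem_setOf_eq, Int.cast_zero]
    exact mul_pos_iff_of_pos_left hN'
  | compl _ ih => exact (U78.Df.not ih).congr fun v => Iff.rfl
  | inter _ _ ih1 ih2 => exact (U78.Df.and ih1 ih2).congr fun v => Iff.rfl

theorem DS_isSA {k : ℕ} {S : Set (Fin k → ℝ)} (h : DS S) : Pool.Agent.CVol.IsSA S :=
  df_isSA h

theorem substF {κ κ' : Type} [Finite κ] [Countable κ'] {P : (κ → ℝ) → Prop} (h : U78.Df P)
    {g : κ → (κ' → ℝ) → ℝ} (hg : ∀ i, DF (g i)) : U78.Df (fun v => P (fun i => g i v)) := by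
  obtain ⟨n, ⟨e⟩⟩ := Finite.exists_equiv_fin κ
  have h1 : U78.Df (fun w : κ' ⊕ Fin n → ℝ =>
      ∀ j : Fin n, w (Sum.inr j) = g (e.symm j) (fun i => w (Sum.inl i))) := by
    refine U78.Df.forall_fin fun j => ?_
    refine ((hg (e.symm j)).comap (κ' := κ' ⊕ Fin n)
      (fun o => o.elim (Sum.inr j) Sum.inl)).congr fun w => ?_
    exact Iff.rfl
  have h2 : U78.Df (fun w : κ' ⊕ Fin n → ℝ => P (fun i => w (Sum.inr (e i)))) :=
    h.comap (κ' := κ' ⊕ Fin n) (fun i => Sum.inr (e i))
  refine (U78.Df.exV (h1.and h2)).congr fun v => ?_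
  constructor
  · rintro ⟨u, hu1, hu2⟩
    have h3 : (fun i => g i v) = fun i => u (e i) := by
      funext i
      have h4 := hu1 (e i)
      simp only [Sum.elim_inr, Sum.elim_inl, Equiv.symm_apply_apply] at h4
      exact h4.symm
    rw [h3]
    exact hu2
  · intro hP
    refine ⟨fun j => g (e.symm j) v, fun j => rfl, ?_⟩
    have h3 : (fun i => Sum.elim v (fun j => g (e.symm j) v) (Sum.inr (e i) : κ' ⊕ Fin n)) =
        fun i => g i v := by
      funext i
      simp only [Sum.elim_inr, Equiv.symm_apply_apply]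
    rw [h3]
    exact hP

theorem DF.congr78 {κ : Type} {f g : (κ → ℝ) → ℝ} (hf : DF f) (h : ∀ v, f v = g v) : DF g := by
  have h1 : f = g := funext h
  rwa [← h1]

theorem DF.comap78 {κ κ' : Type} [Countable κ'] {f : (κ → ℝ) → ℝ} (hf : DF f) (σ : κ → κ') :
    DF (fun v : κ' → ℝ => f (fun i => v (σ i))) :=
  (U78.Df.comap hf (Option.map σ)).congr fun _ => Iff.rfl

theorem DF.poly {κ : Type} [Countable κ] {f : (κ → ℝ) → ℝ} (h : U78.PolyFun f) : DF f :=
  U78.Df.eq (U78.PolyFun.var none) (PolyFun_comap h some)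

theorem DF.var {κ : Type} [Countable κ] (i : κ) : DF (fun v : κ → ℝ => v i) :=
  DF.poly (U78.PolyFun.var i)

theorem DF.const {κ : Type} [Countable κ] (a : ℤ) : DF (fun _ : κ → ℝ => (a : ℝ)) :=
  DF.poly (U78.PolyFun.const a)

theorem DF.comp {κ κ' : Type} [Finite κ] [Countable κ'] {f : (κ → ℝ) → ℝ} (hf : DF f)
    {g : κ → (κ' → ℝ) → ℝ} (hg : ∀ i, DF (g i)) : DF (fun v => f (fun i => g i v)) := by
  let G : Option κ → (Option κ' → ℝ) → ℝ := fun o =>
    o.elim (fun w => w none) (fun i w => g i (fun j => w (some j)))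
  have hG : ∀ o, DF (G o) := by
    intro o
    cases o with
    | none => exact DF.var none
    | some i => exact (hg i).comap78 some
  exact (substF (κ := Option κ) (κ' := Option κ') hf hG).congr fun w => Iff.rfl

theorem DF.op1_78 {F : ℝ → ℝ} (hF : DF (fun w : Unit → ℝ => F (w ())))
    {κ : Type} [Countable κ] {f : (κ → ℝ) → ℝ} (hf : DF f) : DF (fun v => F (f v)) :=
  DF.comp (κ := Unit) hF (g := fun _ => f) fun _ => hf

theorem DF.op2_78 {F : ℝ → ℝ → ℝ} (hF : DF (fun w : Bool → ℝ => F (w true) (w false)))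
    {κ : Type} [Countable κ] {f g : (κ → ℝ) → ℝ} (hf : DF f) (hg : DF g) :
    DF (fun v => F (f v) (g v)) :=
  DF.comp (κ := Bool) hF (g := fun b => bif b then f else g) fun b => by
    cases b
    · exact hg
    · exact hf

theorem DF.add {κ : Type} [Countable κ] {f g : (κ → ℝ) → ℝ} (hf : DF f) (hg : DF g) :
    DF (fun v => f v + g v) :=
  DF.op2_78 (F := fun x y => x + y)
    (DF.poly ((U78.PolyFun.var true).add (U78.PolyFun.var false))) hf hg

theorem DF.sub {κ : Type} [Countable κ] {f g : (κ → ℝ) → ℝ} (hf : DF f) (hg : DF g) :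
    DF (fun v => f v - g v) :=
  DF.op2_78 (F := fun x y => x - y)
    (DF.poly ((U78.PolyFun.var true).sub (U78.PolyFun.var false))) hf hg

theorem DF.mul {κ : Type} [Countable κ] {f g : (κ → ℝ) → ℝ} (hf : DF f) (hg : DF g) :
    DF (fun v => f v * g v) :=
  DF.op2_78 (F := fun x y => x * y)
    (DF.poly ((U78.PolyFun.var true).mul (U78.PolyFun.var false))) hf hg

theorem DF.inv {κ : Type} [Countable κ] {f : (κ → ℝ) → ℝ} (hf : DF f) :
    DF (fun v => (f v)⁻¹) := by
  refine DF.op1_78 (F := fun x => x⁻¹) ?_ hf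
  have h1 : U78.Df (fun v : Option Unit → ℝ => v (some ()) * v none = ((1 : ℤ) : ℝ)) :=
    U78.Df.eq ((U78.PolyFun.var (some ())).mul (U78.PolyFun.var none)) (U78.PolyFun.const 1)
  have h2 : U78.Df (fun v : Option Unit → ℝ => v (some ()) = ((0 : ℤ) : ℝ)) :=
    U78.Df.eq (U78.PolyFun.var (some ())) (U78.PolyFun.const 0)
  have h3 : U78.Df (fun v : Option Unit → ℝ => v none = ((0 : ℤ) : ℝ)) :=
    U78.Df.eq (U78.PolyFun.var none) (U78.PolyFun.const 0)
  refine (h1.or (h2.and h3)).congr fun v => ?_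
  simp only [Int.cast_one, Int.cast_zero]
  constructor
  · rintro (h | ⟨h, h'⟩)
    · exact (eq_inv_of_mul_eq_one_right h)
    · rw [h, h', inv_zero]
  · intro h
    by_cases h0 : v (some ()) = 0
    · right
      refine ⟨h0, ?_⟩
      rw [h, h0, inv_zero]
    · left
      rw [h]
      exact mul_inv_cancel₀ h0

theorem DF.div {κ : Type} [Countable κ] {f g : (κ → ℝ) → ℝ} (hf : DF f) (hg : DF g) :
    DF (fun v => f v / g v) :=
  (hf.mul hg.inv).congr78 fun v => (div_eq_mul_inv _ _).symm

theorem DF.pow {κ : Type} [Countable κ] {f : (κ → ℝ) → ℝ} (hf : DF f) (m : ℕ) :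
    DF (fun v => f v ^ m) :=
  DF.op1_78 (F := fun x => x ^ m) (DF.poly ((U78.PolyFun.var ()).pow m)) hf

theorem DF.lt {κ : Type} [Countable κ] {f g : (κ → ℝ) → ℝ} (hf : DF f) (hg : DF g) :
    U78.Df (fun v => f v < g v) :=
  substF (κ := Bool) (P := fun w => w true < w false)
    (U78.Df.lt (U78.PolyFun.var true) (U78.PolyFun.var false))
    (g := fun b => bif b then f else g) fun b => by
      cases b
      · exact hg
      · exact hf

theorem DF.le {κ : Type} [Countable κ] {f g : (κ → ℝ) → ℝ} (hf : DF f) (hg : DF g) :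
    U78.Df (fun v => f v ≤ g v) :=
  substF (κ := Bool) (P := fun w => w true ≤ w false)
    (U78.Df.le (U78.PolyFun.var true) (U78.PolyFun.var false))
    (g := fun b => bif b then f else g) fun b => by
      cases b
      · exact hg
      · exact hf

theorem DF.eq {κ : Type} [Countable κ] {f g : (κ → ℝ) → ℝ} (hf : DF f) (hg : DF g) :
    U78.Df (fun v => f v = g v) :=
  substF (κ := Bool) (P := fun w => w true = w false)
    (U78.Df.eq (U78.PolyFun.var true) (U78.PolyFun.var false))
    (g := fun b => bif b then f else g) fun b => by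
      cases b
      · exact hg
      · exact hf

end Pool.Agent.WSP
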