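import Pool.Agent.W_2cf66e_h23.DefsU

/-!
# MP_2cf66e_nt, S+: leaf A2, first part (helper64): measurability, suprema, fibers
-/

set_option autoImplicit false

noncomputable section

open MeasureTheory Set Filter Topology

namespace Pool.Agent.WSP

theorem SA_meas64 {s : Set (ℕ → ℝ)} (h : Pool.Agent.W_MP_25fb88_lc.SA s) : MeasurableSet s := by
  induction h with
  | pos p =>
    have hc : Continuous (fun m : ℕ → ℝ => (MvPolynomial.aeval m p : ℝ)) := by
      induction p using MvPolynomial.induction_on with
      | C a => simpa using continuous_const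
      | add p q hp hq =>
        simp only [map_add]
        exact hp.add hq
      | mul_X p j hp =>
        simp only [map_mul, MvPolynomial.aeval_X]
        exact hp.mul (continuous_apply j)
    exact measurableSet_lt measurable_const hc.measurable
  | compl _ ih => exact ih.compl
  | inter _ _ ih1 ih2 => exact ih1.inter ih2

theorem Df_meas64 {κ : Type} {P : (κ → ℝ) → Prop} (h : U78.Df P) :
    MeasurableSet {v : κ → ℝ | P v} := by
  obtain ⟨f, hf, hs⟩ := h
  have h1 := SA_meas64 hs
  have h2 : Measurable (fun v : κ → ℝ => Function.extend f v (fun _ => (0 : ℝ))) := by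
    rw [measurable_pi_iff]
    intro n
    by_cases hn : ∃ i, f i = n
    · obtain ⟨i, rfl⟩ := hn
      simp only [hf.extend_apply]
      exact measurable_pi_apply i
    · simp only [Function.extend_apply' _ _ _ hn]
      exact measurable_const
  have h3 := h2 h1
  have h4 : (fun v : κ → ℝ => Function.extend f v (fun _ => (0 : ℝ))) ⁻¹'
      {m : ℕ → ℝ | P (fun i => m (f i))} = {v : κ → ℝ | P v} := by
    ext v
    simp only [Set.mem_preimage, Set.mem_ofPred_eq, hf.extend_apply]
  rwa [h4] at h3

theorem DS.meas {κ : Type} [Countable κ] {C : Set (κ → ℝ)} (h : DS C) : MeasurableSet C :=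
  Df_meas64 h

/-- The strict epigraph of a definable function is definable. -/
theorem DF_epi64 {κ : Type} [Countable κ] {f : (κ → ℝ) → ℝ} (h : DF f) :
    U78.Df (fun w : Option κ → ℝ => f (fun i => w (some i)) < w none) := by
  have h1 := h.comap (κ' := Option (Option κ)) (fun o => o.elim none (fun i => some (some i)))
  have h2 : U78.Df (fun w : Option (Option κ) → ℝ => w none < w (some none)) :=
    U78.Df.lt (U78.PolyFun.var _) (U78.PolyFun.var _)
  refine (h1.and h2).ex.congr fun w => ?_
  simp only [Option.elim_none, Option.elim_some]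
  constructor
  · rintro ⟨t, ht, h3⟩
    rwa [← ht]
  · intro h3
    exact ⟨_, rfl, h3⟩

theorem DF.meas {κ : Type} [Countable κ] {f : (κ → ℝ) → ℝ} (h : DF f) : Measurable f := by
  refine measurable_of_Iio fun a => ?_
  have h1 := Df_meas64 (DF_epi64 h)
  have h2 : Measurable (fun v : κ → ℝ => (fun o : Option κ => o.elim a v : Option κ → ℝ)) := by
    rw [measurable_pi_iff]
    rintro (_ | i)
    · exact measurable_const
    · exact measurable_pi_apply i
  exact h2 h1

theorem DF.dsup {κ : Type} [Countable κ] {P : (Option κ → ℝ) → Prop} (h : U78.Df P) :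
    DF (fun v : κ → ℝ => sSup {t : ℝ | P (fun o => o.elim t v)}) := by
  -- the relation `P (t, v)` over `Option (Option κ)` and `Option (Option (Option κ))`
  have h1 := h.comap (κ' := Option (Option κ)) (fun o => o.elim none (fun i => some (some i)))
  have h2 := h.comap (κ' := Option (Option (Option κ)))
    (fun o => o.elim none (fun i => some (some (some i))))
  -- nonempty
  have hne := h1.ex
  -- `y` is an upper bound
  have hub := (h1.imp (U78.Df.le (U78.PolyFun.var none) (U78.PolyFun.var (some none)))).all
  -- `b` is an upper bound, `b` a new variable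
  have hub' := (h2.imp (U78.Df.le (U78.PolyFun.var none) (U78.PolyFun.var (some none)))).all
  have hba := hub'.ex
  have hlb := (hub'.imp (U78.Df.le (U78.PolyFun.var (some none)) (U78.PolyFun.var none))).all
  have h0 : U78.Df (fun w : Option κ → ℝ => w none = ((0 : ℤ) : ℝ)) :=
    U78.Df.eq (U78.PolyFun.var none) (U78.PolyFun.const 0)
  refine (((hne.and hba).and (hub.and hlb)).or ((hne.and hba).not.and h0)).congr fun w => ?_
  simp only [Option.elim_none, Option.elim_some, Int.cast_zero]
  set v : κ → ℝ := fun i => w (some i) with hv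
  set S : Set ℝ := {t : ℝ | P (fun o => o.elim t v)} with hS
  have e : ∀ t : ℝ, (P fun o => ((o.elim none fun i => some (some i)) : Option (Option κ)).elim t
      w) ↔ t ∈ S := by
    intro t
    have : (fun o : Option κ => ((o.elim none fun i => some (some i)) :
        Option (Option κ)).elim t w) = fun o => o.elim t v := by
      funext o
      cases o <;> rfl
    rw [this]
    rfl
  have e' : ∀ t b : ℝ, (P fun o => ((o.elim none fun i => some (some (some i))) :
      Option (Option (Option κ))).elim t (fun o => o.elim b w)) ↔ t ∈ S := by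
    intro t b
    have : (fun o : Option κ => ((o.elim none fun i => some (some (some i))) :
        Option (Option (Option κ))).elim t (fun o => o.elim b w)) = fun o => o.elim t v := by
      funext o
      cases o <;> rfl
    rw [this]
    rfl
  simp only [e, e']
  constructor
  · rintro (⟨⟨h3, h4⟩, h5, h6⟩ | ⟨h3, h4⟩)
    · have : IsLUB S (w none) := ⟨fun t ht => h5 t ht, fun b hb => h6 b fun t ht => hb ht⟩
      exact (this.csSup_eq h3).symm
    · rw [h4]
      by_cases h5 : S.Nonempty
      · have h6 : ¬ BddAbove S := fun ⟨b, hb⟩ => h3 ⟨h5, b, fun t ht => hb ht⟩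
        exact (Real.sSup_of_not_bddAbove h6).symm
      · rw [Set.not_nonempty_iff_eq_empty] at h5
        rw [h5, Real.sSup_empty]
  · intro h3
    by_cases h4 : (∃ t, t ∈ S) ∧ ∃ b : ℝ, ∀ t, t ∈ S → t ≤ b
    · left
      refine ⟨h4, ?_⟩
      obtain ⟨h5, b, hb⟩ := h4
      have : IsLUB S (sSup S) := isLUB_csSup h5 ⟨b, fun t ht => hb t ht⟩
      rw [h3]
      exact ⟨fun t ht => this.1 ht, fun b hb => this.2 fun t ht => hb t ht⟩
    · right
      refine ⟨h4, ?_⟩
      rw [h3]
      by_cases h5 : S.Nonempty
      · refine Real.sSup_of_not_bddAbove fun ⟨b, hb⟩ => h4 ⟨h5, b, fun t ht => hb ht⟩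
      · rw [Set.not_nonempty_iff_eq_empty] at h5
        rw [h5, Real.sSup_empty]

theorem DF_neg64 {κ : Type} [Countable κ] {f : (κ → ℝ) → ℝ} (h : DF f) :
    DF (fun v => - f v) := by
  have h1 := h.subst (κ' := Option κ)
    (g := fun o w => o.elim (((-1 : ℤ) : ℝ) * w none) (fun i => w (some i))) (by
      rintro (_ | i)
      · exact (U78.PolyFun.const (-1)).mul (U78.PolyFun.var none)
      · exact U78.PolyFun.var (some i))
  refine h1.congr fun w => ?_
  simp only [Option.elim_none, Option.elim_some]
  constructor
  · intro h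
    rw [← h]
    push_cast
    ring
  · intro h
    rw [h]
    push_cast
    ring

theorem DF.dinf {κ : Type} [Countable κ] {P : (Option κ → ℝ) → Prop} (h : U78.Df P) :
    DF (fun v : κ → ℝ => sInf {t : ℝ | P (fun o => o.elim t v)}) := by
  have h1 := h.subst (κ' := Option κ)
    (g := fun o w => o.elim (((-1 : ℤ) : ℝ) * w none) (fun i => w (some i))) (by
      rintro (_ | i)
      · exact (U78.PolyFun.const (-1)).mul (U78.PolyFun.var none)
      · exact U78.PolyFun.var (some i))
  have h2 := DF_neg64 (DF.dsup h1)
  have h3 : (fun v : κ → ℝ => sInf {t : ℝ | P (fun o => o.elim t v)}) = fun v => - sSup {t : ℝ |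
      (fun w : Option κ → ℝ => P fun i => (fun o w => o.elim (((-1 : ℤ) : ℝ) * w none)
        (fun i => w (some i)) : Option κ → (Option κ → ℝ) → ℝ) i w) (fun o => o.elim t v)} := by
    funext v
    rw [Real.sInf_def]
    congr 2
    ext t
    simp only [Set.mem_neg, Set.mem_ofPred_eq, Option.elim_none, Option.elim_some]
    have : (fun o : Option κ => o.elim (-t) v) =
        fun i : Option κ => i.elim (((-1 : ℤ) : ℝ) * t) fun i => v i := by
      funext o
      cases o <;> simp
    rw [this]
  rw [h3]
  exact h2

/-- The points of `D` as a relation between the first coordinate and the others. -/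
theorem DS_fib64 {k : ℕ} {D : Set (Fin (k + 1) → ℝ)} (h : DS D) :
    U78.Df (fun w : Option (Fin k) → ℝ =>
      (Fin.cons (w none) (fun j => w (some j)) : Fin (k + 1) → ℝ) ∈ D) := by
  have h1 := h.comap (κ' := Option (Fin k)) (Fin.cons none (fun j => some j))
  refine h1.congr fun w => ?_
  have : (fun i => w ((Fin.cons none (fun j => some j) : Fin (k + 1) → Option (Fin k)) i)) =
      (Fin.cons (w none) (fun j => w (some j)) : Fin (k + 1) → ℝ) := by
    funext i
    refine Fin.cases ?_ (fun j => ?_) i
    · simp
    · simp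
  rw [this]

theorem DS.nonemptyFib {k : ℕ} {D : Set (Fin (k + 1) → ℝ)} (h : DS D) :
    DS {x : Fin k → ℝ | (fib D x).Nonempty} :=
  (DS_fib64 h).ex

theorem DF.fibSup {k : ℕ} {D : Set (Fin (k + 1) → ℝ)} (h : DS D) :
    DF (fun x : Fin k → ℝ => sSup (fib D x)) :=
  DF.dsup (DS_fib64 h)

theorem DF.fibInf {k : ℕ} {D : Set (Fin (k + 1) → ℝ)} (h : DS D) :
    DF (fun x : Fin k → ℝ => sInf (fib D x)) :=
  DF.dinf (DS_fib64 h)

theorem DF.tl {k : ℕ} {f : (Fin k → ℝ) → ℝ} (hf : DF f) :
    DF (fun z : Fin (k + 1) → ℝ => f (tl z)) := by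
  have h1 := U78.Df.comap (κ' := Option (Fin (k + 1))) hf (fun o => o.map Fin.succ)
  exact h1

theorem DS.tl {k : ℕ} {C : Set (Fin k → ℝ)} (hC : DS C) :
    DS {z : Fin (k + 1) → ℝ | WSP.tl z ∈ C} := by
  have h1 := U78.Df.comap (κ' := Fin (k + 1)) hC Fin.succ
  exact h1

end Pool.Agent.WSP
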