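import Pool.Agent.W_2cf66e_h23.DefsS

/-!
# MP_2cf66e_nt, THEOREM S, leaf L: a small rational function in the set (helper35)
-/

set_option autoImplicit false

noncomputable section

open MeasureTheory Set Filter Topology

namespace Pool.Agent.WSP

variable {n : ℕ}

/-- Evaluation through the polynomial in the first variable. -/
theorem aeval_cons35 (G : MvPolynomial (Fin (n + 1)) ℚ) (x : Fin n → ℝ) (t : ℝ) :
    (MvPolynomial.aeval (Fin.cons t x : Fin (n + 1) → ℝ) G : ℝ) =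
      (MvPolynomial.finSuccEquiv ℚ n G).eval₂
        (MvPolynomial.aeval x : MvPolynomial (Fin n) ℚ →ₐ[ℚ] ℝ).toRingHom t := by
  induction G using MvPolynomial.induction_on with
  | C a =>
    rw [MvPolynomial.aeval_C, MvPolynomial.finSuccEquiv_apply]
    simp
  | add p q hp hq => rw [map_add, map_add, Polynomial.eval₂_add, hp, hq]
  | mul_X p i hp =>
    rw [map_mul, map_mul, Polynomial.eval₂_mul, hp, MvPolynomial.aeval_X]
    congr 1
    refine Fin.cases ?_ (fun j => ?_) i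
    · rw [MvPolynomial.finSuccEquiv_X_zero]
      simp
    · rw [MvPolynomial.finSuccEquiv_X_succ]
      simp

/-- Between zeros of the polynomial membership is constant. -/
theorem pred35 (S : Set (Fin (n + 1) → ℝ)) (hS : Pool.Agent.CVol.IsSA S) :
    ∃ G : MvPolynomial (Fin (n + 1)) ℚ, G ≠ 0 ∧ ∀ (x : Fin n → ℝ) (t t' : ℝ), t ≤ t' →
      (∀ s ∈ Icc t t', (MvPolynomial.aeval (Fin.cons s x : Fin (n + 1) → ℝ) G : ℝ) ≠ 0) →
      ((Fin.cons t x : Fin (n + 1) → ℝ) ∈ S ↔ (Fin.cons t' x : Fin (n + 1) → ℝ) ∈ S) := by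
  induction hS with
  | pos p =>
    by_cases hp : p = 0
    · refine ⟨1, one_ne_zero, fun x t t' _ _ => ?_⟩
      simp [hp]
    · refine ⟨p, hp, fun x t t' htt h => ?_⟩
      have hc : Continuous fun s : ℝ =>
          (MvPolynomial.aeval (Fin.cons s x : Fin (n + 1) → ℝ) p : ℝ) := by
        have h1 : (fun s : ℝ => (MvPolynomial.aeval (Fin.cons s x : Fin (n + 1) → ℝ) p : ℝ)) =
            fun s => (sec p x).eval s := by
          funext s
          rw [sec_eval]
        rw [h1]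
        exact (sec p x).continuous
      have ht := h t (left_mem_Icc.2 htt)
      have ht' := h t' (right_mem_Icc.2 htt)
      simp only [mem_setOf_eq]
      constructor
      · intro h0
        by_contra h1
        obtain ⟨s, hs, hs'⟩ := intermediate_value_Icc' htt hc.continuousOn
          ⟨not_lt.1 h1, h0.le⟩
        exact h s hs hs'
      · intro h0
        by_contra h1
        obtain ⟨s, hs, hs'⟩ := intermediate_value_Icc htt hc.continuousOn
          ⟨not_lt.1 h1, h0.le⟩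
        exact h s hs hs'
  | compl _ ih =>
    obtain ⟨G, hG, h⟩ := ih
    exact ⟨G, hG, fun x t t' htt hs => not_congr (h x t t' htt hs)⟩
  | inter _ _ ih1 ih2 =>
    obtain ⟨G, hG, h⟩ := ih1
    obtain ⟨G', hG', h'⟩ := ih2
    refine ⟨G * G', mul_ne_zero hG hG', fun x t t' htt hs => ?_⟩
    refine and_congr (h x t t' htt fun s hs1 h0 => hs s hs1 ?_)
      (h' x t t' htt fun s hs1 h0 => hs s hs1 ?_)
    · rw [map_mul, h0, zero_mul]
    · rw [map_mul, h0, mul_zero]

theorem RF.aeval35 (p : MvPolynomial (Fin n) ℚ) :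
    RF (fun x : Fin n → ℝ => (MvPolynomial.aeval x p : ℝ)) :=
  ⟨p, 1, fun z => by simp, fun z => by simp⟩

/-- Evaluation as a sum. -/
theorem aeval_sum35 (G : MvPolynomial (Fin (n + 1)) ℚ) (x : Fin n → ℝ) (t : ℝ) :
    (MvPolynomial.aeval (Fin.cons t x : Fin (n + 1) → ℝ) G : ℝ) =
      ∑ i ∈ Finset.range ((MvPolynomial.finSuccEquiv ℚ n G).natDegree + 1),
        (MvPolynomial.aeval x ((MvPolynomial.finSuccEquiv ℚ n G).coeff i) : ℝ) * t ^ i := by
  rw [aeval_cons35, Polynomial.eval₂_eq_sum_range]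
  refine Finset.sum_congr rfl fun i _ => ?_
  rw [AlgHom.toRingHom_eq_coe, RingHom.coe_coe]

/-- No positive zero below the bound. -/
theorem poly_low35 (N m : ℕ) (hm : m ≤ N) (c : ℕ → ℝ) (hc : c m ≠ 0) (hz : ∀ i, i < m → c i = 0)
    (t : ℝ) (h0 : 0 < t)
    (h1 : t ≤ c m ^ 2 / ((1 + c m ^ 2) * (1 + ∑ i ∈ Finset.range (N + 1), (1 + c i ^ 2)))) :
    ∑ i ∈ Finset.range (N + 1), c i * t ^ i ≠ 0 := by
  intro hzero
  obtain ⟨B, hB⟩ : ∃ B : ℝ, B = ∑ i ∈ Finset.range (N + 1), (1 + c i ^ 2) := ⟨_, rfl⟩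
  rw [← hB] at h1
  have hBx : 0 ≤ B := by
    rw [hB]
    exact Finset.sum_nonneg fun i _ => by positivity
  have hc2 : 0 < c m ^ 2 := by positivity
  have hmem : m ∈ Finset.range (N + 1) := by
    rw [Finset.mem_range]
    omega
  rw [← Finset.add_sum_erase _ _ hmem] at hzero
  have h2 : t * (1 + B) ≤ c m ^ 2 / (1 + c m ^ 2) := by
    have h3 : c m ^ 2 / ((1 + c m ^ 2) * (1 + B)) * (1 + B) = c m ^ 2 / (1 + c m ^ 2) := by
      have : (1 + B) ≠ 0 := by positivity
      have : (1 + c m ^ 2) ≠ 0 := by positivity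
      field_simp
    rw [← h3]
    exact mul_le_mul_of_nonneg_right h1 (by positivity)
  have habs : |c m| ≤ 1 + c m ^ 2 := by
    rw [← sq_abs]
    nlinarith [sq_nonneg (|c m| - 1), abs_nonneg (c m)]
  have h3 : c m ^ 2 / (1 + c m ^ 2) ≤ |c m| := by
    rw [div_le_iff₀ (by positivity)]
    calc c m ^ 2 = |c m| * |c m| := by rw [← sq_abs, pow_two]
      _ ≤ |c m| * (1 + c m ^ 2) := mul_le_mul_of_nonneg_left habs (abs_nonneg _)
  have h4 : c m ^ 2 / (1 + c m ^ 2) ≤ 1 := by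
    rw [div_le_one (by positivity)]
    linarith
  have ht1 : t ≤ 1 := by nlinarith
  have h5 : |∑ i ∈ (Finset.range (N + 1)).erase m, c i * t ^ i| ≤ B * t ^ (m + 1) := by
    refine (Finset.abs_sum_le_sum_abs _ _).trans ?_
    have h6 : ∑ i ∈ (Finset.range (N + 1)).erase m, |c i * t ^ i| ≤
        ∑ i ∈ (Finset.range (N + 1)).erase m, (1 + c i ^ 2) * t ^ (m + 1) := by
      refine Finset.sum_le_sum fun i hi => ?_
      have hne : i ≠ m := Finset.ne_of_mem_erase hi
      rcases lt_or_gt_of_ne hne with hlt | hgt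
      · rw [hz i hlt]
        simp only [zero_mul, abs_zero]
        positivity
      · rw [abs_mul, abs_of_nonneg (pow_nonneg h0.le i)]
        have h8 : t ^ i ≤ t ^ (m + 1) := pow_le_pow_of_le_one h0.le ht1 (by omega)
        have h9 : |c i| ≤ 1 + c i ^ 2 := by
          rw [← sq_abs]
          nlinarith [sq_nonneg (|c i| - 1), abs_nonneg (c i)]
        exact mul_le_mul h9 h8 (by positivity) (by positivity)
    refine h6.trans ?_
    rw [← Finset.sum_mul, hB]
    refine mul_le_mul_of_nonneg_right ?_ (by positivity)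
    exact Finset.sum_le_sum_of_subset_of_nonneg (Finset.erase_subset _ _)
      fun i _ _ => by positivity
  have h6 : |c m| * t ^ m ≤ B * t ^ (m + 1) := by
    have h7 : c m * t ^ m = -∑ i ∈ (Finset.range (N + 1)).erase m, c i * t ^ i := by linarith
    have h8 : |c m| * t ^ m = |c m * t ^ m| := by
      rw [abs_mul, abs_of_nonneg (pow_nonneg h0.le m)]
    rw [h8, h7, abs_neg]
    exact h5
  have h7 : |c m| ≤ B * t := by
    have h8 : 0 < t ^ m := pow_pos h0 m
    rw [pow_succ] at h6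
    have h9 : |c m| * t ^ m ≤ (B * t) * t ^ m := by linarith
    exact le_of_mul_le_mul_right h9 h8
  have h8 : t * (1 + B) ≤ |c m| := h2.trans h3
  nlinarith

/-- A rational function below the first positive zero. -/
theorem low35 (G : MvPolynomial (Fin (n + 1)) ℚ) (hG : G ≠ 0) :
    ∃ ε : (Fin n → ℝ) → ℝ, RF ε ∧ ∀ᵐ x : Fin n → ℝ, 0 < ε x ∧
      ∀ t : ℝ, 0 < t → t ≤ ε x →
        (MvPolynomial.aeval (Fin.cons t x : Fin (n + 1) → ℝ) G : ℝ) ≠ 0 := by
  have hq0 : MvPolynomial.finSuccEquiv ℚ n G ≠ 0 := (EmbeddingLike.map_ne_zero_iff).2 hG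
  have hsum := aeval_sum35 G
  generalize MvPolynomial.finSuccEquiv ℚ n G = q at hq0 hsum
  obtain ⟨m, hm⟩ : ∃ m : ℕ, m = q.natTrailingDegree := ⟨_, rfl⟩
  have hcm : q.coeff m ≠ 0 := by
    have h1 : q.trailingCoeff ≠ 0 := fun h => hq0 (Polynomial.trailingCoeff_eq_zero.1 h)
    rw [hm]
    exact h1
  have hmN : m ≤ q.natDegree := by
    rw [hm]
    exact Polynomial.natTrailingDegree_le_natDegree q
  have hone : RF (fun _ : Fin n → ℝ => (1 : ℝ)) :=
    (RF.const (ι := Fin n) 1).congr fun z => by simp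
  have hcRF : ∀ i, RF (fun x : Fin n → ℝ => (MvPolynomial.aeval x (q.coeff i) : ℝ)) :=
    fun i => RF.aeval35 _
  have hBRF : RF (fun x : Fin n → ℝ => ∑ i ∈ Finset.range (q.natDegree + 1),
      (1 + (MvPolynomial.aeval x (q.coeff i) : ℝ) ^ 2)) :=
    RF.sum _ fun i => hone.add ((hcRF i).pow 2)
  refine ⟨fun x => (MvPolynomial.aeval x (q.coeff m) : ℝ) ^ 2 /
      ((1 + (MvPolynomial.aeval x (q.coeff m) : ℝ) ^ 2) *
        (1 + ∑ i ∈ Finset.range (q.natDegree + 1),
          (1 + (MvPolynomial.aeval x (q.coeff i) : ℝ) ^ 2))),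
    ((hcRF m).pow 2).div ((hone.add ((hcRF m).pow 2)).mul (hone.add hBRF)) (fun x => ?_), ?_⟩
  · have h1 : 0 ≤ ∑ i ∈ Finset.range (q.natDegree + 1),
        (1 + (MvPolynomial.aeval x (q.coeff i) : ℝ) ^ 2) :=
      Finset.sum_nonneg fun i _ => by positivity
    positivity
  have hae : ∀ᵐ x : Fin n → ℝ, (MvPolynomial.aeval x (q.coeff m) : ℝ) ≠ 0 := by
    rw [ae_iff]
    simp only [not_not]
    exact Pool.Agent.CVol.null_rat _ hcm
  filter_upwards [hae] with x hx
  constructor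
  · have h1 : 0 ≤ ∑ i ∈ Finset.range (q.natDegree + 1),
        (1 + (MvPolynomial.aeval x (q.coeff i) : ℝ) ^ 2) :=
      Finset.sum_nonneg fun i _ => by positivity
    positivity
  · intro t h0 h1
    rw [hsum x t]
    refine poly_low35 q.natDegree m hmN (fun i => (MvPolynomial.aeval x (q.coeff i) : ℝ)) hx
      (fun i hi => ?_) t h0 h1
    show (MvPolynomial.aeval x (q.coeff i) : ℝ) = 0
    rw [Polynomial.coeff_eq_zero_of_lt_natTrailingDegree (hm ▸ hi), map_zero]

/-- LEAF L -/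
theorem eps_lem (S : Set (Fin (n + 1) → ℝ)) (hS : Pool.Agent.CVol.IsSA S)
    (h : ∀ᵐ x : Fin n → ℝ, ∃ t₀ : ℝ, 0 < t₀ ∧ ∀ t : ℝ, 0 < t → t < t₀ →
      (Fin.cons t x : Fin (n + 1) → ℝ) ∈ S) :
    ∃ ε : (Fin n → ℝ) → ℝ, RF ε ∧ ∀ᵐ x : Fin n → ℝ, 0 < ε x ∧
      (Fin.cons (ε x) x : Fin (n + 1) → ℝ) ∈ S := by
  obtain ⟨G, hG, hconst⟩ := pred35 S hS
  obtain ⟨ε, hε, hlow⟩ := low35 G hG
  refine ⟨ε, hε, ?_⟩
  filter_upwards [h, hlow] with x hx hx2
  obtain ⟨t₀, ht₀, hin⟩ := hx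
  obtain ⟨hpos, hne⟩ := hx2
  refine ⟨hpos, ?_⟩
  set t := min (t₀ / 2) (ε x) with ht
  have h1 : 0 < t := lt_min (by positivity) hpos
  have h2 : t < t₀ := lt_of_le_of_lt (min_le_left _ _) (by linarith)
  have h3 : t ≤ ε x := min_le_right _ _
  exact (hconst x t (ε x) h3 fun s hs => hne s (h1.trans_le hs.1) hs.2).1 (hin t h1 h2)

end Pool.Agent.WSP
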