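import Pool.Agent.W_2cf66e_h23.DefsU

/-!
# MP_2cf66e_nt: Fubini for regions and null sets (leaf A10, helper6)
-/

set_option autoImplicit false

noncomputable section

open MeasureTheory Set Filter Topology

namespace Pool.Agent.WSP

private theorem meas_cons6 (k : ℕ) : Measurable fun z : ℝ × (Fin k → ℝ) =>
    (Fin.cons z.1 z.2 : Fin (k + 1) → ℝ) := by
  refine measurable_pi_lambda _ fun i => ?_
  refine Fin.cases ?_ (fun j => ?_) i
  · simpa using measurable_fst
  · have h : Measurable fun z : ℝ × (Fin k → ℝ) => z.2 j :=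
      (measurable_pi_apply j).comp measurable_snd
    simpa using h

/-- Tonelli, the first coordinate inside. -/
private theorem lint_all6 {k : ℕ} {f : (Fin (k + 1) → ℝ) → ENNReal} (hf : Measurable f) :
    ∫⁻ z, f z = ∫⁻ x : Fin k → ℝ, ∫⁻ y : ℝ, f (Fin.cons y x) := by
  have h1 := (volume_preserving_piFinSuccAbove (fun _ : Fin (k + 1) => ℝ) 0).symm
  rw [← h1.lintegral_comp_emb (MeasurableEquiv.measurableEmbedding _)]
  have h2 : ∀ z : ℝ × (Fin k → ℝ),
      (MeasurableEquiv.piFinSuccAbove (fun _ : Fin (k + 1) => ℝ) 0).symm z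
        = Fin.cons z.1 z.2 := by
    intro z
    have h3 : ((MeasurableEquiv.piFinSuccAbove (fun _ : Fin (k + 1) => ℝ) 0).symm z
        : Fin (k + 1) → ℝ) = Fin.insertNth 0 z.1 z.2 := rfl
    rw [h3, Fin.insertNth_zero']
  simp_rw [h2]
  rw [Measure.volume_eq_prod]
  exact lintegral_prod_symm' _ (hf.comp (meas_cons6 k))

theorem lint_fub {k : ℕ} {H : Set (Fin (k + 1) → ℝ)} (hH : MeasurableSet H)
    {f : (Fin (k + 1) → ℝ) → ENNReal} (hf : Measurable f) :
    ∫⁻ z in H, f z = ∫⁻ x : Fin k → ℝ, ∫⁻ y in fib H x, f (Fin.cons y x) := by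
  rw [← lintegral_indicator hH, lint_all6 (hf.indicator hH)]
  refine lintegral_congr fun x => ?_
  have h1 : Measurable fun y : ℝ => (Fin.cons y x : Fin (k + 1) → ℝ) :=
    (meas_cons6 k).comp (measurable_id.prodMk measurable_const)
  have h2 : MeasurableSet (fib H x) := h1 hH
  rw [← lintegral_indicator h2]
  rfl

theorem null_over {k : ℕ} {C : Set (Fin k → ℝ)} (hC : volume C = 0) :
    volume {z : Fin (k + 1) → ℝ | tl z ∈ C} = 0 := by
  obtain ⟨C', h1, h2, h3⟩ := exists_measurable_superset_of_null hC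
  have hm : Measurable fun z : Fin (k + 1) → ℝ => tl z :=
    measurable_pi_lambda _ fun j => measurable_pi_apply _
  have h4 : MeasurableSet {z : Fin (k + 1) → ℝ | tl z ∈ C'} := hm h2
  refine measure_mono_null (t := {z : Fin (k + 1) → ℝ | tl z ∈ C'}) (fun z hz => h1 hz) ?_
  have h5 : volume {z : Fin (k + 1) → ℝ | tl z ∈ C'}
      = ∫⁻ z in {z : Fin (k + 1) → ℝ | tl z ∈ C'}, (1 : ENNReal) := by
    rw [lintegral_const, one_mul, Measure.restrict_apply_univ]
  rw [h5, lint_fub h4 measurable_const]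
  have h6 : ∀ x : Fin k → ℝ, ∫⁻ _ in fib {z : Fin (k + 1) → ℝ | tl z ∈ C'} x, (1 : ENNReal)
      = C'.indicator (fun _ => (volume (Set.univ : Set ℝ))) x := by
    intro x
    by_cases hx : x ∈ C'
    · rw [Set.indicator_of_mem hx]
      have h7 : fib {z : Fin (k + 1) → ℝ | tl z ∈ C'} x = Set.univ := by
        ext y
        simp only [fib, mem_ofPred_eq, mem_univ, iff_true]
        have h8 : tl (Fin.cons y x : Fin (k + 1) → ℝ) = x := by
          funext j
          simp [tl]
        rw [h8]
        exact hx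
      rw [h7]
      simp
    · rw [Set.indicator_of_notMem hx]
      have h7 : fib {z : Fin (k + 1) → ℝ | tl z ∈ C'} x = ∅ := by
        ext y
        simp only [fib, mem_ofPred_eq, mem_empty_iff_false, iff_false]
        have h8 : tl (Fin.cons y x : Fin (k + 1) → ℝ) = x := by
          funext j
          simp [tl]
        rw [h8]
        exact hx
      rw [h7]
      simp
  simp_rw [h6]
  rw [lintegral_indicator h2, lintegral_const, Measure.restrict_apply_univ, h3, mul_zero]

theorem null_graph {k : ℕ} {c : (Fin k → ℝ) → ℝ} (hc : Measurable c) :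
    volume {z : Fin (k + 1) → ℝ | z 0 = c (tl z)} = 0 := by
  have hm : Measurable fun z : Fin (k + 1) → ℝ => tl z :=
    measurable_pi_lambda _ fun j => measurable_pi_apply _
  have h4 : MeasurableSet {z : Fin (k + 1) → ℝ | z 0 = c (tl z)} :=
    measurableSet_eq_fun (measurable_pi_apply 0) (hc.comp hm)
  have h5 : volume {z : Fin (k + 1) → ℝ | z 0 = c (tl z)}
      = ∫⁻ z in {z : Fin (k + 1) → ℝ | z 0 = c (tl z)}, (1 : ENNReal) := by
    rw [lintegral_const, one_mul, Measure.restrict_apply_univ]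
  rw [h5, lint_fub h4 measurable_const]
  have h6 : ∀ x : Fin k → ℝ,
      ∫⁻ _ in fib {z : Fin (k + 1) → ℝ | z 0 = c (tl z)} x, (1 : ENNReal) = 0 := by
    intro x
    have h7 : fib {z : Fin (k + 1) → ℝ | z 0 = c (tl z)} x = {c x} := by
      ext y
      simp only [fib, mem_ofPred_eq, mem_singleton_iff, Fin.cons_zero]
      have h8 : tl (Fin.cons y x : Fin (k + 1) → ℝ) = x := by
        funext j
        simp [tl]
      rw [h8]
    rw [h7]
    simp
  simp_rw [h6]
  simp

end Pool.Agent.WSP
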