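import Pool.Agent.W_2cf66e_h23.LuA2a

/-!
# MP_2cf66e_nt, S+: leaf A2, second part (helper64): composition with `Fin.cons`
-/

set_option autoImplicit false

noncomputable section

open MeasureTheory Set Filter Topology

namespace Pool.Agent.WSP

/-- Substitution of definable functions. -/
theorem substF64 {κ κ' : Type} [Finite κ] [Countable κ'] {P : (κ → ℝ) → Prop} (h : U78.Df P)
    {g : κ → (κ' → ℝ) → ℝ} (hg : ∀ i, DF (g i)) : U78.Df (fun v => P (fun i => g i v)) := by
  obtain ⟨n, ⟨e⟩⟩ := Finite.exists_equiv_fin κ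
  have h1 : ∀ i : κ, U78.Df (fun w : κ' ⊕ Fin n → ℝ => w (Sum.inr (e i)) =
      g i (fun j => w (Sum.inl j))) := fun i =>
    U78.Df.comap (κ' := κ' ⊕ Fin n) (hg i) (fun o => o.elim (Sum.inr (e i)) (fun j => Sum.inl j))
  have h2 := h.comap (κ' := κ' ⊕ Fin n) (fun i => Sum.inr (e i))
  refine ((U78.Df.forall_fin h1).and h2).exV.congr fun v => ?_
  simp only [Sum.elim_inr, Sum.elim_inl]
  constructor
  · rintro ⟨u, hu, h3⟩
    have : (fun i => u (e i)) = fun i => g i v := by
      funext i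
      exact hu i
    rwa [this] at h3
  · intro h3
    refine ⟨fun j => g (e.symm j) v, fun i => ?_, ?_⟩
    · simp only [Equiv.symm_apply_apply]
    · simp only [Equiv.symm_apply_apply]
      exact h3

theorem DF_comp64 {κ κ' : Type} [Finite κ] [Countable κ'] {f : (κ → ℝ) → ℝ} (hf : DF f)
    {g : κ → (κ' → ℝ) → ℝ} (hg : ∀ i, DF (g i)) : DF (fun v => f (fun i => g i v)) := by
  have h1 := substF64 (κ := Option κ) (κ' := Option κ') hf
    (g := fun o w => o.elim (w none) (fun i => g i (fun j => w (some j)))) (by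
      rintro (_ | i)
      · exact U78.Df.eq (U78.PolyFun.var none) (U78.PolyFun.var (some none))
      · exact U78.Df.comap (κ' := Option (Option κ')) (hg i)
          (fun o => o.elim none (fun j => some (some j))))
  exact h1

/-- composition with `Fin.cons` -/
theorem DF.cons {k m : ℕ} {f : (Fin (k + 1) → ℝ) → ℝ} (hf : DF f) {y : (Fin m → ℝ) → ℝ}
    (hy : DF y) {x : (Fin m → ℝ) → Fin k → ℝ} (hx : ∀ j, DF fun z => x z j) :
    DF (fun z => f (Fin.cons (y z) (x z))) := by
  have h1 := DF_comp64 hf (g := fun i z => (Fin.cons (y z) (x z) : Fin (k + 1) → ℝ) i) (by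
    intro i
    refine Fin.cases ?_ (fun j => ?_) i
    · exact hy
    · exact hx j)
  exact h1

theorem DS.cons {k m : ℕ} {D : Set (Fin (k + 1) → ℝ)} (hD : DS D) {y : (Fin m → ℝ) → ℝ}
    (hy : DF y) {x : (Fin m → ℝ) → Fin k → ℝ} (hx : ∀ j, DF fun z => x z j) :
    DS {z | (Fin.cons (y z) (x z) : Fin (k + 1) → ℝ) ∈ D} := by
  have h1 := substF64 (P := fun v => v ∈ D) hD
    (g := fun i z => (Fin.cons (y z) (x z) : Fin (k + 1) → ℝ) i) (by
    intro i
    refine Fin.cases ?_ (fun j => ?_) i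
    · exact hy
    · exact hx j)
  exact h1

end Pool.Agent.WSP
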