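import Pool.Agent.W_2cf66e_h23.DefsU

/-!
# MP_2cf66e_nt, bounded sets in the same dimension: growth of definable functions (helper3)
-/

set_option autoImplicit false

noncomputable section

open MeasureTheory Set Filter Topology

namespace Pool.Agent.WSP

open Pool.Agent.W_MP_25fb88_lc

/-- A nonzero polynomial of degree at most `D` is at least `κ v ^ D` for small positive `v`. -/
theorem low3 (L : Polynomial ℝ) (hL : L ≠ 0) (D : ℕ) (hD : L.natDegree ≤ D) :
    ∃ c κ : ℝ, 0 < c ∧ c ≤ 1 ∧ 0 < κ ∧ ∀ v : ℝ, 0 < v → v < c → κ * v ^ D ≤ |L.eval v| := by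
  obtain ⟨q, hq, hq0⟩ := Polynomial.exists_eq_pow_rootMultiplicity_mul_and_not_dvd L hL 0
  rw [Polynomial.C_0, sub_zero] at hq hq0
  set r := L.rootMultiplicity 0 with hr
  have hrD : r ≤ D := by
    have e := Polynomial.natDegree_le_of_dvd (Dvd.intro q hq.symm) hL
    rw [Polynomial.natDegree_X_pow] at e
    exact e.trans hD
  have h0 : q.eval 0 ≠ 0 := by
    intro h
    apply hq0
    rw [Polynomial.X_dvd_iff, Polynomial.coeff_zero_eq_eval_zero, h]
  have hc : Tendsto (fun v : ℝ => |q.eval v|) (𝓝 0) (𝓝 |q.eval 0|) :=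
    (q.continuous.abs).tendsto 0
  have hpos : 0 < |q.eval 0| := abs_pos.2 h0
  have h1 : ∀ᶠ v : ℝ in 𝓝 0, |q.eval 0| / 2 < |q.eval v| :=
    hc.eventually (lt_mem_nhds (by linarith))
  obtain ⟨δ, hδ, h2⟩ := Metric.eventually_nhds_iff.1 h1
  refine ⟨min δ 1, |q.eval 0| / 2, lt_min hδ one_pos, min_le_right _ _, by linarith, ?_⟩
  intro v hv hvc
  have hvd : v < δ := hvc.trans_le (min_le_left _ _)
  have hv1 : v < 1 := hvc.trans_le (min_le_right _ _)
  have h3 := h2 (y := v) (by rw [Real.dist_eq, sub_zero, abs_of_pos hv]; exact hvd)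
  have h4 : L.eval v = v ^ r * q.eval v := by
    conv_lhs => rw [hq]
    rw [Polynomial.eval_mul, Polynomial.eval_pow, Polynomial.eval_X]
  rw [h4, abs_mul, abs_of_pos (pow_pos hv r), mul_comm]
  exact mul_le_mul (pow_le_pow_of_le_one hv.le hv1.le hrD) h3.le (by linarith) (pow_pos hv r).le

/-- A polynomial is bounded on `(0,1)`. -/
theorem bdd3 (p : Polynomial ℝ) : ∃ B : ℝ, 0 ≤ B ∧ ∀ v : ℝ, 0 < v → v < 1 → |p.eval v| ≤ B := by
  refine ⟨∑ i ∈ Finset.range (p.natDegree + 1), |p.coeff i|,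
    Finset.sum_nonneg fun i _ => abs_nonneg _, fun v h0 h1 => ?_⟩
  rw [Polynomial.eval_eq_sum_range]
  refine (Finset.abs_sum_le_sum_abs _ _).trans (Finset.sum_le_sum fun i _ => ?_)
  rw [abs_mul, abs_of_pos (pow_pos h0 i)]
  exact mul_le_of_le_one_right (abs_nonneg _) (pow_le_one₀ h0.le h1.le)

/-- The sign of a polynomial in two variables for `t > v ^ -(D + 1)` does not depend on `t`. -/
theorem sign3 (q : Polynomial (Polynomial ℝ)) (D : ℕ) (hD : ∀ i, (q.coeff i).natDegree ≤ D) :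
    ∃ c : ℝ, 0 < c ∧ ∀ v : ℝ, 0 < v → v < c → ∀ t : ℝ, (v ^ (D + 1))⁻¹ < t →
      (0 < q.evalEval v t ↔ 0 < q.leadingCoeff.eval v) := by
  classical
  by_cases hq : q = 0
  · refine ⟨1, one_pos, fun v _ _ t _ => ?_⟩
    rw [hq]
    simp [Polynomial.evalEval]
  have hL : q.leadingCoeff ≠ 0 := Polynomial.leadingCoeff_ne_zero.2 hq
  obtain ⟨c, κ, hc, hc1, hκ, h1⟩ := low3 q.leadingCoeff hL D (hD _)
  choose B hB0 hB using fun i => bdd3 (q.coeff i)
  set n := q.natDegree with hn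
  obtain ⟨S, hS⟩ : ∃ S : ℝ, S = ∑ i ∈ Finset.range n, B i := ⟨_, rfl⟩
  have hS0 : 0 ≤ S := by
    rw [hS]
    exact Finset.sum_nonneg fun i _ => hB0 i
  refine ⟨min c (κ / (S + 1)), lt_min hc (by positivity), fun v hv hvc t ht => ?_⟩
  have hvc1 : v < c := hvc.trans_le (min_le_left _ _)
  have hv1 : v < 1 := hvc1.trans_le hc1
  have hvk : v < κ / (S + 1) := hvc.trans_le (min_le_right _ _)
  have hvk2 : S * v < κ := by
    rw [lt_div_iff₀ (by linarith)] at hvk
    nlinarith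
  have hpow : 0 < v ^ (D + 1) := pow_pos hv _
  have ht1 : 1 ≤ t := by
    have : 1 ≤ (v ^ (D + 1))⁻¹ := by
      rw [one_le_inv₀ hpow]
      exact pow_le_one₀ hv.le hv1.le
    linarith
  have ht0 : 0 < t := by linarith
  have htv : t⁻¹ < v ^ (D + 1) := by
    rw [inv_lt_comm₀ ht0 hpow]
    exact ht
  have hE : q.evalEval v t = (∑ i ∈ Finset.range n, (q.coeff i).eval v * t ^ i) +
      q.leadingCoeff.eval v * t ^ n := by
    unfold Polynomial.evalEval
    rw [Polynomial.eval_eq_sum_range (p := q) (Polynomial.C t), Finset.sum_range_succ,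
      Polynomial.eval_add, Polynomial.eval_finset_sum]
    simp only [Polynomial.eval_mul, Polynomial.eval_pow, Polynomial.eval_C, ← hn,
      Polynomial.leadingCoeff]
  have hR : |∑ i ∈ Finset.range n, (q.coeff i).eval v * t ^ i| ≤ S * (t ^ n * t⁻¹) := by
    rw [hS, Finset.sum_mul]
    refine (Finset.abs_sum_le_sum_abs _ _).trans (Finset.sum_le_sum fun i hi => ?_)
    rw [abs_mul, abs_of_pos (pow_pos ht0 i)]
    refine mul_le_mul (hB i v hv hv1) ?_ (pow_pos ht0 i).le (hB0 i)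
    have hi' : i + 1 ≤ n := Finset.mem_range.1 hi
    rw [← div_eq_mul_inv, le_div_iff₀ ht0, ← pow_succ]
    exact pow_le_pow_right₀ ht1 hi'
  have hLv := h1 v hv hvc1
  have hkey : S * (t ^ n * t⁻¹) < |q.leadingCoeff.eval v| * t ^ n := by
    have e1 : S * t⁻¹ < |q.leadingCoeff.eval v| := by
      have e2 : S * t⁻¹ ≤ S * v ^ (D + 1) := mul_le_mul_of_nonneg_left htv.le hS0
      have e3 : S * v ^ (D + 1) = (S * v) * v ^ D := by ring
      have e4 : (S * v) * v ^ D < κ * v ^ D := mul_lt_mul_of_pos_right hvk2 (pow_pos hv D)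
      linarith
    have e5 := mul_lt_mul_of_pos_right e1 (pow_pos ht0 n)
    calc S * (t ^ n * t⁻¹) = S * t⁻¹ * t ^ n := by ring
      _ < _ := e5
  rw [hE]
  have hR2 := abs_le.1 hR
  have htn : 0 < t ^ n := pow_pos ht0 n
  constructor
  · intro h
    by_contra h3
    push Not at h3
    rw [abs_of_nonpos h3] at hkey
    linarith [hR2.2]
  · intro h
    rw [abs_of_pos h] at hkey
    linarith [hR2.1]

/-- The point with the coordinates `v` and `t`. -/
def pt3 (a b : ℕ) (m : ℕ → ℝ) (v t : ℝ) : ℕ → ℝ := fun i => if i = a then v else if i = b then t else m i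

/-- A polynomial function as a polynomial in two of its variables. -/
theorem two3 (a b : ℕ) (e : ℝ) (p : MvPolynomial ℕ ℤ) : ∃ D : ℕ, ∀ m : ℕ → ℝ,
    ∃ q : Polynomial (Polynomial ℝ), (∀ i, (q.coeff i).natDegree ≤ D) ∧
      ∀ v t : ℝ, q.evalEval v t = MvPolynomial.aeval (pt3 a b m v (e * t)) p := by
  induction p using MvPolynomial.induction_on with
  | C z =>
    refine ⟨0, fun m => ⟨Polynomial.C (Polynomial.C (z : ℝ)), fun i => ?_, fun v t => ?_⟩⟩
    · rw [Polynomial.coeff_C]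
      split_ifs
      · simp
      · simp
    · simp [Polynomial.evalEval]
  | add p1 p2 h1 h2 =>
    obtain ⟨D1, h1⟩ := h1
    obtain ⟨D2, h2⟩ := h2
    refine ⟨max D1 D2, fun m => ?_⟩
    obtain ⟨q1, e1, f1⟩ := h1 m
    obtain ⟨q2, e2, f2⟩ := h2 m
    refine ⟨q1 + q2, fun i => ?_, fun v t => ?_⟩
    · rw [Polynomial.coeff_add]
      exact (Polynomial.natDegree_add_le _ _).trans (max_le_max (e1 i) (e2 i))
    · rw [map_add, ← f1, ← f2]
      simp [Polynomial.evalEval]
  | mul_X p j h =>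
    obtain ⟨D, h⟩ := h
    refine ⟨D + 1, fun m => ?_⟩
    obtain ⟨q, e1, f1⟩ := h m
    by_cases hja : j = a
    · refine ⟨q * Polynomial.C Polynomial.X, fun i => ?_, fun v t => ?_⟩
      · rw [Polynomial.coeff_mul_C]
        refine Polynomial.natDegree_mul_le.trans ?_
        rw [Polynomial.natDegree_X]
        exact Nat.add_le_add_right (e1 i) 1
      · rw [map_mul, ← f1, MvPolynomial.aeval_X]
        simp [Polynomial.evalEval, pt3, hja]
    by_cases hjb : j = b
    · refine ⟨q * (Polynomial.C (Polynomial.C e) * Polynomial.X), fun i => ?_, fun v t => ?_⟩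
      · rw [← mul_assoc]
        cases i with
        | zero =>
          rw [Polynomial.coeff_mul_X_zero]
          simp
        | succ i =>
          rw [Polynomial.coeff_mul_X, Polynomial.coeff_mul_C]
          refine (Polynomial.natDegree_mul_C_le _ _).trans ?_
          exact (e1 i).trans (Nat.le_succ D)
      · rw [map_mul, ← f1, MvPolynomial.aeval_X]
        simp only [Polynomial.evalEval, pt3, hja, hjb, if_false, if_true, Polynomial.eval_mul,
          Polynomial.eval_C, Polynomial.eval_X]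
        have hba : ¬ b = a := fun h => hja (hjb.trans h)
        rw [if_neg hba]
    · refine ⟨q * Polynomial.C (Polynomial.C (m j)), fun i => ?_, fun v t => ?_⟩
      · rw [Polynomial.coeff_mul_C]
        refine (Polynomial.natDegree_mul_C_le _ _).trans ?_
        exact (e1 i).trans (Nat.le_succ D)
      · rw [map_mul, ← f1, MvPolynomial.aeval_X]
        simp [Polynomial.evalEval, pt3, hja, hjb]

/-- Membership in a semialgebraic set does not depend on `t` for `t > v ^ -s`. -/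
theorem mem3 (a b : ℕ) (e : ℝ) {S : Set (ℕ → ℝ)} (hS : SA S) : ∃ s : ℕ, ∀ m : ℕ → ℝ, ∃ c : ℝ,
    0 < c ∧ ∀ v : ℝ, 0 < v → v < c → ∀ t t' : ℝ, (v ^ s)⁻¹ < t → (v ^ s)⁻¹ < t' →
      (pt3 a b m v (e * t) ∈ S ↔ pt3 a b m v (e * t') ∈ S) := by
  induction hS with
  | pos p =>
    obtain ⟨D, h⟩ := two3 a b e p
    refine ⟨D + 1, fun m => ?_⟩
    obtain ⟨q, h1, h2⟩ := h m
    obtain ⟨c, hc, h3⟩ := sign3 q D h1
    refine ⟨c, hc, fun v hv hvc t t' ht ht' => ?_⟩
    simp only [Set.mem_ofPred_eq]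
    rw [← h2, ← h2, h3 v hv hvc t ht, h3 v hv hvc t' ht']
  | compl _ ih =>
    obtain ⟨s, h⟩ := ih
    refine ⟨s, fun m => ?_⟩
    obtain ⟨c, hc, h1⟩ := h m
    exact ⟨c, hc, fun v hv hvc t t' ht ht' => not_congr (h1 v hv hvc t t' ht ht')⟩
  | inter _ _ ih1 ih2 =>
    obtain ⟨s1, h1⟩ := ih1
    obtain ⟨s2, h2⟩ := ih2
    refine ⟨max s1 s2, fun m => ?_⟩
    obtain ⟨c1, hc1, h1⟩ := h1 m
    obtain ⟨c2, hc2, h2⟩ := h2 m
    refine ⟨min (min c1 c2) 1, lt_min (lt_min hc1 hc2) one_pos, fun v hv hvc t t' ht ht' => ?_⟩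
    have hv1 : v < 1 := hvc.trans_le (min_le_right _ _)
    have hvc1 : v < c1 := hvc.trans_le ((min_le_left _ _).trans (min_le_left _ _))
    have hvc2 : v < c2 := hvc.trans_le ((min_le_left _ _).trans (min_le_right _ _))
    have g1 : (v ^ s1)⁻¹ ≤ (v ^ max s1 s2)⁻¹ :=
      inv_anti₀ (pow_pos hv _) (pow_le_pow_of_le_one hv.le hv1.le (le_max_left _ _))
    have g2 : (v ^ s2)⁻¹ ≤ (v ^ max s1 s2)⁻¹ :=
      inv_anti₀ (pow_pos hv _) (pow_le_pow_of_le_one hv.le hv1.le (le_max_right _ _))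
    exact and_congr (h1 v hv hvc1 t t' (g1.trans_lt ht) (g1.trans_lt ht'))
      (h2 v hv hvc2 t t' (g2.trans_lt ht) (g2.trans_lt ht'))

/-- **Growth.** A definable function grows at most like a power. -/
theorem growth {k : ℕ} (g : (Fin (k + 1) → ℝ) → ℝ) (hg : DF g) :
    ∃ s : ℕ, ∀ x : Fin k → ℝ, ∃ c : ℝ, 0 < c ∧ ∀ v : ℝ, 0 < v → v < c →
      |g (Fin.cons v x)| ≤ (v ^ s)⁻¹ := by
  obtain ⟨f, hf, hS⟩ := hg
  obtain ⟨s1, h1⟩ := mem3 (f (some 0)) (f none) 1 hS
  obtain ⟨s2, h2⟩ := mem3 (f (some 0)) (f none) (-1) hS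
  refine ⟨max s1 s2, fun x => ?_⟩
  obtain ⟨m, hm⟩ : ∃ m : ℕ → ℝ, ∀ j : Fin k, m (f (some j.succ)) = x j := by
    refine ⟨Function.extend f (fun o => o.elim 0 (Fin.cons 0 x)) 0, fun j => ?_⟩
    rw [hf.extend_apply]
    simp
  have hpt : ∀ v t : ℝ, (fun i => pt3 (f (some 0)) (f none) m v t (f (some i))) =
      (Fin.cons v x : Fin (k + 1) → ℝ) := by
    intro v t
    funext i
    refine Fin.cases ?_ (fun j => ?_) i
    · simp [pt3]
    · have e1 : f (some j.succ) ≠ f (some 0) := by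
        intro h
        have := hf h
        simp at this
      have e2 : f (some j.succ) ≠ f none := by
        intro h
        have := hf h
        simp at this
      simp [pt3, e1, e2, hm]
  have hpn : ∀ v t : ℝ, pt3 (f (some 0)) (f none) m v t (f none) = t := by
    intro v t
    have e1 : f none ≠ f (some 0) := by
      intro h
      have := hf h
      simp at this
    simp [pt3, e1]
  have hmem : ∀ v t : ℝ, pt3 (f (some 0)) (f none) m v t ∈
      {m : ℕ → ℝ | (fun v : Option (Fin (k + 1)) → ℝ => v none = g (fun i => v (some i)))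
        (fun i => m (f i))} ↔ t = g (Fin.cons v x) := by
    intro v t
    show pt3 (f (some 0)) (f none) m v t (f none) =
      g (fun i => pt3 (f (some 0)) (f none) m v t (f (some i))) ↔ _
    rw [hpt, hpn]
  obtain ⟨c1, hc1, h1⟩ := h1 m
  obtain ⟨c2, hc2, h2⟩ := h2 m
  refine ⟨min (min c1 c2) 1, lt_min (lt_min hc1 hc2) one_pos, fun v hv hvc => ?_⟩
  have hv1 : v < 1 := hvc.trans_le (min_le_right _ _)
  have hvc1 : v < c1 := hvc.trans_le ((min_le_left _ _).trans (min_le_left _ _))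
  have hvc2 : v < c2 := hvc.trans_le ((min_le_left _ _).trans (min_le_right _ _))
  have g1 : (v ^ s1)⁻¹ ≤ (v ^ max s1 s2)⁻¹ :=
    inv_anti₀ (pow_pos hv _) (pow_le_pow_of_le_one hv.le hv1.le (le_max_left _ _))
  have g2 : (v ^ s2)⁻¹ ≤ (v ^ max s1 s2)⁻¹ :=
    inv_anti₀ (pow_pos hv _) (pow_le_pow_of_le_one hv.le hv1.le (le_max_right _ _))
  by_contra hcon
  push Not at hcon
  rcases lt_abs.1 hcon with h3 | h3
  · have e1 := h1 v hv hvc1 (g (Fin.cons v x)) (g (Fin.cons v x) + 1) (g1.trans_lt h3)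
      ((g1.trans_lt h3).trans (by linarith))
    rw [hmem, hmem, one_mul, one_mul] at e1
    have e2 := e1.1 rfl
    linarith
  · have e1 := h2 v hv hvc2 (-g (Fin.cons v x)) (-g (Fin.cons v x) + 1) (g2.trans_lt h3)
      ((g2.trans_lt h3).trans (by linarith))
    rw [hmem, hmem] at e1
    have e2 := e1.1 (by ring)
    linarith

end Pool.Agent.WSP
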