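import Pool.Agent.W_2cf66e_h23.DefsU
import Pool.Agent.W_2cf66e_h23.LuA1
import Pool.Agent.W_2cf66e_h23.LuA2
import Pool.Agent.W_2cf66e_h23.LuA10

/-!
# MP_2cf66e_nt, S+: leaf A9 (helper88): lifting a transport by `y = c s ^ K`
-/

set_option autoImplicit false

noncomputable section

open MeasureTheory Set Filter Topology

namespace Pool.Agent.WSP

/-- one-variable change of variables `s ↦ c s ^ K` -/
theorem cvK88 {c : ℝ} (hc : 0 < c) {K : ℕ} (hK : 0 < K) {T : Set ℝ} (hT : MeasurableSet T)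
    (hTc : T ⊆ Ioo 0 c) (f : ℝ → ENNReal) :
    ∫⁻ y in T, f y = ∫⁻ s in {s : ℝ | 0 < s ∧ s < 1 ∧ c * s ^ K ∈ T},
      f (c * s ^ K) * ENNReal.ofReal (c * K * s ^ (K - 1)) := by
  have hm : MeasurableSet {s : ℝ | 0 < s ∧ s < 1 ∧ c * s ^ K ∈ T} := by
    have h1 : Measurable fun s : ℝ => c * s ^ K := by fun_prop
    exact (measurableSet_lt measurable_const measurable_id).inter
      ((measurableSet_lt measurable_id measurable_const).inter (h1 hT))
  have him : (fun s : ℝ => c * s ^ K) '' {s : ℝ | 0 < s ∧ s < 1 ∧ c * s ^ K ∈ T} = T := by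
    ext y
    constructor
    · rintro ⟨s, hs, rfl⟩
      exact hs.2.2
    · intro hy
      have hy1 := hTc hy
      have hyc : 0 < y / c := div_pos hy1.1 hc
      have hyc1 : y / c < 1 := (div_lt_one hc).2 hy1.2
      have hpow : ((y / c) ^ ((K : ℝ)⁻¹)) ^ K = y / c := Real.rpow_inv_natCast_pow hyc.le hK.ne'
      have hs0 : 0 < (y / c) ^ ((K : ℝ)⁻¹) := Real.rpow_pos_of_pos hyc _
      have heq : c * ((y / c) ^ ((K : ℝ)⁻¹)) ^ K = y := by
        rw [hpow]; field_simp
      refine ⟨(y / c) ^ ((K : ℝ)⁻¹), ⟨hs0, ?_, ?_⟩, heq⟩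
      · by_contra hcon
        push Not at hcon
        have h2 := one_le_pow₀ hcon (n := K)
        rw [hpow] at h2
        linarith
      · rw [heq]; exact hy
  have hder : ∀ s ∈ {s : ℝ | 0 < s ∧ s < 1 ∧ c * s ^ K ∈ T},
      HasDerivWithinAt (fun s : ℝ => c * s ^ K) (c * (K * s ^ (K - 1)))
        {s : ℝ | 0 < s ∧ s < 1 ∧ c * s ^ K ∈ T} s := by
    intro s _
    exact ((hasDerivAt_pow K s).const_mul c).hasDerivWithinAt
  have hinj : InjOn (fun s : ℝ => c * s ^ K) {s : ℝ | 0 < s ∧ s < 1 ∧ c * s ^ K ∈ T} := by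
    intro s hs t ht hst
    have h3 : s ^ K = t ^ K := mul_left_cancel₀ hc.ne' hst
    exact (pow_left_inj₀ hs.1.le ht.1.le hK.ne').1 h3
  conv_lhs => rw [← him]
  rw [lintegral_image_eq_lintegral_abs_deriv_mul hm hder hinj]
  refine setLIntegral_congr_fun hm fun s hs => ?_
  have h4 : 0 ≤ c * (K * s ^ (K - 1)) := by
    have := hs.1.le
    positivity
  rw [abs_of_nonneg h4, mul_comm, mul_assoc]

theorem tlcons88 {k : ℕ} (y : ℝ) (x : Fin k → ℝ) : tl (Fin.cons y x : Fin (k + 1) → ℝ) = x := by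
  funext j; simp [tl]

theorem meas_cons88 {k : ℕ} : Measurable fun p : (Fin k → ℝ) × ℝ => (Fin.cons p.2 p.1 : Fin (k + 1) → ℝ) := by
  refine measurable_pi_iff.2 fun i => ?_
  refine Fin.cases ?_ (fun j => ?_) i
  · simpa using measurable_snd
  · simp only [Fin.cons_succ]
    exact (measurable_pi_apply j).comp measurable_fst

theorem meas_fib88 {k : ℕ} {H : Set (Fin (k + 1) → ℝ)} (hH : MeasurableSet H) (x : Fin k → ℝ) :
    MeasurableSet (fib H x) := by
  have h1 : Measurable fun y : ℝ => (Fin.cons y x : Fin (k + 1) → ℝ) :=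
    meas_cons88.comp (measurable_const.prodMk measurable_id)
  exact h1 hH

theorem meas_fibInt88 {k : ℕ} {H : Set (Fin (k + 1) → ℝ)} (hH : MeasurableSet H)
    {f : (Fin (k + 1) → ℝ) → ENNReal} (hf : Measurable f) :
    Measurable fun x : Fin k → ℝ => ∫⁻ y in fib H x, f (Fin.cons y x) := by
  have h1 : Measurable fun p : (Fin k → ℝ) × ℝ => H.indicator f (Fin.cons p.2 p.1) :=
    (hf.indicator hH).comp meas_cons88
  have h2 := h1.lintegral_prod_right' (ν := (volume : Measure ℝ))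
  have h3 : (fun x : Fin k → ℝ => ∫⁻ y in fib H x, f (Fin.cons y x)) =
      fun x : Fin k → ℝ => ∫⁻ y : ℝ, H.indicator f (Fin.cons y x) := by
    funext x
    rw [← lintegral_indicator (meas_fib88 hH x)]
    rfl
  rw [h3]
  exact h2

theorem Tr.lift {k : ℕ} {C : Set (Fin k → ℝ)} {H : Set (Fin (k + 1) → ℝ)}
    {g l : (Fin (k + 1) → ℝ) → ℝ} {G L c : (Fin k → ℝ) → ℝ} (hC : DS C) (hH : DS H)
    (hT : Tr k C G L) (hc : DF c) (hz : H ⊆ under C c) (hG : ∀ x ∈ C, 0 ≤ G x)
    (hL : ∀ x ∈ C, 1 ≤ L x) (hg0 : ∀ z ∈ H, 0 ≤ g z) (hl1 : ∀ z ∈ H, 1 ≤ l z)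
    (hb : ∀ N' : ℕ, 0 < N' → ∃ (N K : ℕ) (M : ℝ), N' ≤ N ∧ 0 < K ∧ ∀ x ∈ C, ∀ s : ℝ,
      0 < s → s < 1 → (Fin.cons (c x * s ^ K) x : Fin (k + 1) → ℝ) ∈ H →
      (g (Fin.cons (c x * s ^ K) x) * (c x * K * s ^ (K - 1))) ^ N *
        l (Fin.cons (c x * s ^ K) x) ≤ M * (G x) ^ N * L x) : Tr (k + 1) H g l := by
  obtain ⟨N0, M0, I, D, Φ, J, hN0, hD, hint⟩ := hT
  obtain ⟨N, K, M, hNN, hK, hb⟩ := hb N0 hN0
  have hHm := hH.meas
  have hcΦ : ∀ i, DF fun z : Fin (k + 1) → ℝ => c (Φ i (tl z)) := fun i =>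
    DF.comp hc (fun j => DF.tl ((hD i).2.2.1 j))
  have hy : ∀ i, DF fun z : Fin (k + 1) → ℝ => c (Φ i (tl z)) * (z 0) ^ K := fun i =>
    (hcΦ i).mul ((DF.var 0).pow K)
  have hx : ∀ i j, DF fun z : Fin (k + 1) → ℝ => Φ i (tl z) j := fun i j =>
    DF.tl ((hD i).2.2.1 j)
  have hcons : ∀ i j, DF fun z : Fin (k + 1) → ℝ =>
      (Fin.cons (c (Φ i (tl z)) * (z 0) ^ K) (Φ i (tl z)) : Fin (k + 1) → ℝ) j := by
    intro i j
    refine Fin.cases ?_ (fun j => ?_) j
    · simpa using hy i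
    · simpa using hx i j
  have hJ : ∀ i, DF fun z : Fin (k + 1) → ℝ => c (Φ i (tl z)) * K * (z 0) ^ (K - 1) * J i (tl z) := by
    intro i
    have hKc : DF fun _ : Fin (k + 1) → ℝ => (K : ℝ) := by
      have := DF.const (κ := Fin (k + 1)) (K : ℤ)
      simpa using this
    exact (((hcΦ i).mul hKc).mul ((DF.var 0).pow (K - 1))).mul (DF.tl (hD i).2.2.2.1)
  have hDS : ∀ i, DS {z : Fin (k + 1) → ℝ | tl z ∈ D i ∧ 0 < z 0 ∧ z 0 < 1 ∧
      (Fin.cons (c (Φ i (tl z)) * (z 0) ^ K) (Φ i (tl z)) : Fin (k + 1) → ℝ) ∈ H} := by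
    intro i
    have h0 : DF fun _ : Fin (k + 1) → ℝ => (0 : ℝ) := by
      simpa using DF.const (κ := Fin (k + 1)) 0
    have h1 : DF fun _ : Fin (k + 1) → ℝ => (1 : ℝ) := by
      simpa using DF.const (κ := Fin (k + 1)) 1
    exact U78.Df.and (DS.tl (hD i).1) (U78.Df.and (DF.lt h0 (DF.var 0))
      (U78.Df.and (DF.lt (DF.var 0) h1) (DS.cons hH (hy i) (hx i))))
  refine ⟨N, |M| * (M0 * (max 1 M0) ^ (N - N0)), I,
    fun i => {z | tl z ∈ D i ∧ 0 < z 0 ∧ z 0 < 1 ∧
      (Fin.cons (c (Φ i (tl z)) * (z 0) ^ K) (Φ i (tl z)) : Fin (k + 1) → ℝ) ∈ H},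
    fun i z => Fin.cons (c (Φ i (tl z)) * (z 0) ^ K) (Φ i (tl z)),
    fun i z => c (Φ i (tl z)) * K * (z 0) ^ (K - 1) * J i (tl z), by omega,
    fun i => ⟨hDS i, ?_, hcons i, hJ i, ?_⟩, fun f hf => ?_⟩
  · -- bounded
    obtain ⟨R, hR⟩ := isBounded_iff_forall_norm_le.1 (hD i).2.1
    refine isBounded_iff_forall_norm_le.2 ⟨max 1 R, fun z hz' => ?_⟩
    refine (pi_norm_le_iff_of_nonneg (le_max_of_le_left zero_le_one)).2 fun j => ?_
    refine Fin.cases ?_ (fun j => ?_) j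
    · rw [Real.norm_eq_abs, abs_of_pos hz'.2.1]
      exact le_max_of_le_left hz'.2.2.1.le
    · exact (norm_le_pi_norm (tl z) j).trans ((hR _ hz'.1).trans (le_max_right _ _))
  · -- the bound
    rintro z ⟨hz1, hz2, hz3, hz4⟩
    obtain ⟨hxC, hJ0, hGJ⟩ := (hD i).2.2.2.2 (tl z) hz1
    set x := Φ i (tl z) with hxdef
    have hcx : 0 < c x := by
      have h5 := hz hz4
      have h6 : 0 < c x * (z 0) ^ K := by simpa using h5.2.1
      have h7 : 0 < (z 0) ^ K := pow_pos hz2 K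
      exact (pos_iff_pos_of_mul_pos h6).2 h7
    have hjac : 0 ≤ c x * K * (z 0) ^ (K - 1) := by
      have := hz2.le
      have := hcx.le
      positivity
    refine ⟨hz4, mul_nonneg hjac hJ0, ?_⟩
    have h8 := hb x hxC (z 0) hz2 hz3 hz4
    have hG0 := hG x hxC
    have hL1 := hL x hxC
    have hGJ0 : 0 ≤ G x * J i (tl z) := mul_nonneg hG0 hJ0
    have hM0 : 0 ≤ M0 := le_trans (mul_nonneg (pow_nonneg hGJ0 _) (by linarith)) hGJ
    have hle : G x * J i (tl z) ≤ max 1 M0 := by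
      by_cases h9 : G x * J i (tl z) ≤ 1
      · exact le_max_of_le_left h9
      · push Not at h9
        refine le_max_of_le_right ?_
        have h10 : G x * J i (tl z) ≤ (G x * J i (tl z)) ^ N0 := le_self_pow₀ h9.le hN0.ne'
        have h11 : (G x * J i (tl z)) ^ N0 ≤ (G x * J i (tl z)) ^ N0 * L x :=
          le_mul_of_one_le_right (pow_nonneg hGJ0 _) hL1
        exact h10.trans (h11.trans hGJ)
    calc (g (Fin.cons (c x * z 0 ^ K) x) * (c x * ↑K * z 0 ^ (K - 1) * J i (tl z))) ^ N *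
          l (Fin.cons (c x * z 0 ^ K) x)
        = ((g (Fin.cons (c x * z 0 ^ K) x) * (c x * K * z 0 ^ (K - 1))) ^ N *
          l (Fin.cons (c x * z 0 ^ K) x)) * J i (tl z) ^ N := by
          rw [← mul_assoc (g _) (c x * K * z 0 ^ (K - 1)) (J i (tl z)), mul_pow _ (J i (tl z))]; ring
      _ ≤ (M * (G x) ^ N * L x) * J i (tl z) ^ N := by gcongr
      _ = M * ((G x * J i (tl z)) ^ N * L x) := by rw [mul_pow]; ring
      _ ≤ |M| * ((G x * J i (tl z)) ^ N * L x) := by
          have : 0 ≤ (G x * J i (tl z)) ^ N * L x :=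
            mul_nonneg (pow_nonneg hGJ0 _) (by linarith)
          exact mul_le_mul_of_nonneg_right (le_abs_self M) this
      _ = |M| * (((G x * J i (tl z)) ^ N0 * L x) * (G x * J i (tl z)) ^ (N - N0)) := by
          have h12 : N = N0 + (N - N0) := by omega
          conv_lhs => rw [h12, pow_add]
          ring
      _ ≤ |M| * (M0 * (max 1 M0) ^ (N - N0)) := by
          refine mul_le_mul_of_nonneg_left ?_ (abs_nonneg M)
          exact mul_le_mul hGJ (pow_le_pow_left₀ hGJ0 hle _) (pow_nonneg hGJ0 _) hM0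
  · -- the integral
    have hF := meas_fibInt88 hHm hf
    have hF0 : ∀ x, x ∉ C → fib H x = ∅ := by
      intro x hxC
      refine eq_empty_of_forall_notMem fun y hy' => hxC ?_
      have h1 := (hz hy').1
      rwa [tlcons88] at h1
    rw [lint_fub hHm hf]
    have hs1 : ∫⁻ x : Fin k → ℝ, ∫⁻ y in fib H x, f (Fin.cons y x) =
        ∫⁻ x in C, ∫⁻ y in fib H x, f (Fin.cons y x) := by
      rw [← lintegral_indicator hC.meas]
      refine lintegral_congr fun x => ?_
      by_cases hxC : x ∈ C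
      · rw [indicator_of_mem hxC]
      · rw [indicator_of_notMem hxC, hF0 x hxC]
        simp
    rw [hs1, hint _ hF]
    refine Finset.sum_congr rfl fun i _ => ?_
    have hΨm : Measurable fun z : Fin (k + 1) → ℝ =>
        (Fin.cons (c (Φ i (tl z)) * (z 0) ^ K) (Φ i (tl z)) : Fin (k + 1) → ℝ) :=
      measurable_pi_iff.2 fun j => (hcons i j).meas
    have hfm : Measurable fun z : Fin (k + 1) → ℝ =>
        f (Fin.cons (c (Φ i (tl z)) * (z 0) ^ K) (Φ i (tl z))) *
          ENNReal.ofReal (c (Φ i (tl z)) * K * (z 0) ^ (K - 1) * J i (tl z)) :=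
      (hf.comp hΨm).mul (hJ i).meas.ennreal_ofReal
    rw [lint_fub (hDS i).meas hfm]
    rw [← lintegral_indicator (hD i).1.meas]
    refine lintegral_congr fun u => ?_
    by_cases hu : u ∈ D i
    · rw [indicator_of_mem hu]
      obtain ⟨hxC, hJ0, -⟩ := (hD i).2.2.2.2 u hu
      simp only [tlcons88, Fin.cons_zero]
      set x := Φ i u with hxdef
      have hfibD : fib {z : Fin (k + 1) → ℝ | tl z ∈ D i ∧ 0 < z 0 ∧ z 0 < 1 ∧
          (Fin.cons (c (Φ i (tl z)) * (z 0) ^ K) (Φ i (tl z)) : Fin (k + 1) → ℝ) ∈ H} u =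
          {s : ℝ | 0 < s ∧ s < 1 ∧ c x * s ^ K ∈ fib H x} := by
        ext s
        simp only [fib, mem_ofPred_eq, tlcons88, Fin.cons_zero]
        exact ⟨fun h => ⟨h.2.1, h.2.2.1, h.2.2.2⟩, fun h => ⟨hu, h.1, h.2.1, h.2.2⟩⟩
      rw [hfibD]
      by_cases hcx : 0 < c x
      · have hsub : fib H x ⊆ Ioo 0 (c x) := by
          intro y hy'
          have h1 := (hz hy').2
          rw [tlcons88, Fin.cons_zero] at h1
          exact h1
        rw [cvK88 hcx hK (meas_fib88 hHm x) hsub, ← lintegral_mul_const' _ _ ENNReal.ofReal_ne_top]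
        have hms : MeasurableSet {s : ℝ | 0 < s ∧ s < 1 ∧ c x * s ^ K ∈ fib H x} := by
          have h1 : Measurable fun s : ℝ => c x * s ^ K := by fun_prop
          exact (measurableSet_lt measurable_const measurable_id).inter
            ((measurableSet_lt measurable_id measurable_const).inter (h1 (meas_fib88 hHm x)))
        refine setLIntegral_congr_fun hms fun s hs => ?_
        have h4 : 0 ≤ c x * K * s ^ (K - 1) := by
          have := hs.1.le
          have := hcx.le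
          positivity
        rw [ENNReal.ofReal_mul h4, mul_assoc]
      · have he : fib H x = ∅ := by
          refine eq_empty_of_forall_notMem fun y hy' => hcx ?_
          have h1 := (hz hy').2
          rw [tlcons88, Fin.cons_zero] at h1
          exact h1.1.trans h1.2
        rw [he]
        simp
    · rw [indicator_of_notMem hu]
      have he : fib {z : Fin (k + 1) → ℝ | tl z ∈ D i ∧ 0 < z 0 ∧ z 0 < 1 ∧
          (Fin.cons (c (Φ i (tl z)) * (z 0) ^ K) (Φ i (tl z)) : Fin (k + 1) → ℝ) ∈ H} u = ∅ := by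
        refine eq_empty_of_forall_notMem fun s hs => hu ?_
        have h1 := hs.1
        rwa [tlcons88] at h1
      rw [he]
      simp

end Pool.Agent.WSP
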