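import Pool.Agent.W_2cf66e_h23.LuA1
import Pool.Agent.W_2cf66e_h23.LuA2
import Pool.Agent.W_2cf66e_h23.LuA3
import Pool.Agent.W_2cf66e_h23.LuA9
import Pool.Agent.W_2cf66e_h23.LuA10

/-!
# MP_2cf66e_nt, Theorem S+: half cell with an increasing weight (leaf A12, helper59)
-/

set_option autoImplicit false

noncomputable section

open MeasureTheory Set Filter Topology

namespace Pool.Agent.WSP

theorem tl_cons59 {k : ℕ} (y : ℝ) (x : Fin k → ℝ) :
    WSP.tl (Fin.cons y x : Fin (k + 1) → ℝ) = x := by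
  funext j
  simp [WSP.tl]

theorem mem_under59 {k : ℕ} {C : Set (Fin k → ℝ)} {c : (Fin k → ℝ) → ℝ} {x : Fin k → ℝ}
    (hx : x ∈ C) {y : ℝ} (h0 : 0 < y) (h1 : y < c x) :
    (Fin.cons y x : Fin (k + 1) → ℝ) ∈ under C c := by
  refine ⟨?_, ?_, ?_⟩
  · rw [tl_cons59]; exact hx
  · simpa using h0
  · rw [tl_cons59]; simpa using h1

theorem DS_under59 {k : ℕ} {C : Set (Fin k → ℝ)} {c : (Fin k → ℝ) → ℝ} (hC : DS C) (hc : DF c) :
    DS (under C c) := by
  have h1 : U78.Df (fun z : Fin (k + 1) → ℝ => WSP.tl z ∈ C) := DS.tl hC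
  have h2 : U78.Df (fun z : Fin (k + 1) → ℝ => 0 < z 0) :=
    (DF.lt (DF.const 0) (DF.var (0 : Fin (k + 1)))).congr fun z => by simp
  have h3 : U78.Df (fun z : Fin (k + 1) → ℝ => z 0 < c (WSP.tl z)) :=
    DF.lt (DF.var (0 : Fin (k + 1))) (DF.tl hc)
  exact h1.and (h2.and h3)

theorem DF_two59 {k : ℕ} {c : (Fin k → ℝ) → ℝ} (hc : DF c) : DF (fun x => 2 * c x) := by
  have h := (DF.const (κ := Fin k) 2).mul hc
  simpa using h

/-- The candidates for twice the threshold. -/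
def AS59 {k : ℕ} (l : (Fin (k + 1) → ℝ) → ℝ) (c : (Fin k → ℝ) → ℝ) (s : ℕ) (x : Fin k → ℝ) :
    Set ℝ :=
  {t : ℝ | (0 < t ∧ t ≤ c x) ∧ ∀ u : ℝ, 0 < u → u < t → l (Fin.cons u x) * u ^ s ≤ 1}

theorem DF_AS59 {k : ℕ} {l : (Fin (k + 1) → ℝ) → ℝ} {c : (Fin k → ℝ) → ℝ} (hl : DF l) (hc : DF c)
    (s : ℕ) : DF (fun x => sSup (AS59 l c s x)) := by
  -- the predicate on (t, x)
  have hcx : DF (fun w : Option (Fin k) → ℝ => c (fun i => w (some i))) :=
    DF.comp hc fun i => DF.var (some i)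
  have h1 : U78.Df (fun w : Option (Fin k) → ℝ => 0 < w none ∧ w none ≤ c (fun i => w (some i))) :=
    ((DF.lt (DF.const 0) (DF.var none)).congr fun w => by simp).and (DF.le (DF.var none) hcx)
  have hlu : DF (fun w : Option (Option (Fin k)) → ℝ =>
      l (Fin.cons (w none) (fun i => w (some (some i))))) := by
    have h2 := DF.comp hl (κ' := Option (Option (Fin k)))
      (g := Fin.cons (fun w => w none) (fun i w => w (some (some i)))) (by
        intro i
        refine Fin.cases ?_ (fun j => ?_) i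
        · exact DF.var none
        · exact DF.var (some (some j)))
    have h3 : (fun w : Option (Option (Fin k)) → ℝ => l (fun i => (Fin.cons (fun w => w none)
        (fun i w => w (some (some i))) : Fin (k + 1) → (Option (Option (Fin k)) → ℝ) → ℝ) i w)) =
        fun w => l (Fin.cons (w none) (fun i => w (some (some i)))) := by
      funext w
      congr 1
      funext i
      refine Fin.cases rfl (fun j => rfl) i
    rwa [h3] at h2
  have h4 : U78.Df (fun w : Option (Option (Fin k)) → ℝ => 0 < w none → w none < w (some none) →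
      l (Fin.cons (w none) (fun i => w (some (some i)))) * w none ^ s ≤ 1) := by
    refine U78.Df.imp ((DF.lt (DF.const 0) (DF.var none)).congr fun w => by simp)
      (U78.Df.imp (DF.lt (DF.var none) (DF.var (some none)))
        ((DF.le (hlu.mul ((DF.var none).pow s)) (DF.const 1)).congr fun w => by simp))
  exact DF.dsup (h1.and h4.all)

theorem AS_spec59 {k : ℕ} {l : (Fin (k + 1) → ℝ) → ℝ} {c : (Fin k → ℝ) → ℝ} {s : ℕ}
    {x : Fin k → ℝ} (hc : 0 < c x)
    (h : ∃ c1 : ℝ, 0 < c1 ∧ ∀ v : ℝ, 0 < v → v < c1 → |l (Fin.cons v x)| ≤ (v ^ s)⁻¹) :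
    0 < sSup (AS59 l c s x) / 2 ∧ sSup (AS59 l c s x) / 2 < c x ∧
      ∀ u : ℝ, 0 < u → u ≤ sSup (AS59 l c s x) / 2 → l (Fin.cons u x) * u ^ s ≤ 1 := by
  obtain ⟨c1, hc1, h1⟩ := h
  have hne : min c1 (c x) ∈ AS59 l c s x := by
    refine ⟨⟨lt_min hc1 hc, min_le_right _ _⟩, fun u hu hu2 => ?_⟩
    have h2 := h1 u hu (lt_of_lt_of_le hu2 (min_le_left _ _))
    have h3 : 0 < u ^ s := pow_pos hu s
    calc l (Fin.cons u x) * u ^ s ≤ |l (Fin.cons u x)| * u ^ s :=
          mul_le_mul_of_nonneg_right (le_abs_self _) h3.le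
      _ ≤ (u ^ s)⁻¹ * u ^ s := mul_le_mul_of_nonneg_right h2 h3.le
      _ = 1 := inv_mul_cancel₀ h3.ne'
  have hbdd : BddAbove (AS59 l c s x) := ⟨c x, fun t ht => ht.1.2⟩
  have hpos : 0 < sSup (AS59 l c s x) := lt_of_lt_of_le hne.1.1 (le_csSup hbdd hne)
  have hle : sSup (AS59 l c s x) ≤ c x := csSup_le ⟨_, hne⟩ fun t ht => ht.1.2
  refine ⟨by positivity, by linarith, fun u hu hu2 => ?_⟩
  obtain ⟨t, ht, hut⟩ := exists_lt_of_lt_csSup ⟨_, hne⟩ (show u < sSup (AS59 l c s x) by linarith)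
  exact ht.2 u hu hut

theorem half_mono {k : ℕ} (IH : TrAll k) {C : Set (Fin k → ℝ)} {c : (Fin k → ℝ) → ℝ}
    {g l : (Fin (k + 1) → ℝ) → ℝ} (hC : DS C) (hc : DF c) (hg : DF g) (hl : DF l)
    (hc0 : ∀ x ∈ C, 0 < c x ∧ c x ≤ 1)
    (hg0 : ∀ z ∈ under C (fun x => 2 * c x), 0 < g z)
    (hl1 : ∀ z ∈ under C (fun x => 2 * c x), 1 ≤ l z)
    (hgm : ∀ x ∈ C, MonotoneOn (fun y : ℝ => g (Fin.cons y x)) (Ioo 0 (2 * c x)))
    (hlm : ∀ x ∈ C, MonotoneOn (fun y : ℝ => l (Fin.cons y x)) (Ioo 0 (2 * c x)) ∨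
      AntitoneOn (fun y : ℝ => l (Fin.cons y x)) (Ioo 0 (2 * c x)))
    (hi : ∫⁻ z in under C (fun x => 2 * c x), ENNReal.ofReal (g z) < ⊤) :
    Tr (k + 1) (under C c) g l := by
  obtain ⟨s, hs⟩ := growth l hl
  set v0 : (Fin k → ℝ) → ℝ := fun x => sSup (AS59 l c s x) / 2 with hv0
  have hDid : ∀ j : Fin k, DF fun z : Fin k → ℝ => z j := fun j => DF.var j
  have hDv0 : DF v0 := by
    have h := (DF_AS59 hl hc s).div (DF.const 2)
    simpa [hv0] using h
  have hspec : ∀ x ∈ C, 0 < v0 x ∧ v0 x < c x ∧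
      ∀ u : ℝ, 0 < u → u ≤ v0 x → l (Fin.cons u x) * u ^ s ≤ 1 := fun x hx =>
    AS_spec59 (hc0 x hx).1 (hs x)
  have hmem : ∀ x ∈ C, ∀ y : ℝ, 0 < y → y < 2 * c x →
      (Fin.cons y x : Fin (k + 1) → ℝ) ∈ under C (fun x => 2 * c x) :=
    fun x hx y h1 h2 => mem_under59 hx h1 h2
  set G : (Fin k → ℝ) → ℝ := fun x => c x * g (Fin.cons (c x) x) with hGdef
  set L : (Fin k → ℝ) → ℝ := fun x =>
    (c x)⁻¹ ^ s + (l (Fin.cons (v0 x) x) + l (Fin.cons (c x) x)) with hLdef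
  have hDG : DF G := hc.mul (DF.cons hg hc hDid)
  have hDL : DF L := (hc.inv.pow s).add ((DF.cons hl hDv0 hDid).add (DF.cons hl hc hDid))
  have hGpos : ∀ x ∈ C, 0 < G x := fun x hx =>
    mul_pos (hc0 x hx).1 (hg0 _ (hmem x hx _ (hc0 x hx).1 (by linarith [(hc0 x hx).1])))
  have hlc : ∀ x ∈ C, 1 ≤ l (Fin.cons (c x) x) := fun x hx =>
    hl1 _ (hmem x hx _ (hc0 x hx).1 (by linarith [(hc0 x hx).1]))
  have hlv : ∀ x ∈ C, 1 ≤ l (Fin.cons (v0 x) x) := fun x hx =>
    hl1 _ (hmem x hx _ (hspec x hx).1 (by linarith [(hc0 x hx).1, (hspec x hx).2.1]))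
  have hcs : ∀ x ∈ C, 0 ≤ (c x)⁻¹ ^ s := fun x hx =>
    pow_nonneg (inv_nonneg.2 (hc0 x hx).1.le) s
  have hL1 : ∀ x ∈ C, 1 ≤ L x := fun x hx => by
    simp only [hLdef]
    linarith [hcs x hx, hlc x hx, hlv x hx]
  -- the integral of `G`
  have hm2 : MeasurableSet (under C (fun x => 2 * c x)) := (DS_under59 hC (DF_two59 hc)).meas
  have hGi : ∫⁻ x in C, ENNReal.ofReal (G x) < ⊤ := by
    refine lt_of_le_of_lt ?_ hi
    rw [lint_fub hm2 (f := fun z => ENNReal.ofReal (g z)) hg.meas.ennreal_ofReal]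
    refine le_trans ?_ (setLIntegral_le_lintegral C _)
    refine setLIntegral_mono' hC.meas fun x hx => ?_
    have hcx := (hc0 x hx).1
    have hsub : Ioo (c x) (2 * c x) ⊆ fib (under C fun x => 2 * c x) x := fun y hy =>
      hmem x hx y (lt_trans hcx hy.1) hy.2
    calc ENNReal.ofReal (G x)
        = ENNReal.ofReal (g (Fin.cons (c x) x)) * volume (Ioo (c x) (2 * c x)) := by
          rw [Real.volume_Ioo, ← ENNReal.ofReal_mul
            (hg0 _ (hmem x hx _ hcx (by linarith))).le]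
          congr 1
          simp only [hGdef]
          ring
      _ = ∫⁻ _ in Ioo (c x) (2 * c x), ENNReal.ofReal (g (Fin.cons (c x) x)) := by
          rw [setLIntegral_const]
      _ ≤ ∫⁻ y in Ioo (c x) (2 * c x), ENNReal.ofReal (g (Fin.cons y x)) := by
          refine setLIntegral_mono' measurableSet_Ioo fun y hy => ?_
          exact ENNReal.ofReal_le_ofReal (hgm x hx ⟨hcx, by linarith⟩
            ⟨lt_trans hcx hy.1, hy.2⟩ hy.1.le)
      _ ≤ ∫⁻ y in fib (under C fun x => 2 * c x) x, ENNReal.ofReal (g (Fin.cons y x)) :=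
          lintegral_mono_set hsub
  have hT : Tr k C G L := IH C G L hC hDG hDL hGpos hL1 hGi
  have hsub : under C c ⊆ under C (fun x => 2 * c x) := fun z hz =>
    ⟨hz.1, hz.2.1, by have h1 := (hc0 _ hz.1).1; have h2 := hz.2.2; simp only; linarith⟩
  refine Tr.lift (c := c) hC (DS_under59 hC hc) hT hc Subset.rfl (fun x hx => (hGpos x hx).le) hL1
    (fun z hz => (hg0 z (hsub hz)).le) (fun z hz => hl1 z (hsub hz)) ?_
  intro N' hN'
  refine ⟨N' + 2 * s, 2, 2 ^ (N' + 2 * s), by omega, by omega, ?_⟩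
  intro x hx t ht0 ht1 _
  set N := N' + 2 * s with hN
  have hcx := (hc0 x hx).1
  have ht2 : 0 < t ^ 2 := pow_pos ht0 2
  have ht21 : t ^ 2 < 1 := pow_lt_one₀ ht0.le ht1 (by norm_num)
  set y := c x * t ^ 2 with hy
  have hy0 : 0 < y := mul_pos hcx ht2
  have hyc : y < c x := by
    have := mul_lt_mul_of_pos_left ht21 hcx
    simpa [hy] using this
  have hgy0 : 0 < g (Fin.cons y x) := hg0 _ (hmem x hx y hy0 (by linarith))
  have hgy : g (Fin.cons y x) ≤ g (Fin.cons (c x) x) :=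
    hgm x hx ⟨hy0, by linarith⟩ ⟨hcx, by linarith⟩ hyc.le
  have hly : 1 ≤ l (Fin.cons y x) := hl1 _ (hmem x hx y hy0 (by linarith))
  have hJ : g (Fin.cons y x) * (c x * ((2 : ℕ) : ℝ) * t ^ (2 - 1)) ≤ 2 * t * G x := by
    have h1 : g (Fin.cons y x) * (c x * ((2 : ℕ) : ℝ) * t ^ (2 - 1)) =
        (2 * t * c x) * g (Fin.cons y x) := by
      push_cast
      norm_num
      ring
    rw [h1]
    have h2 : 0 ≤ 2 * t * c x := by positivity
    calc (2 * t * c x) * g (Fin.cons y x) ≤ (2 * t * c x) * g (Fin.cons (c x) x) :=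
          mul_le_mul_of_nonneg_left hgy h2
      _ = 2 * t * G x := by simp only [hGdef]; ring
  have hJ0 : 0 ≤ g (Fin.cons y x) * (c x * ((2 : ℕ) : ℝ) * t ^ (2 - 1)) := by positivity
  have hJN : (g (Fin.cons y x) * (c x * ((2 : ℕ) : ℝ) * t ^ (2 - 1))) ^ N ≤
      2 ^ N * G x ^ N * t ^ N := by
    calc (g (Fin.cons y x) * (c x * ((2 : ℕ) : ℝ) * t ^ (2 - 1))) ^ N ≤ (2 * t * G x) ^ N :=
          pow_le_pow_left₀ hJ0 hJ N
      _ = 2 ^ N * G x ^ N * t ^ N := by rw [mul_pow, mul_pow]; ring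
  have htN1 : t ^ N ≤ 1 := pow_le_one₀ ht0.le ht1.le
  have htN0 : 0 ≤ t ^ N := pow_nonneg ht0.le N
  -- the bound for `t ^ N * l`
  have key : t ^ N * l (Fin.cons y x) ≤ L x := by
    have hA := hcs x hx
    have hB := hlc x hx
    have hD := hlv x hx
    rcases hlm x hx with hmo | han
    · have h1 : l (Fin.cons y x) ≤ l (Fin.cons (c x) x) :=
        hmo ⟨hy0, by linarith⟩ ⟨hcx, by linarith⟩ hyc.le
      have h2 : t ^ N * l (Fin.cons y x) ≤ 1 * l (Fin.cons y x) :=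
        mul_le_mul_of_nonneg_right htN1 (by linarith)
      simp only [hLdef]
      linarith
    · rcases le_or_gt y (v0 x) with hyv | hyv
      · have h1 := (hspec x hx).2.2 y hy0 hyv
        have h2 : y ^ s = (c x) ^ s * t ^ (2 * s) := by
          rw [hy, mul_pow, ← pow_mul]
        rw [h2] at h1
        have hcs0 : 0 < (c x) ^ s := pow_pos hcx s
        have h3 : l (Fin.cons y x) * t ^ (2 * s) ≤ ((c x) ^ s)⁻¹ := by
          rw [← one_div, le_div_iff₀ hcs0]
          calc l (Fin.cons y x) * t ^ (2 * s) * (c x) ^ s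
              = l (Fin.cons y x) * ((c x) ^ s * t ^ (2 * s)) := by ring
            _ ≤ 1 := h1
        have h4 : t ^ N * l (Fin.cons y x) ≤ l (Fin.cons y x) * t ^ (2 * s) := by
          have h5 : t ^ N ≤ t ^ (2 * s) := pow_le_pow_of_le_one ht0.le ht1.le (by omega)
          calc t ^ N * l (Fin.cons y x) ≤ t ^ (2 * s) * l (Fin.cons y x) :=
                mul_le_mul_of_nonneg_right h5 (by linarith)
            _ = _ := mul_comm _ _
        have h6 : (c x)⁻¹ ^ s = ((c x) ^ s)⁻¹ := inv_pow _ _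
        simp only [hLdef]
        linarith
      · have h1 : l (Fin.cons y x) ≤ l (Fin.cons (v0 x) x) :=
          han ⟨(hspec x hx).1, by linarith [(hspec x hx).2.1]⟩ ⟨hy0, by linarith⟩ hyv.le
        have h2 : t ^ N * l (Fin.cons y x) ≤ 1 * l (Fin.cons y x) :=
          mul_le_mul_of_nonneg_right htN1 (by linarith)
        simp only [hLdef]
        linarith
  calc (g (Fin.cons y x) * (c x * ((2 : ℕ) : ℝ) * t ^ (2 - 1))) ^ N * l (Fin.cons y x)
      ≤ (2 ^ N * G x ^ N * t ^ N) * l (Fin.cons y x) :=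
        mul_le_mul_of_nonneg_right hJN (by linarith)
    _ = 2 ^ N * G x ^ N * (t ^ N * l (Fin.cons y x)) := by ring
    _ ≤ 2 ^ N * G x ^ N * L x := by
        refine mul_le_mul_of_nonneg_left key ?_
        have := (hGpos x hx).le
        positivity

end Pool.Agent.WSP
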