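import Pool.Agent.W_2cf66e_h23.LfM1

/-!
# Theorem S, leaf C: coefficients and degrees of the polynomials of the symmetric function (helper78)
-/

set_option autoImplicit false

noncomputable section

open MeasureTheory Set Filter Topology

namespace Pool.Agent.WSP

variable {n m : ℕ}

/-- Families of real polynomials of bounded degree whose coefficients are rational functions. -/
def PR78 (F : (Fin m → ℝ) → Polynomial ℝ) : Prop :=
  ∃ k : ℕ, (∀ z, (F z).natDegree ≤ k) ∧ ∀ i, RF (fun z => (F z).coeff i)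

theorem PR78.congr {F G : (Fin m → ℝ) → Polynomial ℝ} (hF : PR78 F) (h : ∀ z, F z = G z) :
    PR78 G := by
  have h1 : F = G := funext h
  rwa [← h1]

theorem PR78.add {F G : (Fin m → ℝ) → Polynomial ℝ} (hF : PR78 F) (hG : PR78 G) :
    PR78 (fun z => F z + G z) := by
  obtain ⟨k, hk, hc⟩ := hF
  obtain ⟨l, hl, hd⟩ := hG
  refine ⟨max k l, fun z => (Polynomial.natDegree_add_le _ _).trans (max_le_max (hk z) (hl z)),
    fun i => ?_⟩
  exact ((hc i).add (hd i)).congr fun z => (Polynomial.coeff_add _ _ _).symm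

theorem PR78.sub {F G : (Fin m → ℝ) → Polynomial ℝ} (hF : PR78 F) (hG : PR78 G) :
    PR78 (fun z => F z - G z) := by
  obtain ⟨k, hk, hc⟩ := hF
  obtain ⟨l, hl, hd⟩ := hG
  refine ⟨max k l, fun z => (Polynomial.natDegree_sub_le _ _).trans (max_le_max (hk z) (hl z)),
    fun i => ?_⟩
  exact ((hc i).sub (hd i)).congr fun z => (Polynomial.coeff_sub _ _ _).symm

theorem PR78.mul {F G : (Fin m → ℝ) → Polynomial ℝ} (hF : PR78 F) (hG : PR78 G) :
    PR78 (fun z => F z * G z) := by
  obtain ⟨k, hk, hc⟩ := hF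
  obtain ⟨l, hl, hd⟩ := hG
  refine ⟨k + l, fun z => Polynomial.natDegree_mul_le.trans (add_le_add (hk z) (hl z)),
    fun i => ?_⟩
  refine (RF.sum (α := ℕ × ℕ) (Finset.HasAntidiagonal.antidiagonal i)
    (f := fun a z => (F z).coeff a.1 * (G z).coeff a.2)
    fun a => (hc a.1).mul (hd a.2)).congr fun z => ?_
  rw [Polynomial.coeff_mul]

theorem PR78.C {f : (Fin m → ℝ) → ℝ} (hf : RF f) : PR78 (fun z => Polynomial.C (f z)) := by
  refine ⟨0, fun z => (Polynomial.natDegree_C _).le, fun i => ?_⟩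
  by_cases hi : i = 0
  · subst hi
    exact hf.congr fun z => by simp
  · exact (RF.const 0).congr fun z => by rw [Polynomial.coeff_C, if_neg hi]; simp

theorem PR78.X : PR78 (fun _ : Fin m → ℝ => (Polynomial.X : Polynomial ℝ)) := by
  refine ⟨1, fun z => Polynomial.natDegree_X_le, fun i => ?_⟩
  by_cases hi : i = 1
  · exact (RF.const 1).congr fun z => by subst hi; simp
  · exact (RF.const 0).congr fun z => by rw [Polynomial.coeff_X_of_ne_one hi]; simp

theorem PR78.one : PR78 (fun _ : Fin m → ℝ => (1 : Polynomial ℝ)) :=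
  (PR78.C (RF.const 1)).congr fun z => by simp

theorem PR78.pow {F : (Fin m → ℝ) → Polynomial ℝ} (hF : PR78 F) (k : ℕ) :
    PR78 (fun z => F z ^ k) := by
  induction k with
  | zero => exact PR78.one.congr fun z => by simp
  | succ k ih => exact (ih.mul hF).congr fun z => (pow_succ _ _).symm

theorem PR78.sec (P : MvPolynomial (Fin (n + 1)) ℚ) :
    PR78 (fun z : Fin (n + 1) → ℝ => WSP.sec P (tl z)) := by
  induction P using MvPolynomial.induction_on with
  | C a => exact (PR78.C (RF.const a)).congr fun z => (sec_C78 a _).symm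
  | add p q hp hq =>
    refine (hp.add hq).congr fun z => ?_
    unfold WSP.sec
    simp only [map_add, Polynomial.map_add]
  | mul_X p i hp =>
    refine (hp.mul ?_ : PR78 (fun z : Fin (n + 1) → ℝ => WSP.sec p (tl z) *
      (Fin.cons Polynomial.X (fun j => Polynomial.C (tl z j)) :
        Fin (n + 1) → Polynomial ℝ) i)).congr fun z => (sec_mulX78 p i _).symm
    refine Fin.cases ?_ (fun j => ?_) i
    · exact PR78.X.congr fun z => by simp
    · exact (PR78.C (RF.var j.succ)).congr fun z => by simp [tl]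

theorem PR78.ctp (N : ℕ) (b : Bool) :
    PR78 (fun _ : Fin m → ℝ => (WSP.ctp N b : Polynomial ℝ)) := by
  cases b with
  | true =>
    exact (((PR78.X.pow (2 * N + 1)).sub (PR78.X.pow (2 * N))).add PR78.X).congr fun z => by
      simp [WSP.ctp]
  | false =>
    exact ((PR78.one.sub PR78.X).mul (PR78.one.add (PR78.X.pow (2 * N)))).congr fun z => by
      simp [WSP.ctp]

theorem RF_ctp78 {f : (Fin m → ℝ) → ℝ} (hf : RF f) (N : ℕ) (b : Bool) :
    RF (fun z => (WSP.ctp N b : Polynomial ℝ).eval (f z)) := by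
  have h1 : RF (fun _ : Fin m → ℝ => (1 : ℝ)) := (RF.const 1).congr fun z => by simp
  cases b with
  | true =>
    exact (((hf.pow (2 * N + 1)).sub (hf.pow (2 * N))).add hf).congr fun z => by
      simp [WSP.ctp]
  | false =>
    exact ((h1.sub hf).mul (h1.add (hf.pow (2 * N)))).congr fun z => by
      simp [WSP.ctp]

theorem RF_tl78 {f : (Fin n → ℝ) → ℝ} (hf : RF f) :
    RF (fun z : Fin (n + 1) → ℝ => f (tl z)) := by
  obtain ⟨P, Q, hQ, h⟩ := hf
  have e : ∀ (R : MvPolynomial (Fin n) ℚ) (z : Fin (n + 1) → ℝ),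
      (MvPolynomial.aeval z (MvPolynomial.rename Fin.succ R) : ℝ) =
        MvPolynomial.aeval (tl z) R := by
    intro R z
    rw [MvPolynomial.aeval_rename]
    rfl
  refine ⟨MvPolynomial.rename Fin.succ P, MvPolynomial.rename Fin.succ Q, fun z => ?_,
    fun z => ?_⟩
  · rw [e]
    exact hQ _
  · rw [e, e]
    exact h _

theorem PR78.hp (P : MvPolynomial (Fin (n + 1)) ℚ) (e : Fin (n + 1) → Bool) :
    PR78 (fun z : Fin (n + 1) → ℝ => WSP.hp P e (tl z)) := by
  have h1 : PR78 (fun z : Fin (n + 1) → ℝ => Polynomial.derivative (WSP.sec P (tl z))) :=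
    (PR78.sec (MvPolynomial.pderiv 0 P)).congr fun z => (sec_deriv78 P _).symm
  have h2 : RF (fun z : Fin (n + 1) → ℝ =>
      ∏ j : Fin n, (WSP.ctp (n + 1) (e j.succ)).eval (tl z j)) :=
    RF.prod Finset.univ (f := fun (j : Fin n) (z : Fin (n + 1) → ℝ) =>
      (WSP.ctp (n + 1) (e j.succ)).eval (tl z j))
      fun j => RF_ctp78 (RF.var j.succ) (n + 1) (e j.succ)
  exact ((h1.mul (PR78.C h2)).mul (PR78.ctp (n + 1) (e 0))).congr fun z => rfl

theorem AR_of_RF78 {f : (Fin m → ℝ) → ℝ} (hf : RF f) : AR f := by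
  obtain ⟨P, Q, hQ, h⟩ := hf
  refine ⟨P, Q, ?_, Eventually.of_forall h⟩
  rintro rfl
  have h1 := hQ 0
  simp at h1

/-- LEAF C (coefficients and degrees of the polynomials of the symmetric function) -/
theorem coef_ar (P : MvPolynomial (Fin (n + 1)) ℚ) (e : Fin (n + 1) → Bool)
    (ε : (Fin n → ℝ) → ℝ) (hε : RF ε) :
    ∃ k : ℕ,
      (∀ z : Fin (n + 1) → ℝ, (Polynomial.X * (hp P e (tl z) * Polynomial.C (ε (tl z))) :
        Polynomial ℝ).natDegree ≤ k) ∧
      (∀ i, AR (fun z : Fin (n + 1) → ℝ =>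
        (Polynomial.X * (hp P e (tl z) * Polynomial.C (ε (tl z))) : Polynomial ℝ).coeff i)) ∧
      (∀ z : Fin (n + 1) → ℝ, (Polynomial.C (ε (tl z) ^ 2) + hp P e (tl z) ^ 2 *
        (Polynomial.C (z 0) - Polynomial.X) ^ 2 : Polynomial ℝ).natDegree ≤ k) ∧
      (∀ i, AR (fun z : Fin (n + 1) → ℝ => (Polynomial.C (ε (tl z) ^ 2) + hp P e (tl z) ^ 2 *
        (Polynomial.C (z 0) - Polynomial.X) ^ 2 : Polynomial ℝ).coeff i)) := by
  have hE := RF_tl78 hε
  obtain ⟨k, hk, hc⟩ : PR78 (fun z : Fin (n + 1) → ℝ =>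
      Polynomial.X * (WSP.hp P e (tl z) * Polynomial.C (ε (tl z)))) :=
    PR78.X.mul ((PR78.hp P e).mul (PR78.C hE))
  obtain ⟨l, hl, hd⟩ : PR78 (fun z : Fin (n + 1) → ℝ =>
      Polynomial.C (ε (tl z) ^ 2) + WSP.hp P e (tl z) ^ 2 *
        (Polynomial.C (z 0) - Polynomial.X) ^ 2) :=
    (PR78.C (hE.pow 2)).add (((PR78.hp P e).pow 2).mul
      (((PR78.C (RF.var 0)).sub PR78.X).pow 2))
  exact ⟨max k l, fun z => (hk z).trans (le_max_left _ _), fun i => AR_of_RF78 (hc i),
    fun z => (hl z).trans (le_max_right _ _), fun i => AR_of_RF78 (hd i)⟩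

end Pool.Agent.WSP
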