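import Pool.Agent.W_2cf66e_h23.DefsS

/-!
# MP_2cf66e_nt, THEOREM S, leaf G: a generic polynomial with the same signs (helper57 for helper23)
-/

set_option autoImplicit false
noncomputable section
open MeasureTheory Set Filter Topology
namespace Pool.Agent.WSP
namespace LfG

theorem sqfree_dec {R : Type*} [CommRing R] [IsDomain R] [WfDvdMonoid R] (a : R) (ha : a ≠ 0) :
    ∃ s b : R, a = s * s * b ∧ Squarefree b := by
  revert ha
  refine (IsWellFounded.wf (r := (DvdNotUnit : R → R → Prop))).induction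
    (C := fun a => a ≠ 0 → ∃ s b : R, a = s * s * b ∧ Squarefree b) a ?_
  intro a ih ha
  by_cases h : Squarefree a
  · exact ⟨1, a, by simp, h⟩
  · unfold Squarefree at h
    push Not at h
    obtain ⟨x, ⟨c, hc⟩, hx⟩ := h
    have hc0 : c ≠ 0 := by
      rintro rfl
      simp at hc
      exact ha hc
    obtain ⟨s, b, h1, h2⟩ := ih c
      ⟨hc0, x * x, fun h => hx (isUnit_of_mul_isUnit_left h), by rw [hc, mul_comm]⟩ hc0
    exact ⟨x * s, b, by rw [hc, h1]; ring, h2⟩

/-- Clear denominators. -/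
theorem clr (R : Type*) {K : Type*} [CommRing R] [IsDomain R] [Field K] [Algebra R K]
    [IsFractionRing R K] (f : Polynomial K) :
    ∃ (d : R) (g : Polynomial R), d ≠ 0 ∧
      g.map (algebraMap R K) = Polynomial.C (algebraMap R K d) * f := by
  obtain ⟨b, hb0, hb⟩ := IsLocalization.integerNormalization_spec (nonZeroDivisors R) f
  refine ⟨b, IsLocalization.integerNormalization (nonZeroDivisors R) f,
    nonZeroDivisors.ne_zero hb0, ?_⟩
  rw [hb]
  ext i
  simp [Algebra.smul_def]

theorem gen_alg' {R : Type*} (K : Type*) [CommRing R] [IsDomain R] [Field K] [Algebra R K]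
    [IsFractionRing R K] [CharZero R] (q : Polynomial R) (hq : q ≠ 0) :
    ∃ (s t q' A B : Polynomial R) (d : R), s ≠ 0 ∧ t ≠ 0 ∧ d ≠ 0 ∧ s * s * q = t * t * q' ∧
      A * q' + B * Polynomial.derivative q' = Polynomial.C d := by
  classical
  have hinj : Function.Injective (algebraMap R K) := IsFractionRing.injective R K
  have hmi : Function.Injective (Polynomial.map (algebraMap R K)) := Polynomial.map_injective _ hinj
  have hch : CharZero K := charZero_of_injective_algebraMap hinj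
  obtain ⟨Q, hQ⟩ : ∃ Q : Polynomial K, Q = q.map (algebraMap R K) := ⟨_, rfl⟩
  have hQ0 : Q ≠ 0 := by
    intro h
    exact hq (hmi (by rw [← hQ, h, Polynomial.map_zero]))
  obtain ⟨s, b, h1, h2⟩ := sqfree_dec Q hQ0
  have h3 : b.Separable := PerfectField.separable_iff_squarefree.2 h2
  obtain ⟨A, B, hAB⟩ := h3
  obtain ⟨d1, s1, hd1, e1⟩ := clr R s
  obtain ⟨d2, b1, hd2, e2⟩ := clr R b
  obtain ⟨d3, A1, hd3, e3⟩ := clr R A
  obtain ⟨d4, B1, hd4, e4⟩ := clr R B
  have hs0 : s ≠ 0 := by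
    rintro rfl
    simp at h1
    exact hQ0 h1
  have hd1' : algebraMap R K d1 ≠ 0 := fun h => hd1 (hinj (by rw [h, map_zero]))
  have e5 := congrArg Polynomial.derivative e2
  rw [Polynomial.derivative_map, Polynomial.derivative_C_mul] at e5
  refine ⟨Polynomial.C d1 * Polynomial.C d2, s1, Polynomial.C d2 * b1, Polynomial.C d4 * A1,
    Polynomial.C d3 * B1, d2 * d2 * d3 * d4, ?_, ?_, ?_, ?_, ?_⟩
  · exact mul_ne_zero (Polynomial.C_ne_zero.2 hd1) (Polynomial.C_ne_zero.2 hd2)
  · rintro rfl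
    rw [Polynomial.map_zero] at e1
    exact mul_ne_zero (Polynomial.C_ne_zero.2 hd1') hs0 e1.symm
  · exact mul_ne_zero (mul_ne_zero (mul_ne_zero hd2 hd2) hd3) hd4
  · apply hmi
    simp only [Polynomial.map_mul, Polynomial.map_C, e1, e2]
    rw [← hQ, h1]
    ring
  · apply hmi
    rw [Polynomial.derivative_C_mul]
    simp only [Polynomial.map_mul, Polynomial.map_add, Polynomial.map_C, e5, e2, e3, e4, map_mul]
    linear_combination (Polynomial.C ((algebraMap R K) d2) * Polynomial.C ((algebraMap R K) d2) *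
      Polynomial.C ((algebraMap R K) d3) * Polynomial.C ((algebraMap R K) d4)) * hAB

theorem gen_alg {R : Type*} [CommRing R] [IsDomain R] [CharZero R] (q : Polynomial R)
    (hq : q ≠ 0) :
    ∃ (s t q' A B : Polynomial R) (d : R), s ≠ 0 ∧ t ≠ 0 ∧ d ≠ 0 ∧ s * s * q = t * t * q' ∧
      A * q' + B * Polynomial.derivative q' = Polynomial.C d :=
  gen_alg' (FractionRing R) q hq

theorem gen_one {R : Type*} [CommRing R] [IsDomain R] (q' A B : Polynomial R) (d : R)
    (hd : d ≠ 0) (h : A * q' + B * Polynomial.derivative q' = Polynomial.C d) :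
    ∃ q2 A2 B2 : Polynomial R, (q' = q2 ∨ q' = (1 - Polynomial.X) * q2) ∧
      A2 * q2 + B2 * Polynomial.derivative q2 = Polynomial.C d ∧ q2.eval 1 ≠ 0 := by
  by_cases h1 : q'.eval 1 = 0
  · obtain ⟨q1, hq1⟩ := Polynomial.dvd_iff_isRoot.2 (show Polynomial.IsRoot q' 1 from h1)
    have h2 : q' = (1 - Polynomial.X) * (-q1) := by
      rw [hq1, Polynomial.C_1]
      ring
    have h3 : Polynomial.derivative q' =
        -(-q1) + (1 - Polynomial.X) * Polynomial.derivative (-q1) := by
      rw [h2, Polynomial.derivative_mul]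
      simp
    generalize -q1 = q2 at h2 h3
    refine ⟨q2, A * (1 - Polynomial.X) - B, B * (1 - Polynomial.X), Or.inr h2, ?_, ?_⟩
    · rw [← h, h3, h2]
      ring
    · intro h4
      have h5 := congrArg (Polynomial.eval 1) h
      rw [h3, h2] at h5
      simp [h4] at h5
      exact hd h5.symm
  · exact ⟨q', A, B, Or.inl rfl, h, h1⟩

theorem sg_sq (a b : ℝ) (ha : a ≠ 0) : sg (a * a * b) = sg b := by
  unfold sg
  rw [sign_mul, sign_mul]
  have h : SignType.sign a * SignType.sign a = 1 := by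
    rw [← sign_mul]
    exact sign_pos (mul_self_pos.2 ha)
  rw [h, one_mul]

theorem sg_pos_mul (a b : ℝ) (ha : 0 < a) : sg (a * b) = sg b := by
  unfold sg
  rw [sign_mul, sign_pos ha, one_mul]

variable {n : ℕ}

/-- The evaluation homomorphism. -/
def ev (x : Fin n → ℝ) : MvPolynomial (Fin n) ℚ →+* ℝ :=
  (MvPolynomial.aeval x : MvPolynomial (Fin n) ℚ →ₐ[ℚ] ℝ).toRingHom

theorem ev_apply (x : Fin n → ℝ) (p : MvPolynomial (Fin n) ℚ) :
    ev x p = MvPolynomial.aeval x p := rfl

theorem sec_hom (x : Fin n → ℝ) (p : MvPolynomial (Fin (n + 1)) ℚ) :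
    sec p x = Polynomial.map (ev x) (MvPolynomial.finSuccEquiv ℚ n p) := by
  unfold sec
  induction p using MvPolynomial.induction_on with
  | C a =>
    rw [MvPolynomial.map_C, MvPolynomial.finSuccEquiv_apply, MvPolynomial.finSuccEquiv_apply]
    simp [ev]
  | add p q hp hq =>
    rw [map_add, map_add, map_add, Polynomial.map_add, Polynomial.map_add, hp, hq]
  | mul_X p i hp =>
    rw [map_mul, map_mul, map_mul, Polynomial.map_mul, Polynomial.map_mul, hp, MvPolynomial.map_X]
    congr 1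
    refine Fin.cases ?_ (fun j => ?_) i
    · rw [MvPolynomial.finSuccEquiv_X_zero, MvPolynomial.finSuccEquiv_X_zero]
      simp
    · rw [MvPolynomial.finSuccEquiv_X_succ, MvPolynomial.finSuccEquiv_X_succ]
      simp [ev]

theorem ae_ne {m : ℕ} (p : MvPolynomial (Fin m) ℚ) (hp : p ≠ 0) :
    ∀ᵐ x : Fin m → ℝ, (MvPolynomial.aeval x p : ℝ) ≠ 0 := by
  rw [ae_iff]
  simp only [not_not]
  exact Pool.Agent.CVol.null_rat p hp

theorem gen_of (q A B : Polynomial (MvPolynomial (Fin n) ℚ)) (d : MvPolynomial (Fin n) ℚ)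
    (hd : d ≠ 0) (h : A * q + B * Polynomial.derivative q = Polynomial.C d)
    (h1 : q.eval 1 ≠ 0) : Gen ((MvPolynomial.finSuccEquiv ℚ n).symm q) := by
  filter_upwards [ae_ne d hd, ae_ne _ h1] with x hx1 hx2
  have h2 : sec ((MvPolynomial.finSuccEquiv ℚ n).symm q) x = q.map (ev x) := by
    rw [sec_hom, AlgEquiv.apply_symm_apply]
  rw [h2]
  have h3 : (q.map (ev x)).eval 1 = ev x (q.eval 1) := by
    rw [Polynomial.eval_map, ← map_one (ev x), Polynomial.eval₂_at_apply]
  have h4 : (q.map (ev x)).eval 1 ≠ 0 := by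
    rw [h3, ev_apply]
    exact hx2
  refine ⟨fun h5 => h4 (by rw [h5, Polynomial.eval_zero]), fun r hr hr' => ?_, h4⟩
  have h6 := congrArg (fun f => Polynomial.aeval r (Polynomial.map (ev x) f)) h
  simp only [Polynomial.map_add, Polynomial.map_mul, map_add, map_mul, Polynomial.map_C,
    Polynomial.aeval_C] at h6
  rw [← Polynomial.derivative_map, hr, hr', mul_zero, mul_zero, add_zero] at h6
  apply hx1
  rw [← ev_apply]
  have h7 : ((ev x d : ℝ) : ℂ) = 0 := h6.symm
  exact_mod_cast h7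

end LfG

open LfG

/-- LEAF G -/
theorem exists_gen {n : ℕ} (p : MvPolynomial (Fin (n + 1)) ℚ) (hp : p ≠ 0) :
    ∃ P : MvPolynomial (Fin (n + 1)) ℚ, Gen P ∧ ∀ᵐ z : Fin (n + 1) → ℝ, z 0 < 1 →
      sg (MvPolynomial.aeval z p) = sg (MvPolynomial.aeval z P) := by
  obtain ⟨e, he⟩ : ∃ e, e = MvPolynomial.finSuccEquiv ℚ n := ⟨_, rfl⟩
  have hq : e p ≠ 0 := fun h => hp (e.injective (by rw [h, map_zero]))
  obtain ⟨s, t, q', A, B, d, hs, ht, hd, h1, h2⟩ := gen_alg (e p) hq
  obtain ⟨q2, A2, B2, h3, h4, h5⟩ := gen_one q' A B d hd h2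
  refine ⟨e.symm q2, ?_, ?_⟩
  · rw [he]
    exact gen_of q2 A2 B2 d hd h4 h5
  · have hs' : e.symm s ≠ 0 := fun h => hs (e.symm.injective (by rw [h, map_zero]))
    have ht' : e.symm t ≠ 0 := fun h => ht (e.symm.injective (by rw [h, map_zero]))
    have h6 : e.symm s * e.symm s * p = e.symm t * e.symm t * e.symm q' := by
      have h7 := congrArg e.symm h1
      simpa using h7
    have h8 : e.symm q' = e.symm q2 ∨ e.symm q' = (1 - MvPolynomial.X 0) * e.symm q2 := by
      rcases h3 with h3 | h3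
      · left
        rw [h3]
      · right
        rw [h3, map_mul, map_sub, map_one]
        congr 2
        rw [AlgEquiv.symm_apply_eq, he, MvPolynomial.finSuccEquiv_X_zero]
    filter_upwards [ae_ne _ hs', ae_ne _ ht'] with z hz1 hz2 hz3
    have h9 := congrArg (MvPolynomial.aeval (R := ℚ) z) h6
    simp only [map_mul] at h9
    rw [← sg_sq _ _ hz1, h9, sg_sq _ _ hz2]
    rcases h8 with h8 | h8
    · rw [h8]
    · rw [h8, map_mul, map_sub, map_one, MvPolynomial.aeval_X, sg_pos_mul _ _ (by linarith)]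

end Pool.Agent.WSP
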