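import Pool.Agent.W_2cf66e_h23.DefsS
import Pool.Agent.W_2cf66e_h65.HNull

/-!
# MP_2cf66e_nt, constant terms: the sum over the signs (helper23)
-/

set_option autoImplicit false

noncomputable section

open MeasureTheory Set Filter Topology MvPolynomial

namespace Pool.Agent.WSP

open Pool.Agent.CVol

/-- Change of signs. -/
def sgv {M : ℕ} (e : Fin M → ℤˣ) (t : Fin M → ℝ) : Fin M → ℝ :=
  fun i => ((e i : ℤ) : ℝ) * t i

theorem sgv_mul {M : ℕ} (e f : Fin M → ℤˣ) (t : Fin M → ℝ) :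
    sgv e (sgv f t) = sgv (e * f) t := by
  funext i
  simp only [sgv, Pi.mul_apply, Units.val_mul, Int.cast_mul]
  ring

theorem sgv_mp {M : ℕ} (e : Fin M → ℤˣ) : MeasurePreserving (sgv e) volume volume := by
  refine volume_preserving_pi (f := fun i (x : ℝ) => ((e i : ℤ) : ℝ) * x) fun i => ?_
  rcases Int.units_eq_one_or (e i) with h | h
  · rw [h]
    simp only [Units.val_one, Int.cast_one, one_mul]
    exact MeasurePreserving.id (volume : Measure ℝ)
  · rw [h]
    simpa using Measure.measurePreserving_neg (volume : Measure ℝ)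

/-- The sum over the signs is a polynomial in the squares. -/
theorem sgv_sum {M : ℕ} (p : MvPolynomial (Fin M) ℚ) :
    ∃ q : MvPolynomial (Fin M) ℚ, ∀ t : Fin M → ℝ,
      (aeval (fun i => t i ^ 2) q : ℝ) = ∑ e : Fin M → ℤˣ, aeval (sgv e t) p := by
  induction p using MvPolynomial.induction_on' with
  | monomial u a =>
    refine ⟨C a * ∏ i, (if Even (u i) then C 2 * X i ^ (u i / 2) else 0), fun t => ?_⟩
    have h1 : ∀ e : Fin M → ℤˣ, (aeval (sgv e t) (monomial u a) : ℝ) =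
        (a : ℝ) * ∏ i, (((e i : ℤ) : ℝ) * t i) ^ (u i) := by
      intro e
      rw [aeval_monomial, Finsupp.prod_fintype _ _ fun i => pow_zero _]
      rfl
    simp only [h1]
    rw [← Finset.mul_sum]
    have h2 := Finset.prod_univ_sum (fun _ : Fin M => (Finset.univ : Finset ℤˣ))
      (fun i s => (((s : ℤ) : ℝ) * t i) ^ (u i))
    rw [Fintype.piFinset_univ] at h2
    rw [← h2, map_mul, map_prod, aeval_C]
    congr 1
    refine Finset.prod_congr rfl fun i _ => ?_
    rw [UnitsInt.univ, Finset.sum_pair (by decide)]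
    split_ifs with h
    · obtain ⟨k, hk⟩ := h
      have h3 : u i / 2 = k := by omega
      have h4 : u i = 2 * k := by omega
      rw [h3, h4]
      simp only [map_mul, map_pow, aeval_X, aeval_C]
      simp only [Units.val_one, Units.val_neg, Int.cast_one, Int.cast_neg, one_mul, neg_mul,
        pow_mul, neg_sq]
      simp
      ring
    · rw [Nat.not_even_iff_odd] at h
      simp only [map_zero, Units.val_one, Units.val_neg, Int.cast_one, Int.cast_neg, one_mul,
        neg_mul, h.neg_pow]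
      ring
  | add p q hp hq =>
    obtain ⟨p', hp⟩ := hp
    obtain ⟨q', hq⟩ := hq
    refine ⟨p' + q', fun t => ?_⟩
    simp only [map_add, hp, hq, Finset.sum_add_distrib]

theorem sym_int {M : ℕ} (P Q : MvPolynomial (Fin M) ℚ) (hQ : Q ≠ 0)
    (hi : Integrable (fun t : Fin M → ℝ =>
      (MvPolynomial.aeval t P : ℝ) / MvPolynomial.aeval t Q)) :
    ∃ N D : MvPolynomial (Fin M) ℚ,
      (∀ t : Fin M → ℝ, (0 : ℝ) ≤ MvPolynomial.aeval (fun i => t i ^ 2) D) ∧
      Integrable (fun t : Fin M → ℝ => (MvPolynomial.aeval (fun i => t i ^ 2) N : ℝ) /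
        MvPolynomial.aeval (fun i => t i ^ 2) D) ∧
      ∫ t : Fin M → ℝ, (MvPolynomial.aeval (fun i => t i ^ 2) N : ℝ) /
        MvPolynomial.aeval (fun i => t i ^ 2) D =
        2 ^ M * ∫ t : Fin M → ℝ, (MvPolynomial.aeval t P : ℝ) / MvPolynomial.aeval t Q := by
  classical
  obtain ⟨act, hact⟩ : ∃ act : (Fin M → ℤˣ) → MvPolynomial (Fin M) ℚ → MvPolynomial (Fin M) ℚ,
      ∀ e p (t : Fin M → ℝ), (aeval t (act e p) : ℝ) = aeval (sgv e t) p := by
    refine ⟨fun e p => bind₁ (fun i => C (((e i : ℤ) : ℚ)) * X i) p, fun e p t => ?_⟩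
    rw [aeval_bind₁]
    congr 2
    funext i
    simp [sgv]
  obtain ⟨D0, hD0⟩ : ∃ D0 : MvPolynomial (Fin M) ℚ, ∀ t : Fin M → ℝ,
      (aeval t D0 : ℝ) = ∏ e : Fin M → ℤˣ, aeval (sgv e t) Q :=
    ⟨∏ e : Fin M → ℤˣ, act e Q, fun t => by
      rw [map_prod]
      exact Finset.prod_congr rfl fun e _ => hact e Q t⟩
  obtain ⟨N0, hN0⟩ : ∃ N0 : MvPolynomial (Fin M) ℚ, ∀ t : Fin M → ℝ,
      (aeval t N0 : ℝ) = ∑ e : Fin M → ℤˣ, aeval (sgv e t) P *
        ∏ f ∈ Finset.univ.erase e, aeval (sgv f t) Q :=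
    ⟨∑ e : Fin M → ℤˣ, act e P * ∏ f ∈ Finset.univ.erase e, act f Q, fun t => by
      rw [map_sum]
      refine Finset.sum_congr rfl fun e _ => ?_
      rw [map_mul, map_prod, hact]
      exact congrArg _ (Finset.prod_congr rfl fun f _ => hact f Q t)⟩
  -- invariance
  have hDi : ∀ (g : Fin M → ℤˣ) (t : Fin M → ℝ), (aeval (sgv g t) D0 : ℝ) = aeval t D0 := by
    intro g t
    rw [hD0, hD0]
    simp only [sgv_mul]
    exact Equiv.prod_comp (Equiv.mulRight g) (fun e => (aeval (sgv e t) Q : ℝ))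
  have hNi : ∀ (g : Fin M → ℤˣ) (t : Fin M → ℝ), (aeval (sgv g t) N0 : ℝ) = aeval t N0 := by
    intro g t
    rw [hN0, hN0]
    simp only [sgv_mul]
    rw [← Equiv.sum_comp (Equiv.mulRight g) (fun e => (aeval (sgv e t) P : ℝ) *
        ∏ f ∈ Finset.univ.erase e, aeval (sgv f t) Q)]
    refine Finset.sum_congr rfl fun e _ => ?_
    simp only [Equiv.coe_mulRight]
    congr 1
    refine Finset.prod_bij (fun f _ => f * g) ?_ ?_ ?_ ?_
    · intro f hf
      simp only [Finset.mem_erase, Finset.mem_univ, and_true] at hf ⊢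
      exact fun h => hf (mul_right_cancel h)
    · intro a _ b _ h
      exact mul_right_cancel h
    · intro b hb
      simp only [Finset.mem_erase, Finset.mem_univ, and_true] at hb ⊢
      exact ⟨b * g⁻¹, fun h => hb (by rw [← h]; group), by group⟩
    · intro f _
      rfl
  have hcard : (Fintype.card (Fin M → ℤˣ) : ℝ) = 2 ^ M := by
    rw [Fintype.card_fun, Fintype.card_units_int, Fintype.card_fin]
    push_cast
    rfl
  have hc0 : (2 : ℝ) ^ M ≠ 0 := by positivity
  -- invariant polynomials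
  have hinv : ∀ p : MvPolynomial (Fin M) ℚ,
      (∀ (g : Fin M → ℤˣ) (t : Fin M → ℝ), (aeval (sgv g t) p : ℝ) = aeval t p) →
      ∃ q : MvPolynomial (Fin M) ℚ, ∀ t : Fin M → ℝ,
        (aeval (fun i => t i ^ 2) q : ℝ) = aeval t p := by
    intro p hp
    obtain ⟨q, hq⟩ := sgv_sum p
    refine ⟨C (((2 : ℚ) ^ M)⁻¹) * q, fun t => ?_⟩
    rw [map_mul, hq, aeval_C]
    simp only [hp, Finset.sum_const, Finset.card_univ, nsmul_eq_mul, hcard]
    simp only [map_inv₀, map_pow, map_ofNat]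
    field_simp
  obtain ⟨N, hN⟩ := hinv (N0 * D0) fun g t => by rw [map_mul, map_mul, hDi, hNi]
  obtain ⟨D, hD⟩ := hinv (D0 ^ 2) fun g t => by rw [map_pow, map_pow, hDi]
  have hiF : ∀ e : Fin M → ℤˣ, Integrable (fun t : Fin M → ℝ =>
      (aeval (sgv e t) P : ℝ) / aeval (sgv e t) Q) := fun e =>
    ((sgv_mp e).integrable_comp hi.aestronglyMeasurable).2 hi
  have hvF : ∀ e : Fin M → ℤˣ, ∫ t : Fin M → ℝ, (aeval (sgv e t) P : ℝ) / aeval (sgv e t) Q =
      ∫ t : Fin M → ℝ, (aeval t P : ℝ) / aeval t Q := by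
    intro e
    have h1 := integral_map (μ := (volume : Measure (Fin M → ℝ))) (sgv_mp e).measurable.aemeasurable
      (f := fun t : Fin M → ℝ => (aeval t P : ℝ) / aeval t Q)
      (by rw [(sgv_mp e).map_eq]; exact hi.aestronglyMeasurable)
    rw [(sgv_mp e).map_eq] at h1
    exact h1.symm
  have hae : ∀ᵐ t : Fin M → ℝ, ∀ e : Fin M → ℤˣ, (aeval (sgv e t) Q : ℝ) ≠ 0 := by
    rw [ae_all_iff]
    intro e
    have h1 : ∀ᵐ t : Fin M → ℝ, (aeval t Q : ℝ) ≠ 0 := by
      rw [ae_iff]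
      simpa using null_rat Q hQ
    exact (sgv_mp e).quasiMeasurePreserving.ae h1
  have hEq : (fun t : Fin M → ℝ => (aeval (fun i => t i ^ 2) N : ℝ) /
      aeval (fun i => t i ^ 2) D) =ᵐ[volume]
      fun t => ∑ e : Fin M → ℤˣ, (aeval (sgv e t) P : ℝ) / aeval (sgv e t) Q := by
    filter_upwards [hae] with t ht
    have h1 : (aeval t D0 : ℝ) ≠ 0 := by
      rw [hD0]
      exact Finset.prod_ne_zero_iff.2 fun e _ => ht e
    rw [hN, hD, map_mul, map_pow, sq, mul_div_mul_right _ _ h1, div_eq_iff h1, Finset.sum_mul,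
      hN0]
    refine Finset.sum_congr rfl fun e _ => ?_
    rw [hD0, ← Finset.mul_prod_erase Finset.univ (fun f => (aeval (sgv f t) Q : ℝ))
      (Finset.mem_univ e)]
    have h2 := ht e
    field_simp
  refine ⟨N, D, fun t => ?_, ?_, ?_⟩
  · rw [hD, map_pow]
    positivity
  · exact (integrable_finsetSum _ fun e _ => hiF e).congr hEq.symm
  · rw [integral_congr_ae hEq, integral_finsetSum _ fun e _ => hiF e]
    simp only [hvF, Finset.sum_const, Finset.card_univ, nsmul_eq_mul, hcard]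

end Pool.Agent.WSP
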