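import Pool.Agent.W_2cf66e_h23.DefsS
import Pool.Agent.W_2cf66e_h65.KPer
import Pool.Agent.W_2cf66e_h65.KSer

/-!
# MP_2cf66e_nt, constant terms with the exact power of `π`: leaf C3 (helper78)
-/

set_option autoImplicit false

noncomputable section

open MeasureTheory Set Filter Topology

namespace Pool.Agent.WSP

open Pool.Agent.CVol

theorem sq_pull {M : ℕ} (p : MvPolynomial (Fin M) ℚ) :
    ∃ (d : ℕ) (q : MvPolynomial (Fin M) ℚ), ∀ t : Fin M → ℝ,
      (MvPolynomial.aeval (KPer_psi t) q : ℝ) =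
        MvPolynomial.aeval (fun i => t i ^ 2) p * (∏ i, (1 - KPer_psi t i)) ^ d := by
  have hD : ∀ t : Fin M → ℝ, (MvPolynomial.aeval (KPer_psi t)
      (∏ i, (1 - MvPolynomial.X i) : MvPolynomial (Fin M) ℚ) : ℝ) =
      ∏ i, (1 - KPer_psi t i) := by
    intro t
    simp
  induction p using MvPolynomial.induction_on with
  | C a =>
    refine ⟨0, MvPolynomial.C a, fun y => ?_⟩
    rw [pow_zero, mul_one, MvPolynomial.aeval_C, MvPolynomial.aeval_C]
  | add p q hp hq =>
    obtain ⟨d1, q1, h1⟩ := hp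
    obtain ⟨d2, q2, h2⟩ := hq
    refine ⟨d1 + d2, q1 * (∏ i, (1 - MvPolynomial.X i)) ^ d2 +
      q2 * (∏ i, (1 - MvPolynomial.X i)) ^ d1, fun y => ?_⟩
    rw [map_add, map_mul, map_mul, map_pow, map_pow, hD, h1 y, h2 y, map_add, pow_add]
    ring
  | mul_X p i hp =>
    obtain ⟨d, q, h⟩ := hp
    refine ⟨d + 1, q * ((1 + MvPolynomial.X i) *
      ∏ j ∈ Finset.univ.erase i, (1 - MvPolynomial.X j)), fun y => ?_⟩
    have h1 : (1 + (y i) ^ 2) ≠ 0 := by positivity
    have h2 : ∏ j, (1 - KPer_psi y j) =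
        (1 - KPer_psi y i) * ∏ j ∈ Finset.univ.erase i, (1 - KPer_psi y j) :=
      (Finset.mul_prod_erase Finset.univ (fun j => 1 - KPer_psi y j) (Finset.mem_univ i)).symm
    have h3 : (MvPolynomial.aeval (KPer_psi y) (∏ j ∈ Finset.univ.erase i,
        (1 - MvPolynomial.X j) : MvPolynomial (Fin M) ℚ) : ℝ) =
        ∏ j ∈ Finset.univ.erase i, (1 - KPer_psi y j) := by
      simp
    have h4 : (1 + KPer_psi y i : ℝ) = (y i) ^ 2 * (1 - KPer_psi y i) := by
      have h5 : KPer_psi y i = ((y i) ^ 2 - 1) / (1 + (y i) ^ 2) := rfl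
      rw [h5]
      field_simp
      ring
    have h6 : (∏ j, (1 - KPer_psi y j)) ^ (d + 1) = (∏ j, (1 - KPer_psi y j)) ^ d *
        ((1 - KPer_psi y i) * ∏ j ∈ Finset.univ.erase i, (1 - KPer_psi y j)) := by
      rw [pow_succ, ← h2]
    rw [map_mul, map_mul, h y, h3, map_mul, map_add, map_one, MvPolynomial.aeval_X,
      MvPolynomial.aeval_X, h4, h6]
    ring

end Pool.Agent.WSP
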