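import Pool.Agent.W_2cf66e_h23.LuC1

/-!
# MP_2cf66e_nt: constant term series, values on the box (helper23)
-/

set_option autoImplicit false

noncomputable section

open MeasureTheory Set Filter Topology MvPolynomial

namespace Pool.Agent.WSP

open Pool.Agent.CVol

theorem cont_box {M : ℕ} (p : MvPolynomial (Fin M) ℚ) :
    Continuous (fun z : Fin M → ℝ => (MvPolynomial.aeval z p : ℝ)) := by
  induction p using MvPolynomial.induction_on with
  | C a =>
    simp only [MvPolynomial.algHom_C]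
    exact continuous_const
  | add p q hp hq =>
    simp only [map_add]
    exact hp.add hq
  | mul_X p j hp =>
    simp only [map_mul, MvPolynomial.aeval_X]
    exact hp.mul (continuous_apply j)

theorem box_nonneg {M : ℕ} (q : MvPolynomial (Fin M) ℚ)
    (h : ∀ t : Fin M → ℝ, (0 : ℝ) ≤ MvPolynomial.aeval (KPer_psi t) q) :
    ∃ κ : ℚ, 0 < κ ∧ ∀ c : Fin M → ℝ, (∀ i, -1 ≤ c i ∧ c i ≤ 1) →
      (0 : ℝ) ≤ MvPolynomial.aeval c q ∧ (MvPolynomial.aeval c q : ℝ) ≤ κ := by
  have hq := cont_box q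
  have hcpt : IsCompact (Set.Icc (fun _ : Fin M => (-1 : ℝ)) (fun _ => (1 : ℝ))) := isCompact_Icc
  obtain ⟨B, hB⟩ := hcpt.bddAbove_image hq.continuousOn
  obtain ⟨k, hk⟩ := exists_nat_ge (max B 1)
  have hmem : ∀ c : Fin M → ℝ, (∀ i, -1 ≤ c i ∧ c i ≤ 1) →
      c ∈ Set.Icc (fun _ : Fin M => (-1 : ℝ)) (fun _ => (1 : ℝ)) := fun c hc =>
    ⟨fun i => (hc i).1, fun i => (hc i).2⟩
  have hopen : ∀ c : Fin M → ℝ, (∀ i, -1 < c i ∧ c i < 1) → (0 : ℝ) ≤ MvPolynomial.aeval c q := by
    intro c hc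
    have h1 : KPer_psi (fun i => Real.sqrt ((1 + c i) / (1 - c i))) = c := by
      funext i
      have h2 : 0 < 1 - c i := by linarith [(hc i).2]
      have h3 : 0 ≤ (1 + c i) / (1 - c i) := div_nonneg (by linarith [(hc i).1]) h2.le
      change ((Real.sqrt ((1 + c i) / (1 - c i))) ^ 2 - 1) /
        (1 + (Real.sqrt ((1 + c i) / (1 - c i))) ^ 2) = c i
      rw [Real.sq_sqrt h3]
      have h4 : 1 - c i ≠ 0 := h2.ne'
      field_simp
      ring
    have h5 := h (fun i => Real.sqrt ((1 + c i) / (1 - c i)))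
    rwa [h1] at h5
  refine ⟨k, ?_, fun c hc => ⟨?_, ?_⟩⟩
  · have : (0 : ℝ) < k := lt_of_lt_of_le (by linarith [le_max_right B 1]) hk
    exact_mod_cast this
  · have h1 : Continuous (fun s : ℝ => (MvPolynomial.aeval (fun i => s * c i) q : ℝ)) :=
      hq.comp (continuous_pi fun i => continuous_id.mul continuous_const)
    have h2 : Tendsto (fun s : ℝ => (MvPolynomial.aeval (fun i => s * c i) q : ℝ)) (𝓝[<] 1)
        (𝓝 (MvPolynomial.aeval (fun i => 1 * c i) q)) := (h1.tendsto 1).mono_left nhdsWithin_le_nhds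
    simp only [one_mul] at h2
    refine ge_of_tendsto h2 ?_
    have h3 : Ioo (0 : ℝ) 1 ∈ 𝓝[<] (1 : ℝ) := Ioo_mem_nhdsLT zero_lt_one
    filter_upwards [h3] with s hs
    refine hopen _ fun i => ?_
    have h4 := hc i
    constructor <;> nlinarith [hs.1, hs.2, h4.1, h4.2]
  · have h1 := hB (Set.mem_image_of_mem _ (hmem c hc))
    have h2 : (MvPolynomial.aeval c q : ℝ) ≤ k := h1.trans ((le_max_left _ _).trans hk)
    simpa using h2

end Pool.Agent.WSP
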