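import Pool.Agent.W_2cf66e_h23.LuC1
import Pool.Agent.W_2cf66e_h23.LuC2
import Pool.Agent.W_2cf66e_h23.LuC3
import Pool.Agent.W_2cf66e_h23.LuC3b

/-!
# MP_2cf66e_nt: integrals over the whole space as series of constant terms (helper23)
-/

set_option autoImplicit false

noncomputable section

open MeasureTheory Set Filter Topology

namespace Pool.Agent.WSP

open Pool.Agent.CVol

/-- `x` is a series of constant terms in `n + 1` variables, times `π ^ n`. -/
theorem ri_ct {n : ℕ} (x : ℝ) : RI (n + 1) x ↔ ∃ A T : MvPolynomial (Fin (n + 1)) ℚ,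
      (∀ c : Fin (n + 1) → ℝ, (∀ i, -1 ≤ c i ∧ c i ≤ 1) →
        0 ≤ MvPolynomial.aeval c T ∧ MvPolynomial.aeval c T ≤ (1 : ℝ)) ∧
      (Summable fun k : ℕ => ∫ θ in ucube (Fin (n + 1)),
        |MvPolynomial.aeval (cs θ) A| * (MvPolynomial.aeval (cs θ) T : ℝ) ^ k) ∧
      x = Real.pi ^ n * ∑' k : ℕ, (Lam (A * T ^ k) : ℝ) := by
  have hbox : ∀ (c : Fin (n + 1) → ℝ), c ∈ box (Fin (n + 1)) ↔ ∀ i, -1 ≤ c i ∧ c i ≤ 1 := by
    intro c
    rw [box_eq]
    rfl
  have hpi : Real.pi ≠ 0 := Real.pi_ne_zero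
  constructor
  · rintro ⟨P, Q, hi, hv⟩
    by_cases hx : x = 0
    · refine ⟨0, 0, fun c _ => by simp, ?_, ?_⟩
      · simp only [map_zero, abs_zero, zero_mul, integral_zero]
        exact summable_zero
      · rw [hx]
        simp [Lam]
    have hQ : Q ≠ 0 := by
      intro h
      apply hx
      rw [h] at hv
      simp only [map_zero, div_zero, integral_zero] at hv
      exact (mul_eq_zero.1 hv.symm).resolve_left hpi
    obtain ⟨N, D, hD, hi2, hv2⟩ := sym_int P Q hQ hi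
    obtain ⟨dN, qN, hN⟩ := sq_pull N
    obtain ⟨dD, qD, hDq⟩ := sq_pull D
    obtain ⟨w, hw⟩ : ∃ w : MvPolynomial (Fin (n + 1)) ℚ, ∀ c : Fin (n + 1) → ℝ,
        (MvPolynomial.aeval c w : ℝ) = ∏ i, (1 - c i) :=
      ⟨∏ i, (1 - MvPolynomial.X i), fun c => by simp⟩
    have hone : ∀ (t : Fin (n + 1) → ℝ) (i : Fin (n + 1)),
        1 - KPer_psi t i = 2 * (1 / (1 + (t i) ^ 2)) := by
      intro t i
      have h2 : (1 + (t i) ^ 2) ≠ 0 := by positivity
      change 1 - ((t i) ^ 2 - 1) / (1 + (t i) ^ 2) = _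
      field_simp
      ring
    have hpr : ∀ t : Fin (n + 1) → ℝ, 0 < ∏ i, (1 - KPer_psi t i) := by
      intro t
      refine Finset.prod_pos fun i _ => ?_
      rw [hone]
      positivity
    obtain ⟨κ, hκ, hb⟩ := box_nonneg (qD * w ^ (dN + 1)) (fun t => by
      rw [map_mul, map_pow, hDq, hw]
      have h1 := hpr t
      have h2 := hD t
      positivity)
    have hκr : (0 : ℝ) < κ := by exact_mod_cast hκ
    have hκ0 : (κ : ℝ) ≠ 0 := hκr.ne'
    obtain ⟨A, hA⟩ : ∃ A : MvPolynomial (Fin (n + 1)) ℚ, ∀ c : Fin (n + 1) → ℝ,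
        (MvPolynomial.aeval c A : ℝ) = (κ : ℝ)⁻¹ * MvPolynomial.aeval c (qN * w ^ dD) :=
      ⟨MvPolynomial.C κ⁻¹ * (qN * w ^ dD), fun c => by
        rw [map_mul (MvPolynomial.aeval c) (MvPolynomial.C κ⁻¹), MvPolynomial.aeval_C]
        simp⟩
    obtain ⟨T, hT⟩ : ∃ T : MvPolynomial (Fin (n + 1)) ℚ, ∀ c : Fin (n + 1) → ℝ,
        (MvPolynomial.aeval c T : ℝ) = 1 - (κ : ℝ)⁻¹ * MvPolynomial.aeval c (qD * w ^ (dN + 1)) :=
      ⟨1 - MvPolynomial.C κ⁻¹ * (qD * w ^ (dN + 1)), fun c => by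
        rw [map_sub, map_one, map_mul (MvPolynomial.aeval c) (MvPolynomial.C κ⁻¹),
          MvPolynomial.aeval_C]
        simp⟩
    have hTb : ∀ c : Fin (n + 1) → ℝ, (∀ i, -1 ≤ c i ∧ c i ≤ 1) →
        0 ≤ MvPolynomial.aeval c T ∧ MvPolynomial.aeval c T ≤ (1 : ℝ) := by
      intro c hc
      obtain ⟨h1, h2⟩ := hb c hc
      rw [hT]
      have h3 : (κ : ℝ)⁻¹ * MvPolynomial.aeval c (qD * w ^ (dN + 1)) ≤ 1 := by
        rw [inv_mul_le_iff₀ hκr, mul_one]
        exact h2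
      have h4 : 0 ≤ (κ : ℝ)⁻¹ * MvPolynomial.aeval c (qD * w ^ (dN + 1)) :=
        mul_nonneg (inv_pos.2 hκr).le h1
      constructor <;> linarith
    obtain ⟨F, hF⟩ : ∃ F : (Fin (n + 1) → ℝ) → ℝ, F = fun c =>
        (MvPolynomial.aeval c A : ℝ) / (1 - MvPolynomial.aeval c T) := ⟨_, rfl⟩
    have hFt : ∀ t : Fin (n + 1) → ℝ, (∏ i, (1 / (1 + (t i) ^ 2) / Real.pi)) * F (KPer_psi t) =
        (Real.pi ^ (n + 1) * 2 ^ (n + 1))⁻¹ *
          ((MvPolynomial.aeval (fun i => t i ^ 2) N : ℝ) /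
            MvPolynomial.aeval (fun i => t i ^ 2) D) := by
      intro t
      have hp := (hpr t).ne'
      have h1 : ∏ i, (1 / (1 + (t i) ^ 2) / Real.pi) =
          (∏ i, (1 - KPer_psi t i)) * (Real.pi ^ (n + 1) * 2 ^ (n + 1))⁻¹ := by
        rw [Finset.prod_congr rfl fun i _ => hone t i, Finset.prod_div_distrib,
          Finset.prod_mul_distrib]
        simp only [Finset.prod_const, Finset.card_univ, Fintype.card_fin]
        have h2 : (2 : ℝ) ^ (n + 1) ≠ 0 := by positivity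
        have h3 : Real.pi ^ (n + 1) ≠ 0 := pow_ne_zero _ hpi
        field_simp
      have h2 : F (KPer_psi t) = ((MvPolynomial.aeval (fun i => t i ^ 2) N : ℝ) /
          MvPolynomial.aeval (fun i => t i ^ 2) D) * (∏ i, (1 - KPer_psi t i))⁻¹ := by
        rw [hF]
        simp only
        rw [hA, hT, sub_sub_cancel, map_mul, map_mul, map_pow, map_pow, hN, hDq, hw]
        by_cases hz : (MvPolynomial.aeval (fun i => t i ^ 2) D : ℝ) = 0
        · rw [hz]
          simp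
        · field_simp
          ring
      rw [h1, h2]
      field_simp
    have hc := ct_change F
    simp only [hFt] at hc
    have hiF := hc.1.2 (hi2.const_mul _)
    have hvF := hc.2
    rw [integral_const_mul, hv2, hv] at hvF
    have hvF' : ∫ θ in ucube (Fin (n + 1)), F (cs θ) = (Real.pi ^ n)⁻¹ * x := by
      rw [hvF]
      have h2 : (2 : ℝ) ^ (n + 1) ≠ 0 := by positivity
      field_simp
      ring
    have hT1 : T ≠ 1 := by
      intro h
      apply hx
      have h3 : ∀ θ : Fin (n + 1) → ℝ, F (cs θ) = 0 := by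
        intro θ
        rw [hF, h]
        simp
      simp only [h3, integral_zero] at hvF'
      exact (mul_eq_zero.1 hvF'.symm).resolve_left (inv_ne_zero (pow_ne_zero _ hpi))
    obtain ⟨s1, s2⟩ := series_iff A T hT1 fun c hc => hTb c ((hbox c).1 hc)
    rw [hF] at hiF hvF'
    refine ⟨A, T, hTb, s1.1 hiF, ?_⟩
    rw [← s2 hiF, hvF', ← mul_assoc, mul_inv_cancel₀ (pow_ne_zero _ hpi), one_mul]
  · rintro ⟨A, T, hT, hs, hx⟩
    have hT' : ∀ c ∈ box (Fin (n + 1)), 0 ≤ MvPolynomial.aeval c T ∧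
        MvPolynomial.aeval c T ≤ (1 : ℝ) := fun c hc => hT c ((hbox c).1 hc)
    by_cases hT1 : T = 1
    · subst hT1
      have h0 := series_one A hs
      rw [hx, h0, mul_zero]
      exact ⟨0, 1, by simp, by simp⟩
    · obtain ⟨s1, s2⟩ := series_iff A T hT1 hT'
      have hi := s1.2 hs
      have hp := ct_ri A T hi
      rw [s2 hi, ← hx] at hp
      exact hp

end Pool.Agent.WSP
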