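import Pool.Agent.W_2cf66e_h23.Sec

/-!
# MP_2cf66e_nt, integrals over the whole space: the converse (helper23)
-/

set_option autoImplicit false

noncomputable section

open MeasureTheory Set Filter Topology

namespace Pool.Agent.WSP

variable {n : ℕ} {P Q : MvPolynomial (Fin (n + 1)) ℚ}

theorem period_neg' {x : ℝ} (h : Pool.Agent.CVol.IsPeriod x) : Pool.Agent.CVol.IsPeriod (-x) := by
  obtain ⟨n, P, Q, k, m, p, hi, hv⟩ := h
  refine ⟨n, -P, Q, k, m, p, ?_, ?_⟩
  · simp only [map_neg, neg_div]
    exact hi.neg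
  · simp only [map_neg, neg_div]
    rw [integral_neg, hv]

theorem period_zero : Pool.Agent.CVol.IsPeriod 0 := by
  have h := Pool.Agent.OneIneq.period_int 0
  simpa using h

theorem period_vol {k : ℕ} {s : Set (Fin k → ℝ)} (hs : Pool.Agent.CVol.IsSA s)
    (hv : volume s ≠ ⊤) : Pool.Agent.CVol.IsPeriod (volume s).toReal := by
  rcases lt_or_eq_of_le (ENNReal.toReal_nonneg (a := volume s)) with h0 | h0
  · exact Pool.Agent.CVol.period_of_volume hs _ h0 (ENNReal.ofReal_toReal hv).symm
  · rw [← h0]
    exact period_zero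

/-- The positive part of the integral. -/
theorem pos_part (hQ : Q ≠ 0) (hi : Integrable fun z : Fin (n + 1) → ℝ =>
    (MvPolynomial.aeval z P : ℝ) / MvPolynomial.aeval z Q) :
    Pool.Agent.CVol.IsPeriod (∫⁻ x, ENNReal.ofReal (gin P Q x)).toReal := by
  obtain ⟨m, hm⟩ : ∃ m, (MvPolynomial.finSuccEquiv ℝ n
      (MvPolynomial.map (algebraMap ℚ ℝ) Q)).natDegree ≤ m := ⟨_, le_rfl⟩
  have hsa := sa_sub P Q m
  have hae := sub_ae hQ hi hm
  set S : Set (Fin (n + 1) → ℝ) := {y | Sub P Q m y} with hS
  have hSm : MeasurableSet S := hsa.measurable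
  have hvol : volume S = ∫⁻ x, ENNReal.ofReal (gin P Q x) := by
    have h1 : MeasurePreserving (EE n).symm
      ((volume : Measure (Fin n → ℝ)).prod (volume : Measure ℝ)) volume := (EE_mp n).symm
    rw [← h1.measure_preimage_equiv S, Measure.prod_apply ((EE n).symm.measurable hSm)]
    refine lintegral_congr_ae ?_
    filter_upwards [hae] with x hx
    have h2 : Prod.mk x ⁻¹' ((EE n).symm ⁻¹' S) = Ioo 0 (gin P Q x) := by
      ext t
      simp only [mem_preimage, EE_symm, mem_Ioo]
      exact hx t
    rw [h2, Real.volume_Ioo, sub_zero]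
  rw [← hvol]
  refine period_vol hsa ?_
  rw [hvol]
  exact ((gin_int hi).lintegral_lt_top).ne

theorem gin_neg (x : Fin n → ℝ) : gin (-P) Q x = - gin P Q x := by
  unfold gin qq
  simp only [map_neg, neg_div]
  rw [integral_neg]
  ring

/-- Absolutely convergent integrals of rational functions over the whole space are pi times
periods. -/
theorem back (P Q : MvPolynomial (Fin (n + 1)) ℚ) (hi : Integrable fun z : Fin (n + 1) → ℝ =>
    (MvPolynomial.aeval z P : ℝ) / MvPolynomial.aeval z Q) :
    Pool.Agent.CVol.IsPeriod (Real.pi⁻¹ * ∫ z : Fin (n + 1) → ℝ,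
      (MvPolynomial.aeval z P : ℝ) / MvPolynomial.aeval z Q) := by
  by_cases hQ : Q = 0
  · rw [hQ]
    simp only [map_zero, div_zero, integral_zero, mul_zero]
    exact period_zero
  · have hi' : Integrable fun z : Fin (n + 1) → ℝ =>
        (MvPolynomial.aeval z (-P) : ℝ) / MvPolynomial.aeval z Q := by
      simp only [map_neg, neg_div]
      exact hi.neg
    rw [← gin_total hi, integral_eq_lintegral_pos_part_sub_lintegral_neg_part (gin_int hi)]
    have h1 := pos_part hQ hi
    have h2 := pos_part hQ hi'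
    simp only [gin_neg] at h2
    rw [sub_eq_add_neg]
    exact Pool.Agent.OneIneq.period_add h1 (period_neg' h2)

end Pool.Agent.WSP
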