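import Pool.Agent.W_2cf66e_h23.DefsS

/-!
# MP_2cf66e_nt, integrals over the whole space in the same dimension: closure lemmas (helper3)
-/

set_option autoImplicit false

noncomputable section

open MeasureTheory Set Filter Topology

namespace Pool.Agent.WSP

variable {n m : ℕ}

theorem ae_ne3 (Q : MvPolynomial (Fin m) ℚ) (hQ : Q ≠ 0) :
    ∀ᵐ z : Fin m → ℝ, (MvPolynomial.aeval z Q : ℝ) ≠ 0 := by
  rw [ae_iff]
  simp only [not_not]
  exact Pool.Agent.CVol.null_rat Q hQ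

theorem AR.ofRF {f : (Fin m → ℝ) → ℝ} (hf : RF f) : AR f := by
  obtain ⟨P, Q, hQ, h⟩ := hf
  refine ⟨P, Q, ?_, Eventually.of_forall h⟩
  rintro rfl
  have h1 := hQ 0
  simp at h1

theorem AR.congr3 {f g : (Fin m → ℝ) → ℝ} (hf : AR f) (h : ∀ᵐ z, f z = g z) : AR g := by
  obtain ⟨P, Q, hQ, h1⟩ := hf
  refine ⟨P, Q, hQ, ?_⟩
  filter_upwards [h, h1] with z h2 h3
  rw [← h2, h3]

theorem AR.add {f g : (Fin m → ℝ) → ℝ} (hf : AR f) (hg : AR g) : AR (fun z => f z + g z) := by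
  obtain ⟨P, Q, hQ, h⟩ := hf
  obtain ⟨P', Q', hQ', h'⟩ := hg
  refine ⟨P * Q' + P' * Q, Q * Q', mul_ne_zero hQ hQ', ?_⟩
  filter_upwards [h, h', ae_ne3 Q hQ, ae_ne3 Q' hQ'] with z h1 h2 h3 h4
  rw [h1, h2]
  simp only [map_add, map_mul]
  field_simp

theorem AR.mul {f g : (Fin m → ℝ) → ℝ} (hf : AR f) (hg : AR g) : AR (fun z => f z * g z) := by
  obtain ⟨P, Q, hQ, h⟩ := hf
  obtain ⟨P', Q', hQ', h'⟩ := hg
  refine ⟨P * P', Q * Q', mul_ne_zero hQ hQ', ?_⟩
  filter_upwards [h, h'] with z h1 h2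
  rw [h1, h2, map_mul, map_mul, div_mul_div_comm]

theorem AR.const3 (q : ℚ) : AR (fun _ : Fin m → ℝ => (q : ℝ)) := AR.ofRF (RF.const q)

theorem AR.sum {α : Type} (s : Finset α) {f : α → (Fin m → ℝ) → ℝ} (hf : ∀ a ∈ s, AR (f a)) :
    AR (fun z => ∑ a ∈ s, f a z) := by
  classical
  induction s using Finset.induction_on with
  | empty =>
    have h := AR.const3 (m := m) 0
    simpa using h
  | insert a s ha ih =>
    simp only [Finset.sum_insert ha]
    exact (hf a (Finset.mem_insert_self a s)).add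
      (ih fun b hb => hf b (Finset.mem_insert_of_mem hb))

theorem RI_of_AR {g : (Fin m → ℝ) → ℝ} (hg : AR g) (hi : Integrable g) :
    RI m (Real.pi⁻¹ * ∫ z, g z) := by
  obtain ⟨P, Q, hQ, h⟩ := hg
  refine ⟨P, Q, hi.congr h, ?_⟩
  rw [← integral_congr_ae h, ← mul_assoc, mul_inv_cancel₀ Real.pi_pos.ne', one_mul]

/-- The integrand of `RI` as an almost everywhere rational function. -/
theorem RI.exists3 {a : ℝ} (ha : RI m a) :
    ∃ g : (Fin m → ℝ) → ℝ, AR g ∧ Integrable g ∧ ∫ z, g z = Real.pi * a := by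
  obtain ⟨P, Q, hi, h⟩ := ha
  by_cases hQ : Q = 0
  · refine ⟨fun _ => 0, by simpa using AR.const3 (m := m) 0, integrable_zero _ _ _, ?_⟩
    rw [← h, hQ]
    simp
  · exact ⟨_, ⟨P, Q, hQ, Eventually.of_forall fun z => rfl⟩, hi, h⟩

theorem RI.congr3 {a b : ℝ} (ha : RI m a) (h : a = b) : RI m b := h ▸ ha

theorem RI.of3 {g : (Fin m → ℝ) → ℝ} {a : ℝ} (hg : AR g) (hi : Integrable g)
    (h : ∫ z, g z = Real.pi * a) : RI m a := by
  have h1 := RI_of_AR hg hi
  rw [h, ← mul_assoc, inv_mul_cancel₀ Real.pi_pos.ne', one_mul] at h1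
  exact h1

theorem RI.add {a b : ℝ} (ha : RI m a) (hb : RI m b) : RI m (a + b) := by
  obtain ⟨f, hf, hfi, hf2⟩ := ha.exists3
  obtain ⟨g, hg, hgi, hg2⟩ := hb.exists3
  refine RI.of3 (hf.add hg) (hfi.add hgi) ?_
  rw [integral_add hfi hgi, hf2, hg2, mul_add]

theorem RI.smul {a : ℝ} (q : ℚ) (ha : RI m a) : RI m ((q : ℝ) * a) := by
  obtain ⟨f, hf, hfi, hf2⟩ := ha.exists3
  refine RI.of3 ((AR.const3 q).mul hf) (hfi.const_mul _) ?_
  rw [integral_const_mul, hf2]
  ring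

theorem RI.zero3 : RI m 0 := by
  refine RI.of3 (g := fun _ => 0) (by simpa using AR.const3 (m := m) 0)
    (integrable_zero _ _ _) ?_
  simp

theorem RI.sum {k : ℕ} (c : Fin k → ℚ) (a : Fin k → ℝ) (h : ∀ i, RI m (a i)) :
    RI m (∑ i, (c i : ℝ) * a i) := by
  classical
  have h1 : ∀ s : Finset (Fin k), RI m (∑ i ∈ s, (c i : ℝ) * a i) := by
    intro s
    induction s using Finset.induction_on with
    | empty => simpa using RI.zero3 (m := m)
    | insert i s hi ih =>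
      rw [Finset.sum_insert hi]
      exact ((h i).smul (c i)).add ih
  exact h1 Finset.univ

theorem cont_aeval3 {κ : Type} (f : MvPolynomial κ ℚ) :
    Continuous (fun u : κ → ℝ => (MvPolynomial.aeval u f : ℝ)) := by
  induction f using MvPolynomial.induction_on with
  | C a => simpa using continuous_const
  | add p q hp hq =>
    simp only [map_add]
    exact hp.add hq
  | mul_X p j hp =>
    simp only [map_mul, MvPolynomial.aeval_X]
    exact hp.mul (continuous_apply j)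

theorem RF.poly3 {κ ι : Type} (f : MvPolynomial κ ℚ) (g : κ → ι) :
    RF (fun z : ι → ℝ => (MvPolynomial.aeval (fun j => z (g j)) f : ℝ)) := by
  induction f using MvPolynomial.induction_on with
  | C a =>
    have h := RF.const (ι := ι) a
    simpa using h
  | add p q hp hq =>
    simp only [map_add]
    exact hp.add hq
  | mul_X p j hp =>
    simp only [map_mul, MvPolynomial.aeval_X]
    exact hp.mul (RF.var (g j))

theorem RI_first (f : MvPolynomial (Fin n) ℚ) :
    RI (n + 1) (∫ x in cube n, sg (MvPolynomial.aeval x f)) := by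
  obtain ⟨fr, hfr⟩ : ∃ fr : (Fin n → ℝ) → ℝ, fr = fun u => (MvPolynomial.aeval u f : ℝ) :=
    ⟨_, rfl⟩
  have hc : Continuous fr := by
    rw [hfr]
    exact cont_aeval3 f
  have hRF : RF (fun z : Fin (n + 1) → ℝ => WSP.FF fr (fun j => z j.succ) (z 0)) := by
    refine RF.FF ?_
    rw [hfr]
    exact RF.poly3 f Fin.succ
  have hA : AR (fun z : Fin (n + 1) → ℝ => (((2 : ℚ) ^ n)⁻¹ : ℚ) *
      WSP.FF fr (fun j => z j.succ) (z 0)) := (AR.const3 _).mul (AR.ofRF hRF)
  have hi : Integrable (fun z : Fin (n + 1) → ℝ => WSP.FF fr (fun j => z j.succ) (z 0)) :=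
    ((EE_mp n).integrable_comp_emb (EE n).measurableEmbedding
      (g := fun p : (Fin n → ℝ) × ℝ => WSP.FF fr p.1 p.2)).2 (FF_integrable hc)
  have ht : ∫ z : Fin (n + 1) → ℝ, WSP.FF fr (fun j => z j.succ) (z 0) =
      Real.pi * 2 ^ n * ∫ u in cube n, sg (fr u) := by
    rw [← FF_total hc]
    exact (EE_mp n).integral_comp (EE n).measurableEmbedding
      (fun p : (Fin n → ℝ) × ℝ => WSP.FF fr p.1 p.2)
  refine RI.of3 hA (hi.const_mul _) ?_
  rw [integral_const_mul, ht, hfr]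
  push_cast
  have h2 : (2 : ℝ) ^ n ≠ 0 := by positivity
  field_simp

end Pool.Agent.WSP
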