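import Pool.Agent.W_2cf66e_h23.PerY

/-!
# MP_2cf66e_nt, same dimension: the inner integral (helper23)
-/

set_option autoImplicit false

noncomputable section

open MeasureTheory Set Filter Topology

namespace Pool.Agent.WSP

variable {n : ℕ}

theorem GG_cons (P : MvPolynomial (Fin (n + 1)) ℚ) (ε : (Fin n → ℝ) → ℝ) (x : Fin n → ℝ)
    (w : ℝ) : GG P ε (Fin.cons w x) = ((rts P x).map fun r => r * ER P x (ε x) r w).sum := by
  unfold GG ER
  simp only [tl_cons, Fin.cons_zero]
  have h := Multiset.sum_map_sum_map (Finset.univ : Finset (Fin (n + 1) → Bool)).val (rts P x)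
    (f := fun e r => r * EK (Polynomial.aeval r (hp P e x)) r (ε x) w)
  refine Eq.trans h ?_
  congr 1
  refine Multiset.map_congr rfl fun r _ => ?_
  rw [Finset.mul_sum]
  rfl

/-- The generic points. -/
def GenAt (P : MvPolynomial (Fin (n + 1)) ℚ) (x : Fin n → ℝ) : Prop :=
  sec P x ≠ 0 ∧ (∀ r : ℂ, Polynomial.aeval r (sec P x) = 0 →
    Polynomial.aeval r (Polynomial.derivative (sec P x)) ≠ 0) ∧ (sec P x).eval 1 ≠ 0

theorem secC_ne {P : MvPolynomial (Fin (n + 1)) ℚ} {x : Fin n → ℝ} (h : sec P x ≠ 0) :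
    (sec P x).map (algebraMap ℝ ℂ) ≠ 0 :=
  (Polynomial.map_ne_zero_iff (algebraMap ℝ ℂ).injective).2 h

theorem mem_rts {P : MvPolynomial (Fin (n + 1)) ℚ} {x : Fin n → ℝ} (h : sec P x ≠ 0) (r : ℂ) :
    r ∈ rts P x ↔ Polynomial.aeval r (sec P x) = 0 := by
  unfold rts
  rw [Polynomial.mem_roots (secC_ne h), Polynomial.IsRoot.def, Polynomial.eval_map_algebraMap]

theorem rts_nodup {P : MvPolynomial (Fin (n + 1)) ℚ} {x : Fin n → ℝ} (hg : GenAt P x) :
    (rts P x).Nodup := by
  classical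
  rw [Multiset.nodup_iff_count_le_one]
  intro r
  unfold rts
  rw [Polynomial.count_roots]
  by_contra h
  push Not at h
  have h2 := (Polynomial.one_lt_rootMultiplicity_iff_isRoot (secC_ne hg.1)).1 h
  rw [Polynomial.derivative_map, Polynomial.IsRoot.def, Polynomial.IsRoot.def,
    Polynomial.eval_map_algebraMap, Polynomial.eval_map_algebraMap] at h2
  exact hg.2.1 r h2.1 h2.2

theorem rts_card (P : MvPolynomial (Fin (n + 1)) ℚ) (x : Fin n → ℝ) :
    (rts P x).card ≤
      (MvPolynomial.finSuccEquiv ℝ n (MvPolynomial.map (algebraMap ℚ ℝ) P)).natDegree := by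
  unfold rts
  refine (Polynomial.card_roots' _).trans (le_trans ?_ (sec_deg P x))
  exact Polynomial.natDegree_map_le

/-- The sum over the real roots in the unit interval. -/
def JJ (P : MvPolynomial (Fin (n + 1)) ℚ) (x : Fin n → ℝ) : ℝ :=
  ∑ r ∈ (sec P x).roots.toFinset.filter (fun r => 0 < r ∧ r < 1),
    r * sg ((Polynomial.derivative (sec P x)).eval r)

/-- The cube factor. -/
def BB (x : Fin n → ℝ) : ℝ :=
  ∏ j : Fin n, (sg (cf (n + 1) true (x j)) + sg (cf (n + 1) false (x j)))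

theorem ff_sg (P : MvPolynomial (Fin (n + 1)) ℚ) (x : Fin n → ℝ) (r : ℝ) :
    sg (ff P (Fin.cons r x)) = sg ((Polynomial.derivative (sec P x)).eval r) := by
  unfold ff
  rw [sg_mul, tl_cons, Fin.cons_zero, sg_pos (Finset.prod_pos fun i _ => cf_den_pos (n + 1) _),
    mul_one]

theorem one_root (P : MvPolynomial (Fin (n + 1)) ℚ) (x : Fin n → ℝ) (r : ℝ) (h1 : r ≠ 1) :
    r * (Real.pi * (sg (ff P (Fin.cons r x)) *
      ∏ i, (sg (cf (n + 1) true ((Fin.cons r x : Fin (n + 1) → ℝ) i)) +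
        sg (cf (n + 1) false ((Fin.cons r x : Fin (n + 1) → ℝ) i))))) =
    if 0 < r ∧ r < 1 then Real.pi * (2 * BB x * (r *
      sg ((Polynomial.derivative (sec P x)).eval r))) else 0 := by
  rw [ff_sg, Fin.prod_univ_succ]
  simp only [Fin.cons_zero, Fin.cons_succ]
  rcases eq_or_ne r 0 with h0 | h0
  · rw [h0]
    simp
  · rw [cf_sign (Nat.succ_pos n) r h0 h1]
    by_cases hr : 0 < r ∧ r < 1
    · rw [if_pos ⟨hr.1.le, hr.2.le⟩, if_pos hr]
      unfold BB
      ring
    · have h2 : ¬ (0 ≤ r ∧ r ≤ 1) := by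
        rintro ⟨h3, h4⟩
        exact hr ⟨lt_of_le_of_ne h3 (Ne.symm h0), lt_of_le_of_ne h4 h1⟩
      rw [if_neg h2, if_neg hr]
      ring

theorem inner (P : MvPolynomial (Fin (n + 1)) ℚ) (ε : (Fin n → ℝ) → ℝ) (x : Fin n → ℝ)
    (hM : (Fin.cons (ε x) x : Fin (n + 1) → ℝ) ∈ Mset P) (hg : GenAt P x) :
    Integrable (fun w : ℝ => GG P ε (Fin.cons w x)) ∧
    ∫ w : ℝ, GG P ε (Fin.cons w x) = ((Real.pi * (2 * BB x * JJ P x) : ℝ) : ℂ) ∧
    ∫ w : ℝ, ‖GG P ε (Fin.cons w x)‖ ≤
      ((MvPolynomial.finSuccEquiv ℝ n (MvPolynomial.map (algebraMap ℚ ℝ) P)).natDegree : ℝ) *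
        (Real.pi * 10 ^ (n + 1) * (∏ j : Fin n, (1 + (x j) ^ 2))⁻¹) := by
  classical
  have ht : 0 < ε x := by
    have := hM.1
    simpa using this
  obtain ⟨S, hS⟩ : ∃ S : Finset ℂ, S = (rts P x).toFinset := ⟨_, rfl⟩
  have hmem : ∀ r : ℂ, r ∈ S ↔ Polynomial.aeval r (sec P x) = 0 := by
    intro r
    rw [hS, Multiset.mem_toFinset, mem_rts hg.1]
  have hsum : ∀ w : ℝ, GG P ε (Fin.cons w x) = ∑ r ∈ S, r * ER P x (ε x) r w := by
    intro w
    rw [GG_cons, hS, Finset.sum_multiset_map_count]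
    refine Finset.sum_congr rfl fun r hr => ?_
    rw [Multiset.mem_toFinset] at hr
    rw [Multiset.count_eq_one_of_mem (rts_nodup hg) hr, one_smul]
  have hcard : (S.card : ℝ) ≤
      ((MvPolynomial.finSuccEquiv ℝ n (MvPolynomial.map (algebraMap ℚ ℝ) P)).natDegree : ℝ) := by
    have h1 : S.card ≤ (rts P x).card := by
      rw [hS]
      exact Multiset.toFinset_card_le _
    exact_mod_cast h1.trans (rts_card P x)
  have hreal : ∀ r ∈ S, r.im = 0 → r = ((r.re : ℝ) : ℂ) := by
    intro r _ h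
    apply Complex.ext
    · simp
    · simp [h]
  have hER : ∀ r ∈ S, Integrable (ER P x (ε x) r) ∧
      ‖r‖ * ∫ w, ‖ER P x (ε x) r w‖ ≤
        Real.pi * 10 ^ (n + 1) * (∏ j : Fin n, (1 + (x j) ^ 2))⁻¹ := by
    intro r hr
    by_cases him : r.im = 0
    · have h1 := ER_real_all P x (ε x) r.re ht
      rw [← hreal r hr him] at h1
      exact ⟨h1.1, h1.2.2⟩
    · have h1 := ER_nonreal P x (ε x) r hM ((hmem r).1 hr) him
      exact ⟨h1.1, h1.2.2⟩
  have hint : ∀ r ∈ S, Integrable (fun w => r * ER P x (ε x) r w) := fun r hr =>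
    (hER r hr).1.const_mul r
  refine ⟨?_, ?_, ?_⟩
  · simp only [hsum]
    exact integrable_finsetSum _ hint
  · simp only [hsum]
    rw [integral_finsetSum _ hint]
    simp only [integral_const_mul]
    have hval : ∀ r ∈ S, r * ∫ w, ER P x (ε x) r w =
        if r.im = 0 then (((if 0 < r.re ∧ r.re < 1 then Real.pi * (2 * BB x * (r.re *
          sg ((Polynomial.derivative (sec P x)).eval r.re))) else 0) : ℝ) : ℂ) else 0 := by
      intro r hr
      by_cases him : r.im = 0
      · rw [if_pos him]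
        have h1 := ER_real_all P x (ε x) r.re ht
        have hr1 : r.re ≠ 1 := by
          intro h2
          have h3 := (hmem r).1 hr
          rw [hreal r hr him, h2] at h3
          have h4 := Polynomial.aeval_algebraMap_apply ℂ (1 : ℝ) (sec P x)
          have h5 : (algebraMap ℝ ℂ) 1 = ((1 : ℝ) : ℂ) := rfl
          rw [h5, h3] at h4
          apply hg.2.2
          have h6 : ((Polynomial.aeval (1 : ℝ) (sec P x) : ℝ) : ℂ) = 0 := h4.symm
          rw [Complex.ofReal_eq_zero] at h6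
          rwa [Polynomial.coe_aeval_eq_eval] at h6
        rw [← one_root P x r.re hr1]
        conv_lhs => rw [hreal r hr him]
        rw [h1.2.1]
        push_cast
        ring
      · rw [if_neg him, (ER_nonreal P x (ε x) r hM ((hmem r).1 hr) him).2.1, mul_zero]
    rw [Finset.sum_congr rfl hval, ← Finset.sum_filter, ← Complex.ofReal_sum]
    congr 1
    rw [← Finset.sum_filter]
    unfold JJ
    rw [Finset.mul_sum, Finset.mul_sum]
    symm
    refine Finset.sum_bij (fun (r : ℝ) _ => (r : ℂ)) ?_ ?_ ?_ ?_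
    · intro r hr
      rw [Finset.mem_filter, Multiset.mem_toFinset, Polynomial.mem_roots hg.1] at hr
      rw [Finset.mem_filter, Finset.mem_filter, hmem]
      refine ⟨⟨?_, Complex.ofReal_im r⟩, ?_⟩
      · have h4 := Polynomial.aeval_algebraMap_apply ℂ (r : ℝ) (sec P x)
        have h5 : (algebraMap ℝ ℂ) r = ((r : ℝ) : ℂ) := rfl
        rw [h5] at h4
        rw [h4, Polynomial.coe_aeval_eq_eval, hr.1, map_zero]
      · rw [Complex.ofReal_re]
        exact hr.2
    · intro a _ b _ h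
      exact Complex.ofReal_injective h
    · intro r hr
      rw [Finset.mem_filter, Finset.mem_filter, hmem] at hr
      obtain ⟨⟨h1, h2⟩, h3⟩ := hr
      have h6 : r = ((r.re : ℝ) : ℂ) := hreal r ((hmem r).2 h1) h2
      refine ⟨r.re, ?_, h6.symm⟩
      rw [Finset.mem_filter, Multiset.mem_toFinset, Polynomial.mem_roots hg.1]
      refine ⟨?_, h3⟩
      rw [h6] at h1
      have h4 := Polynomial.aeval_algebraMap_apply ℂ (r.re : ℝ) (sec P x)
      have h5 : (algebraMap ℝ ℂ) r.re = ((r.re : ℝ) : ℂ) := rfl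
      rw [h5, h1, Polynomial.coe_aeval_eq_eval] at h4
      exact Complex.ofReal_eq_zero.1 h4.symm
    · intro r hr
      rw [Complex.ofReal_re]
  · have h1 : ∫ w : ℝ, ‖GG P ε (Fin.cons w x)‖ ≤ ∑ r ∈ S, ‖r‖ * ∫ w, ‖ER P x (ε x) r w‖ := by
      have h2 : ∀ r ∈ S, ‖r‖ * ∫ w, ‖ER P x (ε x) r w‖ = ∫ w, ‖r * ER P x (ε x) r w‖ := by
        intro r _
        simp only [norm_mul]
        rw [integral_const_mul]
      rw [Finset.sum_congr rfl h2, ← integral_finsetSum _ fun r hr => (hint r hr).norm]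
      refine integral_mono_of_nonneg (Eventually.of_forall fun w => norm_nonneg _)
        (integrable_finsetSum _ fun r hr => (hint r hr).norm) (Eventually.of_forall fun w => ?_)
      simp only [hsum]
      exact norm_sum_le _ _
    refine h1.trans ((Finset.sum_le_sum fun r hr => (hER r hr).2).trans ?_)
    rw [Finset.sum_const, nsmul_eq_mul]
    refine mul_le_mul_of_nonneg_right hcard ?_
    have : 0 < ∏ j : Fin n, (1 + (x j) ^ 2) := Finset.prod_pos fun i _ => by positivity
    have hpi := Real.pi_pos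
    positivity

end Pool.Agent.WSP
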