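import Pool.Agent.W_2cf66e_h23.DefsS
import Pool.Agent.W_2cf66e_h78.Dfn

/-! MP_2cf66e_nt, THEOREM S, leaf M1 (helper78): the set of admissible pairs is semialgebraic. -/

set_option autoImplicit false

noncomputable section

open MvPolynomial U78 Pool.Agent.W_MP_25fb88_lc

namespace Pool.Agent.WSP

open Pool.Agent.CVol Pool.Agent.W_2cf66e_h78.Inner

variable {n : ℕ}

/-- The section at a complex point. -/
theorem sec_aeval78 (P : MvPolynomial (Fin (n + 1)) ℚ) (x : Fin n → ℝ) (r : ℂ) :
    Polynomial.aeval r (sec P x) =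
      (MvPolynomial.aeval (Fin.cons r (fun j => (x j : ℂ)) : Fin (n + 1) → ℂ) P : ℂ) := by
  induction P using MvPolynomial.induction_on with
  | C a =>
    have h1 : sec (C a : MvPolynomial (Fin (n + 1)) ℚ) x = Polynomial.C (a : ℝ) := by
      unfold sec
      rw [MvPolynomial.map_C, MvPolynomial.finSuccEquiv_apply, MvPolynomial.eval₂Hom_C]
      simp
    rw [h1]
    simp
  | add p q hp hq =>
    have h1 : sec (p + q) x = sec p x + sec q x := by
      unfold sec
      simp
    rw [h1, map_add, map_add, hp, hq]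
  | mul_X p i hp =>
    have h1 : sec (p * X i) x = sec p x * (Fin.cons Polynomial.X (fun j => Polynomial.C (x j)) :
        Fin (n + 1) → Polynomial ℝ) i := by
      unfold sec
      rw [map_mul, map_mul, Polynomial.map_mul, MvPolynomial.map_X]
      congr 1
      refine Fin.cases ?_ (fun j => ?_) i
      · rw [MvPolynomial.finSuccEquiv_X_zero]; simp
      · rw [MvPolynomial.finSuccEquiv_X_succ]; simp
    rw [h1, map_mul, map_mul, hp]
    congr 1
    rw [aeval_X]
    refine Fin.cases ?_ (fun j => ?_) i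
    · simp
    · simp

theorem sec_C78 (a : ℚ) (x : Fin n → ℝ) :
    sec (C a : MvPolynomial (Fin (n + 1)) ℚ) x = Polynomial.C (a : ℝ) := by
  unfold sec
  rw [MvPolynomial.map_C, MvPolynomial.finSuccEquiv_apply, MvPolynomial.eval₂Hom_C]
  simp

theorem sec_mulX78 (p : MvPolynomial (Fin (n + 1)) ℚ) (i : Fin (n + 1)) (x : Fin n → ℝ) :
    sec (p * X i) x = sec p x * (Fin.cons Polynomial.X (fun j => Polynomial.C (x j)) :
      Fin (n + 1) → Polynomial ℝ) i := by
  unfold sec
  rw [map_mul, map_mul, Polynomial.map_mul, MvPolynomial.map_X]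
  congr 1
  refine Fin.cases ?_ (fun j => ?_) i
  · rw [MvPolynomial.finSuccEquiv_X_zero]; simp
  · rw [MvPolynomial.finSuccEquiv_X_succ]; simp

/-- The derivative of the section. -/
theorem sec_deriv78 (P : MvPolynomial (Fin (n + 1)) ℚ) (x : Fin n → ℝ) :
    Polynomial.derivative (sec P x) = sec (pderiv 0 P) x := by
  induction P using MvPolynomial.induction_on with
  | C a =>
    rw [sec_C78, pderiv_C]
    have h1 : sec (0 : MvPolynomial (Fin (n + 1)) ℚ) x = 0 := by unfold sec; simp
    rw [h1, Polynomial.derivative_C]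
  | add p q hp hq =>
    have h1 : ∀ p q : MvPolynomial (Fin (n + 1)) ℚ, sec (p + q) x = sec p x + sec q x := by
      intro p q
      unfold sec
      simp
    rw [h1, Polynomial.derivative_add, map_add, h1, hp, hq]
  | mul_X p i hp =>
    have h1 : ∀ p q : MvPolynomial (Fin (n + 1)) ℚ, sec (p + q) x = sec p x + sec q x := by
      intro p q
      unfold sec
      simp
    rw [sec_mulX78, Polynomial.derivative_mul, hp, Derivation.leibniz, smul_eq_mul, smul_eq_mul,
      h1]
    rw [add_comm]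
    congr 1
    · refine Fin.cases ?_ (fun j => ?_) i
      · rw [pderiv_X_self]; simp
      · rw [pderiv_X_of_ne (Fin.succ_ne_zero j)]
        have h2 : sec (p * 0 : MvPolynomial (Fin (n + 1)) ℚ) x = 0 := by unfold sec; simp
        rw [h2]; simp
    · rw [mul_comm (X i : MvPolynomial (Fin (n + 1)) ℚ), sec_mulX78]

/-- Clearing denominators. -/
theorem clearC78 {κ ι : Type} (g : ι → (κ → ℝ) → ℂ) (hg : ∀ i, PC (g i))
    (P : MvPolynomial ι ℚ) : ∃ N : ℕ, 0 < N ∧
      PC (fun v : κ → ℝ => (N : ℂ) * (aeval (fun i => g i v) P : ℂ)) := by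
  induction P using MvPolynomial.induction_on with
  | C a =>
    refine ⟨a.den, a.den_pos, (PC.int a.num).congr fun v => ?_⟩
    have h1 : ((a.den : ℚ)) * a = a.num := Rat.den_mul_eq_num a
    have h2 : ((a.den : ℂ)) * (a : ℂ) = (a.num : ℂ) := by exact_mod_cast h1
    simp [h2]
  | add p q hp hq =>
    obtain ⟨N, hN, h1⟩ := hp
    obtain ⟨M, hM, h2⟩ := hq
    refine ⟨N * M, Nat.mul_pos hN hM,
      (((PC.int (M : ℤ)).mul h1).add ((PC.int (N : ℤ)).mul h2)).congr fun v => ?_⟩
    rw [map_add]; push_cast; ring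
  | mul_X p i hp =>
    obtain ⟨N, hN, h1⟩ := hp
    refine ⟨N, hN, (h1.mul (hg i)).congr fun v => ?_⟩
    rw [map_mul, aeval_X]; ring

/-- The factors at complex points. -/
theorem PC_ctp78 {κ : Type} {f : (κ → ℝ) → ℂ} (hf : PC f) (N : ℕ) (b : Bool) :
    PC (fun v => Polynomial.aeval (f v) (ctp N b)) := by
  cases b with
  | true =>
    refine ((PC_sub (hf.pow (2 * N + 1)) (hf.pow (2 * N))).add hf).congr fun v => ?_
    simp [ctp]
  | false =>
    refine ((PC_sub (PC.int 1) hf).mul ((PC.int 1).add (hf.pow (2 * N)))).congr fun v => ?_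
    simp [ctp]

theorem PF_ctp78 {κ : Type} {f : (κ → ℝ) → ℝ} (hf : PolyFun f) (N : ℕ) (b : Bool) :
    PolyFun (fun v => (ctp N b).eval (f v)) := by
  cases b with
  | true =>
    refine pfc (((hf.pow (2 * N + 1)).sub (hf.pow (2 * N))).add hf) fun v => ?_
    simp [ctp]
  | false =>
    refine pfc (((PolyFun.const 1).sub hf).mul ((PolyFun.const 1).add (hf.pow (2 * N)))) fun v => ?_
    simp [ctp]

/-- **Leaf M1.** -/
theorem Mset_df78 (P : MvPolynomial (Fin (n + 1)) ℚ) :
    Df (fun z : Fin (n + 1) → ℝ => z ∈ Mset P) := by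
  -- the variables: `b`, `a`, and the point
  let κ := Option (Option (Fin (n + 1)))
  let iv : Fin (n + 1) → κ := fun i => some (some i)
  have hr : PC (fun v : κ → ℝ => ((v (some none) : ℝ) : ℂ) + ((v none : ℝ) : ℂ) * Complex.I) :=
    PC_lin (PolyFun.var (some none : κ)) (PolyFun.var (none : κ))
  let g : Fin (n + 1) → (κ → ℝ) → ℂ := Fin.cons
    (fun v : κ → ℝ => ((v (some none) : ℝ) : ℂ) + ((v none : ℝ) : ℂ) * Complex.I)
    (fun j v => ((v (iv j.succ) : ℝ) : ℂ))
  have hg : ∀ i, PC (g i) := by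
    intro i
    refine Fin.cases ?_ (fun j => ?_) i
    · exact hr
    · exact PC.ofReal (PolyFun.var (iv j.succ))
  have hgv : ∀ v : κ → ℝ, (fun i => g i v) = (Fin.cons
      (((v (some none) : ℝ) : ℂ) + ((v none : ℝ) : ℂ) * Complex.I)
      (fun j => ((v (iv j.succ) : ℝ) : ℂ)) : Fin (n + 1) → ℂ) := by
    intro v
    funext i
    refine Fin.cases rfl (fun j => rfl) i
  obtain ⟨N, hN, h1⟩ := clearC78 g hg P
  obtain ⟨M, hM, h2⟩ := clearC78 g hg (pderiv 0 P)
  have hN' : (N : ℂ) ≠ 0 := by exact_mod_cast hN.ne'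
  have hM' : (M : ℂ) ≠ 0 := by exact_mod_cast hM.ne'
  have hM'' : (0 : ℝ) < M := by exact_mod_cast hM
  -- the point function
  let x : (κ → ℝ) → Fin n → ℝ := fun v j => v (iv j.succ)
  let rr : (κ → ℝ) → ℂ := fun v => ((v (some none) : ℝ) : ℂ) + ((v none : ℝ) : ℂ) * Complex.I
  have hsecP : Df (fun v : κ → ℝ => Polynomial.aeval (rr v) (sec P (x v)) = 0) := by
    refine (PC.eq h1 (PC.int 0)).congr fun v => ?_
    rw [sec_aeval78, hgv v]
    simp [hN', rr, x]
  -- `hp`
  have hhp : ∀ e : Fin (n + 1) → Bool,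
      PC (fun v : κ → ℝ => (M : ℂ) * Polynomial.aeval (rr v) (hp P e (x v))) := by
    intro e
    have h3 : PolyFun (fun v : κ → ℝ => ∏ j : Fin n, (ctp (n + 1) (e j.succ)).eval (x v j)) :=
      PolyFun.prod _ fun j => PF_ctp78 (PolyFun.var (iv j.succ)) _ _
    have h4 : PC (fun v : κ → ℝ => Polynomial.aeval (rr v) (ctp (n + 1) (e 0))) :=
      PC_ctp78 hr _ _
    refine ((h2.mul (PC.ofReal h3)).mul h4).congr fun v => ?_
    unfold hp
    rw [map_mul, map_mul, sec_deriv78, sec_aeval78, hgv v, Polynomial.aeval_C]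
    simp only [rr, x, Complex.coe_algebraMap]
    ring
  have hx : ∀ j, PolyFun (fun v : κ → ℝ => x v j) := fun j => PolyFun.var (iv j.succ)
  have hin : Df (fun v : κ → ℝ => Polynomial.aeval (rr v) (sec P (x v)) = 0 →
      v none ≠ 0 → ∀ e : Fin (n + 1) → Bool,
        Polynomial.aeval (rr v) (hp P e (x v)) = 0 ∨
        4 * (v (iv 0)) ^ 2 * (1 + (v (some none)) ^ 2 + (v none) ^ 2) *
          (∏ j : Fin n, (1 + (x v j) ^ 2)) ^ 2 ≤
          Complex.normSq (Polynomial.aeval (rr v) (hp P e (x v))) * (v none) ^ 2) := by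
    refine hsecP.imp (Df.imp ?_ (Df.forall_fin fun e => ?_))
    · exact ((Df.eq (PolyFun.var (none : κ)) (PolyFun.const 0)).congr fun v => by simp).not
    · refine Df.or ?_ ?_
      · refine (PC.eq (hhp e) (PC.int 0)).congr fun v => ?_
        simp [hM']
      · have hL : PolyFun (fun v : κ → ℝ => ((M ^ 2 : ℕ) : ℤ) * (((4 : ℤ) : ℝ) * (v (iv 0)) ^ 2 *
            (((1 : ℤ) : ℝ) + (v (some none)) ^ 2 + (v none) ^ 2) *
            (∏ j : Fin n, (((1 : ℤ) : ℝ) + (x v j) ^ 2)) ^ 2)) :=
          (PolyFun.const ((M ^ 2 : ℕ) : ℤ)).mul ((((PolyFun.const 4).mul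
            ((PolyFun.var (iv 0)).pow 2)).mul (((PolyFun.const 1).add
            ((PolyFun.var (some none : κ)).pow 2)).add ((PolyFun.var (none : κ)).pow 2))).mul
            ((PolyFun.prod _ fun j => (PolyFun.const 1).add ((hx j).pow 2)).pow 2))
        have hR : PolyFun (fun v : κ → ℝ => Complex.normSq
            ((M : ℂ) * Polynomial.aeval (rr v) (hp P e (x v))) * (v none) ^ 2) :=
          (PC_normSq (hhp e)).mul ((PolyFun.var (none : κ)).pow 2)
        refine (Df.le hL hR).congr fun v => ?_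
        rw [Complex.normSq_mul, Complex.normSq_natCast]
        have hMM : (0 : ℝ) < (M : ℝ) * M := by positivity
        constructor
        · intro h
          have h5 : (M : ℝ) * M * (4 * (v (iv 0)) ^ 2 * (1 + (v (some none)) ^ 2 + (v none) ^ 2) *
              (∏ j : Fin n, (1 + (x v j) ^ 2)) ^ 2) ≤ (M : ℝ) * M *
              (Complex.normSq (Polynomial.aeval (rr v) (hp P e (x v))) * (v none) ^ 2) := by
            push_cast at h
            nlinarith [h]
          exact le_of_mul_le_mul_left h5 hMM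
        · intro h
          have h5 := mul_le_mul_of_nonneg_left h hMM.le
          push_cast
          nlinarith [h5]
  have hall := hin.all.all
  refine Df.congr (Df.and (Df.lt (PolyFun.const 0) (PolyFun.var (0 : Fin (n + 1)))) hall)
    fun z => ?_
  unfold Mset
  rw [Set.mem_setOf_eq]
  refine and_congr (by simp) ?_
  exact Iff.rfl

theorem Mset_sa (P : MvPolynomial (Fin (n + 1)) ℚ) : Pool.Agent.CVol.IsSA (Mset P) :=
  df_isSA (Mset_df78 P)

end Pool.Agent.WSP
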