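import Pool.Agent.W_2cf66e_h23.DefsS

/-!
# MP_2cf66e_nt, THEOREM S, leaf M2: small `t` are admissible (helper35)
-/

set_option autoImplicit false

noncomputable section

open MeasureTheory Set Filter Topology

namespace Pool.Agent.WSP

variable {n : ℕ}

theorem Mset_ex (P : MvPolynomial (Fin (n + 1)) ℚ) (x : Fin n → ℝ) (hx : sec P x ≠ 0) :
    ∃ t₀ : ℝ, 0 < t₀ ∧ ∀ t : ℝ, 0 < t → t < t₀ →
      (Fin.cons t x : Fin (n + 1) → ℝ) ∈ Mset P := by
  have hx' : (sec P x).map (algebraMap ℝ ℂ) ≠ 0 :=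
    (Polynomial.map_ne_zero_iff (algebraMap ℝ ℂ).injective).2 hx
  have key : ∀ᶠ t in 𝓝 (0 : ℝ), ∀ r ∈ ((sec P x).map (algebraMap ℝ ℂ)).roots.toFinset,
      ∀ e : Fin (n + 1) → Bool, r.im ≠ 0 → Polynomial.aeval r (hp P e x) ≠ 0 →
      4 * t ^ 2 * (1 + r.re ^ 2 + r.im ^ 2) * (∏ j : Fin n, (1 + (x j) ^ 2)) ^ 2 ≤
        Complex.normSq (Polynomial.aeval r (hp P e x)) * r.im ^ 2 := by
    rw [Filter.eventually_all_finset]
    intro r _
    rw [Filter.eventually_all]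
    intro e
    by_cases h1 : r.im = 0
    · exact Eventually.of_forall fun t h => absurd h1 h
    by_cases h2 : Polynomial.aeval r (hp P e x) = 0
    · exact Eventually.of_forall fun t _ h => absurd h2 h
    have h3 : Tendsto (fun t : ℝ => 4 * t ^ 2 * (1 + r.re ^ 2 + r.im ^ 2) *
        (∏ j : Fin n, (1 + (x j) ^ 2)) ^ 2) (𝓝 0)
        (𝓝 (4 * (0 : ℝ) ^ 2 * (1 + r.re ^ 2 + r.im ^ 2) *
        (∏ j : Fin n, (1 + (x j) ^ 2)) ^ 2)) :=
      Continuous.tendsto (by fun_prop) 0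
    have h4 : 4 * (0 : ℝ) ^ 2 * (1 + r.re ^ 2 + r.im ^ 2) *
        (∏ j : Fin n, (1 + (x j) ^ 2)) ^ 2 <
        Complex.normSq (Polynomial.aeval r (hp P e x)) * r.im ^ 2 := by
      have h5 : 0 < Complex.normSq (Polynomial.aeval r (hp P e x)) := Complex.normSq_pos.2 h2
      have h6 : 0 < r.im ^ 2 := by positivity
      have h7 : 4 * (0 : ℝ) ^ 2 * (1 + r.re ^ 2 + r.im ^ 2) *
        (∏ j : Fin n, (1 + (x j) ^ 2)) ^ 2 = 0 := by ring
      rw [h7]
      positivity
    filter_upwards [h3.eventually_lt_const h4] with t ht _ _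
    exact ht.le
  obtain ⟨δ, hδ, hδ'⟩ := Metric.eventually_nhds_iff.1 key
  refine ⟨δ, hδ, fun t h0 h1 => ⟨by simpa using h0, ?_⟩⟩
  intro a b hr hb e
  have htl : tl (Fin.cons t x : Fin (n + 1) → ℝ) = x := by
    funext j
    simp [tl]
  rw [htl] at hr ⊢
  have h0' : (Fin.cons t x : Fin (n + 1) → ℝ) 0 = t := by simp
  rw [h0']
  set r : ℂ := (a : ℂ) + (b : ℂ) * Complex.I with hrdef
  have hre : r.re = a := by simp [hrdef]
  have him : r.im = b := by simp [hrdef]
  by_cases h2 : Polynomial.aeval r (hp P e x) = 0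
  · exact Or.inl h2
  · right
    have hmem : r ∈ ((sec P x).map (algebraMap ℝ ℂ)).roots.toFinset := by
      rw [Multiset.mem_toFinset, Polynomial.mem_roots hx', Polynomial.IsRoot.def,
        Polynomial.eval_map_algebraMap]
      exact hr
    have h3 := hδ' (y := t) (by rw [Real.dist_eq, sub_zero, abs_of_pos h0]; exact h1) r hmem e
      (by rw [him]; exact hb) h2
    rw [hre, him] at h3
    exact h3

end Pool.Agent.WSP
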