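import Pool.Agent.W_2cf66e_h23.LfG
import Pool.Agent.W_2cf66e_h23.LfR
import Pool.Agent.W_2cf66e_h23.LfC

/-!
# MP_2cf66e_nt, leaf Y (helper88): sums over the roots, by resultants
-/

set_option autoImplicit false

noncomputable section

open MeasureTheory Set Filter Topology

namespace Pool.Agent.WSP

variable {n m : ℕ}

theorem AR.inv88 {f : (Fin m → ℝ) → ℝ} (hf : AR f) : AR (fun z => (f z)⁻¹) := by
  obtain ⟨P, Q, hQ, h⟩ := hf
  by_cases hP : P = 0
  · refine ⟨0, 1, one_ne_zero, ?_⟩
    filter_upwards [h] with z hz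
    rw [hz, hP]; simp
  · refine ⟨Q, P, hP, ?_⟩
    filter_upwards [h] with z hz
    rw [hz, inv_div]

/-- families of polynomials with coefficients rational functions almost everywhere -/
def AP88 (F : (Fin m → ℝ) → Polynomial ℝ) : Prop := ∀ i, AR (fun z => (F z).coeff i)

theorem AP88.congr {F G : (Fin m → ℝ) → Polynomial ℝ} (hF : AP88 F) (h : ∀ z, F z = G z) :
    AP88 G := by
  have h1 : F = G := funext h
  rwa [← h1]

theorem AP88.add {F G : (Fin m → ℝ) → Polynomial ℝ} (hF : AP88 F) (hG : AP88 G) :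
    AP88 (fun z => F z + G z) := by
  intro i
  simpa only [Polynomial.coeff_add] using (hF i).add (hG i)

theorem AP88.mul {F G : (Fin m → ℝ) → Polynomial ℝ} (hF : AP88 F) (hG : AP88 G) :
    AP88 (fun z => F z * G z) := by
  intro i
  simp only [Polynomial.coeff_mul]
  exact AR.sum _ fun a _ => (hF a.1).mul (hG a.2)

theorem AP88.C {f : (Fin m → ℝ) → ℝ} (hf : AR f) : AP88 (fun z => Polynomial.C (f z)) := by
  intro i
  by_cases hi : i = 0
  · subst hi
    simpa using hf
  · have h1 := AR.const3 (m := m) 0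
    have h2 : (fun z : Fin m → ℝ => (Polynomial.C (f z)).coeff i) = fun _ => ((0 : ℚ) : ℝ) := by
      funext z
      rw [Polynomial.coeff_C, if_neg hi]; simp
    rw [h2]
    exact h1

theorem AP88.const (a : ℤ) : AP88 (fun _ : Fin m → ℝ => (a : Polynomial ℝ)) := by
  refine (AP88.C (AR.const3 (m := m) (a : ℚ))).congr fun z => ?_
  simp

theorem AP88.X : AP88 (fun _ : Fin m → ℝ => (Polynomial.X : Polynomial ℝ)) := by
  intro i
  by_cases hi : i = 1
  · subst hi
    simpa using AR.const3 (m := m) 1
  · have h1 := AR.const3 (m := m) 0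
    have h2 : (fun z : Fin m → ℝ => (Polynomial.X : Polynomial ℝ).coeff i) = fun _ => ((0 : ℚ) : ℝ) := by
      funext z
      rw [Polynomial.coeff_X_of_ne_one hi]; simp
    rw [h2]
    exact h1

theorem AP88.prod {α : Type} (s : Finset α) {F : α → (Fin m → ℝ) → Polynomial ℝ}
    (hF : ∀ a, AP88 (F a)) : AP88 (fun z => ∏ a ∈ s, F a z) := by
  classical
  induction s using Finset.induction_on with
  | empty => exact (AP88.const 1).congr fun z => by simp
  | insert a s ha ih => exact ((hF a).mul ih).congr fun z => by rw [Finset.prod_insert ha]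

theorem AP88.sum {α : Type} (s : Finset α) {F : α → (Fin m → ℝ) → Polynomial ℝ}
    (hF : ∀ a, AP88 (F a)) : AP88 (fun z => ∑ a ∈ s, F a z) := by
  classical
  induction s using Finset.induction_on with
  | empty => exact (AP88.const 0).congr fun z => by simp
  | insert a s ha ih => exact ((hF a).add ih).congr fun z => by rw [Finset.sum_insert ha]

theorem AP88.det {κ : ℕ} {A : (Fin m → ℝ) → Matrix (Fin κ) (Fin κ) (Polynomial ℝ)}
    (hA : ∀ i j, AP88 fun z => A z i j) : AP88 fun z => (A z).det := by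
  refine (AP88.sum (Finset.univ : Finset (Equiv.Perm (Fin κ)))
    (F := fun σ z => ((Equiv.Perm.sign σ : ℤ) : Polynomial ℝ) * ∏ i ∈ Finset.univ, A z (σ i) i)
    fun σ => (AP88.const _).mul (AP88.prod _ fun i => hA (σ i) i)).congr fun z => ?_
  rw [Matrix.det_apply']

theorem AP88.syl {F G : (Fin m → ℝ) → Polynomial (Polynomial ℝ)}
    (hF : ∀ j, AP88 fun z => (F z).coeff j) (hG : ∀ j, AP88 fun z => (G z).coeff j) (a b : ℕ)
    (i j : Fin (a + b)) : AP88 fun z => Polynomial.sylvester (F z) (G z) a b i j := by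
  have h0 : AP88 (fun _ : Fin m → ℝ => (0 : Polynomial ℝ)) := (AP88.const 0).congr fun z => by simp
  induction j using Fin.addCases with
  | left j =>
    simp only [Polynomial.sylvester, Matrix.of_apply, Fin.addCases_left]
    split_ifs
    · exact hG _
    · exact h0
  | right j =>
    simp only [Polynomial.sylvester, Matrix.of_apply, Fin.addCases_right]
    split_ifs
    · exact hF _
    · exact h0

theorem ms88 (s : Multiset ℂ) (d e : ℂ → ℂ) (hd : ∀ r ∈ s, d r ≠ 0) :
    ((s.map fun r => Polynomial.C (d r) + Polynomial.X * Polynomial.C (e r)).prod).coeff 0 ≠ 0 ∧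
    ((s.map fun r => Polynomial.C (d r) + Polynomial.X * Polynomial.C (e r)).prod).coeff 1 =
      ((s.map fun r => Polynomial.C (d r) + Polynomial.X * Polynomial.C (e r)).prod).coeff 0 *
        (s.map fun r => e r / d r).sum := by
  induction s using Multiset.induction_on with
  | empty => simp [Polynomial.coeff_one]
  | cons a s ih =>
    obtain ⟨h0, h1⟩ := ih (fun r hr => hd r (Multiset.mem_cons_of_mem hr))
    have ha := hd a (Multiset.mem_cons_self a s)
    simp only [Multiset.map_cons, Multiset.prod_cons, Multiset.sum_cons]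
    generalize hQ : (s.map fun r => Polynomial.C (d r) + Polynomial.X * Polynomial.C (e r)).prod = Q at h0 h1
    have e0 : ((Polynomial.C (d a) + Polynomial.X * Polynomial.C (e a)) * Q).coeff 0 =
        d a * Q.coeff 0 := by simp [Polynomial.mul_coeff_zero]
    have e1 : ((Polynomial.C (d a) + Polynomial.X * Polynomial.C (e a)) * Q).coeff 1 =
        d a * Q.coeff 1 + e a * Q.coeff 0 := by
      rw [add_mul, Polynomial.coeff_add, Polynomial.coeff_C_mul, mul_assoc,
        Polynomial.coeff_X_mul (Polynomial.C (e a) * Q) 0, Polynomial.coeff_C_mul]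
    rw [e0, e1, h1]
    refine ⟨mul_ne_zero ha h0, ?_⟩
    field_simp
    ring

theorem map_roots88 (f : Polynomial ℂ) : (f.map (Polynomial.C : ℂ →+* Polynomial ℂ)).roots =
    f.roots.map Polynomial.C := by
  have h := Polynomial.roots_map_of_injective_of_card_eq_natDegree (p := f)
    (f := (Polynomial.C : ℂ →+* Polynomial ℂ)) Polynomial.C_injective
    (IsAlgClosed.splits f).natDegree_eq_card_roots.symm
  exact h.symm

theorem res88 (f : Polynomial ℝ) (D N : Polynomial ℝ) (k : ℕ) (hD : D.natDegree ≤ k)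
    (hN : N.natDegree ≤ k) :
    (Polynomial.resultant (f.map Polynomial.C) (D.map Polynomial.C +
      Polynomial.C Polynomial.X * N.map Polynomial.C) f.natDegree k).map (algebraMap ℝ ℂ) =
    Polynomial.C ((f.map (algebraMap ℝ ℂ)).leadingCoeff ^ k) *
      ((f.map (algebraMap ℝ ℂ)).roots.map fun r =>
        Polynomial.C (Polynomial.aeval r D) + Polynomial.X * Polynomial.C (Polynomial.aeval r N)).prod := by
  have h1 := Polynomial.resultant_map_map (f.map (Polynomial.C : ℝ →+* Polynomial ℝ))
    (D.map Polynomial.C + Polynomial.C Polynomial.X * N.map Polynomial.C) f.natDegree k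
    (Polynomial.mapRingHom (algebraMap ℝ ℂ))
  rw [Polynomial.coe_mapRingHom] at h1
  rw [← h1]
  have hC : ∀ p : Polynomial ℝ, (p.map (Polynomial.C : ℝ →+* Polynomial ℝ)).map
      (Polynomial.mapRingHom (algebraMap ℝ ℂ)) = (p.map (algebraMap ℝ ℂ)).map Polynomial.C := by
    intro p
    rw [Polynomial.map_map, Polynomial.map_map]
    congr 1
    ext a
    simp
  rw [Polynomial.map_add, Polynomial.map_mul, hC, hC, hC, Polynomial.map_C]
  have hX : (Polynomial.mapRingHom (algebraMap ℝ ℂ)) Polynomial.X = Polynomial.X := by simp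
  rw [hX]
  set F := f.map (algebraMap ℝ ℂ) with hF
  have hnat : f.natDegree = (F.map (Polynomial.C : ℂ →+* Polynomial ℂ)).natDegree := by
    rw [Polynomial.natDegree_map_eq_of_injective Polynomial.C_injective,
      Polynomial.natDegree_map_eq_of_injective (algebraMap ℝ ℂ).injective]
  have hdeg : ((D.map (algebraMap ℝ ℂ)).map (Polynomial.C : ℂ →+* Polynomial ℂ) +
      Polynomial.C Polynomial.X * (N.map (algebraMap ℝ ℂ)).map Polynomial.C).natDegree ≤ k := by
    refine (Polynomial.natDegree_add_le _ _).trans (max_le ?_ ?_)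
    · exact Polynomial.natDegree_map_le.trans (Polynomial.natDegree_map_le.trans hD)
    · exact (Polynomial.natDegree_C_mul_le _ _).trans
        (Polynomial.natDegree_map_le.trans (Polynomial.natDegree_map_le.trans hN))
  rw [hnat, Polynomial.resultant_eq_prod_eval _ _ k hdeg ((IsAlgClosed.splits F).map _),
    map_roots88, Multiset.map_map]
  rw [Polynomial.leadingCoeff_map_of_injective Polynomial.C_injective, ← Polynomial.C_pow]
  congr 2
  refine Multiset.map_congr rfl fun r _ => ?_
  simp only [Function.comp, Polynomial.eval_add, Polynomial.eval_mul, Polynomial.eval_C]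
  rw [Polynomial.eval_map_apply, Polynomial.eval_map_apply]
  simp [Polynomial.eval_map_algebraMap]

open LfG

theorem sym_ar (P : MvPolynomial (Fin (n + 1)) ℚ) (hP : P ≠ 0)
    (N D : (Fin (n + 1) → ℝ) → Polynomial ℝ) (k : ℕ)
    (hN : ∀ z, (N z).natDegree ≤ k) (hNc : ∀ i, AR (fun z => (N z).coeff i))
    (hD : ∀ z, (D z).natDegree ≤ k) (hDc : ∀ i, AR (fun z => (D z).coeff i))
    (h0 : ∀ᵐ z : Fin (n + 1) → ℝ, ∀ r ∈ rts P (tl z), Polynomial.aeval r (D z) ≠ 0) :
    ∃ g : (Fin (n + 1) → ℝ) → ℝ, AR g ∧ ∀ᵐ z : Fin (n + 1) → ℝ,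
      ((rts P (tl z)).map fun r => Polynomial.aeval r (N z) / Polynomial.aeval r (D z)).sum =
        (g z : ℂ) := by
  classical
  have hq0 : MvPolynomial.finSuccEquiv ℚ n P ≠ 0 := by
    intro h
    exact hP ((MvPolynomial.finSuccEquiv ℚ n).injective (by rw [h, map_zero]))
  set q := MvPolynomial.finSuccEquiv ℚ n P with hq
  set R : (Fin (n + 1) → ℝ) → Polynomial ℝ := fun z =>
    Polynomial.resultant ((WSP.sec P (tl z)).map Polynomial.C) ((D z).map Polynomial.C +
      Polynomial.C Polynomial.X * (N z).map Polynomial.C) q.natDegree k with hRdef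
  have hsecc : ∀ i, AR fun z : Fin (n + 1) → ℝ => (WSP.sec P (tl z)).coeff i := by
    obtain ⟨_, _, h2⟩ := PR78.sec P
    exact fun i => AR_of_RF78 (h2 i)
  have hR : AP88 R := by
    refine AP88.det (A := fun z => Polynomial.sylvester ((WSP.sec P (tl z)).map Polynomial.C)
      ((D z).map Polynomial.C + Polynomial.C Polynomial.X * (N z).map Polynomial.C)
      q.natDegree k) fun i j => AP88.syl ?_ ?_ _ _ i j
    · intro j
      simp only [Polynomial.coeff_map]
      exact AP88.C (hsecc j)
    · intro j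
      simp only [Polynomial.coeff_add, Polynomial.coeff_map, Polynomial.coeff_C_mul]
      exact (AP88.C (hDc j)).add (AP88.X.mul (AP88.C (hNc j)))
  refine ⟨fun z => (R z).coeff 1 * ((R z).coeff 0)⁻¹, (hR 1).mul (hR 0).inv88, ?_⟩
  have hlc : ∀ᵐ z : Fin (n + 1) → ℝ, ev (tl z) q.leadingCoeff ≠ 0 := by
    have h1 : (MvPolynomial.rename Fin.succ q.leadingCoeff : MvPolynomial (Fin (n + 1)) ℚ) ≠ 0 := by
      intro h
      exact Polynomial.leadingCoeff_ne_zero.2 hq0
        (MvPolynomial.rename_injective _ (Fin.succ_injective n) (by rw [h, map_zero]))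
    filter_upwards [ae_ne _ h1] with z hz
    rw [MvPolynomial.aeval_rename] at hz
    exact hz
  filter_upwards [h0, hlc] with z hz hlz
  have hdeg : (WSP.sec P (tl z)).natDegree = q.natDegree := by
    rw [sec_hom]
    exact Polynomial.natDegree_map_of_leadingCoeff_ne_zero _ hlz
  have hsec0 : WSP.sec P (tl z) ≠ 0 := by
    rw [sec_hom]
    intro h
    apply hlz
    have h2 : (Polynomial.map (ev (tl z)) q).coeff q.natDegree = 0 := by rw [h]; simp
    rwa [Polynomial.coeff_map] at h2
  have h3 := res88 (WSP.sec P (tl z)) (D z) (N z) k (hD z) (hN z)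
  rw [hdeg] at h3
  obtain ⟨h4, h5⟩ := ms88 (rts P (tl z)) (fun r => Polynomial.aeval r (D z))
    (fun r => Polynomial.aeval r (N z)) hz
  have hL : ((WSP.sec P (tl z)).map (algebraMap ℝ ℂ)).leadingCoeff ^ k ≠ 0 := by
    refine pow_ne_zero _ (Polynomial.leadingCoeff_ne_zero.2 ?_)
    exact (Polynomial.map_ne_zero_iff (algebraMap ℝ ℂ).injective).2 hsec0
  have hc : ∀ i, (((R z).coeff i : ℝ) : ℂ) =
      ((WSP.sec P (tl z)).map (algebraMap ℝ ℂ)).leadingCoeff ^ k *
        (((rts P (tl z)).map fun r => Polynomial.C (Polynomial.aeval r (D z)) +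
          Polynomial.X * Polynomial.C (Polynomial.aeval r (N z))).prod).coeff i := by
    intro i
    have h6 := congrArg (fun p => Polynomial.coeff p i) h3
    simp only [Polynomial.coeff_map, Polynomial.coeff_C_mul] at h6
    exact h6
  push_cast
  rw [hc 0, hc 1, h5]
  field_simp

end Pool.Agent.WSP
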