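import Pool.Agent.W_2cf66e_h23.PerZ
import Pool.Agent.W_2cf66e_h23.LfC
import Pool.Agent.W_2cf66e_h23.LfL
import Pool.Agent.W_2cf66e_h23.LfM1
import Pool.Agent.W_2cf66e_h23.LfM2
import Pool.Agent.W_2cf66e_h23.LfR
import Pool.Agent.W_2cf66e_h23.LfY

/-!
# MP_2cf66e_nt, same dimension: the integral over the whole space (helper23)
-/

set_option autoImplicit false

noncomputable section

open MeasureTheory Set Filter Topology

namespace Pool.Agent.WSP

variable {n : ℕ}

theorem EE_fst (z : Fin (n + 1) → ℝ) : (EE n z).1 = tl z := rfl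

theorem ae_tl {q : (Fin n → ℝ) → Prop} (h : ∀ᵐ x : Fin n → ℝ, q x) :
    ∀ᵐ z : Fin (n + 1) → ℝ, q (tl z) := by
  have h1 : ∀ᵐ p : (Fin n → ℝ) × ℝ ∂((volume : Measure (Fin n → ℝ)).prod (volume : Measure ℝ)),
      q p.1 := Measure.quasiMeasurePreserving_fst.ae h
  exact (EE_mp n).quasiMeasurePreserving.ae h1

theorem ae_sec {q : (Fin (n + 1) → ℝ) → Prop} (h : ∀ᵐ z : Fin (n + 1) → ℝ, q z) :
    ∀ᵐ x : Fin n → ℝ, ∀ᵐ w : ℝ, q (Fin.cons w x) := by
  have h3 : MeasurePreserving (EE n).symm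
    ((volume : Measure (Fin n → ℝ)).prod (volume : Measure ℝ)) volume := (EE_mp n).symm
  have h2 := h3.quasiMeasurePreserving.ae h
  have h4 := Measure.ae_ae_of_ae_prod h2
  filter_upwards [h4] with x hx
  filter_upwards [hx] with w hw
  rwa [EE_symm] at hw

/-- Fubini for the integrals of measurable functions with values in the reals. -/
theorem fub_integrable {G : (Fin (n + 1) → ℝ) → ℝ} (hG : Measurable G)
    (h1 : ∀ᵐ x : Fin n → ℝ, Integrable (fun w : ℝ => G (Fin.cons w x)))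
    {b : (Fin n → ℝ) → ℝ} (hb : Integrable b)
    (h2 : ∀ᵐ x : Fin n → ℝ, ∫ w : ℝ, ‖G (Fin.cons w x)‖ ≤ b x) :
    Integrable G ∧ ∫ z, G z = ∫ x : Fin n → ℝ, ∫ w : ℝ, G (Fin.cons w x) := by
  have h3 : MeasurePreserving (EE n).symm
    ((volume : Measure (Fin n → ℝ)).prod (volume : Measure ℝ)) volume := (EE_mp n).symm
  have hm : StronglyMeasurable (fun p : (Fin n → ℝ) × ℝ => G ((EE n).symm p)) :=
    (hG.comp (EE n).symm.measurable).stronglyMeasurable
  have hi : Integrable (fun p : (Fin n → ℝ) × ℝ => G ((EE n).symm p))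
      ((volume : Measure (Fin n → ℝ)).prod (volume : Measure ℝ)) := by
    rw [integrable_prod_iff hm.aestronglyMeasurable]
    refine ⟨?_, ?_⟩
    · filter_upwards [h1] with x hx
      simp only [EE_symm]
      exact hx
    · refine Integrable.mono' hb ?_ ?_
      · exact hm.norm.integral_prod_right.aestronglyMeasurable
      · filter_upwards [h2] with x hx
        rw [Real.norm_of_nonneg (integral_nonneg fun w => norm_nonneg _)]
        simp only [EE_symm]
        exact hx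
  refine ⟨?_, ?_⟩
  · exact (h3.integrable_comp_emb (EE n).symm.measurableEmbedding).1 hi
  · rw [← h3.integral_comp (EE n).symm.measurableEmbedding, integral_prod _ hi]
    simp only [EE_symm]

theorem BB_ae : ∀ᵐ x : Fin n → ℝ, BB x = (cube n).indicator (fun _ => 2 ^ n) x := by
  classical
  have hne : ∀ᵐ u : Fin n → ℝ, ∀ i, u i ≠ 0 ∧ u i ≠ 1 := by
    rw [ae_all_iff]
    intro i
    have h1 : ∀ c : ℝ, ∀ᵐ u : Fin n → ℝ, u i ≠ c := by
      intro c
      rw [ae_iff]
      simp only [not_not]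
      exact Measure.pi_hyperplane (fun _ : Fin n => (volume : Measure ℝ)) i c
    filter_upwards [h1 0, h1 1] with u h2 h3
    exact ⟨h2, h3⟩
  filter_upwards [hne] with u hu
  have h1 : BB u = ∏ i, (if 0 ≤ u i ∧ u i ≤ 1 then (2 : ℝ) else 0) :=
    Finset.prod_congr rfl fun i _ => cf_sign (Nat.succ_pos n) _ (hu i).1 (hu i).2
  rw [h1]
  by_cases hc : u ∈ cube n
  · rw [Set.indicator_of_mem hc, Finset.prod_congr rfl fun i _ => if_pos (hc i)]
    simp
  · rw [Set.indicator_of_notMem hc]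
    have h2 : ∃ i, ¬ (0 ≤ u i ∧ u i ≤ 1) := by
      by_contra h3
      push Not at h3
      exact hc fun i => h3 i
    obtain ⟨i, hi⟩ := h2
    rw [Finset.prod_eq_zero (Finset.mem_univ i) (if_neg hi)]

theorem meas_aeval {m : ℕ} (P : MvPolynomial (Fin m) ℚ) :
    Measurable (fun z : Fin m → ℝ => (MvPolynomial.aeval z P : ℝ)) := by
  induction P using MvPolynomial.induction_on with
  | C a => simp
  | add p q hp hq =>
    simp only [map_add]
    exact hp.add hq
  | mul_X p j hp =>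
    simp only [map_mul, MvPolynomial.aeval_X]
    exact hp.mul (measurable_pi_apply j)

theorem gen_ne {P : MvPolynomial (Fin (n + 1)) ℚ} (h : Gen P) : P ≠ 0 := by
  intro h0
  obtain ⟨x, hx⟩ := h.exists
  apply hx.1
  rw [h0]
  simp [sec]

/-- The symmetric function is rational. -/
theorem GG_ar {P : MvPolynomial (Fin (n + 1)) ℚ} (hP : Gen P) {ε : (Fin n → ℝ) → ℝ}
    (hε : RF ε) (hM : ∀ᵐ x : Fin n → ℝ, (Fin.cons (ε x) x : Fin (n + 1) → ℝ) ∈ Mset P) :
    ∃ g : (Fin (n + 1) → ℝ) → ℝ, AR g ∧ ∀ᵐ z : Fin (n + 1) → ℝ, GG P ε z = (g z : ℂ) := by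
  classical
  have hgen := ae_tl (n := n) hP
  have hM' := ae_tl (n := n) hM
  have key : ∀ e : Fin (n + 1) → Bool, ∃ g : (Fin (n + 1) → ℝ) → ℝ, AR g ∧
      ∀ᵐ z : Fin (n + 1) → ℝ, ((rts P (tl z)).map fun r =>
        r * EK (Polynomial.aeval r (hp P e (tl z))) r (ε (tl z)) (z 0)).sum = (g z : ℂ) := by
    intro e
    obtain ⟨k, hN, hNc, hD, hDc⟩ := coef_ar P e ε hε
    have hDr : ∀ (z : Fin (n + 1) → ℝ) (r : ℂ), Polynomial.aeval r (Polynomial.C (ε (tl z) ^ 2) +
        hp P e (tl z) ^ 2 * (Polynomial.C (z 0) - Polynomial.X) ^ 2 : Polynomial ℝ) =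
        (ε (tl z) : ℂ) ^ 2 + (Polynomial.aeval r (hp P e (tl z))) ^ 2 * ((z 0 : ℂ) - r) ^ 2 := by
      intro z r
      simp only [map_add, map_mul, map_pow, map_sub, Polynomial.aeval_C, Polynomial.aeval_X,
        Complex.coe_algebraMap]
    have h0 : ∀ᵐ z : Fin (n + 1) → ℝ, ∀ r ∈ rts P (tl z),
        Polynomial.aeval r (Polynomial.C (ε (tl z) ^ 2) +
          hp P e (tl z) ^ 2 * (Polynomial.C (z 0) - Polynomial.X) ^ 2 : Polynomial ℝ) ≠ 0 := by
      filter_upwards [hgen, hM'] with z hz hMz r hr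
      rw [hDr]
      have hr0 := (mem_rts hz.1 r).1 hr
      obtain ⟨ht, hM2⟩ := hMz
      simp only [Fin.cons_zero, tl_cons] at ht hM2
      by_cases him : r.im = 0
      · have hrr : r = ((r.re : ℝ) : ℂ) := by
          apply Complex.ext
          · simp
          · simp [him]
        rw [hrr, hp_aeval]
        have h1 : ε (tl z) ^ 2 + (gg (ff P) e (Fin.cons r.re (tl z))) ^ 2 * (z 0 - r.re) ^ 2 ≠ 0 := by
          positivity
        exact_mod_cast h1
      · have hrr : (r.re : ℂ) + (r.im : ℂ) * Complex.I = r := Complex.re_add_im r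
        have hM3 := hM2 r.re r.im (by rw [hrr]; exact hr0) him e
        rw [hrr] at hM3
        refine (nonreal _ r (ε (tl z)) ht him ?_).2.2.2 (z 0)
        rcases hM3 with h1 | h1
        · exact Or.inl h1
        · right
          refine le_trans ?_ h1
          have hpd : 1 ≤ ∏ j : Fin n, (1 + (tl z j) ^ 2) := by
            calc (1 : ℝ) = ∏ _j : Fin n, (1 : ℝ) := by simp
              _ ≤ ∏ j : Fin n, (1 + (tl z j) ^ 2) :=
                Finset.prod_le_prod (fun _ _ => zero_le_one)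
                  fun j _ => by nlinarith [sq_nonneg (tl z j)]
          have h2 : 1 ≤ (1 + r.re ^ 2 + r.im ^ 2) * (∏ j : Fin n, (1 + (tl z j) ^ 2)) ^ 2 := by
            have h3 : 1 ≤ (∏ j : Fin n, (1 + (tl z j) ^ 2)) ^ 2 := one_le_pow₀ hpd
            have h4 : 1 ≤ 1 + r.re ^ 2 + r.im ^ 2 := by
              nlinarith [sq_nonneg r.re, sq_nonneg r.im]
            exact one_le_mul_of_one_le_of_one_le h4 h3
          calc 4 * ε (tl z) ^ 2 = 4 * ε (tl z) ^ 2 * 1 := by ring
            _ ≤ 4 * ε (tl z) ^ 2 *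
                ((1 + r.re ^ 2 + r.im ^ 2) * (∏ j : Fin n, (1 + (tl z j) ^ 2)) ^ 2) :=
                mul_le_mul_of_nonneg_left h2 (by positivity)
            _ = _ := by ring
    obtain ⟨g, hg, hgz⟩ := sym_ar P (gen_ne hP) _ _ k hN hNc hD hDc h0
    refine ⟨g, hg, ?_⟩
    filter_upwards [hgz] with z hz
    rw [← hz]
    congr 1
    refine Multiset.map_congr rfl fun r _ => ?_
    rw [hDr]
    unfold EK
    simp only [map_mul, Polynomial.aeval_C, Polynomial.aeval_X, Complex.coe_algebraMap]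
    ring
  choose g hg hgz using key
  refine ⟨fun z => ∑ e, g e z, AR.sum _ fun e _ => hg e, ?_⟩
  have hall : ∀ᵐ z : Fin (n + 1) → ℝ, ∀ e : Fin (n + 1) → Bool, ((rts P (tl z)).map fun r =>
        r * EK (Polynomial.aeval r (hp P e (tl z))) r (ε (tl z)) (z 0)).sum = (g e z : ℂ) :=
    ae_all_iff.2 hgz
  filter_upwards [hall] with z hz
  unfold GG
  rw [Complex.ofReal_sum]
  exact Finset.sum_congr rfl fun e _ => hz e

theorem gen_ri {P : MvPolynomial (Fin (n + 1)) ℚ} (hP : Gen P) :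
    RI (n + 1) (2 ^ (n + 1) * ∫ x in cube n, JJ P x) := by
  obtain ⟨ε, hε, hεM⟩ := eps_lem (Mset P) (Mset_sa P) (by
    filter_upwards [hP] with x hx
    exact Mset_ex P x hx.1)
  have hM : ∀ᵐ x : Fin n → ℝ, (Fin.cons (ε x) x : Fin (n + 1) → ℝ) ∈ Mset P := by
    filter_upwards [hεM] with x hx
    exact hx.2
  obtain ⟨g, ⟨A, B, hB, hg⟩, hgz⟩ := GG_ar hP hε hM
  have hGz : ∀ᵐ z : Fin (n + 1) → ℝ, GG P ε z =
      (((MvPolynomial.aeval z A : ℝ) / MvPolynomial.aeval z B : ℝ) : ℂ) := by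
    filter_upwards [hg, hgz] with z h1 h2
    rw [h2, h1]
  have hmeas : Measurable (fun z : Fin (n + 1) → ℝ =>
      (MvPolynomial.aeval z A : ℝ) / MvPolynomial.aeval z B) :=
    (meas_aeval A).div (meas_aeval B)
  have hx := ae_sec hGz
  have hin : ∀ᵐ x : Fin n → ℝ,
      Integrable (fun w : ℝ => (MvPolynomial.aeval (Fin.cons w x : Fin (n + 1) → ℝ) A : ℝ) /
        MvPolynomial.aeval (Fin.cons w x : Fin (n + 1) → ℝ) B) ∧
      ∫ w : ℝ, (MvPolynomial.aeval (Fin.cons w x : Fin (n + 1) → ℝ) A : ℝ) /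
        MvPolynomial.aeval (Fin.cons w x : Fin (n + 1) → ℝ) B =
          Real.pi * (2 * BB x * JJ P x) ∧
      ∫ w : ℝ, ‖(MvPolynomial.aeval (Fin.cons w x : Fin (n + 1) → ℝ) A : ℝ) /
        MvPolynomial.aeval (Fin.cons w x : Fin (n + 1) → ℝ) B‖ ≤
        ((MvPolynomial.finSuccEquiv ℝ n (MvPolynomial.map (algebraMap ℚ ℝ) P)).natDegree : ℝ) *
          (Real.pi * 10 ^ (n + 1) * (∏ j : Fin n, (1 + (x j) ^ 2))⁻¹) := by
    filter_upwards [hx, hP, hM] with x h1 h2 h3
    obtain ⟨i1, i2, i3⟩ := inner P ε x h3 h2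
    have hre : ∀ᵐ w : ℝ, (GG P ε (Fin.cons w x)).re =
        (MvPolynomial.aeval (Fin.cons w x : Fin (n + 1) → ℝ) A : ℝ) /
          MvPolynomial.aeval (Fin.cons w x : Fin (n + 1) → ℝ) B := by
      filter_upwards [h1] with w hw
      rw [hw, Complex.ofReal_re]
    have hno : ∀ᵐ w : ℝ, ‖GG P ε (Fin.cons w x)‖ =
        ‖(MvPolynomial.aeval (Fin.cons w x : Fin (n + 1) → ℝ) A : ℝ) /
          MvPolynomial.aeval (Fin.cons w x : Fin (n + 1) → ℝ) B‖ := by
      filter_upwards [h1] with w hw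
      rw [hw, Complex.norm_real]
    refine ⟨i1.re.congr hre, ?_, ?_⟩
    · rw [← integral_congr_ae hre]
      have h5 := integral_re i1
      have h6 : ∫ w : ℝ, (GG P ε (Fin.cons w x)).re =
          (∫ w : ℝ, GG P ε (Fin.cons w x)).re := h5
      rw [h6, i2, Complex.ofReal_re]
    · rw [← integral_congr_ae hno]
      exact i3
  have hbint : Integrable (fun x : Fin n → ℝ =>
      ((MvPolynomial.finSuccEquiv ℝ n (MvPolynomial.map (algebraMap ℚ ℝ) P)).natDegree : ℝ) *
          (Real.pi * 10 ^ (n + 1) * (∏ j : Fin n, (1 + (x j) ^ 2))⁻¹)) := by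
    refine Integrable.const_mul ?_ _
    refine Integrable.const_mul ?_ _
    simp only [← Finset.prod_inv_distrib]
    exact Integrable.fintype_prod (f := fun (_ : Fin n) (t : ℝ) => (1 + t ^ 2)⁻¹)
      fun _ => integrable_inv_one_add_sq
  obtain ⟨f1, f2⟩ := fub_integrable hmeas (hin.mono fun x hx => hx.1) hbint
    (hin.mono fun x hx => hx.2.2)
  refine ⟨A, B, f1, ?_⟩
  rw [f2, integral_congr_ae (hin.mono fun x hx => hx.2.1), integral_const_mul]
  congr 1
  have h7 : ∀ᵐ x : Fin n → ℝ, 2 * BB x * JJ P x =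
      (cube n).indicator (fun x => 2 ^ (n + 1) * JJ P x) x := by
    filter_upwards [BB_ae (n := n)] with x hx
    rw [hx]
    by_cases hc : x ∈ cube n
    · rw [Set.indicator_of_mem hc, Set.indicator_of_mem hc, pow_succ]
      ring
    · rw [Set.indicator_of_notMem hc, Set.indicator_of_notMem hc]
      ring
  rw [integral_congr_ae h7, integral_indicator (cube_meas n), integral_const_mul]

end Pool.Agent.WSP
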