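import Mathlib

/-!
# MP_2cf66e_nt, integrals over the whole space: one variable by contour (helper23)
-/

set_option autoImplicit false

noncomputable section

open MeasureTheory Set Filter Topology Polynomial

namespace Pool.Agent.WSP

/-- The product of the linear factors. -/
def CC {m : ℕ} (z : Fin m → ℂ) (w : ℂ) : ℂ := ∏ j, (w - z j)

theorem CC_ne {m : ℕ} {z : Fin m → ℂ} (hz : ∀ j, 0 < (z j).im) {w : ℂ} (hw : w.im ≤ 0) :
    CC z w ≠ 0 := by
  unfold CC
  refine Finset.prod_ne_zero_iff.2 fun j _ h => ?_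
  have h1 : w = z j := sub_eq_zero.1 h
  have := hz j
  rw [← h1] at this
  linarith

theorem CC_cont {m : ℕ} (z : Fin m → ℂ) : Continuous (CC z) := by
  unfold CC
  fun_prop

theorem CC_succ {m : ℕ} (z : Fin (m + 1) → ℂ) (w : ℂ) :
    CC z w = (w - z 0) * CC (fun j => z j.succ) w := by
  unfold CC
  rw [Fin.prod_univ_succ]

/-- Lower bound far away. -/
theorem CC_big {m : ℕ} {z : Fin m → ℂ} {M : ℝ} (hM : ∀ j, ‖z j‖ ≤ M) {R : ℝ} (hR : M + 1 ≤ R)
    {w : ℂ} (hw : R ≤ ‖w‖) : (R - M) ^ m ≤ ‖CC z w‖ := by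
  unfold CC
  rw [norm_prod]
  calc (R - M) ^ m = ∏ _j : Fin m, (R - M) := by simp
    _ ≤ ∏ j, ‖w - z j‖ := by
      refine Finset.prod_le_prod (fun j _ => by linarith) fun j _ => ?_
      have := norm_sub_norm_le w (z j)
      have := hM j
      linarith

/-- (Z) The integral of the inverse of a product of at least two factors tends to `0`. -/
theorem lemZ {m : ℕ} (z : Fin (m + 2) → ℂ) (hz : ∀ j, 0 < (z j).im) :
    Tendsto (fun R : ℝ => ∫ w in (-R)..R, (CC z (w : ℂ))⁻¹) atTop (𝓝 0) := by
  classical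
  obtain ⟨M, hM0, hM⟩ : ∃ M : ℝ, 0 ≤ M ∧ ∀ j, ‖z j‖ ≤ M :=
    ⟨∑ j, ‖z j‖, Finset.sum_nonneg fun _ _ => norm_nonneg _,
      fun j => Finset.single_le_sum (f := fun j => ‖z j‖) (fun _ _ => norm_nonneg _)
        (Finset.mem_univ j)⟩
  set F : ℂ → ℂ := fun w => (CC z w)⁻¹ with hF
  have hbd : ∀ R : ℝ, M + 1 ≤ R → ∀ w : ℂ, R ≤ ‖w‖ → ‖F w‖ ≤ ((R - M) ^ 2)⁻¹ := by
    intro R hR w hw
    have h1 := CC_big hM hR hw
    have h2 : (R - M) ^ 2 ≤ (R - M) ^ (m + 2) :=
      pow_le_pow_right₀ (by linarith) (by omega)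
    rw [hF]
    simp only [norm_inv]
    exact inv_anti₀ (by nlinarith) (h2.trans h1)
  have key : ∀ R : ℝ, M + 1 ≤ R → ‖∫ w in (-R)..R, F (w : ℂ)‖ ≤ 4 * R * ((R - M) ^ 2)⁻¹ := by
    intro R hR
    have hR0 : 0 < R := by linarith
    have hd : DifferentiableOn ℂ F
        (Set.uIcc ((-R : ℝ) + ((-R : ℝ) : ℂ) * Complex.I).re ((R : ℝ) : ℂ).re ×ℂ
          Set.uIcc ((-R : ℝ) + ((-R : ℝ) : ℂ) * Complex.I).im ((R : ℝ) : ℂ).im) := by
      intro w hw
      have h1 : w.im ≤ 0 := by
        have h2 := hw.2
        simp only [mem_preimage, Complex.add_im, Complex.ofReal_im, Complex.mul_im,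
          Complex.ofReal_re, Complex.I_im, mul_one, Complex.I_re, mul_zero, add_zero,
          zero_add] at h2
        rw [uIcc_of_le (by linarith)] at h2
        exact h2.2
      have h3 : DifferentiableAt ℂ (CC z) w := by
        unfold CC
        fun_prop
      exact (h3.inv (CC_ne hz h1)).differentiableWithinAt
    have h4 := Complex.integral_boundary_rect_eq_zero_of_differentiableOn F
      ((-R : ℝ) + ((-R : ℝ) : ℂ) * Complex.I) ((R : ℝ) : ℂ) hd
    simp only [Complex.add_re, Complex.ofReal_re, Complex.mul_re, Complex.I_re, mul_zero,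
      Complex.ofReal_im, Complex.I_im, mul_one, sub_self, add_zero, Complex.add_im,
      Complex.mul_im, zero_add, Complex.ofReal_zero, zero_mul, smul_eq_mul] at h4
    have h5 : (∫ w in (-R)..R, F (w : ℂ)) =
        (∫ x in (-R)..R, F ((x : ℂ) + ((-R : ℝ) : ℂ) * Complex.I)) +
        Complex.I * (∫ y in (-R)..0, F (((R : ℝ) : ℂ) + (y : ℂ) * Complex.I)) -
        Complex.I * (∫ y in (-R)..0, F (((-R : ℝ) : ℂ) + (y : ℂ) * Complex.I)) := by
      linear_combination -h4
    have hA : ‖∫ x in (-R)..R, F ((x : ℂ) + ((-R : ℝ) : ℂ) * Complex.I)‖ ≤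
        ((R - M) ^ 2)⁻¹ * |R - (-R)| := by
      refine intervalIntegral.norm_integral_le_of_norm_le_const fun x _ => hbd R hR _ ?_
      have := Complex.abs_im_le_norm ((x : ℂ) + ((-R : ℝ) : ℂ) * Complex.I)
      simp only [Complex.add_im, Complex.ofReal_im, Complex.mul_im, Complex.ofReal_re,
        Complex.I_im, mul_one, Complex.I_re, mul_zero, add_zero, zero_add, abs_neg] at this
      rw [abs_of_pos hR0] at this
      exact this
    have hB : ‖∫ y in (-R)..0, F (((R : ℝ) : ℂ) + (y : ℂ) * Complex.I)‖ ≤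
        ((R - M) ^ 2)⁻¹ * |0 - (-R)| := by
      refine intervalIntegral.norm_integral_le_of_norm_le_const fun x _ => hbd R hR _ ?_
      have := Complex.abs_re_le_norm (((R : ℝ) : ℂ) + (x : ℂ) * Complex.I)
      simp only [Complex.add_re, Complex.ofReal_re, Complex.mul_re, Complex.ofReal_im,
        Complex.I_im, mul_one, Complex.I_re, mul_zero, add_zero, sub_self] at this
      rw [abs_of_pos hR0] at this
      exact this
    have hC : ‖∫ y in (-R)..0, F (((-R : ℝ) : ℂ) + (y : ℂ) * Complex.I)‖ ≤
        ((R - M) ^ 2)⁻¹ * |0 - (-R)| := by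
      refine intervalIntegral.norm_integral_le_of_norm_le_const fun x _ => hbd R hR _ ?_
      have := Complex.abs_re_le_norm (((-R : ℝ) : ℂ) + (x : ℂ) * Complex.I)
      simp only [Complex.add_re, Complex.ofReal_re, Complex.mul_re, Complex.ofReal_im,
        Complex.I_im, mul_one, Complex.I_re, mul_zero, add_zero, sub_self, abs_neg] at this
      rw [abs_of_pos hR0] at this
      exact this
    have hR1 : |R - (-R)| = 2 * R := by rw [abs_of_nonneg (by linarith)]; ring
    have hR2 : |0 - (-R)| = R := by rw [abs_of_nonneg (by linarith)]; ring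
    rw [hR1] at hA
    rw [hR2] at hB hC
    rw [h5]
    refine (norm_sub_le _ _).trans ?_
    have h6 := norm_add_le (∫ x in (-R)..R, F ((x : ℂ) + ((-R : ℝ) : ℂ) * Complex.I))
      (Complex.I * (∫ y in (-R)..0, F (((R : ℝ) : ℂ) + (y : ℂ) * Complex.I)))
    rw [norm_mul, Complex.norm_I, one_mul] at h6
    rw [norm_mul, Complex.norm_I, one_mul]
    nlinarith
  have hlim : Tendsto (fun R : ℝ => 4 * R * ((R - M) ^ 2)⁻¹) atTop (𝓝 0) := by
    have h1 : Tendsto (fun R : ℝ => (R - M)) atTop atTop := tendsto_atTop_add_const_right _ _ tendsto_id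
    have h2 : Tendsto (fun R : ℝ => 4 * (R - M)⁻¹ + 4 * M * ((R - M)⁻¹) ^ 2) atTop
        (𝓝 (4 * 0 + 4 * M * 0 ^ 2)) := by
      have h3 := h1.inv_tendsto_atTop
      exact (h3.const_mul 4).add ((h3.pow 2).const_mul (4 * M))
    rw [show (4 * 0 + 4 * M * 0 ^ 2 : ℝ) = 0 by ring] at h2
    refine h2.congr' ?_
    filter_upwards [eventually_gt_atTop M] with R hR
    have : R - M ≠ 0 := by linarith
    field_simp
    ring
  rw [tendsto_zero_iff_norm_tendsto_zero]
  refine squeeze_zero' (Eventually.of_forall fun _ => norm_nonneg _) ?_ hlim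
  filter_upwards [eventually_ge_atTop (M + 1)] with R hR
  exact key R hR

theorem lem_I : Tendsto (fun R : ℝ => ∫ w in (-R)..R, ((w : ℂ) - Complex.I)⁻¹) atTop
    (𝓝 (Complex.I * Real.pi)) := by
  have h1 : ∀ R : ℝ, (∫ w in (-R)..R, ((w : ℂ) - Complex.I)⁻¹) =
      Complex.I * (2 * Real.arctan R : ℝ) := by
    intro R
    have h2 : ∀ w : ℝ, ((w : ℂ) - Complex.I)⁻¹ =
        ((w / (1 + w ^ 2) : ℝ) : ℂ) + Complex.I * (((1 + w ^ 2)⁻¹ : ℝ) : ℂ) := by
      intro w
      have h3 : ((w : ℂ) - Complex.I) ≠ 0 := by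
        intro h
        have := congrArg Complex.im h
        simp at this
      have h4 : (1 + (w : ℂ) ^ 2) ≠ 0 := by
        have : (0 : ℝ) < 1 + w ^ 2 := by positivity
        exact_mod_cast this.ne'
      rw [inv_eq_iff_eq_inv]
      push_cast
      have h5 : (w : ℂ) / (1 + (w : ℂ) ^ 2) + Complex.I * (1 + (w : ℂ) ^ 2)⁻¹ =
          ((w : ℂ) + Complex.I) / (1 + (w : ℂ) ^ 2) := by
        field_simp
      rw [h5, inv_div, eq_div_iff]
      · linear_combination -Complex.I_sq
      · intro h
        have := congrArg Complex.im h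
        simp at this
    have hc1 : Continuous fun w : ℝ => w / (1 + w ^ 2) := by
      refine continuous_id.div (by fun_prop) fun w => ?_
      positivity
    have hc2 : Continuous fun w : ℝ => (1 + w ^ 2)⁻¹ := by
      refine Continuous.inv₀ (by fun_prop) fun w => ?_
      positivity
    simp_rw [h2]
    rw [intervalIntegral.integral_add, intervalIntegral.integral_const_mul,
      intervalIntegral.integral_ofReal, intervalIntegral.integral_ofReal,
      integral_inv_one_add_sq]
    · have h6 : ∫ w in (-R)..R, w / (1 + w ^ 2) = 0 := by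
        have h7 := intervalIntegral.integral_comp_neg (fun w : ℝ => w / (1 + w ^ 2))
          (a := -R) (b := R)
        have h8 : ∀ w : ℝ, (-w) / (1 + (-w) ^ 2) = -(w / (1 + w ^ 2)) := by
          intro w
          ring
        simp only [h8, neg_neg] at h7
        rw [intervalIntegral.integral_neg] at h7
        linarith
      rw [h6, Real.arctan_neg]
      push_cast
      ring
    · exact (Complex.continuous_ofReal.comp hc1).intervalIntegrable _ _
    · exact (continuous_const.mul (Complex.continuous_ofReal.comp hc2)).intervalIntegrable _ _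
  simp_rw [h1]
  have h2 : Tendsto (fun R : ℝ => 2 * Real.arctan R) atTop (𝓝 Real.pi) := by
    have h3 := (Real.tendsto_arctan_atTop.mono_right nhdsWithin_le_nhds).const_mul 2
    rwa [show 2 * (Real.pi / 2) = Real.pi by ring] at h3
  exact ((Complex.continuous_ofReal.tendsto _).comp h2).const_mul Complex.I

theorem ii_CC {m : ℕ} (z : Fin m → ℂ) (hz : ∀ j, 0 < (z j).im) (U : ℂ[X]) (a b : ℝ) :
    IntervalIntegrable (fun w : ℝ => U.eval (w : ℂ) / CC z (w : ℂ)) volume a b := by
  refine Continuous.intervalIntegrable ?_ _ _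
  refine Continuous.div (U.continuous.comp Complex.continuous_ofReal)
    ((CC_cont z).comp Complex.continuous_ofReal) fun w => CC_ne hz ?_
  simp

theorem lemOne (z : ℂ) (hz : 0 < z.im) :
    Tendsto (fun R : ℝ => ∫ w in (-R)..R, ((w : ℂ) - z)⁻¹) atTop (𝓝 (Complex.I * Real.pi)) := by
  have h1 := lemZ (![z, Complex.I]) (by
    intro j
    fin_cases j
    · exact hz
    · simp)
  have h2 : ∀ w : ℝ, ((w : ℂ) - z)⁻¹ =
      (z - Complex.I) * (CC ![z, Complex.I] (w : ℂ))⁻¹ + ((w : ℂ) - Complex.I)⁻¹ := by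
    intro w
    have h3 : ((w : ℂ) - Complex.I) ≠ 0 := by
      intro h
      have := congrArg Complex.im h
      simp at this
    have h4 : ((w : ℂ) - z) ≠ 0 := by
      intro h
      have := congrArg Complex.im h
      simp only [Complex.sub_im, Complex.ofReal_im, zero_sub, Complex.zero_im,
        neg_eq_zero] at this
      exact hz.ne' this
    unfold CC
    rw [Fin.prod_univ_two]
    simp only [Matrix.cons_val_zero, Matrix.cons_val_one]
    field_simp
    ring
  have hi : ∀ (z : ℂ), 0 < z.im → ∀ R : ℝ,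
      IntervalIntegrable (fun w : ℝ => ((w : ℂ) - z)⁻¹) volume (-R) R := by
    intro z hz R
    refine Continuous.intervalIntegrable ?_ _ _
    refine Continuous.inv₀ (by fun_prop) fun w h => ?_
    have := congrArg Complex.im h
    simp only [Complex.sub_im, Complex.ofReal_im, zero_sub, Complex.zero_im,
      neg_eq_zero] at this
    exact hz.ne' this
  have hi2 : ∀ R : ℝ,
      IntervalIntegrable (fun w : ℝ => (CC ![z, Complex.I] (w : ℂ))⁻¹) volume (-R) R := by
    intro R
    refine Continuous.intervalIntegrable ?_ _ _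
    refine Continuous.inv₀ ((CC_cont _).comp Complex.continuous_ofReal) fun w => CC_ne ?_ (by simp)
    intro j
    fin_cases j
    · exact hz
    · simp
  have h5 := (h1.const_mul (z - Complex.I)).add lem_I
  rw [show (z - Complex.I) * 0 + Complex.I * (Real.pi : ℂ) = Complex.I * Real.pi by ring] at h5
  refine h5.congr fun R => ?_
  rw [← intervalIntegral.integral_const_mul, ← intervalIntegral.integral_add]
  · exact intervalIntegral.integral_congr fun w _ => (h2 w).symm
  · exact (hi2 R).const_mul _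
  · exact hi _ (by simp) R

/-- (R) The principal value of a rational function with all poles in the upper half-plane. -/
theorem lemR {m : ℕ} (z : Fin (m + 1) → ℂ) (hz : ∀ j, 0 < (z j).im) (U : ℂ[X])
    (hU : U.degree < ((m + 1 : ℕ) : WithBot ℕ)) :
    Tendsto (fun R : ℝ => ∫ w in (-R)..R, U.eval (w : ℂ) / CC z (w : ℂ)) atTop
      (𝓝 (U.coeff m * (Complex.I * Real.pi))) := by
  induction m generalizing U with
  | zero =>
    have h1 : U = C (U.coeff 0) := by
      refine eq_C_of_degree_le_zero ?_
      have h2 : U.degree < 1 := by simpa using hU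
      exact Order.le_of_lt_succ h2
    have h3 := (lemOne (z 0) (hz 0)).const_mul (U.coeff 0)
    refine h3.congr fun R => ?_
    rw [← intervalIntegral.integral_const_mul]
    refine intervalIntegral.integral_congr fun w _ => ?_
    rw [CC_succ]
    have h4 : CC (fun j : Fin 0 => z j.succ) (w : ℂ) = 1 := by simp [CC]
    rw [h4, mul_one, h1, eval_C, coeff_C_zero]
    rw [div_eq_mul_inv]
  | succ m ih =>
    obtain ⟨V, hV⟩ : ∃ V : ℂ[X], V = U /ₘ (X - C (z 0)) := ⟨_, rfl⟩
    have h1 : U = C (U.eval (z 0)) + (X - C (z 0)) * V := by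
      rw [hV]
      have h2 := modByMonic_add_div U (X - C (z 0))
      rw [modByMonic_X_sub_C_eq_C_eval] at h2
      exact h2.symm
    have hVd : V.degree < ((m + 1 : ℕ) : WithBot ℕ) := by
      rcases eq_or_ne V 0 with h | h
      · rw [h, degree_zero]
        exact WithBot.bot_lt_coe _
      · have h3 : ((X - C (z 0)) * V).degree < ((m + 1 + 1 : ℕ) : WithBot ℕ) := by
          have h4 : (X - C (z 0)) * V = U - C (U.eval (z 0)) := by
            linear_combination -h1
          rw [h4]
          refine lt_of_le_of_lt (degree_sub_le _ _) (max_lt hU ?_)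
          exact lt_of_le_of_lt degree_C_le (by exact_mod_cast Nat.succ_pos _)
        rw [degree_mul, degree_X_sub_C, degree_eq_natDegree h] at h3
        rw [degree_eq_natDegree h]
        have h5 : ((1 + V.natDegree : ℕ) : WithBot ℕ) < ((m + 1 + 1 : ℕ) : WithBot ℕ) := by
          push_cast
          push_cast at h3
          exact h3
        have h6 : 1 + V.natDegree < m + 1 + 1 := by exact_mod_cast h5
        exact_mod_cast (by omega : V.natDegree < m + 1)
    have hco : U.coeff (m + 1) = V.coeff m := by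
      have h3 := congrArg (fun p => coeff p (m + 1)) h1
      simp only [coeff_add, coeff_C_succ, zero_add, sub_mul, coeff_sub, coeff_X_mul,
        coeff_C_mul] at h3
      rw [h3, coeff_eq_zero_of_degree_lt hVd]
      ring
    have h3 := ih (fun j => z j.succ) (fun j => hz _) V hVd
    have h4 := (lemZ z hz).const_mul (U.eval (z 0))
    have h5 := h4.add h3
    rw [mul_zero, zero_add] at h5
    rw [hco]
    refine h5.congr fun R => ?_
    have hne : ∀ w : ℝ, CC z (w : ℂ) ≠ 0 := fun w => CC_ne hz (by simp)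
    rw [← intervalIntegral.integral_const_mul, ← intervalIntegral.integral_add]
    · refine intervalIntegral.integral_congr fun w _ => ?_
      have h6 := hne w
      have h7 : CC z (w : ℂ) = ((w : ℂ) - z 0) * CC (fun j => z j.succ) (w : ℂ) := CC_succ z _
      have h8 : ((w : ℂ) - z 0) ≠ 0 := by
        intro h
        rw [h7, h, zero_mul] at h6
        exact h6 rfl
      have h9 : CC (fun j => z j.succ) (w : ℂ) ≠ 0 := by
        intro h
        rw [h7, h, mul_zero] at h6
        exact h6 rfl
      have h10 : U.eval (w : ℂ) = U.eval (z 0) + ((w : ℂ) - z 0) * V.eval (w : ℂ) := by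
        conv_lhs => rw [h1]
        simp
      change U.eval (z 0) * (CC z (w : ℂ))⁻¹ + V.eval (w : ℂ) / CC (fun j => z j.succ) (w : ℂ) =
        U.eval (w : ℂ) / CC z (w : ℂ)
      rw [h10, h7]
      field_simp
    · refine (Continuous.intervalIntegrable ?_ _ _)
      refine continuous_const.mul (Continuous.inv₀ ((CC_cont z).comp Complex.continuous_ofReal)
        fun w => hne w)
    · exact ii_CC _ (fun j => hz _) V _ _

end Pool.Agent.WSP
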