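import Pool.Agent.W_2cf66e_h23.Back

/-!
# MP_2cf66e_nt, integrals over the whole space in the same dimension: definitions (helper23)
-/

set_option autoImplicit false

noncomputable section

open MeasureTheory Set Filter Topology

namespace Pool.Agent.WSP

/-- Almost everywhere equal to a rational function with rational coefficients. -/
def AR {m : ℕ} (f : (Fin m → ℝ) → ℝ) : Prop :=
  ∃ P Q : MvPolynomial (Fin m) ℚ, Q ≠ 0 ∧
    ∀ᵐ z : Fin m → ℝ, f z = (MvPolynomial.aeval z P : ℝ) / MvPolynomial.aeval z Q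

/-- `π c` is the integral over `ℝ^m` of a rational function. -/
def RI (m : ℕ) (c : ℝ) : Prop :=
  ∃ P Q : MvPolynomial (Fin m) ℚ,
    Integrable (fun z : Fin m → ℝ => (MvPolynomial.aeval z P : ℝ) / MvPolynomial.aeval z Q) ∧
    ∫ z : Fin m → ℝ, (MvPolynomial.aeval z P : ℝ) / MvPolynomial.aeval z Q = Real.pi * c

/-- The coordinates after the first one. -/
def tl {n : ℕ} (z : Fin (n + 1) → ℝ) : Fin n → ℝ := fun j => z j.succ

/-- The complex roots of the section. -/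
def rts {n : ℕ} (P : MvPolynomial (Fin (n + 1)) ℚ) (x : Fin n → ℝ) : Multiset ℂ :=
  ((sec P x).map (algebraMap ℝ ℂ)).roots

/-- The sections are generically separable and do not vanish at `1`. -/
def Gen {n : ℕ} (P : MvPolynomial (Fin (n + 1)) ℚ) : Prop :=
  ∀ᵐ x : Fin n → ℝ, sec P x ≠ 0 ∧
    (∀ r : ℂ, Polynomial.aeval r (sec P x) = 0 →
      Polynomial.aeval r (Polynomial.derivative (sec P x)) ≠ 0) ∧ (sec P x).eval 1 ≠ 0

/-- The factor `cf N b` times `1 + t ^ (2 N)`, as a polynomial. -/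
def ctp (N : ℕ) (b : Bool) : Polynomial ℝ :=
  if b then Polynomial.X ^ (2 * N + 1) - Polynomial.X ^ (2 * N) + Polynomial.X
  else (1 - Polynomial.X) * (1 + Polynomial.X ^ (2 * N))

/-- The polynomial `h`. -/
def hp {n : ℕ} (P : MvPolynomial (Fin (n + 1)) ℚ) (e : Fin (n + 1) → Bool) (x : Fin n → ℝ) :
    Polynomial ℝ :=
  Polynomial.derivative (sec P x) *
    Polynomial.C (∏ j : Fin n, (ctp (n + 1) (e j.succ)).eval (x j)) * ctp (n + 1) (e 0)

/-- The complex kernel. -/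
def EK (h r : ℂ) (t w : ℝ) : ℂ := h * (t : ℂ) / ((t : ℂ) ^ 2 + h ^ 2 * ((w : ℂ) - r) ^ 2)

/-- The function of a polynomial. The first coordinate is the kernel variable. -/
def GG {n : ℕ} (P : MvPolynomial (Fin (n + 1)) ℚ) (ε : (Fin n → ℝ) → ℝ) (z : Fin (n + 1) → ℝ) :
    ℂ :=
  ∑ e : Fin (n + 1) → Bool, ((rts P (tl z)).map fun r =>
    r * EK (Polynomial.aeval r (hp P e (tl z))) r (ε (tl z)) (z 0)).sum

/-- The admissible pairs `(t, x)`. -/
def Mset {n : ℕ} (P : MvPolynomial (Fin (n + 1)) ℚ) : Set (Fin (n + 1) → ℝ) :=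
  {z | 0 < z 0 ∧ ∀ a b : ℝ, Polynomial.aeval ((a : ℂ) + (b : ℂ) * Complex.I) (sec P (tl z)) = 0 →
    b ≠ 0 → ∀ e : Fin (n + 1) → Bool,
      Polynomial.aeval ((a : ℂ) + (b : ℂ) * Complex.I) (hp P e (tl z)) = 0 ∨
      4 * (z 0) ^ 2 * (1 + a ^ 2 + b ^ 2) * (∏ j : Fin n, (1 + (tl z j) ^ 2)) ^ 2 ≤
        Complex.normSq (Polynomial.aeval ((a : ℂ) + (b : ℂ) * Complex.I) (hp P e (tl z))) * b ^ 2}

end Pool.Agent.WSP
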