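import Pool.Agent.W_2cf66e_h23.DefsS

/-!
# MP_2cf66e_nt, bounded sets in the same dimension: definitions (helper23)
-/

set_option autoImplicit false

noncomputable section

open MeasureTheory Set Filter Topology

namespace Pool.Agent.WSP

/-- Definable sets. -/
def DS {κ : Type} (C : Set (κ → ℝ)) : Prop := U78.Df (fun v : κ → ℝ => v ∈ C)

/-- Definable functions. -/
def DF {κ : Type} (g : (κ → ℝ) → ℝ) : Prop :=
  U78.Df (fun v : Option κ → ℝ => v none = g (fun i => v (some i)))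

/-- The fiber over the last coordinates. -/
def fib {k : ℕ} (D : Set (Fin (k + 1) → ℝ)) (x : Fin k → ℝ) : Set ℝ :=
  {y : ℝ | (Fin.cons y x : Fin (k + 1) → ℝ) ∈ D}

/-- The measure on `C` comes from finitely many bounded definable sets, by definable maps, with
Jacobians controlled by `g` and `l`. -/
def Tr (k : ℕ) (C : Set (Fin k → ℝ)) (g l : (Fin k → ℝ) → ℝ) : Prop :=
  ∃ (N : ℕ) (M : ℝ) (I : ℕ) (D : Fin I → Set (Fin k → ℝ))
    (Φ : Fin I → (Fin k → ℝ) → Fin k → ℝ) (J : Fin I → (Fin k → ℝ) → ℝ), 0 < N ∧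
    (∀ i, DS (D i) ∧ Bornology.IsBounded (D i) ∧ (∀ j, DF fun u => Φ i u j) ∧ DF (J i) ∧
      ∀ u ∈ D i, Φ i u ∈ C ∧ 0 ≤ J i u ∧ (g (Φ i u) * J i u) ^ N * l (Φ i u) ≤ M) ∧
    ∀ f : (Fin k → ℝ) → ENNReal, Measurable f →
      ∫⁻ x in C, f x = ∑ i, ∫⁻ u in D i, f (Φ i u) * ENNReal.ofReal (J i u)

/-- The transport theorem in dimension `k`. -/
def TrAll (k : ℕ) : Prop := ∀ (C : Set (Fin k → ℝ)) (g l : (Fin k → ℝ) → ℝ), DS C → DF g → DF l →
  (∀ x ∈ C, 0 < g x) → (∀ x ∈ C, 1 ≤ l x) → ∫⁻ x in C, ENNReal.ofReal (g x) < ⊤ → Tr k C g l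

/-- The region `0 < y < c x` over `C`. -/
def under {k : ℕ} (C : Set (Fin k → ℝ)) (c : (Fin k → ℝ) → ℝ) : Set (Fin (k + 1) → ℝ) :=
  {z | tl z ∈ C ∧ 0 < z 0 ∧ z 0 < c (tl z)}

end Pool.Agent.WSP
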