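import Pool.Agent.W_2cf66e_h23.Cont

/-!
# MP_2cf66e_nt, integrals over the whole space: decomposition of one variable functions (helper23)
-/

set_option autoImplicit false

noncomputable section

open MeasureTheory Set Filter Topology Polynomial Asymptotics

open scoped ComplexConjugate

namespace Pool.Agent.WSP

theorem deg_C_mul (c : ℂ) (U : ℂ[X]) : (C c * U).degree ≤ U.degree := by
  rcases eq_or_ne c 0 with h | h
  · rw [h]
    simp
  · rw [degree_C_mul h]

/-- A real polynomial without real zeros. -/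
theorem fact (B : ℝ[X]) (h : ∀ w : ℝ, B.eval w ≠ 0) :
    ∃ (m : ℕ) (z : Fin m → ℂ) (b : ℝ), b ≠ 0 ∧ 2 * m = B.natDegree ∧ (∀ j, 0 < (z j).im) ∧
      ∀ w : ℝ, B.eval w = b * Complex.normSq (CC z (w : ℂ)) := by
  obtain ⟨N, hN⟩ : ∃ N, B.natDegree = N := ⟨_, rfl⟩
  induction N using Nat.strong_induction_on generalizing B with
  | _ N ih =>
    rcases Nat.eq_zero_or_pos N with h0 | h0
    · rw [h0] at hN
      have h1 := eq_C_of_natDegree_eq_zero hN
      refine ⟨0, Fin.elim0, B.coeff 0, ?_, by rw [hN], fun j => j.elim0, fun w => ?_⟩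
      · intro h2
        have := h 0
        rw [h1, h2] at this
        simp at this
      · rw [h1]
        simp [CC]
    · have hdeg : B.degree ≠ 0 := by
        intro h1
        have := natDegree_eq_of_degree_eq_some (n := 0) (by simpa using h1)
        omega
      obtain ⟨ζ, hζ⟩ := IsAlgClosed.exists_aeval_eq_zero ℂ B hdeg
      have him : ζ.im ≠ 0 := by
        intro h1
        have h2 : ζ = ((ζ.re : ℝ) : ℂ) := by
          apply Complex.ext
          · simp
          · simpa using h1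
        rw [h2] at hζ
        have h3 : aeval ((ζ.re : ℝ) : ℂ) B = ((B.eval ζ.re : ℝ) : ℂ) := by
          have := aeval_algebraMap_apply ℂ ζ.re B
          simpa using this
        rw [h3] at hζ
        exact h _ (by exact_mod_cast hζ)
      obtain ⟨B', hB'⟩ := quadratic_dvd_of_aeval_eq_zero_im_ne_zero B hζ him
      have hq : ∀ w : ℝ, (X ^ 2 - C (2 * ζ.re) * X + C (‖ζ‖ ^ 2) : ℝ[X]).eval w =
          Complex.normSq ((w : ℂ) - ζ) := by
        intro w
        rw [← Complex.normSq_eq_norm_sq]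
        simp only [eval_add, eval_sub, eval_pow, eval_X, eval_mul, eval_C, Complex.normSq_apply,
          Complex.sub_re, Complex.ofReal_re, Complex.sub_im, Complex.ofReal_im]
        ring
      have hq2 : (X ^ 2 - C (2 * ζ.re) * X + C (‖ζ‖ ^ 2) : ℝ[X]).natDegree = 2 := by
        compute_degree!
      have hB'h : ∀ w : ℝ, B'.eval w ≠ 0 := by
        intro w h1
        apply h w
        rw [hB', eval_mul, h1, mul_zero]
      have hB'0 : B' ≠ 0 := by
        intro h1
        exact hB'h 0 (by rw [h1]; simp)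
      have hdB : B.natDegree = 2 + B'.natDegree := by
        rw [hB', natDegree_mul ?_ hB'0, hq2]
        intro h1
        rw [h1] at hq2
        simp at hq2
      obtain ⟨m, z, b, hb, hm, hz, hzB⟩ := ih B'.natDegree (by omega) B' hB'h rfl
      obtain ⟨ζ', hζ', hζ2⟩ : ∃ ζ' : ℂ, 0 < ζ'.im ∧ ∀ w : ℝ,
          Complex.normSq ((w : ℂ) - ζ') = Complex.normSq ((w : ℂ) - ζ) := by
        rcases lt_or_gt_of_ne him with h1 | h1
        · refine ⟨conj ζ, by simpa using h1, fun w => ?_⟩
          rw [← Complex.normSq_conj ((w : ℂ) - ζ), RingHom.map_sub, Complex.conj_ofReal]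
        · exact ⟨ζ, h1, fun w => rfl⟩
      refine ⟨m + 1, Fin.cons ζ' z, b, hb, by omega, ?_, fun w => ?_⟩
      · intro j
        refine Fin.cases ?_ (fun j => ?_) j
        · simpa using hζ'
        · simpa using hz j
      · rw [CC_succ]
        simp only [Fin.cons_zero, Fin.cons_succ]
        rw [map_mul, hζ2, hB', eval_mul, hq, hzB]
        ring

/-- Decomposition. -/
theorem decomp {m : ℕ} (z : Fin m → ℂ) (hz : ∀ j, 0 < (z j).im) (A : ℝ[X])
    (hA : A.degree < ((2 * m : ℕ) : WithBot ℕ)) :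
    ∃ U : ℂ[X], U.degree < (m : WithBot ℕ) ∧ ∀ w : ℝ,
      A.eval w = 2 * (U.eval (w : ℂ) * conj (CC z (w : ℂ))).re := by
  obtain ⟨P, hP⟩ : ∃ P : ℂ[X], P = ∏ j, (X - C (z j)) := ⟨_, rfl⟩
  obtain ⟨Q, hQ⟩ : ∃ Q : ℂ[X], Q = ∏ j, (X - C (conj (z j))) := ⟨_, rfl⟩
  have hPm : P.Monic := by
    rw [hP]
    exact monic_prod_of_monic _ _ fun j _ => monic_X_sub_C _
  have hQm : Q.Monic := by
    rw [hQ]
    exact monic_prod_of_monic _ _ fun j _ => monic_X_sub_C _
  have hPd : P.degree = (m : WithBot ℕ) := by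
    rw [hP, degree_prod]
    simp
  have hQd : Q.degree = (m : WithBot ℕ) := by
    rw [hQ, degree_prod]
    simp
  have hco : IsCoprime P Q := by
    rw [hP, hQ]
    refine IsCoprime.prod_left fun i _ => IsCoprime.prod_right fun j _ => ?_
    refine isCoprime_X_sub_C_of_isUnit_sub ?_
    rw [isUnit_iff_ne_zero]
    intro h
    have h1 := congrArg Complex.im h
    have h2 := hz i
    have h3 := hz j
    simp only [Complex.sub_im, Complex.conj_im, Complex.zero_im] at h1
    linarith
  obtain ⟨a, b, hab⟩ := hco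
  obtain ⟨A', hA'⟩ : ∃ A' : ℂ[X], A' = A.map (algebraMap ℝ ℂ) := ⟨_, rfl⟩
  have hA'd : A'.degree < ((2 * m : ℕ) : WithBot ℕ) := by
    rw [hA', degree_map]
    exact hA
  obtain ⟨V, hV⟩ : ∃ V : ℂ[X], V = (A' * b) %ₘ P := ⟨_, rfl⟩
  obtain ⟨W, hW⟩ : ∃ W : ℂ[X], W = A' * a + ((A' * b) /ₘ P) * Q := ⟨_, rfl⟩
  have hVW : A' = V * Q + W * P := by
    have h1 := modByMonic_add_div (A' * b) P
    rw [hV, hW]
    linear_combination (-A') * hab - Q * h1
  have hVd : V.degree < (m : WithBot ℕ) := by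
    rw [hV, ← hPd]
    exact degree_modByMonic_lt _ hPm
  have hWd : W.degree < (m : WithBot ℕ) := by
    rcases eq_or_ne W 0 with h | h
    · rw [h, degree_zero]
      exact WithBot.bot_lt_coe _
    · have h1 : (W * P).degree < ((2 * m : ℕ) : WithBot ℕ) := by
        have h2 : W * P = A' - V * Q := by linear_combination -hVW
        rw [h2]
        refine lt_of_le_of_lt (degree_sub_le _ _) (max_lt hA'd ?_)
        rcases eq_or_ne V 0 with h3 | h3
        · rw [h3, zero_mul, degree_zero]
          exact WithBot.bot_lt_coe _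
        · rw [degree_mul, hQd, degree_eq_natDegree h3]
          rw [degree_eq_natDegree h3] at hVd
          have h4 : V.natDegree < m := by exact_mod_cast hVd
          exact_mod_cast (by omega : V.natDegree + m < 2 * m)
      rw [degree_mul, hPd, degree_eq_natDegree h] at h1
      rw [degree_eq_natDegree h]
      have h5 : W.natDegree + m < 2 * m := by exact_mod_cast h1
      exact_mod_cast (by omega : W.natDegree < m)
  have hPe : ∀ w : ℂ, P.eval w = CC z w := by
    intro w
    rw [hP, eval_prod]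
    simp [CC]
  have hQe : ∀ w : ℝ, Q.eval (w : ℂ) = conj (CC z (w : ℂ)) := by
    intro w
    rw [hQ, eval_prod]
    simp [CC, map_prod]
  have hA'e : ∀ w : ℝ, A'.eval (w : ℂ) = ((A.eval w : ℝ) : ℂ) := by
    intro w
    rw [hA', eval_map]
    have := eval₂_at_apply (algebraMap ℝ ℂ) (p := A) w
    simpa using this
  have hWc : ∀ w : ℝ, (W.map (starRingEnd ℂ)).eval (w : ℂ) = conj (W.eval (w : ℂ)) := by
    intro w
    rw [eval_map]
    have := eval₂_at_apply (starRingEnd ℂ) (p := W) (w : ℂ)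
    rw [Complex.conj_ofReal] at this
    exact this
  refine ⟨C (1 / 2) * (V + W.map (starRingEnd ℂ)), ?_, fun w => ?_⟩
  · refine lt_of_le_of_lt (deg_C_mul _ _) ?_
    refine lt_of_le_of_lt (degree_add_le _ _) (max_lt hVd ?_)
    exact lt_of_le_of_lt degree_map_le hWd
  · have h1 := congrArg (fun p => (eval (w : ℂ) p).re) hVW
    simp only [eval_add, eval_mul, hA'e, hPe, hQe, Complex.ofReal_re] at h1
    rw [h1, eval_mul, eval_C, eval_add, hWc]
    simp only [Complex.add_re, Complex.mul_re, Complex.conj_re, Complex.conj_im, Complex.add_im,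
      Complex.mul_im]
    norm_num
    ring

theorem no_root {A B : ℝ[X]} (hco : IsCoprime A B) (hB : B ≠ 0)
    (hi : Integrable (fun w : ℝ => A.eval w / B.eval w)) (r : ℝ) : B.eval r ≠ 0 := by
  intro h
  have hA : A.eval r ≠ 0 := by
    obtain ⟨a, b, hab⟩ := hco
    intro h1
    have h2 := congrArg (eval r) hab
    rw [eval_add, eval_mul, eval_mul, h1, h, mul_zero, mul_zero, add_zero, eval_one] at h2
    exact zero_ne_one h2
  obtain ⟨B₂, hB₂⟩ := dvd_iff_isRoot.2 h
  refine not_intervalIntegrable_of_sub_inv_isBigO_punctured (c := r) (a := r - 1) (b := r + 1)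
    (f := fun w : ℝ => A.eval w / B.eval w) ?_ (by linarith) ?_
    (hi.intervalIntegrable)
  · have h1 : (fun w : ℝ => B₂.eval w / A.eval w) =O[𝓝[≠] r] (fun _ => (1 : ℝ)) := by
      have h2 : ContinuousAt (fun w : ℝ => B₂.eval w / A.eval w) r :=
        B₂.continuous.continuousAt.div A.continuous.continuousAt hA
      exact (h2.tendsto.mono_left nhdsWithin_le_nhds).isBigO_one ℝ
    have h3 := h1.mul (isBigO_refl (fun w : ℝ => A.eval w / B.eval w) (𝓝[≠] r))
    refine h3.congr' ?_ ?_
    · have h4 : ∀ᶠ w in 𝓝[≠] r, B.eval w ≠ 0 := by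
        have h5 : (B.roots.toFinset.erase r : Set ℝ).Finite := Finset.finite_toSet _
        have h6 : ∀ᶠ w in 𝓝 r, w ∉ (B.roots.toFinset.erase r : Set ℝ) := by
          refine h5.isClosed.isOpen_compl.mem_nhds ?_
          simp
        filter_upwards [nhdsWithin_le_nhds h6, self_mem_nhdsWithin] with w hw hw2 h7
        apply hw
        simp only [Finset.coe_erase, Set.mem_sdiff, Finset.mem_coe, Multiset.mem_toFinset,
          Set.mem_singleton_iff]
        exact ⟨(mem_roots hB).2 h7, hw2⟩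
      have h5 : ∀ᶠ w in 𝓝[≠] r, A.eval w ≠ 0 :=
        nhdsWithin_le_nhds (A.continuous.continuousAt.eventually_ne hA)
      filter_upwards [h4, h5] with w hw hw2
      rw [hB₂, eval_mul] at hw ⊢
      have h6 := left_ne_zero_of_mul hw
      have h7 := right_ne_zero_of_mul hw
      have h8 : eval w (X - C r) = w - r := by simp
      rw [h8] at h6 ⊢
      field_simp
    · exact Eventually.of_forall fun w => by simp
  · rw [Set.uIcc_of_le (by linarith)]
    constructor <;> linarith

theorem deg_lt {A B : ℝ[X]} (hB : B ≠ 0)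
    (hi : Integrable (fun w : ℝ => A.eval w / B.eval w)) : A.degree < B.degree := by
  by_contra hcon
  have h1 := Polynomial.isBigO_atTop_of_degree_le B A (not_lt.1 hcon)
  obtain ⟨c, hc, h2⟩ := h1.exists_pos
  have h3 := h2.bound
  have h4 := Polynomial.eventually_atTop_not_isRoot B hB
  obtain ⟨x0, hx0⟩ := eventually_atTop.1 (h3.and h4)
  have h5 : IntegrableOn (fun _ : ℝ => (1 : ℝ)) (Ioi x0) := by
    refine Integrable.mono' ((hi.norm.const_mul c).integrableOn (s := Ioi x0))
      aestronglyMeasurable_const ?_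
    refine (ae_restrict_iff' measurableSet_Ioi).2 (Eventually.of_forall fun w hw => ?_)
    obtain ⟨h6, h7⟩ := hx0 w hw.le
    have h8 : 0 < ‖B.eval w‖ := norm_pos_iff.2 h7
    rw [norm_one, norm_div, ← mul_div_assoc, le_div_iff₀ h8, one_mul]
    exact h6
  rw [integrableOn_const_iff] at h5
  rcases h5 with h5 | h5
  · simp at h5
  · simp at h5

/-- (E) Existence of the decomposition. -/
theorem exist_rep (A B : ℝ[X]) (hB : B ≠ 0)
    (hi : Integrable (fun w : ℝ => A.eval w / B.eval w)) (D : ℕ) (hD : B.natDegree ≤ D) :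
    ∃ (z : Fin (D + 1) → ℂ) (U : ℂ[X]), (∀ j, 0 < (z j).im) ∧
      U.degree < ((D + 1 : ℕ) : WithBot ℕ) ∧
      ∀ w : ℝ, A.eval w * Complex.normSq (CC z (w : ℂ)) =
        2 * B.eval w * (U.eval (w : ℂ) * conj (CC z (w : ℂ))).re := by
  classical
  obtain ⟨g, hg⟩ : ∃ g, g = EuclideanDomain.gcd A B := ⟨_, rfl⟩
  have hg0 : g ≠ 0 := by
    intro h
    rw [hg, EuclideanDomain.gcd_eq_zero_iff] at h
    exact hB h.2
  obtain ⟨A₁, hA₁⟩ : ∃ A₁, A₁ = A / g := ⟨_, rfl⟩
  obtain ⟨B₁, hB₁⟩ : ∃ B₁, B₁ = B / g := ⟨_, rfl⟩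
  have hAg : A = g * A₁ := by
    rw [hA₁, EuclideanDomain.mul_div_cancel' hg0]
    rw [hg]
    exact EuclideanDomain.gcd_dvd_left _ _
  have hBg : B = g * B₁ := by
    rw [hB₁, EuclideanDomain.mul_div_cancel' hg0]
    rw [hg]
    exact EuclideanDomain.gcd_dvd_right _ _
  have hco : IsCoprime A₁ B₁ := by
    have hbez : EuclideanDomain.gcd A B = A * EuclideanDomain.gcdA A B +
        B * EuclideanDomain.gcdB A B := EuclideanDomain.gcd_eq_gcd_ab A B
    rw [← hg] at hbez
    refine ⟨EuclideanDomain.gcdA A B, EuclideanDomain.gcdB A B, mul_left_cancel₀ hg0 ?_⟩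
    linear_combination EuclideanDomain.gcdA A B * (-hAg) + EuclideanDomain.gcdB A B * (-hBg) - hbez
  have hB₁0 : B₁ ≠ 0 := by
    intro h
    rw [h, mul_zero] at hBg
    exact hB hBg
  have hi₁ : Integrable (fun w : ℝ => A₁.eval w / B₁.eval w) := by
    refine hi.congr ?_
    have h1 : ∀ᵐ w : ℝ, w ∉ (g.roots.toFinset : Set ℝ) := by
      rw [ae_iff]
      simp only [not_not]
      exact (Finset.finite_toSet _).measure_zero _
    filter_upwards [h1] with w hw
    have h2 : g.eval w ≠ 0 := by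
      intro h3
      apply hw
      simp only [Finset.mem_coe, Multiset.mem_toFinset]
      exact (mem_roots hg0).2 h3
    rw [hAg, hBg, eval_mul, eval_mul, mul_div_mul_left _ _ h2]
  have hne := no_root hco hB₁0 hi₁
  have hdeg := deg_lt hB₁0 hi₁
  obtain ⟨m, z, b, hb, hm, hz, hzB⟩ := fact B₁ hne
  have hA₁d : A₁.degree < ((2 * m : ℕ) : WithBot ℕ) := by
    rw [hm, ← degree_eq_natDegree hB₁0]
    exact hdeg
  obtain ⟨U, hU, hUe⟩ := decomp z hz A₁ hA₁d
  have hmD : m ≤ D := by
    have h1 : B.natDegree = g.natDegree + B₁.natDegree := by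
      rw [hBg, natDegree_mul hg0 hB₁0]
    omega
  obtain ⟨k, hk⟩ : ∃ k, D + 1 = m + k := ⟨D + 1 - m, by omega⟩
  rw [hk]
  have hCC : ∀ w : ℂ, CC (Fin.append z (fun _ : Fin k => Complex.I)) w =
      CC z w * (w - Complex.I) ^ k := by
    intro w
    unfold CC
    rw [Fin.prod_univ_add]
    simp
  refine ⟨Fin.append z (fun _ : Fin k => Complex.I), C ((b⁻¹ : ℝ) : ℂ) * (U * (X - C Complex.I) ^ k),
    ?_, ?_, fun w => ?_⟩
  · intro j
    refine Fin.addCases (fun j => ?_) (fun j => ?_) j
    · rw [Fin.append_left]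
      exact hz j
    · rw [Fin.append_right]
      simp
  · refine lt_of_le_of_lt (deg_C_mul _ _) ?_
    rcases eq_or_ne U 0 with h | h
    · rw [h, zero_mul, degree_zero]
      exact WithBot.bot_lt_coe _
    · rw [degree_mul, degree_pow, degree_X_sub_C, degree_eq_natDegree h]
      rw [degree_eq_natDegree h] at hU
      have h4 : U.natDegree < m := by exact_mod_cast hU
      simp only [nsmul_eq_mul, mul_one]
      exact_mod_cast (by omega : U.natDegree + k < m + k)
  · rw [hCC, hAg, hBg, eval_mul, eval_mul, hUe, hzB, map_mul]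
    simp only [eval_mul, eval_C, eval_pow, eval_sub, eval_X, map_mul]
    have h1 : ((b⁻¹ : ℝ) : ℂ) * (U.eval (w : ℂ) * ((w : ℂ) - Complex.I) ^ k) *
        (conj (CC z (w : ℂ)) * conj (((w : ℂ) - Complex.I) ^ k)) =
        ((b⁻¹ * Complex.normSq (((w : ℂ) - Complex.I) ^ k) : ℝ) : ℂ) *
          (U.eval (w : ℂ) * conj (CC z (w : ℂ))) := by
      push_cast
      rw [← Complex.mul_conj]
      ring
    rw [h1, Complex.re_ofReal_mul]
    field_simp

end Pool.Agent.WSP
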