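import Pool.Agent.W_2cf66e_h23.Ker

/-!
# MP_2cf66e_nt, integrals over the whole space: the function of a polynomial (helper23)
-/

set_option autoImplicit false

noncomputable section

open MeasureTheory Set Filter Topology

namespace Pool.Agent.WSP

/-- The two factors of one coordinate. -/
def cf (n : ℕ) (b : Bool) (t : ℝ) : ℝ := if b then t - 1 + (1 + t ^ (2 * n))⁻¹ else 1 - t

theorem cf_den_pos (n : ℕ) (t : ℝ) : 0 < 1 + t ^ (2 * n) := by
  have : 0 ≤ t ^ (2 * n) := by
    rw [pow_mul]
    positivity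
  linarith

theorem cf_cont (n : ℕ) (b : Bool) : Continuous (cf n b) := by
  cases b
  · unfold cf
    simp only [Bool.false_eq_true, if_false]
    fun_prop
  · unfold cf
    simp only [if_true]
    refine (continuous_id.sub continuous_const).add
      (Continuous.inv₀ (by fun_prop) fun t => (cf_den_pos n t).ne')

theorem cf_add (n : ℕ) (t : ℝ) : cf n true t + cf n false t = (1 + t ^ (2 * n))⁻¹ := by
  unfold cf
  simp only [if_true, Bool.false_eq_true, if_false]
  ring

theorem cf_big {n : ℕ} (_hn : 0 < n) {t : ℝ} (ht : 2 ≤ |t|) (b : Bool) : 1 / 2 ≤ |cf n b t| := by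
  have h1 : 1 ≤ |1 - t| := by
    have h2 := abs_sub_abs_le_abs_sub t 1
    rw [abs_one, abs_sub_comm] at h2
    linarith
  cases b
  · unfold cf
    simp only [Bool.false_eq_true, if_false]
    linarith
  · unfold cf
    simp only [if_true]
    have h3 : (1 + t ^ (2 * n))⁻¹ ≤ 1 / 2 := by
      rw [inv_eq_one_div]
      refine one_div_le_one_div_of_le (by norm_num) ?_
      have h4 : 1 ≤ t ^ (2 * n) := by
        rw [pow_mul]
        refine one_le_pow₀ ?_
        have : 2 ^ 2 ≤ |t| ^ 2 := pow_le_pow_left₀ (by norm_num) ht 2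
        rw [sq_abs] at this
        linarith
      linarith
    have h5 : 0 < (1 + t ^ (2 * n))⁻¹ := inv_pos.2 (cf_den_pos n t)
    have h6 := abs_sub_abs_le_abs_sub (t - 1) (-(1 + t ^ (2 * n))⁻¹)
    rw [abs_neg, abs_of_pos h5, sub_neg_eq_add, abs_sub_comm t 1] at h6
    linarith

/-- The sign of the first factor. -/
theorem cf_sign {n : ℕ} (hn : 0 < n) (t : ℝ) (h0 : t ≠ 0) (h1 : t ≠ 1) :
    sg (cf n true t) + sg (cf n false t) = if 0 ≤ t ∧ t ≤ 1 then 2 else 0 := by
  have hd := cf_den_pos n t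
  have e : cf n true t = t * ((t ^ (2 * n) - t ^ (2 * n - 1) + 1) / (1 + t ^ (2 * n))) := by
    have h2 : t ^ (2 * n) = t * t ^ (2 * n - 1) := by
      rw [← pow_succ']
      congr 1
      omega
    unfold cf
    simp only [if_true]
    have h3 : (1 + t ^ (2 * n)) ≠ 0 := hd.ne'
    field_simp
    linear_combination (-1 : ℝ) * h2
  have hnum : 0 < t ^ (2 * n) - t ^ (2 * n - 1) + 1 := by
    have h2 : t ^ (2 * n) = t * t ^ (2 * n - 1) := by
      rw [← pow_succ']
      congr 1
      omega
    have hodd : Odd (2 * n - 1) := ⟨n - 1, by omega⟩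
    rcases lt_or_ge t 0 with h | h
    · have h3 : t ^ (2 * n - 1) < 0 := hodd.pow_neg h
      have h4 : 0 ≤ t ^ (2 * n) := by linarith [hd, sq_nonneg (t ^ n), pow_mul t 2 n, pow_mul' t 2 n]
      linarith
    · rcases le_or_gt t 1 with h3 | h3
      · have h4 : t ^ (2 * n - 1) ≤ 1 := pow_le_one₀ h h3
        have h5 : 0 ≤ t ^ (2 * n - 1) := pow_nonneg h _
        rcases lt_or_eq_of_le h4 with h6 | h6
        · have : 0 ≤ t ^ (2 * n) := pow_nonneg h _
          linarith
        · rw [h2, h6]
          have : 0 < t := lt_of_le_of_ne h (Ne.symm h0)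
          linarith
      · have h4 : 0 ≤ t ^ (2 * n - 1) := pow_nonneg h _
        rw [h2]
        nlinarith
  have hr : 0 < (t ^ (2 * n) - t ^ (2 * n - 1) + 1) / (1 + t ^ (2 * n)) := div_pos hnum hd
  have hst : sg (cf n true t) = sg t := by
    rw [e, sg_mul, sg_pos hr, mul_one]
  have hsf : cf n false t = 1 - t := by simp [cf]
  rw [hst, hsf]
  rcases lt_or_gt_of_ne h0 with h | h
  · rw [sg_neg h, sg_pos (by linarith), if_neg (by intro h2; linarith [h2.1])]
    ring
  · rcases lt_or_gt_of_ne h1 with h2 | h2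
    · rw [sg_pos h, sg_pos (by linarith), if_pos ⟨h.le, h2.le⟩]
      ring
    · rw [sg_pos h, sg_neg (by linarith), if_neg (by intro h3; linarith [h3.2])]
      ring

variable {n : ℕ}

/-- The argument of the kernel. -/
def gg (f : (Fin n → ℝ) → ℝ) (e : Fin n → Bool) (u : Fin n → ℝ) : ℝ :=
  f u * ∏ i, cf n (e i) (u i)

/-- The function. -/
def FF (f : (Fin n → ℝ) → ℝ) (u : Fin n → ℝ) (w : ℝ) : ℝ :=
  ∑ e : Fin n → Bool, K (gg f e u) w

theorem gg_cont {f : (Fin n → ℝ) → ℝ} (hf : Continuous f) (e : Fin n → Bool) :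
    Continuous (gg f e) := by
  unfold gg
  refine hf.mul (continuous_finsetProd _ fun i _ => ?_)
  exact (cf_cont n (e i)).comp (continuous_apply i)

theorem FF_cont {f : (Fin n → ℝ) → ℝ} (hf : Continuous f) :
    Continuous (fun p : (Fin n → ℝ) × ℝ => FF f p.1 p.2) := by
  unfold FF K
  refine continuous_finsetSum _ fun e _ => ?_
  have h1 : Continuous fun p : (Fin n → ℝ) × ℝ => gg f e p.1 := (gg_cont hf e).comp continuous_fst
  refine h1.div (by fun_prop) fun p => ?_
  exact (den_pos _ _).ne'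

theorem FF_int (f : (Fin n → ℝ) → ℝ) (u : Fin n → ℝ) : Integrable (FF f u) := by
  unfold FF
  exact integrable_finsetSum _ fun e _ => (K_int _).1

theorem FF_abs_le (f : (Fin n → ℝ) → ℝ) (u : Fin n → ℝ) :
    ∫ w, ‖FF f u w‖ ≤ Real.pi * 10 ^ n * ∏ i, (1 + (u i) ^ 2)⁻¹ := by
  classical
  have hprod : 0 < ∏ i, (1 + (u i) ^ 2) := Finset.prod_pos fun i _ => by positivity
  have hpi := Real.pi_pos
  rw [Finset.prod_inv_distrib]
  by_cases hbig : ∃ j, 2 ≤ |u j|
  · -- the large case
    obtain ⟨j0, hj0⟩ := hbig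
    obtain ⟨j, -, hj⟩ := Finset.exists_max_image Finset.univ (fun i => |u i|) ⟨j0, Finset.mem_univ _⟩
    have hj2 : 2 ≤ |u j| := hj0.trans (hj j0 (Finset.mem_univ _))
    have hn : 0 < n := lt_of_le_of_lt (Nat.zero_le _) j.2
    set fl : (Fin n → Bool) → (Fin n → Bool) := fun e => Function.update e j (!(e j)) with hfl
    have hinv : Function.Involutive fl := by
      intro e
      simp [hfl]
    have hsum : ∀ w, FF f u w = ∑ e : Fin n → Bool, K (gg f (fl e) u) w := by
      intro w
      exact (Equiv.sum_comp hinv.toPerm (fun e => K (gg f e u) w)).symm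
    have h2 : ∀ w, 2 * FF f u w = ∑ e : Fin n → Bool, (K (gg f e u) w + K (gg f (fl e) u) w) := by
      intro w
      rw [Finset.sum_add_distrib, ← hsum w]
      unfold FF
      ring
    set δ : ℝ := (1 + (u j) ^ (2 * n))⁻¹ with hδ
    have hδ0 : 0 < δ := inv_pos.2 (cf_den_pos n (u j))
    have hR : ∀ e : Fin n → Bool, gg f e u =
        (f u * ∏ i ∈ Finset.univ.erase j, cf n (e i) (u i)) * cf n (e j) (u j) := by
      intro e
      unfold gg
      rw [← Finset.mul_prod_erase Finset.univ _ (Finset.mem_univ j)]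
      ring
    have hR2 : ∀ e : Fin n → Bool, gg f (fl e) u =
        (f u * ∏ i ∈ Finset.univ.erase j, cf n (e i) (u i)) * cf n (!(e j)) (u j) := by
      intro e
      rw [hR (fl e)]
      congr 1
      · congr 1
        refine Finset.prod_congr rfl fun i hi => ?_
        have : i ≠ j := (Finset.mem_erase.1 hi).1
        simp [hfl, this]
      · simp [hfl]
    have hpair : ∀ e : Fin n → Bool, ∫ w, |K (gg f e u) w + K (gg f (fl e) u) w| ≤
        Real.pi * (2 * δ) := by
      intro e
      rw [hR e, hR2 e]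
      refine (K_add_int (m := 1 / 2) (by norm_num) (cf_big hn hj2 _) (cf_big hn hj2 _)).trans ?_
      have h3 : cf n (e j) (u j) + cf n (!(e j)) (u j) = δ := by
        cases h : e j
        · simp only [Bool.not_false]
          rw [add_comm]
          exact cf_add n (u j)
        · simp only [Bool.not_true]
          exact cf_add n (u j)
      rw [h3, abs_of_pos hδ0]
      refine mul_le_mul_of_nonneg_left ?_ hpi.le
      rw [div_le_iff₀ (by norm_num)]
      linarith
    have h4 : ∫ w, ‖FF f u w‖ ≤ 2 ^ n * (Real.pi * δ) := by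
      have h5 : ∀ w, ‖FF f u w‖ ≤
          (1 / 2) * ∑ e : Fin n → Bool, |K (gg f e u) w + K (gg f (fl e) u) w| := by
        intro w
        have h6 : FF f u w = (1 / 2) * (2 * FF f u w) := by ring
        rw [h6, h2 w, norm_mul, Real.norm_eq_abs, Real.norm_eq_abs, abs_of_pos (by norm_num :
          (0 : ℝ) < 1 / 2)]
        exact mul_le_mul_of_nonneg_left (Finset.abs_sum_le_sum_abs _ _) (by norm_num)
      have hie : ∀ e : Fin n → Bool,
          Integrable (fun w => |K (gg f e u) w + K (gg f (fl e) u) w|) := fun e =>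
        ((K_int _).1.add (K_int _).1).abs
      calc ∫ w, ‖FF f u w‖
          ≤ ∫ w, (1 / 2) * ∑ e : Fin n → Bool, |K (gg f e u) w + K (gg f (fl e) u) w| := by
            refine integral_mono_of_nonneg (Eventually.of_forall fun w => norm_nonneg _) ?_
              (Eventually.of_forall h5)
            exact (integrable_finsetSum _ fun e _ => hie e).const_mul _
        _ = (1 / 2) * ∑ e : Fin n → Bool, ∫ w, |K (gg f e u) w + K (gg f (fl e) u) w| := by
            rw [integral_const_mul, integral_finsetSum _ fun e _ => hie e]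
        _ ≤ (1 / 2) * ∑ e : Fin n → Bool, Real.pi * (2 * δ) := by
            gcongr with e
            exact hpair e
        _ = 2 ^ n * (Real.pi * δ) := by
            rw [Finset.sum_const, Finset.card_univ, Fintype.card_fun, Fintype.card_bool,
              Fintype.card_fin, nsmul_eq_mul]
            push_cast
            ring
    have h5 : δ ≤ 2 ^ n * (∏ i, (1 + (u i) ^ 2))⁻¹ := by
      rw [hδ, ← div_eq_mul_inv, inv_eq_one_div, div_le_div_iff₀ (cf_den_pos n (u j)) hprod, one_mul]
      calc ∏ i, (1 + (u i) ^ 2) ≤ ∏ _i : Fin n, (2 * (u j) ^ 2) := by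
            refine Finset.prod_le_prod (fun i _ => by positivity) fun i _ => ?_
            have h6 : (u i) ^ 2 ≤ (u j) ^ 2 := sq_le_sq.2 (hj i (Finset.mem_univ _))
            have h7 : 2 ^ 2 ≤ |u j| ^ 2 := pow_le_pow_left₀ (by norm_num) hj2 2
            rw [sq_abs] at h7
            linarith
        _ = 2 ^ n * (u j) ^ (2 * n) := by
            rw [Finset.prod_const, Finset.card_univ, Fintype.card_fin, mul_pow, ← pow_mul]
        _ ≤ 2 ^ n * (1 + (u j) ^ (2 * n)) := by
            gcongr
            linarith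
    have hI : 0 < (∏ i, (1 + (u i) ^ 2))⁻¹ := inv_pos.2 hprod
    calc ∫ w, ‖FF f u w‖ ≤ 2 ^ n * (Real.pi * δ) := h4
      _ ≤ 2 ^ n * (Real.pi * (2 ^ n * (∏ i, (1 + (u i) ^ 2))⁻¹)) := by gcongr
      _ = Real.pi * (2 * 2) ^ n * (∏ i, (1 + (u i) ^ 2))⁻¹ := by
          rw [mul_pow]
          ring
      _ ≤ Real.pi * 10 ^ n * (∏ i, (1 + (u i) ^ 2))⁻¹ := by
          gcongr
          norm_num
  · push Not at hbig
    have h1 : ∫ w, ‖FF f u w‖ ≤ 2 ^ n * Real.pi := by
      calc ∫ w, ‖FF f u w‖ ≤ ∫ w, ∑ e : Fin n → Bool, |K (gg f e u) w| := by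
            refine integral_mono_of_nonneg (Eventually.of_forall fun w => norm_nonneg _) ?_
              (Eventually.of_forall fun w => ?_)
            · exact integrable_finsetSum _ fun e _ => (K_int _).1.abs
            · exact Finset.abs_sum_le_sum_abs _ _
        _ = ∑ e : Fin n → Bool, ∫ w, |K (gg f e u) w| :=
            integral_finsetSum _ fun e _ => (K_int _).1.abs
        _ ≤ ∑ _e : Fin n → Bool, Real.pi := Finset.sum_le_sum fun e _ => K_abs_int _
        _ = 2 ^ n * Real.pi := by
            rw [Finset.sum_const, Finset.card_univ, Fintype.card_fun, Fintype.card_bool,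
              Fintype.card_fin, nsmul_eq_mul]
            push_cast
            ring
    have h2 : ∏ i, (1 + (u i) ^ 2) ≤ 5 ^ n := by
      calc ∏ i, (1 + (u i) ^ 2) ≤ ∏ _i : Fin n, (5 : ℝ) := by
            refine Finset.prod_le_prod (fun i _ => by positivity) fun i _ => ?_
            have h3 : |u i| ^ 2 ≤ 2 ^ 2 := pow_le_pow_left₀ (abs_nonneg _) (hbig i).le 2
            rw [sq_abs] at h3
            linarith
        _ = 5 ^ n := by
            rw [Finset.prod_const, Finset.card_univ, Fintype.card_fin]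
    refine h1.trans ?_
    rw [← div_eq_mul_inv, le_div_iff₀ hprod]
    calc 2 ^ n * Real.pi * ∏ i, (1 + (u i) ^ 2) ≤ 2 ^ n * Real.pi * 5 ^ n := by gcongr
      _ = Real.pi * (2 * 5) ^ n := by
          rw [mul_pow]
          ring
      _ = Real.pi * 10 ^ n := by norm_num

theorem H_int : Integrable (fun u : Fin n → ℝ => Real.pi * 10 ^ n * ∏ i, (1 + (u i) ^ 2)⁻¹) := by
  refine Integrable.const_mul ?_ _
  exact Integrable.fintype_prod (f := fun (_ : Fin n) (t : ℝ) => (1 + t ^ 2)⁻¹)
    fun _ => integrable_inv_one_add_sq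

theorem FF_integrable {f : (Fin n → ℝ) → ℝ} (hf : Continuous f) :
    Integrable (fun p : (Fin n → ℝ) × ℝ => FF f p.1 p.2)
      ((volume : Measure (Fin n → ℝ)).prod (volume : Measure ℝ)) := by
  have hm : StronglyMeasurable (fun p : (Fin n → ℝ) × ℝ => FF f p.1 p.2) :=
    (FF_cont hf).stronglyMeasurable
  rw [integrable_prod_iff hm.aestronglyMeasurable]
  refine ⟨Eventually.of_forall fun u => FF_int f u, ?_⟩
  refine Integrable.mono' H_int ?_ (Eventually.of_forall fun u => ?_)
  · exact hm.norm.integral_prod_right.aestronglyMeasurable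
  · rw [Real.norm_of_nonneg (integral_nonneg fun w => norm_nonneg _)]
    exact FF_abs_le f u

theorem FF_inner (f : (Fin n → ℝ) → ℝ) (u : Fin n → ℝ) :
    ∫ w, FF f u w = Real.pi * (sg (f u) * ∏ i, (sg (cf n true (u i)) + sg (cf n false (u i)))) := by
  classical
  unfold FF
  rw [integral_finsetSum _ fun e _ => (K_int _).1]
  simp only [fun e => (K_int (gg f e u)).2]
  rw [← Finset.mul_sum]
  congr 1
  have h1 : ∀ e : Fin n → Bool, sg (gg f e u) = sg (f u) * ∏ i, sg (cf n (e i) (u i)) := by
    intro e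
    unfold gg
    rw [sg_mul]
    congr 1
    exact sg_prod _
  simp only [h1]
  rw [← Finset.mul_sum]
  congr 1
  have h2 := Finset.prod_univ_sum (fun _ : Fin n => (Finset.univ : Finset Bool))
    (fun i b => sg (cf n b (u i)))
  simp only [Fintype.sum_bool, Fintype.piFinset_univ] at h2
  exact h2.symm

/-- The unit cube. -/
def cube (n : ℕ) : Set (Fin n → ℝ) := {u | ∀ i, 0 ≤ u i ∧ u i ≤ 1}

theorem cube_meas (n : ℕ) : MeasurableSet (cube n) := by
  have : cube n = Set.Icc (fun _ => (0 : ℝ)) (fun _ => (1 : ℝ)) := by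
    ext u
    simp [cube, Pi.le_def, forall_and]
  rw [this]
  exact measurableSet_Icc

theorem cube_key {n : ℕ} (f : (Fin n → ℝ) → ℝ) : ∀ᵐ u : Fin n → ℝ,
    sg (f u) * ∏ i, (sg (cf n true (u i)) + sg (cf n false (u i))) =
      (cube n).indicator (fun u => 2 ^ n * sg (f u)) u := by
  classical
  have hne : ∀ᵐ u : Fin n → ℝ, ∀ i, u i ≠ 0 ∧ u i ≠ 1 := by
    rw [ae_all_iff]
    intro i
    have h1 : ∀ c : ℝ, ∀ᵐ u : Fin n → ℝ, u i ≠ c := by
      intro c
      rw [ae_iff]
      simp only [not_not]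
      exact Measure.pi_hyperplane (fun _ : Fin n => (volume : Measure ℝ)) i c
    filter_upwards [h1 0, h1 1] with u h2 h3
    exact ⟨h2, h3⟩
  filter_upwards [hne] with u hu
  rcases Nat.eq_zero_or_pos n with hn | hn
  · subst hn
    have : u ∈ cube 0 := fun i => i.elim0
    rw [Set.indicator_of_mem this]
    simp
  · have h1 : ∏ i, (sg (cf n true (u i)) + sg (cf n false (u i))) =
        ∏ i, (if 0 ≤ u i ∧ u i ≤ 1 then (2 : ℝ) else 0) :=
      Finset.prod_congr rfl fun i _ => cf_sign hn _ (hu i).1 (hu i).2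
    rw [h1]
    by_cases hc : u ∈ cube n
    · rw [Set.indicator_of_mem hc]
      have h2 : ∏ i, (if 0 ≤ u i ∧ u i ≤ 1 then (2 : ℝ) else 0) = 2 ^ n := by
        rw [Finset.prod_congr rfl fun i _ => if_pos (hc i)]
        simp
      rw [h2]
      ring
    · rw [Set.indicator_of_notMem hc]
      have h2 : ∃ i, ¬ (0 ≤ u i ∧ u i ≤ 1) := by
        by_contra h3
        push Not at h3
        exact hc fun i => h3 i
      obtain ⟨i, hi⟩ := h2
      rw [Finset.prod_eq_zero (Finset.mem_univ i) (if_neg hi), mul_zero]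

theorem FF_total {n : ℕ} {f : (Fin n → ℝ) → ℝ} (hf : Continuous f) :
    ∫ p : (Fin n → ℝ) × ℝ, FF f p.1 p.2
      ∂((volume : Measure (Fin n → ℝ)).prod (volume : Measure ℝ)) =
      Real.pi * 2 ^ n * ∫ u in cube n, sg (f u) := by
  rw [integral_prod (fun p : (Fin n → ℝ) × ℝ => FF f p.1 p.2) (FF_integrable hf)]
  calc ∫ u : Fin n → ℝ, ∫ w, FF f u w
      = ∫ u : Fin n → ℝ, Real.pi *
          (sg (f u) * ∏ i, (sg (cf n true (u i)) + sg (cf n false (u i)))) :=
        integral_congr_ae (Eventually.of_forall fun u => FF_inner f u)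
    _ = Real.pi * ∫ u : Fin n → ℝ,
          sg (f u) * ∏ i, (sg (cf n true (u i)) + sg (cf n false (u i))) := integral_const_mul _ _
    _ = Real.pi * ∫ u : Fin n → ℝ, (cube n).indicator (fun u => 2 ^ n * sg (f u)) u := by
        rw [integral_congr_ae (cube_key f)]
    _ = Real.pi * 2 ^ n * ∫ u in cube n, sg (f u) := by
        rw [integral_indicator (cube_meas n), integral_const_mul]
        ring

end Pool.Agent.WSP
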