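import Pool.Agent.W_2cf66e_h23.Fwd
import Pool.Agent.W_2cf66e_h3.Main

/-!
# MP_2cf66e_nt, integrals over the whole space: periods times pi (helper23)
-/

set_option autoImplicit false

noncomputable section

open MeasureTheory Set Filter Topology MvPolynomial

namespace Pool.Agent.WSP

/-- Rational functions with rational coefficients and a positive denominator. -/
def RF {ι : Type} (h : (ι → ℝ) → ℝ) : Prop :=
  ∃ P Q : MvPolynomial ι ℚ, (∀ z : ι → ℝ, (0 : ℝ) < aeval z Q) ∧
    ∀ z : ι → ℝ, h z = aeval z P / aeval z Q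

variable {ι : Type}

theorem RF.congr {f g : (ι → ℝ) → ℝ} (hf : RF f) (h : ∀ z, f z = g z) : RF g := by
  have h1 : f = g := funext h
  rwa [← h1]

theorem RF.const (q : ℚ) : RF (fun _ : ι → ℝ => (q : ℝ)) :=
  ⟨C q, 1, fun z => by simp, fun z => by simp⟩

theorem RF.var (i : ι) : RF (fun z : ι → ℝ => z i) :=
  ⟨X i, 1, fun z => by simp, fun z => by simp⟩

theorem RF.add {f g : (ι → ℝ) → ℝ} (hf : RF f) (hg : RF g) : RF (fun z => f z + g z) := by
  obtain ⟨P, Q, hQ, h⟩ := hf
  obtain ⟨P', Q', hQ', h'⟩ := hg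
  refine ⟨P * Q' + P' * Q, Q * Q', fun z => ?_, fun z => ?_⟩
  · rw [map_mul]
    exact mul_pos (hQ z) (hQ' z)
  · have h1 := (hQ z).ne'
    have h2 := (hQ' z).ne'
    show f z + g z = _
    rw [h, h']
    simp only [map_add, map_mul]
    field_simp

theorem RF.mul {f g : (ι → ℝ) → ℝ} (hf : RF f) (hg : RF g) : RF (fun z => f z * g z) := by
  obtain ⟨P, Q, hQ, h⟩ := hf
  obtain ⟨P', Q', hQ', h'⟩ := hg
  refine ⟨P * P', Q * Q', fun z => ?_, fun z => ?_⟩
  · rw [map_mul]
    exact mul_pos (hQ z) (hQ' z)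
  · show f z * g z = _
    rw [h, h', map_mul, map_mul, div_mul_div_comm]

theorem RF.inv {g : (ι → ℝ) → ℝ} (hg : RF g) (h0 : ∀ z, 0 < g z) : RF (fun z => (g z)⁻¹) := by
  obtain ⟨P, Q, hQ, h⟩ := hg
  refine ⟨Q, P, fun z => ?_, fun z => ?_⟩
  · have h1 := h0 z
    rw [h] at h1
    exact (div_pos_iff_of_pos_right (hQ z)).1 h1
  · show (g z)⁻¹ = _
    rw [h, inv_div]

theorem RF.div {f g : (ι → ℝ) → ℝ} (hf : RF f) (hg : RF g) (h0 : ∀ z, 0 < g z) :
    RF (fun z => f z / g z) := by
  simp only [div_eq_mul_inv]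
  exact hf.mul (hg.inv h0)

theorem RF.sub {f g : (ι → ℝ) → ℝ} (hf : RF f) (hg : RF g) : RF (fun z => f z - g z) := by
  have h1 := hf.add ((RF.const (ι := ι) (-1)).mul hg)
  have h2 : (fun z => f z - g z) = fun z => f z + ((-1 : ℚ) : ℝ) * g z := by
    funext z
    push_cast
    ring
  rw [h2]
  exact h1

theorem RF.pow {f : (ι → ℝ) → ℝ} (hf : RF f) (k : ℕ) : RF (fun z => f z ^ k) := by
  induction k with
  | zero =>
    have h := RF.const (ι := ι) 1
    simpa using h
  | succ k ih =>
    simp only [pow_succ]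
    exact ih.mul hf

theorem RF.sum {α : Type} (s : Finset α) {f : α → (ι → ℝ) → ℝ} (hf : ∀ a, RF (f a)) :
    RF (fun z => ∑ a ∈ s, f a z) := by
  classical
  induction s using Finset.induction_on with
  | empty =>
    have h := RF.const (ι := ι) 0
    simpa using h
  | insert a s ha ih =>
    simp only [Finset.sum_insert ha]
    exact (hf a).add ih

theorem RF.prod {α : Type} (s : Finset α) {f : α → (ι → ℝ) → ℝ} (hf : ∀ a, RF (f a)) :
    RF (fun z => ∏ a ∈ s, f a z) := by
  classical
  induction s using Finset.induction_on with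
  | empty =>
    have h := RF.const (ι := ι) 1
    simpa using h
  | insert a s ha ih =>
    simp only [Finset.prod_insert ha]
    exact (hf a).mul ih

theorem RF.poly {κ : Type} (f : MvPolynomial κ ℤ) (g : κ → ι) :
    RF (fun z : ι → ℝ => (aeval (fun j => z (g j)) f : ℝ)) := by
  induction f using MvPolynomial.induction_on with
  | C a =>
    have h := RF.const (ι := ι) a
    simpa using h
  | add p q hp hq =>
    simp only [map_add]
    exact hp.add hq
  | mul_X p j hp =>
    simp only [map_mul, aeval_X]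
    exact hp.mul (RF.var (g j))

theorem RF.cf (n : ℕ) (b : Bool) (i : ι) : RF (fun z : ι → ℝ => WSP.cf n b (z i)) := by
  cases b
  · simp only [WSP.cf, Bool.false_eq_true, if_false]
    have h := (RF.const (ι := ι) 1).sub (RF.var i)
    simpa using h
  · simp only [WSP.cf, if_true]
    have h := ((RF.var i).sub (RF.const (ι := ι) 1)).add
      (((RF.const (ι := ι) 1).add ((RF.var i).pow (2 * n))).inv (by
        intro z
        have := cf_den_pos n (z i)
        simpa using this))
    simpa using h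

theorem RF.K {f g : (ι → ℝ) → ℝ} (hf : RF f) (hg : RF g) : RF (fun z => WSP.K (f z) (g z)) := by
  unfold WSP.K
  have h1 := (RF.const (ι := ι) 1).add ((hf.pow 2).mul (hg.pow 2))
  have h2 : RF (fun z : ι → ℝ => 1 + f z ^ 2 * g z ^ 2) := by simpa using h1
  exact hf.div h2 fun z => den_pos _ _

/-- The last coordinates and the first one. -/
def EE (n : ℕ) : (Fin (n + 1) → ℝ) ≃ᵐ (Fin n → ℝ) × ℝ :=
  (MeasurableEquiv.piFinSuccAbove (fun _ : Fin (n + 1) => ℝ) 0).trans MeasurableEquiv.prodComm

theorem EE_apply {n : ℕ} (z : Fin (n + 1) → ℝ) : EE n z = (fun j : Fin n => z j.succ, z 0) := by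
  rfl

theorem EE_mp (n : ℕ) : MeasurePreserving (EE n) volume
    ((volume : Measure (Fin n → ℝ)).prod (volume : Measure ℝ)) := by
  unfold EE
  have h1 := volume_preserving_piFinSuccAbove (fun _ : Fin (n + 1) => ℝ) 0
  have h2 : MeasurePreserving (Prod.swap : ℝ × (Fin n → ℝ) → (Fin n → ℝ) × ℝ)
      ((volume : Measure ℝ).prod (volume : Measure (Fin n → ℝ)))
      ((volume : Measure (Fin n → ℝ)).prod (volume : Measure ℝ)) :=
    Measure.measurePreserving_swap
  exact h2.comp h1

theorem RF.FF {n : ℕ} {f : (Fin n → ℝ) → ℝ} (hf : RF (fun z : Fin (n + 1) → ℝ => f (fun j => z j.succ))) :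
    RF (fun z : Fin (n + 1) → ℝ => WSP.FF f (fun j => z j.succ) (z 0)) := by
  unfold WSP.FF gg
  refine RF.sum _ fun e => ?_
  refine RF.K (hf.mul (RF.prod _ fun i => RF.cf n (e i) i.succ)) (RF.var 0)

theorem sg_half (t : ℝ) : (1 / 2) * sg t + (1 / 2) * sg (t ^ 2) = if 0 < t then 1 else 0 := by
  rcases lt_trichotomy t 0 with h | h | h
  · rw [sg_neg h, sg_pos (by nlinarith [mul_pos_of_neg_of_neg h h]), if_neg (by linarith)]
    ring
  · rw [h]
    simp [sg_zero]
  · rw [sg_pos h, sg_pos (by positivity), if_pos h]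
    ring

theorem sg_meas : Measurable sg := by
  have h : sg = fun t : ℝ => if 0 < t then (1 : ℝ) else if t < 0 then -1 else 0 := by
    funext t
    rcases lt_trichotomy t 0 with h | h | h
    · rw [sg_neg h, if_neg (by linarith), if_pos h]
    · rw [h]
      simp [sg_zero]
    · rw [sg_pos h, if_pos h]
  rw [h]
  exact Measurable.ite (measurableSet_lt measurable_const measurable_id) measurable_const
    (Measurable.ite (measurableSet_lt measurable_id measurable_const) measurable_const
      measurable_const)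

theorem sg_abs (t : ℝ) : |sg t| ≤ 1 := by
  rcases lt_trichotomy t 0 with h | h | h
  · rw [sg_neg h]
    norm_num
  · rw [h, sg_zero]
    norm_num
  · rw [sg_pos h]
    norm_num

theorem cube_vol (n : ℕ) : (volume (cube n)).toReal = 1 := by
  have h : cube n = Set.Icc (fun _ => (0 : ℝ)) (fun _ => (1 : ℝ)) := by
    ext u
    simp [cube, Pi.le_def, forall_and]
  rw [h, Real.volume_Icc_pi_toReal]
  · simp
  · intro i
    simp

theorem sg_int {n : ℕ} {f : (Fin n → ℝ) → ℝ} (hf : Continuous f) :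
    IntegrableOn (fun u => sg (f u)) (cube n) := by
  have hfin : volume (cube n) ≠ ⊤ := by
    intro h
    have := cube_vol n
    rw [h] at this
    simp at this
  refine Measure.integrableOn_of_bounded hfin ((sg_meas.comp hf.measurable).aestronglyMeasurable)
    (M := 1) (Eventually.of_forall fun u => ?_)
  exact sg_abs _

theorem cont_aeval {κ : Type} (f : MvPolynomial κ ℤ) :
    Continuous (fun u : κ → ℝ => (aeval u f : ℝ)) := by
  induction f using MvPolynomial.induction_on with
  | C a => simpa using continuous_const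
  | add p q hp hq =>
    simp only [map_add]
    exact hp.add hq
  | mul_X p j hp =>
    simp only [map_mul, aeval_X]
    exact hp.mul (continuous_apply j)

/-- Periods times pi are integrals over the whole space. -/
theorem fwd {x : ℝ} (h : Pool.Agent.CVol.IsPeriod x) :
    ∃ (n : ℕ) (P Q : MvPolynomial (Fin (n + 1)) ℚ),
      (∀ z : Fin (n + 1) → ℝ, (0 : ℝ) < aeval z Q) ∧
      Integrable (fun z : Fin (n + 1) → ℝ => (aeval z P : ℝ) / aeval z Q) ∧
      ∫ z : Fin (n + 1) → ℝ, (aeval z P : ℝ) / aeval z Q = Real.pi * x := by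
  obtain ⟨a, n, f, hx⟩ := (Pool.Agent.OneIneq.period_iff_prob x).1 h
  obtain ⟨fr, hfr⟩ : ∃ fr : (Fin n → ℝ) → ℝ, fr = fun u => (aeval u f : ℝ) := ⟨_, rfl⟩
  have hc : Continuous fr := by
    rw [hfr]
    exact cont_aeval f
  have hc2 : Continuous (fun u => fr u ^ 2) := hc.pow 2
  have hc1 : Continuous (fun _ : Fin n → ℝ => (1 : ℝ)) := continuous_const
  obtain ⟨G, hG⟩ : ∃ G : (Fin n → ℝ) × ℝ → ℝ, G = fun p => ((2 : ℝ) ^ n)⁻¹ *
      ((a : ℝ) * WSP.FF (fun _ => 1) p.1 p.2 +
        (1 / 2 * WSP.FF fr p.1 p.2 + 1 / 2 * WSP.FF (fun u => fr u ^ 2) p.1 p.2)) := ⟨_, rfl⟩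
  have i1 := (FF_integrable hc1).const_mul (a : ℝ)
  have i2 := (FF_integrable hc).const_mul (1 / 2)
  have i3 := (FF_integrable hc2).const_mul (1 / 2)
  have hGi : Integrable G ((volume : Measure (Fin n → ℝ)).prod (volume : Measure ℝ)) := by
    rw [hG]
    exact (i1.add (i2.add i3)).const_mul _
  have hone : ∫ u in cube n, sg ((fun _ : Fin n → ℝ => (1 : ℝ)) u) = 1 := by
    simp only [sg_one]
    rw [setIntegral_const, measureReal_def, cube_vol]
    simp
  have hS : ∫ u in cube n, (1 / 2 * sg (fr u) + 1 / 2 * sg (fr u ^ 2)) =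
      (volume {u : Fin n → ℝ | (∀ i, 0 ≤ u i ∧ u i ≤ 1) ∧ 0 < (aeval u f : ℝ)}).toReal := by
    have hm : MeasurableSet {u : Fin n → ℝ | 0 < fr u} :=
      measurableSet_lt measurable_const hc.measurable
    have h1 : (fun u => 1 / 2 * sg (fr u) + 1 / 2 * sg (fr u ^ 2)) =
        {u : Fin n → ℝ | 0 < fr u}.indicator (fun _ => (1 : ℝ)) := by
      funext u
      rw [sg_half]
      by_cases h2 : 0 < fr u
      · rw [if_pos h2, Set.indicator_of_mem (show u ∈ {u : Fin n → ℝ | 0 < fr u} from h2)]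
      · rw [if_neg h2, Set.indicator_of_notMem (show u ∉ {u : Fin n → ℝ | 0 < fr u} from h2)]
    rw [h1, setIntegral_indicator hm, setIntegral_const, measureReal_def, smul_eq_mul, mul_one]
    congr 2
    rw [hfr]
    rfl
  have hGt : ∫ p, G p ∂((volume : Measure (Fin n → ℝ)).prod (volume : Measure ℝ)) =
      Real.pi * x := by
    rw [hG, integral_const_mul]
    have e1 := integral_add i1 (i2.add i3)
    have e2 := integral_add i2 i3
    simp only [Pi.add_apply] at e1 e2
    rw [e1, e2, integral_const_mul, integral_const_mul, integral_const_mul, FF_total hc1,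
      FF_total hc, FF_total hc2, hone, hx, ← hS, integral_add ((sg_int hc).const_mul _)
      ((sg_int hc2).const_mul _), integral_const_mul, integral_const_mul]
    have h2 : (2 : ℝ) ^ n ≠ 0 := by positivity
    field_simp
  have hRF : RF (fun z : Fin (n + 1) → ℝ => G (EE n z)) := by
    have r0 : RF (fun z : Fin (n + 1) → ℝ => fr (fun j => z j.succ)) := by
      rw [hfr]
      exact RF.poly f Fin.succ
    have r1 : RF (fun z : Fin (n + 1) → ℝ => (fun _ : Fin n → ℝ => (1 : ℝ)) (fun j => z j.succ)) := by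
      have h := RF.const (ι := Fin (n + 1)) 1
      simpa using h
    have r2 : RF (fun z : Fin (n + 1) → ℝ => (fun u => fr u ^ 2) (fun j => z j.succ)) := r0.pow 2
    have h1 := (RF.const (ι := Fin (n + 1)) (((2 : ℚ) ^ n)⁻¹)).mul
      (((RF.const (ι := Fin (n + 1)) (a : ℚ)).mul (RF.FF (f := fun _ => 1) r1)).add
        (((RF.const (ι := Fin (n + 1)) (1 / 2)).mul (RF.FF (f := fr) r0)).add
          ((RF.const (ι := Fin (n + 1)) (1 / 2)).mul (RF.FF (f := fun u => fr u ^ 2) r2))))
    refine RF.congr h1 fun z => ?_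
    rw [hG, EE_apply]
    push_cast
    rfl
  obtain ⟨P, Q, hQ, hPQ⟩ := hRF
  refine ⟨n, P, Q, hQ, ?_, ?_⟩
  · have h1 := ((EE_mp n).integrable_comp_emb (EE n).measurableEmbedding (g := G)).2 hGi
    refine h1.congr (Eventually.of_forall fun z => ?_)
    exact hPQ z
  · rw [← hGt, ← (EE_mp n).integral_comp (EE n).measurableEmbedding G]
    exact integral_congr_ae (Eventually.of_forall fun z => (hPQ z).symm)

end Pool.Agent.WSP
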