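import Mathlib

/-!
# MP_2cf66e_nt, integrals over the whole space: the kernel (helper23)
-/

set_option autoImplicit false

noncomputable section

open MeasureTheory Set Filter Topology

namespace Pool.Agent.WSP

/-- The kernel. -/
def K (s w : ℝ) : ℝ := s / (1 + s ^ 2 * w ^ 2)

/-- The sign as a real number. -/
def sg (s : ℝ) : ℝ := (SignType.sign s : ℝ)

theorem sg_mul (s t : ℝ) : sg (s * t) = sg s * sg t := by
  unfold sg
  rw [sign_mul]
  exact SignType.coe_mul _ _

theorem sg_zero : sg 0 = 0 := by simp [sg]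

theorem sg_pos {s : ℝ} (h : 0 < s) : sg s = 1 := by simp [sg, sign_pos h]

theorem sg_neg {s : ℝ} (h : s < 0) : sg s = -1 := by simp [sg, sign_neg h]

theorem sg_one : sg 1 = 1 := sg_pos one_pos

theorem sg_prod {ι : Type} [Fintype ι] (f : ι → ℝ) : sg (∏ i, f i) = ∏ i, sg (f i) := by
  classical
  have h : ∀ s : Finset ι, sg (∏ i ∈ s, f i) = ∏ i ∈ s, sg (f i) := by
    intro s
    induction s using Finset.induction_on with
    | empty => simp [sg_one]
    | insert a s ha ih => rw [Finset.prod_insert ha, Finset.prod_insert ha, sg_mul, ih]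
  exact h _

theorem K_zero (w : ℝ) : K 0 w = 0 := by simp [K]

theorem den_pos (s w : ℝ) : 0 < 1 + s ^ 2 * w ^ 2 := by positivity

theorem K_int (s : ℝ) : Integrable (K s) ∧ ∫ w, K s w = Real.pi * sg s := by
  rcases eq_or_ne s 0 with h | h
  · subst h
    have : K 0 = fun _ => 0 := by
      funext w
      exact K_zero w
    rw [this, sg_zero]
    simp
  · have h1 : K s = fun w => s * (1 + (s * w) ^ 2)⁻¹ := by
      funext w
      unfold K
      rw [div_eq_mul_inv]
      congr 2
      ring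
    have h2 : Integrable fun w : ℝ => (1 + (s * w) ^ 2)⁻¹ :=
      (integrable_inv_one_add_sq).comp_mul_left' h
    refine ⟨?_, ?_⟩
    · rw [h1]
      exact h2.const_mul s
    · rw [h1, integral_const_mul]
      have h3 := Measure.integral_comp_mul_left (fun w : ℝ => (1 + w ^ 2)⁻¹) s
      rw [h3, integral_univ_inv_one_add_sq, smul_eq_mul]
      rcases lt_or_gt_of_ne h with h4 | h4
      · rw [sg_neg h4, abs_inv, abs_of_neg h4]
        field_simp
      · rw [sg_pos h4, abs_inv, abs_of_pos h4]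
        field_simp

/-- Two kernels. -/
theorem K_add_le {s t m : ℝ} (hm : 0 < m) (hs : m ≤ |s|) (ht : m ≤ |t|) (w : ℝ) :
    |K s w + K t w| ≤ |s + t| * (1 + (m * w) ^ 2)⁻¹ := by
  have hS := den_pos s w
  have hT := den_pos t w
  have h1 : K s w + K t w = (s + t) * ((1 + s * t * w ^ 2) /
      ((1 + s ^ 2 * w ^ 2) * (1 + t ^ 2 * w ^ 2))) := by
    unfold K
    field_simp
    ring
  rw [h1, abs_mul]
  refine mul_le_mul_of_nonneg_left ?_ (abs_nonneg _)
  rw [abs_div, abs_of_pos (mul_pos hS hT), inv_eq_one_div,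
    div_le_div_iff₀ (mul_pos hS hT) (by positivity)]
  -- |1 + s t w^2| (1 + m^2 w^2) ≤ (1 + s^2 w^2)(1 + t^2 w^2)
  have h2 : |1 + s * t * w ^ 2| ≤ 1 + |s| * |t| * w ^ 2 := by
    refine (abs_add_le _ _).trans ?_
    rw [abs_one, abs_mul, abs_mul, abs_of_nonneg (sq_nonneg w)]
  have h3 : 1 + (m * w) ^ 2 ≤ 1 + |s| * |t| * w ^ 2 := by
    have : m * m ≤ |s| * |t| := mul_le_mul hs ht hm.le (abs_nonneg _)
    have := mul_le_mul_of_nonneg_right this (sq_nonneg w)
    nlinarith
  have h4 : (1 + |s| * |t| * w ^ 2) * (1 + |s| * |t| * w ^ 2) ≤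
      (1 + s ^ 2 * w ^ 2) * (1 + t ^ 2 * w ^ 2) := by
    have h5 : |s| ^ 2 = s ^ 2 := sq_abs s
    have h6 : |t| ^ 2 = t ^ 2 := sq_abs t
    rw [← h5, ← h6]
    nlinarith [mul_nonneg (sq_nonneg w) (sq_nonneg (|s| - |t|))]
  calc |1 + s * t * w ^ 2| * (1 + (m * w) ^ 2)
      ≤ (1 + |s| * |t| * w ^ 2) * (1 + |s| * |t| * w ^ 2) :=
        mul_le_mul h2 h3 (by positivity) (by positivity)
    _ ≤ 1 * ((1 + s ^ 2 * w ^ 2) * (1 + t ^ 2 * w ^ 2)) := by rw [one_mul]; exact h4

theorem K_abs_int (s : ℝ) : ∫ w, |K s w| ≤ Real.pi := by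
  have h1 : ∀ w, |K s w| = sg s * K s w := by
    intro w
    rcases lt_trichotomy s 0 with h | h | h
    · have h5 : K s w < 0 := div_neg_of_neg_of_pos h (den_pos s w)
      rw [sg_neg h, abs_of_neg h5]
      ring
    · rw [h, K_zero]
      simp
    · have h5 : 0 < K s w := div_pos h (den_pos s w)
      rw [sg_pos h, abs_of_pos h5, one_mul]
  simp only [h1]
  rw [integral_const_mul, (K_int s).2]
  have h2 : sg s * sg s ≤ 1 := by
    rcases lt_trichotomy s 0 with h | h | h
    · rw [sg_neg h]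
      norm_num
    · rw [h, sg_zero]
      norm_num
    · rw [sg_pos h]
      norm_num
  nlinarith [Real.pi_pos]

theorem K_add_int {R p q : ℝ} {m : ℝ} (hm : 0 < m) (hp : m ≤ |p|) (hq : m ≤ |q|) :
    ∫ w, |K (R * p) w + K (R * q) w| ≤ Real.pi * (|p + q| / m) := by
  rcases eq_or_ne R 0 with h | h
  · subst h
    simp only [zero_mul, K_zero, add_zero, abs_zero, integral_zero]
    positivity
  · have hR : 0 < |R| := abs_pos.2 h
    have h1 : ∀ w, |K (R * p) w + K (R * q) w| ≤
        |R * p + R * q| * (1 + (|R| * m * w) ^ 2)⁻¹ := fun w =>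
      K_add_le (mul_pos hR hm) (by rw [abs_mul]; gcongr) (by rw [abs_mul]; gcongr) w
    have hne : |R| * m ≠ 0 := (mul_pos hR hm).ne'
    have h2 : Integrable fun w : ℝ => (1 + (|R| * m * w) ^ 2)⁻¹ :=
      (integrable_inv_one_add_sq).comp_mul_left' hne
    have h3 := Measure.integral_comp_mul_left (fun w : ℝ => (1 + w ^ 2)⁻¹) (|R| * m)
    calc ∫ w, |K (R * p) w + K (R * q) w|
        ≤ ∫ w, |R * p + R * q| * (1 + (|R| * m * w) ^ 2)⁻¹ := by
          refine integral_mono_of_nonneg (Eventually.of_forall fun w => abs_nonneg _)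
            (h2.const_mul _) (Eventually.of_forall h1)
      _ = |R * p + R * q| * (|(|R| * m)⁻¹| * Real.pi) := by
          rw [integral_const_mul, h3, integral_univ_inv_one_add_sq, smul_eq_mul]
      _ = Real.pi * (|p + q| / m) := by
          rw [← mul_add, abs_mul, abs_of_pos (inv_pos.2 (mul_pos hR hm))]
          field_simp

end Pool.Agent.WSP
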