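import Pool.Agent.W_2cf66e_h23.DefsS

/-!
# MP_2cf66e_nt, integrals over the whole space in the same dimension: the converse (helper65)
-/

set_option autoImplicit false

noncomputable section

open MeasureTheory Set Filter Topology

namespace Pool.Agent.WSP

variable {n : ℕ} {P Q : MvPolynomial (Fin (n + 1)) ℚ}

/-- The positive part of the integral as a volume. -/
theorem pos_set (hQ : Q ≠ 0) (hi : Integrable fun z : Fin (n + 1) → ℝ =>
    (MvPolynomial.aeval z P : ℝ) / MvPolynomial.aeval z Q) :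
    ∃ S : Set (Fin (n + 1) → ℝ), Pool.Agent.CVol.IsSA S ∧ volume S ≠ ⊤ ∧
      volume S = ∫⁻ x, ENNReal.ofReal (gin P Q x) := by
  obtain ⟨m, hm⟩ : ∃ m, (MvPolynomial.finSuccEquiv ℝ n
      (MvPolynomial.map (algebraMap ℚ ℝ) Q)).natDegree ≤ m := ⟨_, le_rfl⟩
  have hsa := sa_sub P Q m
  have hae := sub_ae hQ hi hm
  set S : Set (Fin (n + 1) → ℝ) := {y | Sub P Q m y} with hS
  have hSm : MeasurableSet S := hsa.measurable
  have hvol : volume S = ∫⁻ x, ENNReal.ofReal (gin P Q x) := by
    have h1 : MeasurePreserving (EE n).symm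
      ((volume : Measure (Fin n → ℝ)).prod (volume : Measure ℝ)) volume := (EE_mp n).symm
    rw [← h1.measure_preimage_equiv S, Measure.prod_apply ((EE n).symm.measurable hSm)]
    refine lintegral_congr_ae ?_
    filter_upwards [hae] with x hx
    have h2 : Prod.mk x ⁻¹' ((EE n).symm ⁻¹' S) = Ioo 0 (gin P Q x) := by
      ext t
      simp only [mem_preimage, EE_symm, mem_Ioo]
      exact hx t
    rw [h2, Real.volume_Ioo, sub_zero]
  refine ⟨S, hsa, ?_, hvol⟩
  rw [hvol]
  exact ((gin_int hi).lintegral_lt_top).ne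

/-- LEAF B: an absolutely convergent integral of a rational function over `ℝ^(n+1)` is `π` times
the difference of the volumes of two semialgebraic sets of the same space. -/
theorem back_sets (P Q : MvPolynomial (Fin (n + 1)) ℚ) (hi : Integrable fun z : Fin (n + 1) → ℝ =>
    (MvPolynomial.aeval z P : ℝ) / MvPolynomial.aeval z Q) :
    ∃ S T : Set (Fin (n + 1) → ℝ), Pool.Agent.CVol.IsSA S ∧ Pool.Agent.CVol.IsSA T ∧
      volume S ≠ ⊤ ∧ volume T ≠ ⊤ ∧
      ∫ z : Fin (n + 1) → ℝ, (MvPolynomial.aeval z P : ℝ) / MvPolynomial.aeval z Q =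
        Real.pi * ((volume S).toReal - (volume T).toReal) := by
  by_cases hQ : Q = 0
  · refine ⟨{x | 0 < MvPolynomial.aeval x (0 : MvPolynomial (Fin (n + 1)) ℚ)},
      {x | 0 < MvPolynomial.aeval x (0 : MvPolynomial (Fin (n + 1)) ℚ)},
      Pool.Agent.CVol.IsSA.pos 0, Pool.Agent.CVol.IsSA.pos 0, ?_, ?_, ?_⟩
    · simp
    · simp
    · rw [hQ]
      simp
  · have hi' : Integrable fun z : Fin (n + 1) → ℝ =>
        (MvPolynomial.aeval z (-P) : ℝ) / MvPolynomial.aeval z Q := by
      simp only [map_neg, neg_div]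
      exact hi.neg
    obtain ⟨S, hS, hSv, hSe⟩ := pos_set hQ hi
    obtain ⟨T, hT, hTv, hTe⟩ := pos_set hQ hi'
    refine ⟨S, T, hS, hT, hSv, hTv, ?_⟩
    have h1 := gin_total hi
    rw [integral_eq_lintegral_pos_part_sub_lintegral_neg_part (gin_int hi)] at h1
    simp only [gin_neg] at hTe
    rw [hSe, hTe, h1, ← mul_assoc, mul_inv_cancel₀ Real.pi_ne_zero, one_mul]

end Pool.Agent.WSP
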