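import Pool.Agent.W_2cf66e_h23.DefsS

/-!
# MP_2cf66e_nt: the integral of the sign of a real polynomial (helper14)
-/

set_option autoImplicit false

noncomputable section

open MeasureTheory Set Filter Topology

namespace Pool.Agent.WSP

theorem sg_const14 (A : Polynomial ℝ) {a b : ℝ} (hab : a ≤ b)
    (h : ∀ y ∈ Icc a b, A.eval y ≠ 0) : sg (A.eval b) = sg (A.eval a) := by
  have hc : ContinuousOn (fun y => A.eval y) (Icc a b) := A.continuous.continuousOn
  have ha := h a (left_mem_Icc.mpr hab)
  have hb := h b (right_mem_Icc.mpr hab)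
  rcases lt_or_gt_of_ne ha with ha' | ha' <;> rcases lt_or_gt_of_ne hb with hb' | hb'
  · rw [sg_neg ha', sg_neg hb']
  · exfalso
    obtain ⟨y, hy, hy0⟩ := intermediate_value_Icc hab hc ⟨ha'.le, hb'.le⟩
    exact h y hy hy0
  · exfalso
    obtain ⟨y, hy, hy0⟩ := intermediate_value_Icc' hab hc ⟨hb'.le, ha'.le⟩
    exact h y hy hy0
  · rw [sg_pos ha', sg_pos hb']

/-- The sign near a simple root. -/
theorem sg_near14 (A : Polynomial ℝ) (r : ℝ) (hr : A.eval r = 0)
    (hd : (Polynomial.derivative A).eval r ≠ 0) :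
    ∃ δ : ℝ, 0 < δ ∧ (∀ y, r < y → y < r + δ →
        sg (A.eval y) = sg ((Polynomial.derivative A).eval r)) ∧
      ∀ y, r - δ < y → y < r → sg (A.eval y) = -sg ((Polynomial.derivative A).eval r) := by
  obtain ⟨B, hB⟩ := Polynomial.dvd_iff_isRoot.mpr (show A.IsRoot r from hr)
  have hdr : (Polynomial.derivative A).eval r = B.eval r := by
    rw [hB]
    simp
  rw [hdr] at hd ⊢
  have hc : Tendsto (fun y => B.eval y * B.eval r) (𝓝 r) (𝓝 (B.eval r * B.eval r)) :=
    (B.continuous.mul continuous_const).tendsto r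
  have hpos : 0 < B.eval r * B.eval r := mul_self_pos.mpr hd
  obtain ⟨δ, hδ, h⟩ := Metric.eventually_nhds_iff.mp (hc.eventually (lt_mem_nhds hpos))
  have hB' : ∀ y, |y - r| < δ → sg (B.eval y) = sg (B.eval r) := by
    intro y hy
    have h1 : 0 < B.eval y * B.eval r := h (by rwa [Real.dist_eq])
    rcases lt_or_gt_of_ne hd with h2 | h2
    · have h3 : B.eval y < 0 := by nlinarith
      rw [sg_neg h2, sg_neg h3]
    · have h3 : 0 < B.eval y := by nlinarith
      rw [sg_pos h2, sg_pos h3]
  have hA : ∀ y, A.eval y = (y - r) * B.eval y := by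
    intro y
    rw [hB]
    simp
  refine ⟨δ, hδ, fun y h1 h2 => ?_, fun y h1 h2 => ?_⟩
  · rw [hA, sg_mul, sg_pos (by linarith), one_mul]
    exact hB' y (by rw [abs_lt]; constructor <;> linarith)
  · rw [hA, sg_mul, sg_neg (by linarith), neg_one_mul]
    rw [hB' y (by rw [abs_lt]; constructor <;> linarith)]

/-- The sign change over an interval. -/
theorem sg_diff14 (A : Polynomial ℝ) (hA : A ≠ 0)
    (hs : ∀ r : ℝ, A.eval r = 0 → (Polynomial.derivative A).eval r ≠ 0) :
    ∀ (n : ℕ) (a b : ℝ), a ≤ b → A.eval a ≠ 0 → A.eval b ≠ 0 →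
      (A.roots.toFinset.filter fun r => a < r ∧ r < b).card = n →
      sg (A.eval b) - sg (A.eval a) = 2 * ∑ r ∈ A.roots.toFinset,
        if a < r ∧ r < b then sg ((Polynomial.derivative A).eval r) else 0 := by
  intro n
  induction n using Nat.strong_induction_on with
  | _ n ih =>
  intro a b hab ha hb hn
  rcases (A.roots.toFinset.filter fun r => a < r ∧ r < b).eq_empty_or_nonempty with h0 | ⟨r, hr⟩
  · have hno : ∀ r ∈ A.roots.toFinset, ¬ (a < r ∧ r < b) := by
      intro r hr h
      have : r ∈ A.roots.toFinset.filter fun r => a < r ∧ r < b := Finset.mem_filter.mpr ⟨hr, h⟩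
      rw [h0] at this
      exact absurd this (Finset.notMem_empty r)
    rw [Finset.sum_eq_zero (fun r hr => if_neg (hno r hr)), mul_zero, sub_eq_zero]
    refine sg_const14 A hab fun y hy hy0 => ?_
    have hyr : y ∈ A.roots.toFinset := by
      rw [Multiset.mem_toFinset, Polynomial.mem_roots hA]
      exact hy0
    refine hno y hyr ⟨lt_of_le_of_ne hy.1 ?_, lt_of_le_of_ne hy.2 ?_⟩
    · rintro rfl
      exact ha hy0
    · rintro rfl
      exact hb hy0
  · rw [Finset.mem_filter, Multiset.mem_toFinset, Polynomial.mem_roots hA] at hr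
    obtain ⟨hr0, har, hrb⟩ := hr
    have hr0' : A.eval r = 0 := hr0
    obtain ⟨δ, hδ, hR, hL⟩ := sg_near14 A r hr0' (hs r hr0')
    have hd := hs r hr0'
    have hsd : sg ((Polynomial.derivative A).eval r) ≠ 0 := by
      rcases lt_or_gt_of_ne hd with h | h
      · rw [sg_neg h]
        norm_num
      · rw [sg_pos h]
        norm_num
    obtain ⟨a', ha1, ha2⟩ : ∃ a', max a (r - δ) < a' ∧ a' < r :=
      exists_between (max_lt har (by linarith))
    obtain ⟨b', hb1, hb2⟩ : ∃ b', r < b' ∧ b' < min b (r + δ) :=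
      exists_between (lt_min hrb (by linarith))
    rw [max_lt_iff] at ha1
    rw [lt_min_iff] at hb2
    have hLa := hL a' ha1.2 ha2
    have hRb := hR b' hb1 hb2.2
    have ha0 : A.eval a' ≠ 0 := by
      intro h
      rw [h, sg_zero] at hLa
      exact hsd (by linarith)
    have hb0 : A.eval b' ≠ 0 := by
      intro h
      rw [h, sg_zero] at hRb
      exact hsd hRb.symm
    have hmem : r ∈ A.roots.toFinset.filter fun r => a < r ∧ r < b := by
      rw [Finset.mem_filter, Multiset.mem_toFinset, Polynomial.mem_roots hA]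
      exact ⟨hr0, har, hrb⟩
    have hc1 : (A.roots.toFinset.filter fun r => a < r ∧ r < a').card < n := by
      rw [← hn]
      refine Finset.card_lt_card ⟨fun s hs' => ?_, fun h => ?_⟩
      · rw [Finset.mem_filter] at hs' ⊢
        exact ⟨hs'.1, hs'.2.1, by linarith [hs'.2.2]⟩
      · have := (Finset.mem_filter.mp (h hmem)).2.2
        linarith
    have hc2 : (A.roots.toFinset.filter fun r => b' < r ∧ r < b).card < n := by
      rw [← hn]
      refine Finset.card_lt_card ⟨fun s hs' => ?_, fun h => ?_⟩
      · rw [Finset.mem_filter] at hs' ⊢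
        exact ⟨hs'.1, by linarith [hs'.2.1], hs'.2.2⟩
      · have := (Finset.mem_filter.mp (h hmem)).2.1
        linarith
    have e1 := ih _ hc1 a a' ha1.1.le ha ha0 rfl
    have e2 := ih _ hc2 b' b hb2.1.le hb0 hb rfl
    have e3 : ∑ s ∈ A.roots.toFinset,
        (if a < s ∧ s < b then sg ((Polynomial.derivative A).eval s) else 0) =
        (∑ s ∈ A.roots.toFinset,
          if a < s ∧ s < a' then sg ((Polynomial.derivative A).eval s) else 0) +
        (∑ s ∈ A.roots.toFinset,
          if s = r then sg ((Polynomial.derivative A).eval s) else 0) +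
        ∑ s ∈ A.roots.toFinset,
          if b' < s ∧ s < b then sg ((Polynomial.derivative A).eval s) else 0 := by
      rw [← Finset.sum_add_distrib, ← Finset.sum_add_distrib]
      refine Finset.sum_congr rfl fun s hs' => ?_
      rw [Multiset.mem_toFinset, Polynomial.mem_roots hA] at hs'
      have hs0 : A.eval s = 0 := hs'
      have n1 : ¬ (a' ≤ s ∧ s < r) := by
        rintro ⟨h1, h2⟩
        have := hL s (by linarith) h2
        rw [hs0, sg_zero] at this
        exact hsd (by linarith)
      have n2 : ¬ (r < s ∧ s ≤ b') := by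
        rintro ⟨h1, h2⟩
        have := hR s h1 (by linarith)
        rw [hs0, sg_zero] at this
        exact hsd this.symm
      rcases lt_trichotomy s r with h | h | h
      · have h1 : s < a' := by
          by_contra h2
          exact n1 ⟨not_lt.mp h2, h⟩
        have c1 : ¬ (b' < s ∧ s < b) := fun h2 => by linarith [h2.1]
        rw [if_neg h.ne, if_neg c1, add_zero, add_zero]
        by_cases h3 : a < s
        · rw [if_pos ⟨h3, by linarith⟩, if_pos ⟨h3, h1⟩]
        · rw [if_neg (fun h4 => h3 h4.1), if_neg (fun h4 => h3 h4.1)]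
      · subst h
        have c1 : ¬ (b' < s ∧ s < b) := fun h2 => by linarith [h2.1]
        have c2 : ¬ (a < s ∧ s < a') := fun h2 => by linarith [h2.2]
        rw [if_pos ⟨har, hrb⟩, if_pos rfl, if_neg c1, if_neg c2, zero_add, add_zero]
      · have h1 : b' < s := by
          by_contra h2
          exact n2 ⟨h, not_lt.mp h2⟩
        have c1 : ¬ (a < s ∧ s < a') := fun h2 => by linarith [h2.2]
        rw [if_neg h.ne', if_neg c1, zero_add, zero_add]
        by_cases h3 : s < b
        · rw [if_pos ⟨by linarith, h3⟩, if_pos ⟨h1, h3⟩]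
        · rw [if_neg (fun h4 => h3 h4.2), if_neg (fun h4 => h3 h4.2)]
    have e4 : ∑ s ∈ A.roots.toFinset,
        (if s = r then sg ((Polynomial.derivative A).eval s) else 0) =
        sg ((Polynomial.derivative A).eval r) := by
      rw [Finset.sum_ite_eq', if_pos]
      rw [Multiset.mem_toFinset, Polynomial.mem_roots hA]
      exact hr0
    rw [e3, e4, mul_add, mul_add, ← e1, ← e2, hLa, hRb]
    ring

/-- LEAF J. -/
theorem jump (A : Polynomial ℝ) (hA : A ≠ 0)
    (hs : ∀ r : ℝ, A.eval r = 0 → (Polynomial.derivative A).eval r ≠ 0) (h1 : A.eval 1 ≠ 0) :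
    ∫ y in Icc (0 : ℝ) 1, sg (A.eval y) = sg (A.eval 1) -
      2 * ∑ r ∈ A.roots.toFinset.filter (fun r => 0 < r ∧ r < 1),
        r * sg ((Polynomial.derivative A).eval r) := by
  have hae : ∀ᵐ y ∂(volume.restrict (Icc (0 : ℝ) 1)), sg (A.eval y) = sg (A.eval 1) -
      2 * ∑ r ∈ A.roots.toFinset,
        (if y < r ∧ r < 1 then sg ((Polynomial.derivative A).eval r) else 0) := by
    have hfin : (↑A.roots.toFinset : Set ℝ).Finite := A.roots.toFinset.finite_toSet
    have h2 : ∀ᵐ y : ℝ, y ∉ (↑A.roots.toFinset : Set ℝ) :=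
      compl_mem_ae_iff.mpr (hfin.measure_zero volume)
    filter_upwards [ae_restrict_of_ae h2, ae_restrict_mem measurableSet_Icc] with y hy hy1
    have hy0 : A.eval y ≠ 0 := by
      intro h
      refine hy ?_
      rw [Finset.mem_coe, Multiset.mem_toFinset, Polynomial.mem_roots hA]
      exact h
    have := sg_diff14 A hA hs _ y 1 hy1.2 hy0 h1 rfl
    rw [← this]
    ring
  rw [integral_congr_ae hae]
  have hterm : ∀ r ∈ A.roots.toFinset, IntegrableOn (fun y : ℝ =>
      if y < r ∧ r < 1 then sg ((Polynomial.derivative A).eval r) else 0) (Icc 0 1) := by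
    intro r _
    have e : (fun y : ℝ => if y < r ∧ r < 1 then sg ((Polynomial.derivative A).eval r) else 0) =
        (Iio r).indicator fun _ => if r < 1 then sg ((Polynomial.derivative A).eval r) else 0 := by
      funext y
      by_cases h2 : y < r <;> by_cases h3 : r < 1 <;> simp [Set.indicator, h2, h3]
    rw [e]
    exact (integrable_const _).indicator measurableSet_Iio
  have hval : ∀ r ∈ A.roots.toFinset, ∫ y in Icc (0 : ℝ) 1,
      (if y < r ∧ r < 1 then sg ((Polynomial.derivative A).eval r) else 0) =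
      if 0 < r ∧ r < 1 then r * sg ((Polynomial.derivative A).eval r) else 0 := by
    intro r _
    have e : (fun y : ℝ => if y < r ∧ r < 1 then sg ((Polynomial.derivative A).eval r) else 0) =
        (Iio r).indicator fun _ => if r < 1 then sg ((Polynomial.derivative A).eval r) else 0 := by
      funext y
      by_cases h2 : y < r <;> by_cases h3 : r < 1 <;> simp [Set.indicator, h2, h3]
    rw [e, integral_indicator measurableSet_Iio, Measure.restrict_restrict measurableSet_Iio,
      setIntegral_const]
    by_cases h3 : r < 1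
    · have e2 : Iio r ∩ Icc (0 : ℝ) 1 = Ico 0 r := by
        ext y
        simp only [mem_inter_iff, mem_Iio, mem_Icc, mem_Ico]
        constructor
        · rintro ⟨p, q, _⟩
          exact ⟨q, p⟩
        · rintro ⟨p, q⟩
          exact ⟨q, p, by linarith⟩
      rw [e2, Measure.real, Real.volume_Ico, if_pos h3, smul_eq_mul, sub_zero]
      by_cases h4 : 0 < r
      · rw [if_pos ⟨h4, h3⟩, ENNReal.toReal_ofReal h4.le]
      · rw [if_neg (fun h => h4 h.1), ENNReal.ofReal_of_nonpos (not_lt.mp h4)]
        simp
    · rw [if_neg h3, if_neg (fun h => h3 h.2), smul_zero]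
  rw [integral_sub (integrable_const _)
    ((integrable_finsetSum _ hterm).const_mul 2), integral_const_mul,
    integral_finsetSum _ hterm, Finset.sum_congr rfl hval, ← Finset.sum_filter]
  congr 1
  rw [setIntegral_const, Measure.real, Real.volume_Icc]
  simp

end Pool.Agent.WSP
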