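import Pool.Agent.W_2cf66e_h23.DefsS

/-!
# MP_2cf66e_nt: the kernel of a complex root that is not real (helper14)
-/

set_option autoImplicit false

noncomputable section

open MeasureTheory Set Filter Topology

namespace Pool.Agent.WSP

/-- The integral of the Cauchy kernel. -/
theorem cauchy14 (x y : ℝ) (hy : y ≠ 0) :
    Integrable (fun w : ℝ => ((w - x) ^ 2 + y ^ 2)⁻¹) ∧
      ∫ w : ℝ, ((w - x) ^ 2 + y ^ 2)⁻¹ = Real.pi / |y| := by
  have e : (fun w : ℝ => ((w - x) ^ 2 + y ^ 2)⁻¹) =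
      fun w => (y ^ 2)⁻¹ * (1 + ((w - x) / y) ^ 2)⁻¹ := by
    funext w
    rw [← mul_inv]
    congr 1
    field_simp
    ring
  constructor
  · rw [e]
    refine Integrable.const_mul ?_ _
    have h1 : Integrable (fun w : ℝ => (1 + (w / y) ^ 2)⁻¹) :=
      (integrable_inv_one_add_sq).comp_div hy
    exact h1.comp_sub_right x
  · rw [e, integral_const_mul]
    have h2 : ∫ w : ℝ, (1 + ((w - x) / y) ^ 2)⁻¹ = ∫ w : ℝ, (1 + (w / y) ^ 2)⁻¹ :=
      integral_sub_right_eq_self (fun w : ℝ => (1 + (w / y) ^ 2)⁻¹) x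
    rw [h2, Measure.integral_comp_div (fun w : ℝ => (1 + w ^ 2)⁻¹) y, integral_univ_inv_one_add_sq]
    rw [smul_eq_mul, ← sq_abs y]
    have : |y| ≠ 0 := abs_ne_zero.mpr hy
    field_simp

/-- Two numbers in the same open half plane. -/
theorem slit14 {u v : ℂ} (h : 0 < u.im * v.im) : u / v ∈ Complex.slitPlane := by
  have hv : v ≠ 0 := by
    rintro rfl
    simp at h
  by_contra hc
  rw [Complex.mem_slitPlane_iff, not_or, not_lt, not_not] at hc
  obtain ⟨h1, h2⟩ := hc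
  have e : u = ((u / v).re : ℂ) * v := by
    have : ((u / v).re : ℂ) = u / v := by
      apply Complex.ext <;> simp [h2]
    rw [this, div_mul_cancel₀ _ hv]
  have e2 : u.im = (u / v).re * v.im := by
    conv_lhs => rw [e]
    simp
  rw [e2] at h
  nlinarith [mul_self_nonneg v.im]

/-- The logarithm of a quotient at infinity. -/
theorem ratlim14 (a b : ℂ) (l : Filter ℝ) (hl : Tendsto (fun w : ℝ => ‖(w : ℂ)‖) l atTop) :
    Tendsto (fun w : ℝ => Complex.log (((w : ℂ) - a) / ((w : ℂ) - b))) l (𝓝 0) := by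
  have h1 : Tendsto (fun w : ℝ => (w : ℂ) - b) l (Bornology.cobounded ℂ) := by
    rw [← tendsto_norm_atTop_iff_cobounded]
    refine tendsto_atTop_mono (fun w => ?_) (tendsto_atTop_add_const_right l (-‖b‖) hl)
    have := norm_sub_norm_le (w : ℂ) b
    linarith
  have h2 : Tendsto (fun w : ℝ => ((w : ℂ) - b)⁻¹) l (𝓝 0) :=
    tendsto_inv₀_cobounded.comp h1
  have h3 : Tendsto (fun w : ℝ => 1 + (b - a) * ((w : ℂ) - b)⁻¹) l (𝓝 1) := by
    simpa using (h2.const_mul (b - a)).const_add 1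
  have h4 : ∀ᶠ w : ℝ in l, (w : ℂ) - b ≠ 0 := by
    have := h1.eventually (Bornology.eventually_ne_cobounded (0 : ℂ))
    exact this
  have h5 : Tendsto (fun w : ℝ => ((w : ℂ) - a) / ((w : ℂ) - b)) l (𝓝 1) := by
    refine h3.congr' ?_
    filter_upwards [h4] with w hw
    field_simp
    ring
  have h6 : Tendsto Complex.log (𝓝 1) (𝓝 0) := by
    have := (continuousAt_clog (Complex.one_mem_slitPlane)).tendsto
    simpa using this
  exact h6.comp h5

/-- LEAF N. -/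
theorem nonreal (h r : ℂ) (t : ℝ) (ht : 0 < t) (hr : r.im ≠ 0)
    (hh : h = 0 ∨ 4 * t ^ 2 ≤ Complex.normSq h * r.im ^ 2) :
    Integrable (EK h r t) ∧ ∫ w, EK h r t w = 0 ∧
      ∫ w, ‖EK h r t w‖ ≤ 2 * Real.pi * t / (‖h‖ * |r.im|) ∧
      ∀ w : ℝ, ((t : ℂ) ^ 2 + h ^ 2 * ((w : ℂ) - r) ^ 2) ≠ 0 := by
  have ht0 : (t : ℂ) ≠ 0 := by exact_mod_cast ht.ne'
  rcases eq_or_ne h 0 with h0 | h0
  · subst h0
    have e : EK 0 r t = fun _ => 0 := by
      funext w
      simp [EK]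
    refine ⟨by rw [e]; exact integrable_zero _ _ _, by rw [e]; simp, by rw [e]; simp, fun w => ?_⟩
    simpa using ht.ne'
  have hh' : 4 * t ^ 2 ≤ Complex.normSq h * r.im ^ 2 := hh.resolve_left h0
  set s : ℂ := (t : ℂ) / h with hs
  have hts : (t : ℂ) = s * h := by rw [hs, div_mul_cancel₀ _ h0]
  have hnh : 0 < ‖h‖ := norm_pos_iff.mpr h0
  have hns : ‖s‖ = t / ‖h‖ := by
    rw [hs, norm_div, Complex.norm_real, Real.norm_eq_abs, abs_of_pos ht]
  have hsb : 2 * ‖s‖ ≤ |r.im| := by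
    rw [hns]
    have h1 : (2 * t) ^ 2 ≤ (‖h‖ * |r.im|) ^ 2 := by
      rw [mul_pow ‖h‖, sq_abs, ← Complex.normSq_eq_norm_sq]
      nlinarith
    have h2 : 2 * t ≤ ‖h‖ * |r.im| :=
      (pow_le_pow_iff_left₀ (by positivity) (by positivity) two_ne_zero).mp h1
    rw [← mul_div_assoc, div_le_iff₀ hnh]
    linarith
  have hri : 0 < |r.im| := abs_pos.mpr hr
  set a : ℂ := r + Complex.I * s with ha
  set b : ℂ := r - Complex.I * s with hb
  have hai : a.im = r.im + s.re := by simp [ha]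
  have hbi : b.im = r.im - s.re := by simp [hb]
  have hsr : |s.re| ≤ ‖s‖ := Complex.abs_re_le_norm s
  have hsr2 : s.re ^ 2 < r.im ^ 2 := by
    rw [← sq_abs s.re, ← sq_abs r.im]
    have : |s.re| < |r.im| := by nlinarith [norm_nonneg s]
    exact pow_lt_pow_left₀ this (abs_nonneg _) two_ne_zero
  have hab : 0 < a.im * b.im := by
    rw [hai, hbi]
    nlinarith
  have hw : ∀ w : ℝ, 0 < ((w : ℂ) - a).im * ((w : ℂ) - b).im := by
    intro w
    have : ((w : ℂ) - a).im * ((w : ℂ) - b).im = a.im * b.im := by simp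
    rw [this]
    exact hab
  have hwa : ∀ w : ℝ, (w : ℂ) - a ≠ 0 := by
    intro w h
    have := hw w
    rw [h] at this
    simp at this
  have hwb : ∀ w : ℝ, (w : ℂ) - b ≠ 0 := by
    intro w h
    have := hw w
    rw [h] at this
    simp at this
  have hI : Complex.I ^ 2 = -1 := Complex.I_sq
  have hfac : ∀ w : ℝ, (t : ℂ) ^ 2 + h ^ 2 * ((w : ℂ) - r) ^ 2 =
      h ^ 2 * (((w : ℂ) - a) * ((w : ℂ) - b)) := by
    intro w
    rw [hts, ha, hb]
    linear_combination (h ^ 2 * s ^ 2) * hI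
  have hne : ∀ w : ℝ, (t : ℂ) ^ 2 + h ^ 2 * ((w : ℂ) - r) ^ 2 ≠ 0 := by
    intro w
    rw [hfac]
    exact mul_ne_zero (pow_ne_zero 2 h0) (mul_ne_zero (hwa w) (hwb w))
  have hE : ∀ w : ℝ, EK h r t w = s / (((w : ℂ) - a) * ((w : ℂ) - b)) := by
    intro w
    unfold EK
    rw [hfac, hts]
    have h1 := hwa w
    have h2 := hwb w
    field_simp
  have hprod : ∀ w : ℝ, ((w : ℂ) - a) * ((w : ℂ) - b) = ((w : ℂ) - r) ^ 2 + s ^ 2 := by
    intro w
    rw [ha, hb]
    linear_combination (-(s ^ 2)) * hI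
  have hnr : ∀ w : ℝ, ‖(w : ℂ) - r‖ ^ 2 = (w - r.re) ^ 2 + r.im ^ 2 := by
    intro w
    rw [← Complex.normSq_eq_norm_sq, Complex.normSq_apply]
    simp
    ring
  have hlow : ∀ w : ℝ, ((w - r.re) ^ 2 + r.im ^ 2) / 2 ≤ ‖((w : ℂ) - a) * ((w : ℂ) - b)‖ := by
    intro w
    rw [hprod]
    have h1 : ‖((w : ℂ) - r) ^ 2‖ - ‖s ^ 2‖ ≤ ‖((w : ℂ) - r) ^ 2 + s ^ 2‖ := by
      have := norm_sub_norm_le (((w : ℂ) - r) ^ 2) (-(s ^ 2))
      rwa [norm_neg, sub_neg_eq_add] at this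
    rw [norm_pow, norm_pow, hnr] at h1
    have h2 : (2 * ‖s‖) ^ 2 ≤ r.im ^ 2 := by
      rw [← sq_abs r.im]
      exact pow_le_pow_left₀ (by positivity) hsb 2
    nlinarith [sq_nonneg (w - r.re), norm_nonneg s]
  obtain ⟨hc1, hc2⟩ := cauchy14 r.re r.im hr
  have hbd : ∀ w : ℝ, ‖EK h r t w‖ ≤ 2 * ‖s‖ * ((w - r.re) ^ 2 + r.im ^ 2)⁻¹ := by
    intro w
    rw [hE, norm_div]
    have h1 := hlow w
    have h2 : 0 < (w - r.re) ^ 2 + r.im ^ 2 := by positivity
    rw [div_le_iff₀ (lt_of_lt_of_le (by positivity) h1)]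
    have h3 : ‖s‖ = 2 * ‖s‖ * ((w - r.re) ^ 2 + r.im ^ 2)⁻¹ * (((w - r.re) ^ 2 + r.im ^ 2) / 2) := by
      field_simp
    calc ‖s‖ = 2 * ‖s‖ * ((w - r.re) ^ 2 + r.im ^ 2)⁻¹ * (((w - r.re) ^ 2 + r.im ^ 2) / 2) := h3
      _ ≤ _ := mul_le_mul_of_nonneg_left h1 (by positivity)
  have hcont : Continuous (EK h r t) := by
    have : EK h r t = fun w : ℝ => s / (((w : ℂ) - a) * ((w : ℂ) - b)) := funext hE
    rw [this]
    refine continuous_const.div (by fun_prop) fun w => mul_ne_zero (hwa w) (hwb w)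
  have hint : Integrable (EK h r t) :=
    Integrable.mono' (hc1.const_mul (2 * ‖s‖)) hcont.aestronglyMeasurable
      (Eventually.of_forall hbd)
  refine ⟨hint, ?_, ?_, hne⟩
  · have hder : ∀ w : ℝ, HasDerivAt
        (fun w : ℝ => (2 * Complex.I)⁻¹ * Complex.log (((w : ℂ) - a) / ((w : ℂ) - b)))
        (EK h r t w) w := by
      intro w
      have d1 : HasDerivAt (fun z : ℂ => (z - a) / (z - b))
          ((1 * ((w : ℂ) - b) - ((w : ℂ) - a) * 1) / ((w : ℂ) - b) ^ 2) (w : ℂ) :=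
        ((hasDerivAt_id (w : ℂ)).sub_const a).div ((hasDerivAt_id (w : ℂ)).sub_const b) (hwb w)
      have d2 := d1.clog (slit14 (hw w))
      have d3 := (d2.const_mul ((2 * Complex.I)⁻¹)).comp_ofReal
      convert d3 using 1
      rw [hE]
      have h1 := hwa w
      have h2 := hwb w
      have h3 : Complex.I ≠ 0 := Complex.I_ne_zero
      have h4 : a - b = 2 * Complex.I * s := by rw [ha, hb]; ring
      field_simp
      linear_combination (-1 : ℂ) * h4
    have hl1 : Tendsto (fun w : ℝ => (2 * Complex.I)⁻¹ *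
        Complex.log (((w : ℂ) - a) / ((w : ℂ) - b))) atTop (𝓝 0) := by
      have := (ratlim14 a b atTop (by
        simp only [Complex.norm_real, Real.norm_eq_abs]
        exact tendsto_abs_atTop_atTop)).const_mul ((2 * Complex.I)⁻¹)
      simpa using this
    have hl2 : Tendsto (fun w : ℝ => (2 * Complex.I)⁻¹ *
        Complex.log (((w : ℂ) - a) / ((w : ℂ) - b))) atBot (𝓝 0) := by
      have := (ratlim14 a b atBot (by
        simp only [Complex.norm_real, Real.norm_eq_abs]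
        exact tendsto_abs_atBot_atTop)).const_mul ((2 * Complex.I)⁻¹)
      simpa using this
    have := integral_of_hasDerivAt_of_tendsto hder hint hl2 hl1
    rw [this, sub_zero]
  · calc ∫ w, ‖EK h r t w‖ ≤ ∫ w : ℝ, 2 * ‖s‖ * ((w - r.re) ^ 2 + r.im ^ 2)⁻¹ :=
          integral_mono hint.norm (hc1.const_mul _) hbd
      _ = 2 * Real.pi * t / (‖h‖ * |r.im|) := by
          rw [integral_const_mul, hc2, hns]
          field_simp

end Pool.Agent.WSP
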