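import Pool.Agent.W_2cf66e_h23.DefsS

/-!
# MP_2cf66e_nt, whole space: leaf V (helper64)

The indicator of a semialgebraic set over `ℚ` is a finite rational combination of signs of rational
polynomials; so the volume of a bounded one is such a combination of integrals over the cube.
-/

set_option autoImplicit false

noncomputable section

open MeasureTheory Set Filter Topology

namespace Pool.Agent.WSP

/-- The indicator of `S` is a finite rational combination of signs of rational polynomials. -/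
def SD64 {m : ℕ} (S : Set (Fin m → ℝ)) : Prop :=
  ∃ (α : Type) (_ : Fintype α) (c : α → ℚ) (p : α → MvPolynomial (Fin m) ℚ),
    ∀ z, S.indicator (fun _ => (1 : ℝ)) z = ∑ i, (c i : ℝ) * sg (MvPolynomial.aeval z (p i))

theorem SD64_all {m : ℕ} {S : Set (Fin m → ℝ)} (hS : Pool.Agent.CVol.IsSA S) : SD64 S := by
  induction hS with
  | pos p =>
    refine ⟨Bool, inferInstance, fun _ => 1 / 2, fun b => if b then p else p ^ 2, fun z => ?_⟩
    have h := sg_half (MvPolynomial.aeval z p : ℝ)
    rw [Fintype.sum_bool]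
    simp only [if_true, Bool.false_eq_true, if_false, map_pow]
    push_cast
    rw [h]
    by_cases hz : 0 < (MvPolynomial.aeval z p : ℝ)
    · rw [if_pos hz, Set.indicator_of_mem (show z ∈ {x | 0 < (MvPolynomial.aeval x p : ℝ)} from hz)]
    · rw [if_neg hz,
        Set.indicator_of_notMem (show z ∉ {x | 0 < (MvPolynomial.aeval x p : ℝ)} from hz)]
  | compl _ ih =>
    obtain ⟨α, _, c, p, h⟩ := ih
    refine ⟨Option α, inferInstance, fun o => o.elim 1 (fun i => - c i),
      fun o => o.elim 1 p, fun z => ?_⟩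
    rw [Fintype.sum_option]
    simp only [Option.elim_none, Option.elim_some, map_one]
    rw [sg_one, Set.indicator_compl, Pi.sub_apply, h z]
    push_cast
    simp only [neg_mul, Finset.sum_neg_distrib]
    ring
  | inter _ _ ih1 ih2 =>
    obtain ⟨α, _, c, p, h⟩ := ih1
    obtain ⟨β, _, d, q, h'⟩ := ih2
    refine ⟨α × β, inferInstance, fun i => c i.1 * d i.2, fun i => p i.1 * q i.2, fun z => ?_⟩
    rename_i s t _ _ _ _
    have e : (s ∩ t).indicator (fun _ => (1 : ℝ)) z =
        s.indicator (fun _ => (1 : ℝ)) z * t.indicator (fun _ => (1 : ℝ)) z := by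
      by_cases h1 : z ∈ s <;> by_cases h2 : z ∈ t <;> simp [h1, h2]
    rw [e, h z, h' z, Finset.sum_mul_sum, Fintype.sum_prod_type]
    refine Finset.sum_congr rfl fun i _ => Finset.sum_congr rfl fun j _ => ?_
    simp only [map_mul, sg_mul]
    push_cast
    ring

/-- Continuity of a rational polynomial. -/
theorem V64_cont {m : ℕ} (p : MvPolynomial (Fin m) ℚ) :
    Continuous fun z : Fin m → ℝ => (MvPolynomial.aeval z p : ℝ) := by
  have h : (fun z : Fin m → ℝ => (MvPolynomial.aeval z p : ℝ)) =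
      fun z => MvPolynomial.eval z (MvPolynomial.map (algebraMap ℚ ℝ) p) := by
    funext z
    rw [MvPolynomial.eval_map, MvPolynomial.aeval_def]
  rw [h]
  exact MvPolynomial.continuous_eval _

/-- The substitution `z = 2 M u - M`. -/
def V64_sub {m : ℕ} (M : ℕ) (p : MvPolynomial (Fin m) ℚ) : MvPolynomial (Fin m) ℚ :=
  MvPolynomial.bind₁ (fun i => MvPolynomial.C (2 * (M : ℚ)) * MvPolynomial.X i
    - MvPolynomial.C (M : ℚ)) p

theorem V64_sub_eval {m : ℕ} (M : ℕ) (p : MvPolynomial (Fin m) ℚ) (u : Fin m → ℝ) :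
    (MvPolynomial.aeval u (V64_sub M p) : ℝ) =
      MvPolynomial.aeval ((2 * (M : ℝ)) • u - fun _ => (M : ℝ)) p := by
  unfold V64_sub
  rw [MvPolynomial.aeval_bind₁]
  congr 1
  congr 1
  funext i
  simp only [map_sub, map_mul, MvPolynomial.aeval_C, MvPolynomial.aeval_X, Pi.sub_apply,
    Pi.smul_apply, smul_eq_mul]
  norm_num

theorem vol_sgdec {m : ℕ} (S : Set (Fin m → ℝ)) (hS : Pool.Agent.CVol.IsSA S)
    (hb : Bornology.IsBounded S) :
    ∃ (k : ℕ) (c : Fin k → ℚ) (p : Fin k → MvPolynomial (Fin m) ℚ),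
      (volume S).toReal =
        ∑ i, (c i : ℝ) * ∫ z in cube m, sg (MvPolynomial.aeval z (p i)) := by
  have hSm : MeasurableSet S := hS.measurable
  obtain ⟨α, _, c, p, h⟩ := SD64_all hS
  obtain ⟨R, hR⟩ := hb.exists_norm_le
  obtain ⟨M, hM⟩ := exists_nat_gt (max R 0)
  have hM0 : (0 : ℝ) < M := lt_of_le_of_lt (le_max_right _ _) hM
  have hMR : R < M := lt_of_le_of_lt (le_max_left _ _) hM
  have hSM : ∀ z ∈ S, ∀ i, |z i| ≤ M := fun z hz i =>
    (norm_le_pi_norm z i).trans ((hR z hz).trans hMR.le)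
  set f : (Fin m → ℝ) → ℝ := S.indicator (fun _ => (1 : ℝ)) with hf
  have e1 : (volume S).toReal = ∫ z, f z := by
    rw [hf, integral_indicator hSm]
    simp [Measure.real]
  have e2 : ∫ u : Fin m → ℝ, f ((2 * (M : ℝ)) • u - fun _ => (M : ℝ)) =
      ((2 * (M : ℝ)) ^ m)⁻¹ * ∫ z, f z := by
    have a := Measure.integral_comp_smul (volume : Measure (Fin m → ℝ))
      (fun w => f (w - fun _ => (M : ℝ))) (2 * (M : ℝ))
    rw [a, integral_sub_right_eq_self]
    rw [Module.finrank_fin_fun, smul_eq_mul, abs_of_pos (by positivity)]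
  have e3 : ∫ u : Fin m → ℝ, f ((2 * (M : ℝ)) • u - fun _ => (M : ℝ)) =
      ∫ u in cube m, f ((2 * (M : ℝ)) • u - fun _ => (M : ℝ)) := by
    rw [← integral_indicator (cube_meas m)]
    congr 1
    funext u
    by_cases hu : u ∈ cube m
    · rw [Set.indicator_of_mem hu]
    · rw [Set.indicator_of_notMem hu, hf, Set.indicator_of_notMem]
      intro hz
      apply hu
      intro i
      have := hSM _ hz i
      simp only [Pi.sub_apply, Pi.smul_apply, smul_eq_mul] at this
      rw [abs_le] at this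
      constructor <;> nlinarith
  have e4 : ∫ u in cube m, f ((2 * (M : ℝ)) • u - fun _ => (M : ℝ)) =
      ∑ i, (c i : ℝ) * ∫ u in cube m, sg (MvPolynomial.aeval u (V64_sub M (p i))) := by
    have : ∀ u : Fin m → ℝ, f ((2 * (M : ℝ)) • u - fun _ => (M : ℝ)) =
        ∑ i, (c i : ℝ) * sg (MvPolynomial.aeval u (V64_sub M (p i))) := by
      intro u
      rw [h]
      simp only [V64_sub_eval]
    simp only [this]
    rw [integral_finsetSum]
    · simp only [integral_const_mul]
    · intro i _
      exact (sg_int (V64_cont _)).const_mul _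
  have e5 : (volume S).toReal = ∑ i, (((2 * (M : ℚ)) ^ m * c i : ℚ) : ℝ) *
      ∫ u in cube m, sg (MvPolynomial.aeval u (V64_sub M (p i))) := by
    have e6 : (2 * (M : ℝ)) ^ m * (∑ i, (c i : ℝ) *
        ∫ u in cube m, sg (MvPolynomial.aeval u (V64_sub M (p i)))) = ∫ z, f z := by
      rw [← e4, ← e3, e2, ← mul_assoc, mul_inv_cancel₀ (by positivity), one_mul]
    rw [e1, ← e6, Finset.mul_sum]
    refine Finset.sum_congr rfl fun i _ => ?_
    push_cast
    ring
  refine ⟨Fintype.card α, fun i => (2 * (M : ℚ)) ^ m * c ((Fintype.equivFin α).symm i),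
    fun i => V64_sub M (p ((Fintype.equivFin α).symm i)), ?_⟩
  rw [e5]
  exact (Equiv.sum_comp (Fintype.equivFin α).symm (fun i => (((2 * (M : ℚ)) ^ m * c i : ℚ) : ℝ) *
      ∫ u in cube m, sg (MvPolynomial.aeval u (V64_sub M (p i))))).symm

end Pool.Agent.WSP
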