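import Pool.Agent.W_2cf66e_h23.DefsU

/-! MP_2cf66e_nt, THEOREM S+, leaf A7: unions of transports, dimension zero (helper83). -/

set_option autoImplicit false

noncomputable section

open MeasureTheory Set Filter Topology

namespace Pool.Agent.WSP

/-- raising the exponent -/
theorem pow_raise83 {t l M : ℝ} {n N : ℕ} (ht : 0 ≤ t) (hl : 1 ≤ l) (hn : 0 < n) (hN : n ≤ N)
    (h : t ^ n * l ≤ M) : t ^ N * l ≤ (max 1 M) ^ (N + 1) := by
  have h1 : (1 : ℝ) ≤ max 1 M := le_max_left _ _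
  have hM : M ≤ max 1 M := le_max_right _ _
  have htn : 0 ≤ t ^ n := pow_nonneg ht n
  have h2 : t ^ n ≤ M := le_trans (le_mul_of_one_le_right htn hl) h
  have h3 : t ≤ max 1 M := by
    by_cases h4 : t ≤ 1
    · exact h4.trans h1
    · push Not at h4
      have h5 : t ≤ t ^ n := by
        calc t = t ^ 1 := (pow_one t).symm
          _ ≤ t ^ n := pow_le_pow_right₀ h4.le hn
      exact (h5.trans h2).trans hM
  have h6 : t ^ N * l = t ^ (N - n) * (t ^ n * l) := by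
    rw [← mul_assoc, ← pow_add, Nat.sub_add_cancel hN]
  rw [h6]
  have h7 : t ^ (N - n) ≤ (max 1 M) ^ (N - n) := pow_le_pow_left₀ ht h3 _
  have h8 : 0 ≤ t ^ n * l := mul_nonneg htn (by linarith)
  calc t ^ (N - n) * (t ^ n * l) ≤ (max 1 M) ^ (N - n) * max 1 M :=
        mul_le_mul h7 (h.trans hM) h8 (by positivity)
    _ = (max 1 M) ^ (N - n + 1) := (pow_succ _ _).symm
    _ ≤ (max 1 M) ^ (N + 1) := pow_le_pow_right₀ h1 (by omega)

/-- finite disjoint unions of transports -/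
theorem Tr.union {k I : ℕ} {C : Set (Fin k → ℝ)} {g l : (Fin k → ℝ) → ℝ}
    (E : Fin I → Set (Fin k → ℝ)) (hE : ∀ i, MeasurableSet (E i)) (hEC : ∀ i, E i ⊆ C)
    (hd : Pairwise fun i j => Disjoint (E i) (E j)) (h0 : volume (C \ ⋃ i, E i) = 0)
    (hg : ∀ x ∈ C, 0 ≤ g x) (hl : ∀ x ∈ C, 1 ≤ l x) (h : ∀ i, Tr k (E i) g l) : Tr k C g l := by
  classical
  choose N M n D Φ J hN hD hf using h
  have hle : ∀ i, N i ≤ ∑ i, N i + 1 := fun i =>
    (Finset.single_le_sum (f := N) (fun _ _ => Nat.zero_le _) (Finset.mem_univ i)).trans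
      (Nat.le_succ _)
  refine ⟨∑ i, N i + 1, ∑ i, (max 1 (M i)) ^ (∑ i, N i + 1 + 1), ∑ i, n i,
    fun a => D (finSigmaFinEquiv.symm a).1 (finSigmaFinEquiv.symm a).2,
    fun a => Φ (finSigmaFinEquiv.symm a).1 (finSigmaFinEquiv.symm a).2,
    fun a => J (finSigmaFinEquiv.symm a).1 (finSigmaFinEquiv.symm a).2, Nat.succ_pos _, ?_, ?_⟩
  · intro a
    obtain ⟨h1, h2, h3, h4, h5⟩ := hD (finSigmaFinEquiv.symm a).1 (finSigmaFinEquiv.symm a).2
    refine ⟨h1, h2, h3, h4, fun u hu => ?_⟩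
    obtain ⟨h6, h7, h8⟩ := h5 u hu
    have h9 := hEC _ h6
    refine ⟨h9, h7, ?_⟩
    have h10 := pow_raise83 (mul_nonneg (hg _ h9) h7) (hl _ h9) (hN _) (hle _) h8
    refine h10.trans ?_
    exact Finset.single_le_sum (f := fun i => (max 1 (M i)) ^ (∑ i, N i + 1 + 1))
      (fun i _ => by positivity) (Finset.mem_univ (finSigmaFinEquiv.symm a).1)
  · intro f hfm
    have h1 : ∫⁻ x in C, f x = ∫⁻ x in ⋃ i, E i, f x := by
      refine setLIntegral_congr ?_
      refine (ae_eq_set.2 ⟨h0, ?_⟩)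
      have h2 : (⋃ i, E i) \ C = ∅ := by
        rw [Set.diff_eq_empty]
        exact Set.iUnion_subset hEC
      rw [h2, measure_empty]
    rw [h1, lintegral_iUnion hE (fun i j hij => hd hij), tsum_fintype]
    have h3 : ∀ i, ∫⁻ x in E i, f x = ∑ j, ∫⁻ u in D i j, f (Φ i j u) * ENNReal.ofReal (J i j u) :=
      fun i => hf i f hfm
    simp only [h3]
    rw [← Fintype.sum_sigma' (fun i j => ∫⁻ u in D i j, f (Φ i j u) * ENNReal.ofReal (J i j u))]
    exact (Equiv.sum_comp finSigmaFinEquiv.symm (fun a : (i : Fin I) × Fin (n i) =>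
      ∫⁻ u in D a.1 a.2, f (Φ a.1 a.2 u) * ENNReal.ofReal (J a.1 a.2 u))).symm

/-- dimension zero -/
theorem Tr.zero (C : Set (Fin 0 → ℝ)) (hC : DS C) (g l : (Fin 0 → ℝ) → ℝ) : Tr 0 C g l := by
  refine ⟨1, g default * l default, 1, fun _ => C, fun _ u => u, fun _ _ => 1, one_pos, ?_, ?_⟩
  · intro i
    refine ⟨hC, (Set.toFinite C).isBounded, fun j => j.elim0, ?_, fun u hu => ⟨hu, zero_le_one, ?_⟩⟩
    · have h1 := U78.Df.eq (κ := Option (Fin 0)) (U78.PolyFun.var none) (U78.PolyFun.const 1)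
      exact h1.congr fun v => by simp
    · rw [Subsingleton.elim u default, mul_one, pow_one]
  · intro f hf
    simp

end Pool.Agent.WSP
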