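import Pool.Agent.W_2cf66e_h23.LuA1
import Pool.Agent.W_2cf66e_h23.LuA2
import Pool.Agent.W_2cf66e_h23.LuA3
import Pool.Agent.W_2cf66e_h23.LuA7
import Pool.Agent.W_2cf66e_h23.LuA9
import Pool.Agent.W_2cf66e_h23.LuA10

/-!
# MP_2cf66e_nt, S+: leaf A11 (helper64): half cell, `g` decreasing
-/

set_option autoImplicit false

noncomputable section

open MeasureTheory Set Filter Topology

namespace Pool.Agent.WSP

/-- The statement of leaf A4. -/
def DecayP64 : Prop := ∀ {k : ℕ} (φ : (Fin (k + 1) → ℝ) → ℝ), DF φ →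
    ∃ K : ℕ, 0 < K ∧ ∀ x : Fin k → ℝ, Tendsto (fun v : ℝ => φ (Fin.cons v x)) (𝓝[>] 0) (𝓝 0) →
      ∃ c : ℝ, 0 < c ∧ ∀ v : ℝ, 0 < v → v < c → |φ (Fin.cons v x)| ^ K ≤ v

theorem tl_cons64 {k : ℕ} (y : ℝ) (x : Fin k → ℝ) : tl (Fin.cons y x : Fin (k + 1) → ℝ) = x := by
  funext j
  simp [WSP.tl]

theorem cons_tl64 {k : ℕ} (z : Fin (k + 1) → ℝ) : (Fin.cons (z 0) (tl z) : Fin (k + 1) → ℝ) = z := by
  funext i
  refine Fin.cases ?_ (fun j => ?_) i
  · simp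
  · simp [WSP.tl]

/-- The numbers in the first half cell. -/
theorem num1_64 {A φ s v0 v l L : ℝ} {K1 s0 N : ℕ} (hK1 : 0 < K1) (hA : 0 < A) (hφ0 : 0 ≤ φ)
    (hs0 : 0 < s) (hs1 : s < 1) (hv0 : 0 < v0) (hv01 : v0 ≤ 1) (hv : v = v0 * s ^ (2 * K1))
    (hφ : φ ^ K1 ≤ v) (hl1 : 1 ≤ l) (hl : l * v ^ s0 ≤ 1) (hL : 1 ≤ L) (hN : 2 * K1 * s0 ≤ N)
    {g : ℝ} (hg : v * g = A * φ) :
    (g * (v0 * ((2 * K1 : ℕ) : ℝ) * s ^ (2 * K1 - 1))) ^ N * l ≤
      ((2 * K1 : ℕ) : ℝ) ^ N * A ^ N * L := by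
  have hvp : 0 < v := by rw [hv]; positivity
  have e1 : g * (v0 * ((2 * K1 : ℕ) : ℝ) * s ^ (2 * K1 - 1)) = ((2 * K1 : ℕ) : ℝ) * A * (φ / s) := by
    have h1 : v0 * s ^ (2 * K1 - 1) * s = v := by
      rw [hv, mul_assoc, ← pow_succ]
      congr 2
      omega
    have h2 : v0 * s ^ (2 * K1 - 1) = v / s := by
      rw [← h1]
      field_simp
    calc g * (v0 * ((2 * K1 : ℕ) : ℝ) * s ^ (2 * K1 - 1))
        = ((2 * K1 : ℕ) : ℝ) * (g * (v0 * s ^ (2 * K1 - 1))) := by ring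
      _ = ((2 * K1 : ℕ) : ℝ) * ((v * g) / s) := by rw [h2]; ring
      _ = _ := by rw [hg]; ring
  have h3 : φ ≤ s ^ 2 := by
    have h4 : φ ^ K1 ≤ (s ^ 2) ^ K1 := by
      rw [← pow_mul]
      calc φ ^ K1 ≤ v := hφ
        _ = v0 * s ^ (2 * K1) := hv
        _ ≤ 1 * s ^ (2 * K1) := by gcongr
        _ = _ := one_mul _
    exact le_of_pow_le_pow_left₀ hK1.ne' (by positivity) h4
  have h5 : φ / s ≤ s := by
    rw [div_le_iff₀ hs0]
    nlinarith
  have h5' : 0 ≤ φ / s := by positivity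
  have h6 : (φ / s) ^ N * l ≤ 1 := by
    have e2 : (φ / s) ^ N = (φ / s) ^ (N - K1 * s0) * (φ / s) ^ (K1 * s0) := by
      rw [← pow_add]
      congr 1
      have : K1 * s0 ≤ 2 * K1 * s0 := by nlinarith
      omega
    have h7 : (φ / s) ^ (N - K1 * s0) ≤ s ^ (N - K1 * s0) := pow_le_pow_left₀ h5' h5 _
    have h8 : (φ / s) ^ (K1 * s0) ≤ v ^ s0 / s ^ (K1 * s0) := by
      rw [div_pow, pow_mul φ]
      gcongr
    have h9 : s ^ (N - K1 * s0) ≤ s ^ (K1 * s0) := by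
      refine pow_le_pow_of_le_one hs0.le hs1.le ?_
      have : 2 * K1 * s0 = K1 * s0 + K1 * s0 := by ring
      omega
    calc (φ / s) ^ N * l = (φ / s) ^ (N - K1 * s0) * (φ / s) ^ (K1 * s0) * l := by rw [e2]
      _ ≤ s ^ (K1 * s0) * (v ^ s0 / s ^ (K1 * s0)) * l := by
        have : 0 ≤ l := by linarith
        gcongr
        exact h7.trans h9
      _ = l * v ^ s0 := by
        have : s ^ (K1 * s0) ≠ 0 := by positivity
        field_simp
      _ ≤ 1 := hl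
  rw [e1]
  calc (((2 * K1 : ℕ) : ℝ) * A * (φ / s)) ^ N * l
      = ((2 * K1 : ℕ) : ℝ) ^ N * A ^ N * ((φ / s) ^ N * l) := by
        rw [mul_pow, mul_pow]; ring
    _ ≤ ((2 * K1 : ℕ) : ℝ) ^ N * A ^ N * L := by
        gcongr
        exact h6.trans hL

/-- The numbers in the second half cell. -/
theorem num2_64 {A s v0 v c l lv lc g : ℝ} {N : ℕ} (hN : 0 < N) (hA : 0 < A) (hg0 : 0 ≤ g)
    (hs0 : 0 < s) (hv0 : 0 < v0) (hc : 0 < c) (hv : v = c * s ^ N) (hvv : v0 ≤ v)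
    (hg : v * g ≤ A) (hl0 : 0 ≤ l) (hl : l ≤ lv + lc) :
    (g * (c * (N : ℝ) * s ^ (N - 1))) ^ N * l ≤ (N : ℝ) ^ N * A ^ N * (c / v0 * (lv + lc)) := by
  have hvp : 0 < v := lt_of_lt_of_le hv0 hvv
  have e1 : g * (c * (N : ℝ) * s ^ (N - 1)) = (N : ℝ) * (v * g / s) := by
    have h1 : c * s ^ (N - 1) * s = v := by
      rw [hv, mul_assoc, ← pow_succ]
      congr 2
      omega
    have h2 : c * s ^ (N - 1) = v / s := by
      rw [← h1]
      field_simp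
    calc g * (c * (N : ℝ) * s ^ (N - 1)) = (N : ℝ) * (g * (c * s ^ (N - 1))) := by ring
      _ = _ := by rw [h2]; ring
  have h2 : s ^ N = v / c := by rw [hv]; field_simp
  rw [e1]
  calc ((N : ℝ) * (v * g / s)) ^ N * l = (N : ℝ) ^ N * ((v * g) ^ N / s ^ N) * l := by
        rw [mul_pow, div_pow]
    _ ≤ (N : ℝ) ^ N * (A ^ N / s ^ N) * l := by gcongr
    _ = (N : ℝ) ^ N * A ^ N * (c / v * l) := by rw [h2]; field_simp
    _ ≤ (N : ℝ) ^ N * A ^ N * (c / v0 * (lv + lc)) := by gcongr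

theorem DS_all64 {k : ℕ} {R : Set (Fin (k + 2) → ℝ)} (h : DS R) :
    DS {z : Fin (k + 1) → ℝ | ∀ v : ℝ, (Fin.cons v z : Fin (k + 2) → ℝ) ∈ R} :=
  (DS_fib64 h).all

theorem DS_ex64 {k : ℕ} {R : Set (Fin (k + 2) → ℝ)} (h : DS R) :
    DS {z : Fin (k + 1) → ℝ | ∃ v : ℝ, (Fin.cons v z : Fin (k + 2) → ℝ) ∈ R} :=
  (DS_fib64 h).ex

/-- Functions of the new variable and the old base point. -/
theorem DF_two64 {k : ℕ} {f : (Fin (k + 1) → ℝ) → ℝ} (hf : DF f) :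
    DF (fun w : Fin (k + 2) → ℝ => f (Fin.cons (w 0) (tl (tl w)))) :=
  DF.cons hf (DF.var 0) (fun _ => DF.var _)

theorem DF_tl2_64 {k : ℕ} {f : (Fin k → ℝ) → ℝ} (hf : DF f) :
    DF (fun w : Fin (k + 2) → ℝ => f (tl (tl w))) :=
  DF.tl (DF.tl hf)

/-- `sup v g(v, x)` over the fiber. -/
def AA64 {k : ℕ} (g : (Fin (k + 1) → ℝ) → ℝ) (c : (Fin k → ℝ) → ℝ) (x : Fin k → ℝ) : ℝ :=
  sSup (fib {z : Fin (k + 1) → ℝ | ∃ v : ℝ, 0 < v ∧ v < 2 * c (tl z) ∧
    z 0 = v * g (Fin.cons v (tl z))} x)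

theorem AA64_DF {k : ℕ} {g : (Fin (k + 1) → ℝ) → ℝ} {c : (Fin k → ℝ) → ℝ} (hg : DF g)
    (hc : DF c) : DF (AA64 g c) := by
  refine DF.fibSup ?_
  have h0 : DF (fun _ : Fin (k + 2) → ℝ => ((0 : ℤ) : ℝ)) := DF.const 0
  have h2 : DF (fun _ : Fin (k + 2) → ℝ => ((2 : ℤ) : ℝ)) := DF.const 2
  have hw0 : DF (fun w : Fin (k + 2) → ℝ => w 0) := DF.var 0
  have hw1 : DF (fun w : Fin (k + 2) → ℝ => w 1) := DF.var 1
  have hR : DS {w : Fin (k + 2) → ℝ | ((0 : ℤ) : ℝ) < w 0 ∧ w 0 < ((2 : ℤ) : ℝ) * c (tl (tl w)) ∧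
      w 1 = w 0 * g (Fin.cons (w 0) (tl (tl w)))} :=
    (DF.lt h0 hw0).and ((DF.lt hw0 (DF.mul h2 (DF_tl2_64 hc))).and
      (DF.eq hw1 (DF.mul hw0 (DF_two64 hg))))
  refine (DS_ex64 hR).congr fun z => ?_
  simp only [Set.mem_ofPred_eq, Fin.cons_zero, Fin.cons_one, tl_cons64, Int.cast_zero,
    Int.cast_ofNat]

theorem AA64_fib {k : ℕ} (g : (Fin (k + 1) → ℝ) → ℝ) (c : (Fin k → ℝ) → ℝ) (x : Fin k → ℝ) :
    fib {z : Fin (k + 1) → ℝ | ∃ v : ℝ, 0 < v ∧ v < 2 * c (tl z) ∧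
      z 0 = v * g (Fin.cons v (tl z))} x =
      {t : ℝ | ∃ v : ℝ, 0 < v ∧ v < 2 * c x ∧ t = v * g (Fin.cons v x)} := by
  ext t
  simp only [fib, Set.mem_ofPred_eq, Fin.cons_zero, tl_cons64]

/-- The admissible heights. -/
def EE64 {k : ℕ} (g l : (Fin (k + 1) → ℝ) → ℝ) (c : (Fin k → ℝ) → ℝ) (K s0 : ℕ) :
    Set (Fin (k + 1) → ℝ) :=
  {z | 0 < z 0 ∧ z 0 ≤ c (tl z) ∧ ∀ v : ℝ, 0 < v → v < z 0 →
    (v * g (Fin.cons v (tl z)) / AA64 g c (tl z)) ^ K ≤ v ∧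
      l (Fin.cons v (tl z)) * v ^ s0 ≤ 1}

theorem EE64_DS {k : ℕ} {g l : (Fin (k + 1) → ℝ) → ℝ} {c : (Fin k → ℝ) → ℝ} (hg : DF g)
    (hl : DF l) (hc : DF c) (K s0 : ℕ) : DS (EE64 g l c K s0) := by
  have h0 : DF (fun _ : Fin (k + 2) → ℝ => ((0 : ℤ) : ℝ)) := DF.const 0
  have h1 : DF (fun _ : Fin (k + 2) → ℝ => ((1 : ℤ) : ℝ)) := DF.const 1
  have hw0 : DF (fun w : Fin (k + 2) → ℝ => w 0) := DF.var 0
  have hw1 : DF (fun w : Fin (k + 2) → ℝ => w 1) := DF.var 1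
  have hR : DS {w : Fin (k + 2) → ℝ | ((0 : ℤ) : ℝ) < w 0 → w 0 < w 1 →
      (w 0 * g (Fin.cons (w 0) (tl (tl w))) / AA64 g c (tl (tl w))) ^ K ≤ w 0 ∧
        l (Fin.cons (w 0) (tl (tl w))) * (w 0) ^ s0 ≤ ((1 : ℤ) : ℝ)} :=
    (DF.lt h0 hw0).imp ((DF.lt hw0 hw1).imp
      ((DF.le (DF.pow (DF.div (DF.mul hw0 (DF_two64 hg)) (DF_tl2_64 (AA64_DF hg hc))) K) hw0).and
        (DF.le (DF.mul (DF_two64 hl) (DF.pow hw0 s0)) h1)))
  have hz0 : DF (fun z : Fin (k + 1) → ℝ => z 0) := DF.var 0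
  have hz : DF (fun _ : Fin (k + 1) → ℝ => ((0 : ℤ) : ℝ)) := DF.const 0
  refine ((DF.lt hz hz0).and ((DF.le hz0 (DF.tl hc)).and (DS_all64 hR))).congr fun z => ?_
  simp only [EE64, Set.mem_ofPred_eq, Fin.cons_zero, Fin.cons_one, tl_cons64, Int.cast_zero,
    Int.cast_one]

theorem anti1_64 {γ : ℝ → ℝ} {b : ℝ} (ha : AntitoneOn γ (Ioo 0 b)) {v : ℝ} (hv : 0 < v)
    (hvb : v < b) :
    ENNReal.ofReal (v * γ v) ≤ ∫⁻ y in Ioo 0 v, ENNReal.ofReal (γ y) := by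
  calc ENNReal.ofReal (v * γ v) = ENNReal.ofReal (γ v) * volume (Ioo 0 v) := by
        rw [Real.volume_Ioo, sub_zero, ENNReal.ofReal_mul hv.le, mul_comm]
    _ = ∫⁻ _ in Ioo 0 v, ENNReal.ofReal (γ v) := (setLIntegral_const _ _).symm
    _ ≤ ∫⁻ y in Ioo 0 v, ENNReal.ofReal (γ y) :=
        setLIntegral_mono' measurableSet_Ioo fun y hy => ENNReal.ofReal_le_ofReal
          (ha ⟨hy.1, hy.2.trans hvb⟩ ⟨hv, hvb⟩ hy.2.le)

theorem anti2_64 {γ : ℝ → ℝ} {b : ℝ} (hb : 0 < b) (hγ0 : ∀ y ∈ Ioo 0 b, 0 ≤ γ y)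
    (ha : AntitoneOn γ (Ioo 0 b)) (hI : ∫⁻ y in Ioo 0 b, ENNReal.ofReal (γ y) ≠ ⊤) :
    Tendsto (fun v => v * γ v) (𝓝[>] 0) (𝓝 0) := by
  have h1 : Tendsto (fun v : ℝ => ∫⁻ y in Ioo 0 v, ENNReal.ofReal (γ y)
      ∂(volume.restrict (Ioo 0 b))) (𝓝[>] 0) (𝓝 0) := by
    refine tendsto_setLIntegral_zero hI ?_
    have h2 : Tendsto (fun v : ℝ => ENNReal.ofReal v) (𝓝[>] 0) (𝓝 0) := by
      have := (ENNReal.continuous_ofReal.tendsto 0).mono_left
        (nhdsWithin_le_nhds (s := Ioi (0 : ℝ)))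
      simpa using this
    refine tendsto_of_tendsto_of_tendsto_of_le_of_le tendsto_const_nhds h2
      (fun _ => zero_le) (fun v => ?_)
    calc (volume.restrict (Ioo 0 b)) (Ioo 0 v) ≤ volume (Ioo 0 v) := Measure.restrict_apply_le _ _
      _ = ENNReal.ofReal v := by rw [Real.volume_Ioo, sub_zero]
  have h3 : Tendsto (fun v : ℝ => ENNReal.ofReal (v * γ v)) (𝓝[>] 0) (𝓝 0) := by
    refine tendsto_of_tendsto_of_tendsto_of_le_of_le' tendsto_const_nhds h1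
      (Eventually.of_forall fun _ => zero_le) ?_
    have : ∀ᶠ v in 𝓝[>] (0 : ℝ), v ∈ Ioo 0 b := Ioo_mem_nhdsGT hb
    filter_upwards [this] with v hv
    rw [Measure.restrict_restrict measurableSet_Ioo, inter_eq_self_of_subset_left
      (Ioo_subset_Ioo_right hv.2.le)]
    exact anti1_64 ha hv.1 hv.2
  have h4 := (ENNReal.tendsto_toReal ENNReal.zero_ne_top).comp h3
  simp only [ENNReal.toReal_zero] at h4
  refine h4.congr' ?_
  have : ∀ᶠ v in 𝓝[>] (0 : ℝ), v ∈ Ioo 0 b := Ioo_mem_nhdsGT hb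
  filter_upwards [this] with v hv
  simp only [Function.comp]
  exact ENNReal.toReal_ofReal (mul_nonneg hv.1.le (hγ0 v hv))

/-- Leaf A11 over leaf A4. -/
theorem half_anti_of64 (decay : DecayP64) {k : ℕ} (IH : TrAll k) {C : Set (Fin k → ℝ)} {c : (Fin k → ℝ) → ℝ}
    {g l : (Fin (k + 1) → ℝ) → ℝ} (hC : DS C) (hc : DF c) (hg : DF g) (hl : DF l)
    (hc0 : ∀ x ∈ C, 0 < c x ∧ c x ≤ 1)
    (hg0 : ∀ z ∈ under C (fun x => 2 * c x), 0 < g z)
    (hl1 : ∀ z ∈ under C (fun x => 2 * c x), 1 ≤ l z)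
    (hga : ∀ x ∈ C, AntitoneOn (fun y : ℝ => g (Fin.cons y x)) (Ioo 0 (2 * c x)))
    (hlm : ∀ x ∈ C, MonotoneOn (fun y : ℝ => l (Fin.cons y x)) (Ioo 0 (2 * c x)) ∨
      AntitoneOn (fun y : ℝ => l (Fin.cons y x)) (Ioo 0 (2 * c x)))
    (hi : ∫⁻ z in under C (fun x => 2 * c x), ENNReal.ofReal (g z) < ⊤) :
    Tr (k + 1) (under C c) g l := by
  -- the constants of decay and growth
  have hA : DF (AA64 g c) := AA64_DF hg hc
  obtain ⟨K1, hK1, hdec⟩ := decay (fun z => z 0 * g z / AA64 g c (tl z))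
    (DF.div (DF.mul (DF.var 0) hg) (DF.tl hA))
  obtain ⟨s0, hgr⟩ := growth l hl
  have hE : DS (EE64 g l c K1 s0) := EE64_DS hg hl hc K1 s0
  set A := AA64 g c with hAdef
  set E := EE64 g l c K1 s0 with hEdef
  -- membership
  have hmem : ∀ x ∈ C, ∀ v : ℝ, 0 < v → v < 2 * c x →
      (Fin.cons v x : Fin (k + 1) → ℝ) ∈ under C (fun x => 2 * c x) := by
    intro x hx v h0 h1
    refine ⟨?_, ?_, ?_⟩
    · rw [tl_cons64]; exact hx
    · simpa using h0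
    · rw [tl_cons64]; simpa using h1
  have hgp : ∀ x ∈ C, ∀ v : ℝ, 0 < v → v < 2 * c x → 0 < g (Fin.cons v x) := fun x hx v h0 h1 =>
    hg0 _ (hmem x hx v h0 h1)
  have hlp : ∀ x ∈ C, ∀ v : ℝ, 0 < v → v < 2 * c x → 1 ≤ l (Fin.cons v x) := fun x hx v h0 h1 =>
    hl1 _ (hmem x hx v h0 h1)
  -- the fiber integral
  set H : Set (Fin (k + 1) → ℝ) := under C (fun x => 2 * c x) with hH
  have hHm : MeasurableSet H := by
    have h1 : DS H := (DS.tl hC).and ((DF.lt (DF.const 0) (DF.var 0)).and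
      (DF.lt (DF.var 0) (DF.tl (DF.mul (DF.const 2) hc))) |>.congr fun z => by
        simp only [Int.cast_zero, Int.cast_ofNat])
    exact DS.meas h1
  set F : (Fin (k + 1) → ℝ) → ENNReal := H.indicator (fun z => ENNReal.ofReal (g z)) with hF
  have hFm : Measurable F := (ENNReal.measurable_ofReal.comp hg.meas).indicator hHm
  set J : (Fin k → ℝ) → ENNReal := fun x => ∫⁻ y : ℝ, F (Fin.cons y x) with hJ
  have hJm : Measurable J := by
    have h1 : Measurable (fun p : (Fin k → ℝ) × ℝ => F (Fin.cons p.2 p.1)) := by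
      refine hFm.comp ?_
      rw [measurable_pi_iff]
      intro i
      refine Fin.cases ?_ (fun j => ?_) i
      · simpa using measurable_snd
      · simp only [Fin.cons_succ]
        exact (measurable_pi_apply j).comp measurable_fst
    exact h1.lintegral_prod_right'
  have hJi : ∫⁻ x, J x < ⊤ := by
    have h1 := lint_fub (H := (univ : Set (Fin (k + 1) → ℝ))) MeasurableSet.univ hFm
    have h2 : ∀ x : Fin k → ℝ, fib (univ : Set (Fin (k + 1) → ℝ)) x = univ := by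
      intro x
      ext y
      simp [fib]
    simp only [h2, Measure.restrict_univ] at h1
    rw [← h1, lintegral_indicator hHm]
    exact hi
  have hJe : ∀ x ∈ C, J x = ∫⁻ y in Ioo 0 (2 * c x), ENNReal.ofReal (g (Fin.cons y x)) := by
    intro x hx
    rw [← lintegral_indicator measurableSet_Ioo]
    refine lintegral_congr fun y => ?_
    by_cases hy : y ∈ Ioo 0 (2 * c x)
    · rw [hF, Set.indicator_of_mem (hmem x hx y hy.1 hy.2), Set.indicator_of_mem hy]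
    · rw [Set.indicator_of_notMem hy, hF, Set.indicator_of_notMem]
      rintro ⟨_, h1, h2⟩
      rw [tl_cons64] at h2
      exact hy ⟨by simpa using h1, by simpa using h2⟩
  -- `v g(v) ≤ J`
  have hvJ : ∀ x ∈ C, ∀ v : ℝ, 0 < v → v < 2 * c x →
      ENNReal.ofReal (v * g (Fin.cons v x)) ≤ J x := by
    intro x hx v h0 h1
    rw [hJe x hx]
    exact (anti1_64 (hga x hx) h0 h1).trans (lintegral_mono_set (Ioo_subset_Ioo_right h1.le))
  -- the good base points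
  set C' : Set (Fin k → ℝ) := {x | x ∈ C ∧ (∀ v : ℝ, 0 < v → v < 2 * c x →
    v * g (Fin.cons v x) ≤ A x) ∧ (fib E x).Nonempty} with hC'def
  have hC' : DS C' := by
    have hR : DS {z : Fin (k + 1) → ℝ | ((0 : ℤ) : ℝ) < z 0 → z 0 < ((2 : ℤ) : ℝ) * c (tl z) →
        z 0 * g z ≤ A (tl z)} :=
      (DF.lt (DF.const 0) (DF.var 0)).imp ((DF.lt (DF.var 0) (DF.mul (DF.const 2) (DF.tl hc))).imp
        (DF.le (DF.mul (DF.var 0) hg) (DF.tl hA)))
    refine (hC.and ((DS_fib64 hR).all.and (DS.nonemptyFib hE))).congr fun x => ?_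
    simp only [Set.mem_ofPred_eq, Fin.cons_zero, tl_cons64, Int.cast_zero, Int.cast_ofNat,
      Option.elim_none, Option.elim_some, hC'def]
  -- almost all base points are good
  have hnull : volume (C \ C') = 0 := by
    have h1 : ∀ᵐ x, J x < ⊤ := ae_lt_top hJm hJi.ne
    refine measure_mono_null (fun x hx => ?_) (ae_iff.mp h1)
    intro hJx
    refine hx.2 ⟨hx.1, ?_, ?_⟩
    · intro v h0 h1
      refine le_csSup ?_ ?_
      · refine ⟨(J x).toReal, ?_⟩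
        rw [AA64_fib]
        rintro t ⟨w, hw0, hw1, rfl⟩
        exact (ENNReal.ofReal_le_iff_le_toReal hJx.ne).mp (hvJ x hx.1 w hw0 hw1)
      · rw [AA64_fib]
        exact ⟨v, h0, h1, rfl⟩
    · have hcx := hc0 x hx.1
      have h2 := anti2_64 (b := 2 * c x) (by linarith) (fun y hy => (hgp x hx.1 y hy.1 hy.2).le)
        (hga x hx.1) (by rw [← hJe x hx.1]; exact hJx.ne)
      have h3 : Tendsto (fun v : ℝ => (fun z : Fin (k + 1) → ℝ => z 0 * g z / A (tl z))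
          (Fin.cons v x)) (𝓝[>] 0) (𝓝 0) := by
        have := h2.div_const (A x)
        simpa [tl_cons64] using this
      obtain ⟨d1, hd1, h4⟩ := hdec x h3
      obtain ⟨d2, hd2, h5⟩ := hgr x
      refine ⟨min (c x) (min d1 d2), ?_⟩
      simp only [fib, hEdef, EE64, Set.mem_ofPred_eq, Fin.cons_zero, tl_cons64]
      refine ⟨lt_min hcx.1 (lt_min hd1 hd2), min_le_left _ _, fun v hv0 hv1 => ?_⟩
      have hvc : v < c x := hv1.trans_le (min_le_left _ _)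
      have hvd1 : v < d1 := hv1.trans_le ((min_le_right _ _).trans (min_le_left _ _))
      have hvd2 : v < d2 := hv1.trans_le ((min_le_right _ _).trans (min_le_right _ _))
      constructor
      · have h6 := h4 v hv0 hvd1
        simp only [Fin.cons_zero, tl_cons64] at h6
        exact (le_abs_self _).trans ((abs_pow _ _).le.trans h6)
      · have h6 := (le_abs_self _).trans (h5 v hv0 hvd2)
        calc l (Fin.cons v x) * v ^ s0 ≤ (v ^ s0)⁻¹ * v ^ s0 := by gcongr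
          _ = 1 := inv_mul_cancel₀ (by positivity)
  -- the height `v0`
  set v0 : (Fin k → ℝ) → ℝ := fun x => sSup (fib E x) / ((2 : ℤ) : ℝ) with hv0def
  have hv0 : DF v0 := DF.div (DF.fibSup hE) (DF.const 2)
  have key : ∀ x ∈ C', 0 < v0 x ∧ v0 x < c x ∧ ∀ v : ℝ, 0 < v → v ≤ v0 x →
      (v * g (Fin.cons v x) / A x) ^ K1 ≤ v ∧ l (Fin.cons v x) * v ^ s0 ≤ 1 := by
    rintro x ⟨hx, _, y, hy⟩
    have hbd : BddAbove (fib E x) := by
      refine ⟨c x, fun t ht => ?_⟩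
      have := ht.2.1
      simpa [tl_cons64] using this
    have hy0 : 0 < y := by simpa using hy.1
    have h1 : y ≤ sSup (fib E x) := le_csSup hbd hy
    have h2 : sSup (fib E x) ≤ c x := csSup_le ⟨y, hy⟩ fun t ht => by
      have := ht.2.1
      simpa [tl_cons64] using this
    have e : v0 x = sSup (fib E x) / 2 := by simp [hv0def]
    obtain ⟨t, ht, htv⟩ := exists_lt_of_lt_csSup (b := v0 x) ⟨y, hy⟩ (by rw [e]; linarith)
    refine ⟨by rw [e]; linarith, by rw [e]; linarith, fun v h3 h4 => ?_⟩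
    have h5 := ht.2.2 v h3 (by simpa using h4.trans_lt htv)
    simpa [tl_cons64] using h5
  -- the function `L`
  set L : (Fin k → ℝ) → ℝ := fun x => c x / v0 x * (l (Fin.cons (v0 x) x) + l (Fin.cons (c x) x))
    with hLdef
  have hLD : DF L := DF.mul (DF.div hc hv0)
    (DF.add (DF.cons hl hv0 (x := fun z => z) (fun j => DF.var j))
      (DF.cons hl hc (x := fun z => z) (fun j => DF.var j)))
  have hL1 : ∀ x ∈ C', 1 ≤ L x := by
    intro x hx
    obtain ⟨h1, h2, _⟩ := key x hx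
    have hcx := hc0 x hx.1
    have h3 := hlp x hx.1 (v0 x) h1 (by linarith)
    have h4 := hlp x hx.1 (c x) hcx.1 (by linarith)
    have h5 : 1 ≤ c x / v0 x := by rw [le_div_iff₀ h1]; linarith
    simp only [hLdef]
    nlinarith
  have hA0 : ∀ x ∈ C', 0 < A x := by
    intro x hx
    have hcx := hc0 x hx.1
    have h1 := hx.2.1 (c x) hcx.1 (by linarith)
    have h2 := hgp x hx.1 (c x) hcx.1 (by linarith)
    have := mul_pos hcx.1 h2
    linarith
  have hAi : ∫⁻ x in C', ENNReal.ofReal (A x) < ⊤ := by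
    refine lt_of_le_of_lt ?_ hJi
    refine le_trans (setLIntegral_mono' hC'.meas fun x hx => ?_) (setLIntegral_le_lintegral C' J)
    by_cases hJx : J x = ⊤
    · rw [hJx]; exact le_top
    · refine (ENNReal.ofReal_le_iff_le_toReal hJx).mpr ?_
      have hcx := hc0 x hx.1
      rw [hAdef]
      unfold AA64
      rw [AA64_fib]
      refine csSup_le ⟨_, c x, hcx.1, by linarith, rfl⟩ ?_
      rintro t ⟨w, hw0, hw1, rfl⟩
      exact (ENNReal.ofReal_le_iff_le_toReal hJx).mp (hvJ x hx.1 w hw0 hw1)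
  have hT : Tr k C' A L := IH C' A L hC' hA hLD hA0 hL1 hAi
  -- the two regions
  set H1 : Set (Fin (k + 1) → ℝ) := under C' v0 with hH1
  set H2 : Set (Fin (k + 1) → ℝ) := {z | tl z ∈ C' ∧ v0 (tl z) ≤ z 0 ∧ z 0 < c (tl z)} with hH2
  have hD1 : DS H1 := ((DS.tl hC').and ((DF.lt (DF.const 0) (DF.var 0)).and
      (DF.lt (DF.var 0) (DF.tl hv0)))).congr fun z => by
        simp only [Int.cast_zero]; rfl
  have hD2 : DS H2 := (DS.tl hC').and ((DF.le (DF.tl hv0) (DF.var 0)).and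
      (DF.lt (DF.var 0) (DF.tl hc)))
  have hsub1 : H1 ⊆ under C c := by
    rintro z ⟨h1, h2, h3⟩
    exact ⟨h1.1, h2, h3.trans (key _ h1).2.1⟩
  have hsub2 : H2 ⊆ under C c := by
    rintro z ⟨h1, h2, h3⟩
    exact ⟨h1.1, (key _ h1).1.trans_le h2, h3⟩
  have hsub : ∀ z ∈ under C c, z ∈ H := by
    rintro z ⟨h1, h2, h3⟩
    have := hc0 _ h1
    exact ⟨h1, h2, by show z 0 < 2 * c (tl z); linarith⟩
  have hT1 : Tr (k + 1) H1 g l := by
    refine Tr.lift hC' hD1 hT hv0 (fun z hz => hz) (fun x hx => (hA0 x hx).le) hL1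
      (fun z hz => (hg0 z (hsub z (hsub1 hz))).le) (fun z hz => hl1 z (hsub z (hsub1 hz))) ?_
    intro N' hN'
    refine ⟨max N' (2 * K1 * s0), 2 * K1, ((2 * K1 : ℕ) : ℝ) ^ (max N' (2 * K1 * s0)),
      le_max_left _ _, by omega, ?_⟩
    intro x hx s hs0 hs1 _
    obtain ⟨h1, h2, h3⟩ := key x hx
    have hcx := hc0 x hx.1
    have hvp : 0 < v0 x * s ^ (2 * K1) := by positivity
    have hvle : v0 x * s ^ (2 * K1) ≤ v0 x := by
      have : s ^ (2 * K1) ≤ 1 := pow_le_one₀ hs0.le hs1.le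
      nlinarith
    obtain ⟨h4, h5⟩ := h3 _ hvp hvle
    have hgv := hgp x hx.1 _ hvp (by linarith)
    have hlv := hlp x hx.1 _ hvp (by linarith)
    have hAx := hA0 x hx
    exact num1_64 hK1 hAx (φ := v0 x * s ^ (2 * K1) * g (Fin.cons (v0 x * s ^ (2 * K1)) x) / A x)
      (by positivity) hs0 hs1 h1 (by linarith) rfl h4 hlv h5 (hL1 x hx) (le_max_right _ _)
      (by field_simp)
  have hT2 : Tr (k + 1) H2 g l := by
    refine Tr.lift hC' hD2 hT hc (fun z hz => ⟨hz.1, (hsub2 hz).2.1, hz.2.2⟩)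
      (fun x hx => (hA0 x hx).le) hL1
      (fun z hz => (hg0 z (hsub z (hsub2 hz))).le) (fun z hz => hl1 z (hsub z (hsub2 hz))) ?_
    intro N' hN'
    refine ⟨N', N', (N' : ℝ) ^ N', le_rfl, hN', ?_⟩
    intro x hx s hs0 hs1 hz
    obtain ⟨h1, h2, h3⟩ := key x hx
    have hcx := hc0 x hx.1
    obtain ⟨_, h4, h5⟩ := hz
    simp only [tl_cons64, Fin.cons_zero] at h4 h5
    have hvp : 0 < c x * s ^ N' := lt_of_lt_of_le h1 h4
    have hgv := hgp x hx.1 _ hvp (by linarith)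
    have hlv := hlp x hx.1 _ hvp (by linarith)
    have hlv0 := hlp x hx.1 (v0 x) h1 (by linarith)
    have hlc := hlp x hx.1 (c x) hcx.1 (by linarith)
    have h6 : l (Fin.cons (c x * s ^ N') x) ≤
        l (Fin.cons (v0 x) x) + l (Fin.cons (c x) x) := by
      rcases hlm x hx.1 with hm | hm
      · have := hm (a := c x * s ^ N') (b := c x) ⟨hvp, by linarith⟩ ⟨hcx.1, by linarith⟩ h5.le
        simp only at this
        linarith
      · have := hm (a := v0 x) (b := c x * s ^ N') ⟨h1, by linarith⟩ ⟨hvp, by linarith⟩ h4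
        simp only at this
        linarith
    exact num2_64 hN' (hA0 x hx) hgv.le hs0 h1 hcx.1 rfl h4 (hx.2.1 _ hvp (by linarith))
      (by linarith) h6
  refine Tr.union ![H1, H2] ?_ ?_ ?_ ?_ ?_ ?_ ?_
  · intro i
    fin_cases i
    · exact hD1.meas
    · exact hD2.meas
  · intro i
    fin_cases i
    · exact hsub1
    · exact hsub2
  · have hdis : Disjoint H1 H2 := by
      rw [Set.disjoint_left]
      rintro z ⟨_, _, h1⟩ ⟨_, h2, _⟩
      exact absurd h1 (not_lt.mpr h2)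
    intro i j hij
    fin_cases i <;> fin_cases j
    · exact absurd rfl hij
    · exact hdis
    · exact hdis.symm
    · exact absurd rfl hij
  · refine measure_mono_null (fun z hz => ?_) (null_over hnull)
    refine ⟨hz.1.1, fun h1 => hz.2 ?_⟩
    rw [Set.mem_iUnion]
    by_cases h2 : z 0 < v0 (tl z)
    · exact ⟨0, h1, hz.1.2.1, h2⟩
    · exact ⟨1, h1, not_lt.mp h2, hz.1.2.2⟩
  · intro z hz
    exact (hg0 z (hsub z hz)).le
  · intro z hz
    exact hl1 z (hsub z hz)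
  · intro i
    fin_cases i
    · exact hT1
    · exact hT2

end Pool.Agent.WSP
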