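import Pool.Agent.W_2cf66e_h23.LuA4
import Pool.Agent.W_2cf66e_h23.LuA11b

/-!
# MP_2cf66e_nt, S+: leaf A11 (helper64)
-/

set_option autoImplicit false

noncomputable section

open MeasureTheory Set Filter Topology

namespace Pool.Agent.WSP

theorem half_anti {k : ℕ} (IH : TrAll k) {C : Set (Fin k → ℝ)} {c : (Fin k → ℝ) → ℝ}
    {g l : (Fin (k + 1) → ℝ) → ℝ} (hC : DS C) (hc : DF c) (hg : DF g) (hl : DF l)
    (hc0 : ∀ x ∈ C, 0 < c x ∧ c x ≤ 1)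
    (hg0 : ∀ z ∈ under C (fun x => 2 * c x), 0 < g z)
    (hl1 : ∀ z ∈ under C (fun x => 2 * c x), 1 ≤ l z)
    (hga : ∀ x ∈ C, AntitoneOn (fun y : ℝ => g (Fin.cons y x)) (Ioo 0 (2 * c x)))
    (hlm : ∀ x ∈ C, MonotoneOn (fun y : ℝ => l (Fin.cons y x)) (Ioo 0 (2 * c x)) ∨
      AntitoneOn (fun y : ℝ => l (Fin.cons y x)) (Ioo 0 (2 * c x)))
    (hi : ∫⁻ z in under C (fun x => 2 * c x), ENNReal.ofReal (g z) < ⊤) :
    Tr (k + 1) (under C c) g l :=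
  half_anti_of64 (fun φ h => decay φ h) IH hC hc hg hl hc0 hg0 hl1 hga hlm hi

end Pool.Agent.WSP
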