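import Pool.Agent.W_2cf66e_h23.DefsU

/-!
# MP_2cf66e_nt, THEOREM S+, leaf A5: uniform monotonicity theorem (helper57 for helper23)
-/

set_option autoImplicit false

noncomputable section

open MeasureTheory Set Filter Topology

namespace Pool.Agent.WSP

namespace LuA5

/-! ### One variable -/

/-- A function has no interval of strict local maxima. -/
theorem no_max {u : ℝ → ℝ} {a b : ℝ} (hab : a < b)
    (h : ∀ y ∈ Ioo a b, ∃ c : ℝ, 0 < c ∧ ∀ t : ℝ, t ≠ y → |t - y| < c → u t < u y) : False := by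
  have h1 : Ioo a b ⊆ ⋃ n : ℕ, {y : ℝ | ∀ t : ℝ, t ≠ y → |t - y| < 1 / ((n : ℝ) + 1) →
      u t < u y} := by
    intro y hy
    obtain ⟨c, hc, h2⟩ := h y hy
    obtain ⟨n, hn⟩ := exists_nat_one_div_lt hc
    exact mem_iUnion.2 ⟨n, fun t ht ht2 => h2 t ht (ht2.trans hn)⟩
  have h2 : (⋃ n : ℕ, {y : ℝ | ∀ t : ℝ, t ≠ y → |t - y| < 1 / ((n : ℝ) + 1) →
      u t < u y}).Countable := by
    refine countable_iUnion fun n => ?_
    refine countable_of_injective_of_countable_image (f := fun y : ℝ => ⌊y * ((n : ℝ) + 1)⌋) ?_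
      (to_countable _)
    intro y hy z hz hyz
    by_contra hne
    have h3 := Int.abs_sub_lt_one_of_floor_eq_floor hyz
    have hn : (0 : ℝ) < (n : ℝ) + 1 := by positivity
    rw [← sub_mul, abs_mul, abs_of_pos hn, ← lt_div_iff₀ hn] at h3
    have h4 := hz y hne h3
    rw [abs_sub_comm] at h3
    have h5 := hy z (fun h => hne h.symm) h3
    exact absurd h4 (not_lt.2 h5.le)
  have h3 : volume (Ioo a b) = 0 := (h2.mono h1).measure_zero _
  rw [Real.volume_Ioo, ENNReal.ofReal_eq_zero] at h3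
  linarith

/-- A locally monotone function is monotone. -/
theorem loc_mono {u : ℝ → ℝ} {a b : ℝ}
    (hl : ∀ y ∈ Ioo a b, ∃ c : ℝ, 0 < c ∧ ∀ t : ℝ, y - c < t → t < y → u t ≤ u y)
    (hr : ∀ y ∈ Ioo a b, ∃ c : ℝ, 0 < c ∧ ∀ t : ℝ, y < t → t < y + c → u y ≤ u t) :
    MonotoneOn u (Ioo a b) := by
  intro p hp q hq hpq
  set S : Set ℝ := {t | p ≤ t ∧ t ≤ q ∧ ∀ s, p ≤ s → s ≤ t → u p ≤ u s} with hS
  have hpS : p ∈ S := ⟨le_rfl, hpq, fun s h1 h2 => by rw [le_antisymm h1 h2]⟩
  have hbd : BddAbove S := ⟨q, fun t ht => ht.2.1⟩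
  set m := sSup S with hm
  have hpm : p ≤ m := le_csSup hbd hpS
  have hmq : m ≤ q := csSup_le ⟨p, hpS⟩ fun t ht => ht.2.1
  have hmI : m ∈ Ioo a b := ⟨hp.1.trans_le hpm, hmq.trans_lt hq.2⟩
  have hlt : ∀ s, p ≤ s → s < m → u p ≤ u s := by
    intro s h1 h2
    obtain ⟨t, ht, hst⟩ := exists_lt_of_lt_csSup ⟨p, hpS⟩ h2
    exact ht.2.2 s h1 hst.le
  have hum : u p ≤ u m := by
    rcases hpm.eq_or_lt with h1 | h1
    · rw [← h1]
    · obtain ⟨c, hc, h2⟩ := hl m hmI
      have h3 : max p (m - c) < m := max_lt h1 (by linarith)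
      obtain ⟨s, hs1, hs2⟩ := exists_between h3
      exact (hlt s ((le_max_left _ _).trans hs1.le) hs2).trans
        (h2 s ((le_max_right _ _).trans_lt hs1) hs2)
  rcases hmq.eq_or_lt with h1 | h1
  · rw [← h1]
    exact hum
  · exfalso
    obtain ⟨c, hc, h2⟩ := hr m hmI
    have h3 : m < min q (m + c) := lt_min h1 (by linarith)
    obtain ⟨t, ht1, ht2⟩ := exists_between h3
    have h4 : t ∈ S := by
      refine ⟨hpm.trans ht1.le, (ht2.trans_le (min_le_left _ _)).le, fun s h5 h6 => ?_⟩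
      rcases lt_trichotomy s m with h7 | h7 | h7
      · exact hlt s h5 h7
      · rw [h7]
        exact hum
      · exact hum.trans (h2 s h7 (h6.trans_lt (ht2.trans_le (min_le_right _ _))))
    have h5 := le_csSup hbd h4
    linarith

/-- Larger values to the right. -/
def Rl (u : ℝ → ℝ) (y : ℝ) : Prop := ∃ c : ℝ, 0 < c ∧ ∀ t : ℝ, y < t → t < y + c → u y < u t
/-- Smaller values to the right. -/
def Rg (u : ℝ → ℝ) (y : ℝ) : Prop := ∃ c : ℝ, 0 < c ∧ ∀ t : ℝ, y < t → t < y + c → u t < u y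
/-- Larger values to the left. -/
def Ll (u : ℝ → ℝ) (y : ℝ) : Prop := ∃ c : ℝ, 0 < c ∧ ∀ t : ℝ, y - c < t → t < y → u y < u t
/-- Smaller values to the left. -/
def Lg (u : ℝ → ℝ) (y : ℝ) : Prop := ∃ c : ℝ, 0 < c ∧ ∀ t : ℝ, y - c < t → t < y → u t < u y
/-- Equal values to the right. -/
def Re (u : ℝ → ℝ) (y : ℝ) : Prop := ∃ c : ℝ, 0 < c ∧ ∀ t : ℝ, y < t → t < y + c → u t = u y
/-- Equal values to the left. -/
def Le (u : ℝ → ℝ) (y : ℝ) : Prop := ∃ c : ℝ, 0 < c ∧ ∀ t : ℝ, y - c < t → t < y → u t = u y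

theorem one_var {u : ℝ → ℝ} {a b : ℝ} (hab : a < b) (hR : ∀ y, Rl u y ∨ Rg u y ∨ Re u y)
    (hL : ∀ y, Ll u y ∨ Lg u y ∨ Le u y)
    (c1 : ∀ y ∈ Ioo a b, ∀ z ∈ Ioo a b, Rl u y → Rl u z)
    (c2 : ∀ y ∈ Ioo a b, ∀ z ∈ Ioo a b, Rg u y → Rg u z)
    (c3 : ∀ y ∈ Ioo a b, ∀ z ∈ Ioo a b, Ll u y → Ll u z)
    (c4 : ∀ y ∈ Ioo a b, ∀ z ∈ Ioo a b, Lg u y → Lg u z) :
    MonotoneOn u (Ioo a b) ∨ AntitoneOn u (Ioo a b) := by
  obtain ⟨m, hm⟩ : (Ioo a b).Nonempty := nonempty_Ioo.2 hab
  -- if `Le` at `m` then `Re` at some point, and conversely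
  have k1 : Le u m → ∃ t ∈ Ioo a b, Re u t := by
    rintro ⟨c, hc, h1⟩
    have h2 : max a (m - c) < m := max_lt hm.1 (by linarith)
    obtain ⟨t, ht1, ht2⟩ := exists_between h2
    have ht3 : m - c < t := (le_max_right _ _).trans_lt ht1
    refine ⟨t, ⟨(le_max_left _ _).trans_lt ht1, ht2.trans hm.2⟩, m - t, by linarith,
      fun s hs1 hs2 => ?_⟩
    rw [h1 s (ht3.trans hs1) (by linarith), h1 t ht3 ht2]
  have k2 : Re u m → ∃ t ∈ Ioo a b, Le u t := by
    rintro ⟨c, hc, h1⟩
    have h2 : m < min b (m + c) := lt_min hm.2 (by linarith)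
    obtain ⟨t, ht1, ht2⟩ := exists_between h2
    have ht3 : t < m + c := ht2.trans_le (min_le_right _ _)
    refine ⟨t, ⟨hm.1.trans ht1, ht2.trans_le (min_le_left _ _)⟩, t - m, by linarith,
      fun s hs1 hs2 => ?_⟩
    rw [h1 s (by linarith) (hs2.trans ht3), h1 t ht1 ht3]
  have e1 : ∀ t, Re u t → ¬ Rl u t := by
    rintro t ⟨c, hc, h1⟩ ⟨d, hd, h2⟩
    obtain ⟨s, hs1, hs2⟩ := exists_between (show t < min (t + c) (t + d) from
      lt_min (by linarith) (by linarith))
    have h3 := h1 s hs1 (hs2.trans_le (min_le_left _ _))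
    have h4 := h2 s hs1 (hs2.trans_le (min_le_right _ _))
    linarith
  have e2 : ∀ t, Re u t → ¬ Rg u t := by
    rintro t ⟨c, hc, h1⟩ ⟨d, hd, h2⟩
    obtain ⟨s, hs1, hs2⟩ := exists_between (show t < min (t + c) (t + d) from
      lt_min (by linarith) (by linarith))
    have h3 := h1 s hs1 (hs2.trans_le (min_le_left _ _))
    have h4 := h2 s hs1 (hs2.trans_le (min_le_right _ _))
    linarith
  have e3 : ∀ t, Le u t → ¬ Ll u t := by
    rintro t ⟨c, hc, h1⟩ ⟨d, hd, h2⟩
    obtain ⟨s, hs1, hs2⟩ := exists_between (show max (t - c) (t - d) < t from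
      max_lt (by linarith) (by linarith))
    have h3 := h1 s ((le_max_left _ _).trans_lt hs1) hs2
    have h4 := h2 s ((le_max_right _ _).trans_lt hs1) hs2
    linarith
  have e4 : ∀ t, Le u t → ¬ Lg u t := by
    rintro t ⟨c, hc, h1⟩ ⟨d, hd, h2⟩
    obtain ⟨s, hs1, hs2⟩ := exists_between (show max (t - c) (t - d) < t from
      max_lt (by linarith) (by linarith))
    have h3 := h1 s ((le_max_left _ _).trans_lt hs1) hs2
    have h4 := h2 s ((le_max_right _ _).trans_lt hs1) hs2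
    linarith
  rcases hR m with hr | hr | hr
  · -- larger to the right
    have hr' : ∀ y ∈ Ioo a b, Rl u y := fun y hy => c1 m hm y hy hr
    rcases hL m with hl | hl | hl
    · -- strict local minima
      exfalso
      refine no_max (u := fun t => - u t) hab fun y hy => ?_
      obtain ⟨c, hc, h1⟩ := hr' y hy
      obtain ⟨d, hd, h2⟩ := c3 m hm y hy hl
      refine ⟨min c d, lt_min hc hd, fun t ht ht2 => neg_lt_neg ?_⟩
      rw [abs_lt] at ht2
      rcases lt_or_gt_of_ne ht with h3 | h3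
      · exact h2 t (by linarith [min_le_right c d]) h3
      · exact h1 t h3 (by linarith [min_le_left c d])
    · left
      refine loc_mono (fun y hy => ?_) fun y hy => ?_
      · obtain ⟨c, hc, h1⟩ := c4 m hm y hy hl
        exact ⟨c, hc, fun t h2 h3 => (h1 t h2 h3).le⟩
      · obtain ⟨c, hc, h1⟩ := hr' y hy
        exact ⟨c, hc, fun t h2 h3 => (h1 t h2 h3).le⟩
    · exfalso
      obtain ⟨t, ht, h1⟩ := k1 hl
      exact e1 t h1 (hr' t ht)
  · -- smaller to the right
    have hr' : ∀ y ∈ Ioo a b, Rg u y := fun y hy => c2 m hm y hy hr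
    rcases hL m with hl | hl | hl
    · right
      have h0 : MonotoneOn (fun t => - u t) (Ioo a b) := by
        refine loc_mono (fun y hy => ?_) fun y hy => ?_
        · obtain ⟨c, hc, h1⟩ := c3 m hm y hy hl
          exact ⟨c, hc, fun t h2 h3 => neg_le_neg (h1 t h2 h3).le⟩
        · obtain ⟨c, hc, h1⟩ := hr' y hy
          exact ⟨c, hc, fun t h2 h3 => neg_le_neg (h1 t h2 h3).le⟩
      exact fun p hp q hq hpq => neg_le_neg_iff.1 (h0 hp hq hpq)
    · exfalso
      refine no_max (u := u) hab fun y hy => ?_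
      obtain ⟨c, hc, h1⟩ := hr' y hy
      obtain ⟨d, hd, h2⟩ := c4 m hm y hy hl
      refine ⟨min c d, lt_min hc hd, fun t ht ht2 => ?_⟩
      rw [abs_lt] at ht2
      rcases lt_or_gt_of_ne ht with h3 | h3
      · exact h2 t (by linarith [min_le_right c d]) h3
      · exact h1 t h3 (by linarith [min_le_left c d])
    · exfalso
      obtain ⟨t, ht, h1⟩ := k1 hl
      exact e2 t h1 (hr' t ht)
  · -- equal to the right
    have hr' : ∀ y ∈ Ioo a b, Re u y := by
      intro y hy
      rcases hR y with h1 | h1 | h1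
      · exact absurd (c1 y hy m hm h1) (e1 m hr)
      · exact absurd (c2 y hy m hm h1) (e2 m hr)
      · exact h1
    rcases hL m with hl | hl | hl
    · exfalso
      obtain ⟨t, ht, h1⟩ := k2 hr
      exact e3 t h1 (c3 m hm t ht hl)
    · exfalso
      obtain ⟨t, ht, h1⟩ := k2 hr
      exact e4 t h1 (c4 m hm t ht hl)
    · left
      have hl' : ∀ y ∈ Ioo a b, Le u y := by
        intro y hy
        rcases hL y with h1 | h1 | h1
        · exact absurd (c3 y hy m hm h1) (e3 m hl)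
        · exact absurd (c4 y hy m hm h1) (e4 m hl)
        · exact h1
      refine loc_mono (fun y hy => ?_) fun y hy => ?_
      · obtain ⟨c, hc, h1⟩ := hl' y hy
        exact ⟨c, hc, fun t h2 h3 => (h1 t h2 h3).le⟩
      · obtain ⟨c, hc, h1⟩ := hr' y hy
        exact ⟨c, hc, fun t h2 h3 => (h1 t h2 h3).ge⟩

/-- A punctured neighbourhood free of a finite set. -/
theorem free_nhd (E : Finset ℝ) (y : ℝ) : ∃ c : ℝ, 0 < c ∧ ∀ z ∈ E, z ≠ y → c ≤ |z - y| := by
  classical
  induction E using Finset.induction_on with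
  | empty => exact ⟨1, one_pos, fun z hz => absurd hz (Finset.notMem_empty z)⟩
  | insert w E _ ih =>
    obtain ⟨c, hc, h⟩ := ih
    by_cases hw : w = y
    · refine ⟨c, hc, fun z hz hzy => ?_⟩
      rcases Finset.mem_insert.1 hz with h1 | h1
      · exact absurd (h1.trans hw) hzy
      · exact h z h1 hzy
    · have h2 : 0 < |w - y| := abs_pos.2 (sub_ne_zero.2 hw)
      refine ⟨min c |w - y|, lt_min hc h2, fun z hz hzy => ?_⟩
      rcases Finset.mem_insert.1 hz with h1 | h1
      · rw [h1]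
        exact min_le_right _ _
      · exact (min_le_left _ _).trans (h z h1 hzy)

theorem tri_right {u : ℝ → ℝ} {y : ℝ} (E : Finset ℝ)
    (h1 : ∀ s t : ℝ, s ≤ t → (∀ z ∈ E, z ∉ Icc s t) → (u y < u s ↔ u y < u t))
    (h2 : ∀ s t : ℝ, s ≤ t → (∀ z ∈ E, z ∉ Icc s t) → (u s < u y ↔ u t < u y)) :
    Rl u y ∨ Rg u y ∨ Re u y := by
  obtain ⟨c, hc, hE⟩ := free_nhd E y
  have h3 : ∀ s t : ℝ, y < s → s ≤ t → t < y + c → ∀ z ∈ E, z ∉ Icc s t := by
    intro s t hs _ ht z hz hz2
    have h4 := hE z hz (by have := hz2.1; intro h; linarith)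
    rw [abs_of_pos (by have := hz2.1; linarith)] at h4
    have := hz2.2
    linarith
  have k1 : ∀ s t : ℝ, y < s → s < y + c → y < t → t < y + c → (u y < u s → u y < u t) := by
    intro s t a1 a2 a3 a4
    rcases le_total s t with a5 | a5
    · exact (h1 s t a5 (h3 s t a1 a5 a4)).1
    · exact (h1 t s a5 (h3 t s a3 a5 a2)).2
  have k2 : ∀ s t : ℝ, y < s → s < y + c → y < t → t < y + c → (u s < u y → u t < u y) := by
    intro s t a1 a2 a3 a4
    rcases le_total s t with a5 | a5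
    · exact (h2 s t a5 (h3 s t a1 a5 a4)).1
    · exact (h2 t s a5 (h3 t s a3 a5 a2)).2
  have m1 : y < y + c / 2 := by linarith
  have m2 : y + c / 2 < y + c := by linarith
  rcases lt_trichotomy (u y) (u (y + c / 2)) with h5 | h5 | h5
  · exact Or.inl ⟨c, hc, fun t a1 a2 => k1 _ t m1 m2 a1 a2 h5⟩
  · refine Or.inr (Or.inr ⟨c, hc, fun t a1 a2 => ?_⟩)
    rcases lt_trichotomy (u t) (u y) with h6 | h6 | h6
    · exact absurd (k2 t _ a1 a2 m1 m2 h6) (by rw [h5]; exact lt_irrefl _)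
    · exact h6
    · exact absurd (k1 t _ a1 a2 m1 m2 h6) (by rw [h5]; exact lt_irrefl _)
  · exact Or.inr (Or.inl ⟨c, hc, fun t a1 a2 => k2 _ t m1 m2 a1 a2 h5⟩)

theorem tri_left {u : ℝ → ℝ} {y : ℝ} (E : Finset ℝ)
    (h1 : ∀ s t : ℝ, s ≤ t → (∀ z ∈ E, z ∉ Icc s t) → (u y < u s ↔ u y < u t))
    (h2 : ∀ s t : ℝ, s ≤ t → (∀ z ∈ E, z ∉ Icc s t) → (u s < u y ↔ u t < u y)) :
    Ll u y ∨ Lg u y ∨ Le u y := by
  obtain ⟨c, hc, hE⟩ := free_nhd E y
  have h3 : ∀ s t : ℝ, y - c < s → s ≤ t → t < y → ∀ z ∈ E, z ∉ Icc s t := by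
    intro s t hs _ ht z hz hz2
    have h4 := hE z hz (by have := hz2.2; intro h; linarith)
    rw [abs_of_neg (by have := hz2.2; linarith)] at h4
    have := hz2.1
    linarith
  have k1 : ∀ s t : ℝ, y - c < s → s < y → y - c < t → t < y → (u y < u s → u y < u t) := by
    intro s t a1 a2 a3 a4
    rcases le_total s t with a5 | a5
    · exact (h1 s t a5 (h3 s t a1 a5 a4)).1
    · exact (h1 t s a5 (h3 t s a3 a5 a2)).2
  have k2 : ∀ s t : ℝ, y - c < s → s < y → y - c < t → t < y → (u s < u y → u t < u y) := by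
    intro s t a1 a2 a3 a4
    rcases le_total s t with a5 | a5
    · exact (h2 s t a5 (h3 s t a1 a5 a4)).1
    · exact (h2 t s a5 (h3 t s a3 a5 a2)).2
  have m1 : y - c < y - c / 2 := by linarith
  have m2 : y - c / 2 < y := by linarith
  rcases lt_trichotomy (u y) (u (y - c / 2)) with h5 | h5 | h5
  · exact Or.inl ⟨c, hc, fun t a1 a2 => k1 _ t m1 m2 a1 a2 h5⟩
  · refine Or.inr (Or.inr ⟨c, hc, fun t a1 a2 => ?_⟩)
    rcases lt_trichotomy (u t) (u y) with h6 | h6 | h6
    · exact absurd (k2 t _ a1 a2 m1 m2 h6) (by rw [h5]; exact lt_irrefl _)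
    · exact h6
    · exact absurd (k1 t _ a1 a2 m1 m2 h6) (by rw [h5]; exact lt_irrefl _)
  · exact Or.inr (Or.inl ⟨c, hc, fun t a1 a2 => k2 _ t m1 m2 a1 a2 h5⟩)

/-! ### Definability -/

open U78

theorem df_lt {k : ℕ} {g : (Fin (k + 1) → ℝ) → ℝ} (hg : DF g) {κ : Type} [Countable κ] (i i' : κ)
    (f : Fin k → κ) : Df (fun v : κ → ℝ => g (Fin.cons (v i) fun j => v (f j)) <
      g (Fin.cons (v i') fun j => v (f j))) := by
  have hg' : Df (fun v : Option (Fin (k + 1)) → ℝ => v none = g (fun i => v (some i))) := hg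
  have h1 := hg'.comap (κ' := Option (Option κ)) (fun o => o.elim none
    (Fin.cons (some (some i)) fun j => some (some (f j))))
  have h2 := hg'.comap (κ' := Option (Option κ)) (fun o => o.elim (some none)
    (Fin.cons (some (some i')) fun j => some (some (f j))))
  have h3 : Df (fun v : Option (Option κ) → ℝ => v none < v (some none)) :=
    Df.lt (PolyFun.var _) (PolyFun.var _)
  refine ((h1.and (h2.and h3)).ex.ex).congr fun v => ?_
  have e : ∀ (p q : ℝ) (l : κ), (fun r : Fin (k + 1) => (fun o : Option (Option κ) =>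
      o.elim p (fun o' => o'.elim q v)) ((some r : Option (Fin (k + 1))).elim none
        (Fin.cons (some (some l)) fun j => some (some (f j))))) =
      (Fin.cons (v l) fun j => v (f j) : Fin (k + 1) → ℝ) := by
    intro p q l
    funext r
    refine Fin.cases ?_ (fun j => ?_) r
    · simp
    · simp
  have e' : ∀ (p q : ℝ) (l : κ), (fun r : Fin (k + 1) => (fun o : Option (Option κ) =>
      o.elim p (fun o' => o'.elim q v)) ((some r : Option (Fin (k + 1))).elim (some none)
        (Fin.cons (some (some l)) fun j => some (some (f j))))) =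
      (Fin.cons (v l) fun j => v (f j) : Fin (k + 1) → ℝ) := by
    intro p q l
    funext r
    refine Fin.cases ?_ (fun j => ?_) r
    · simp
    · simp
  constructor
  · rintro ⟨q, p, h4, h5, h6⟩
    rw [e] at h4
    rw [e'] at h5
    simp only [Option.elim_none, Option.elim_some] at h4 h5 h6
    rw [← h4, ← h5]
    exact h6
  · intro h
    refine ⟨g (Fin.cons (v i') fun j => v (f j)), g (Fin.cons (v i) fun j => v (f j)), ?_, ?_, ?_⟩
    · rw [e]
      simp only [Option.elim_none]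
    · rw [e']
      simp only [Option.elim_some, Option.elim_none]
    · simp only [Option.elim_none, Option.elim_some]
      exact h

/-- The section. -/
def us {k : ℕ} (g : (Fin (k + 1) → ℝ) → ℝ) (x : Fin k → ℝ) : ℝ → ℝ := fun y => g (Fin.cons y x)

theorem df_Rl {k : ℕ} {g : (Fin (k + 1) → ℝ) → ℝ} (hg : DF g) :
    Df (fun v : Option (Fin k) → ℝ => Rl (us g fun j => v (some j)) (v none)) := by
  have h1 := df_lt hg (κ := Option (Option (Option (Fin k)))) (some (some none)) none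
    (fun j => some (some (some j)))
  have h2 : Df (fun v : Option (Option (Option (Fin k))) → ℝ => v (some (some none)) < v none) :=
    Df.lt (PolyFun.var _) (PolyFun.var _)
  have h3 : Df (fun v : Option (Option (Option (Fin k))) → ℝ =>
      v none < v (some (some none)) + v (some none)) :=
    Df.lt (PolyFun.var _) ((PolyFun.var _).add (PolyFun.var _))
  have h4 : Df (fun v : Option (Option (Fin k)) → ℝ => 0 < v none) :=
    (Df.lt (PolyFun.const 0) (PolyFun.var none)).congr fun v => by simp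
  exact (h4.and (h2.imp (h3.imp h1)).all).ex

theorem df_Rg {k : ℕ} {g : (Fin (k + 1) → ℝ) → ℝ} (hg : DF g) :
    Df (fun v : Option (Fin k) → ℝ => Rg (us g fun j => v (some j)) (v none)) := by
  have h1 := df_lt hg (κ := Option (Option (Option (Fin k)))) none (some (some none))
    (fun j => some (some (some j)))
  have h2 : Df (fun v : Option (Option (Option (Fin k))) → ℝ => v (some (some none)) < v none) :=
    Df.lt (PolyFun.var _) (PolyFun.var _)
  have h3 : Df (fun v : Option (Option (Option (Fin k))) → ℝ =>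
      v none < v (some (some none)) + v (some none)) :=
    Df.lt (PolyFun.var _) ((PolyFun.var _).add (PolyFun.var _))
  have h4 : Df (fun v : Option (Option (Fin k)) → ℝ => 0 < v none) :=
    (Df.lt (PolyFun.const 0) (PolyFun.var none)).congr fun v => by simp
  exact (h4.and (h2.imp (h3.imp h1)).all).ex

theorem df_Ll {k : ℕ} {g : (Fin (k + 1) → ℝ) → ℝ} (hg : DF g) :
    Df (fun v : Option (Fin k) → ℝ => Ll (us g fun j => v (some j)) (v none)) := by
  have h1 := df_lt hg (κ := Option (Option (Option (Fin k)))) (some (some none)) none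
    (fun j => some (some (some j)))
  have h2 : Df (fun v : Option (Option (Option (Fin k))) → ℝ =>
      v (some (some none)) - v (some none) < v none) :=
    Df.lt ((PolyFun.var _).sub (PolyFun.var _)) (PolyFun.var _)
  have h3 : Df (fun v : Option (Option (Option (Fin k))) → ℝ => v none < v (some (some none))) :=
    Df.lt (PolyFun.var _) (PolyFun.var _)
  have h4 : Df (fun v : Option (Option (Fin k)) → ℝ => 0 < v none) :=
    (Df.lt (PolyFun.const 0) (PolyFun.var none)).congr fun v => by simp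
  exact (h4.and (h2.imp (h3.imp h1)).all).ex

theorem df_Lg {k : ℕ} {g : (Fin (k + 1) → ℝ) → ℝ} (hg : DF g) :
    Df (fun v : Option (Fin k) → ℝ => Lg (us g fun j => v (some j)) (v none)) := by
  have h1 := df_lt hg (κ := Option (Option (Option (Fin k)))) none (some (some none))
    (fun j => some (some (some j)))
  have h2 : Df (fun v : Option (Option (Option (Fin k))) → ℝ =>
      v (some (some none)) - v (some none) < v none) :=
    Df.lt ((PolyFun.var _).sub (PolyFun.var _)) (PolyFun.var _)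
  have h3 : Df (fun v : Option (Option (Option (Fin k))) → ℝ => v none < v (some (some none))) :=
    Df.lt (PolyFun.var _) (PolyFun.var _)
  have h4 : Df (fun v : Option (Option (Fin k)) → ℝ => 0 < v none) :=
    (Df.lt (PolyFun.const 0) (PolyFun.var none)).congr fun v => by simp
  exact (h4.and (h2.imp (h3.imp h1)).all).ex

/-- A property which is constant on closed intervals free of `E` is constant on open ones. -/
theorem const_on {P : ℝ → Prop} {E : Finset ℝ}
    (h : ∀ s t : ℝ, s ≤ t → (∀ z ∈ E, z ∉ Icc s t) → (P s ↔ P t)) {a b : ℝ}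
    (hE : ∀ z ∈ E, z ∉ Ioo a b) : ∀ y ∈ Ioo a b, ∀ z ∈ Ioo a b, P y → P z := by
  intro y hy z hz hp
  rcases le_total y z with h1 | h1
  · exact (h y z h1 fun w hw hw2 => hE w hw ⟨hy.1.trans_le hw2.1, hw2.2.trans_lt hz.2⟩).1 hp
  · exact (h z y h1 fun w hw hw2 => hE w hw ⟨hz.1.trans_le hw2.1, hw2.2.trans_lt hy.2⟩).2 hp

end LuA5

open LuA5 U78

/-- LEAF A5 -/
theorem mono_pieces {k : ℕ} (g : (Fin (k + 1) → ℝ) → ℝ) (hg : DF g) :
    ∃ M : ℕ, ∀ x : Fin k → ℝ, ∃ E : Finset ℝ, E.card ≤ M ∧ ∀ a b : ℝ, a < b →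
      (∀ z ∈ E, z ∉ Ioo a b) → MonotoneOn (fun y : ℝ => g (Fin.cons y x)) (Ioo a b) ∨
        AntitoneOn (fun y : ℝ => g (Fin.cons y x)) (Ioo a b) := by
  classical
  obtain ⟨M1, m1⟩ := (df_Rl hg).uf
  obtain ⟨M2, m2⟩ := (df_Rg hg).uf
  obtain ⟨M3, m3⟩ := (df_Ll hg).uf
  obtain ⟨M4, m4⟩ := (df_Lg hg).uf
  obtain ⟨N1, n1⟩ := (df_lt hg (κ := Option (Option (Fin k))) (some none) none
    (fun j => some (some j))).uf
  obtain ⟨N2, n2⟩ := (df_lt hg (κ := Option (Option (Fin k))) none (some none)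
    (fun j => some (some j))).uf
  refine ⟨M1 + M2 + M3 + M4, fun x => ?_⟩
  obtain ⟨E1, c1, h1⟩ := m1 x
  obtain ⟨E2, c2, h2⟩ := m2 x
  obtain ⟨E3, c3, h3⟩ := m3 x
  obtain ⟨E4, c4, h4⟩ := m4 x
  simp only [Option.elim_none, Option.elim_some] at h1 h2 h3 h4
  have tr : ∀ y : ℝ, ∃ E : Finset ℝ,
      (∀ s t : ℝ, s ≤ t → (∀ z ∈ E, z ∉ Icc s t) → (us g x y < us g x s ↔ us g x y < us g x t)) ∧
      (∀ s t : ℝ, s ≤ t → (∀ z ∈ E, z ∉ Icc s t) →
        (us g x s < us g x y ↔ us g x t < us g x y)) := by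
    intro y
    obtain ⟨F1, -, f1⟩ := n1 (fun o => o.elim y x)
    obtain ⟨F2, -, f2⟩ := n2 (fun o => o.elim y x)
    simp only [Option.elim_none, Option.elim_some] at f1 f2
    exact ⟨F1 ∪ F2, fun s t hst hz => f1 s t hst fun z hz2 => hz z (Finset.mem_union_left _ hz2),
      fun s t hst hz => f2 s t hst fun z hz2 => hz z (Finset.mem_union_right _ hz2)⟩
  have hR : ∀ y, Rl (us g x) y ∨ Rg (us g x) y ∨ Re (us g x) y := by
    intro y
    obtain ⟨E, a1, a2⟩ := tr y
    exact tri_right E a1 a2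
  have hL : ∀ y, Ll (us g x) y ∨ Lg (us g x) y ∨ Le (us g x) y := by
    intro y
    obtain ⟨E, a1, a2⟩ := tr y
    exact tri_left E a1 a2
  refine ⟨E1 ∪ E2 ∪ E3 ∪ E4, ?_, fun a b hab hE => ?_⟩
  · calc (E1 ∪ E2 ∪ E3 ∪ E4).card ≤ (E1 ∪ E2 ∪ E3).card + E4.card := Finset.card_union_le _ _
      _ ≤ (E1 ∪ E2).card + E3.card + E4.card := by
        have := Finset.card_union_le (E1 ∪ E2) E3
        omega
      _ ≤ M1 + M2 + M3 + M4 := by
        have := Finset.card_union_le E1 E2
        omega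
  · refine one_var hab hR hL (const_on h1 fun z hz => hE z ?_) (const_on h2 fun z hz => hE z ?_)
      (const_on h3 fun z hz => hE z ?_) (const_on h4 fun z hz => hE z ?_)
    all_goals simp only [Finset.mem_union]; tauto

end Pool.Agent.WSP
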