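import Pool.Agent.W_2cf66e_h23.LuA6d
import Pool.Agent.W_2cf66e_h23.LuA5

/-! MP_2cf66e_nt, THEOREM S+, leaf A6: cells (helper83). -/

set_option autoImplicit false

noncomputable section

open MeasureTheory Set Filter Topology

namespace Pool.Agent.WSP

/-- a locally monotone function on an open interval is monotone -/
theorem mono_fib83 {S : Set ℝ} (hS : IsOpen S) (hc : OrdConnected S) {u : ℝ → ℝ}
    (h : ∀ y ∈ S, ∃ ε : ℝ, 0 < ε ∧ ∀ a b : ℝ, y - ε < a → a ≤ b → b < y + ε → u a ≤ u b) :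
    MonotoneOn u S := by
  intro p hp q hq hpq
  obtain ⟨δ, hδ, h1⟩ := Metric.isOpen_iff.1 hS p hp
  obtain ⟨δ', hδ', h2⟩ := Metric.isOpen_iff.1 hS q hq
  rw [Real.ball_eq_Ioo] at h1 h2
  have h3 : p - δ / 2 ∈ S := h1 ⟨by linarith, by linarith⟩
  have h4 : q + δ' / 2 ∈ S := h2 ⟨by linarith, by linarith⟩
  have h5 : Ioo (p - δ / 2) (q + δ' / 2) ⊆ S := fun y hy => hc.out h3 h4 ⟨hy.1.le, hy.2.le⟩
  have h6 : MonotoneOn u (Ioo (p - δ / 2) (q + δ' / 2)) := by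
    refine LuA5.loc_mono (fun y hy => ?_) (fun y hy => ?_)
    · obtain ⟨ε, hε, h7⟩ := h y (h5 hy)
      exact ⟨ε, hε, fun t ht1 ht2 => h7 t y ht1 ht2.le (by linarith)⟩
    · obtain ⟨ε, hε, h7⟩ := h y (h5 hy)
      exact ⟨ε, hε, fun t ht1 ht2 => h7 y t (by linarith) ht1.le ht2⟩
  exact h6 ⟨by linarith, by linarith⟩ ⟨by linarith, by linarith⟩ hpq

/-- the order of a type -/
def rel83 (σ : Bool) (a b : ℝ) : Prop := (σ = true ∧ a ≤ b) ∨ (σ = false ∧ b ≤ a)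

theorem DF_le83 {κ : Type} [Countable κ] {f g : (κ → ℝ) → ℝ} (hf : DF f) (hg : DF g) :
    U78.Df (fun v => f v ≤ g v) := by
  have h1 := hf.comap (κ' := Option (Option κ)) (fun o => o.elim none (fun i => some (some i)))
  have h2 := hg.comap (κ' := Option (Option κ)) (fun o => o.elim (some none) (fun i => some (some i)))
  have h3 : U78.Df (fun v : Option (Option κ) → ℝ => v none ≤ v (some none)) :=
    U78.Df.le (U78.PolyFun.var _) (U78.PolyFun.var _)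
  refine (h1.and (h2.and h3)).ex.ex.congr fun v => ?_
  simp only [Option.elim_none, Option.elim_some]
  constructor
  · rintro ⟨a, b, h4, h5, h6⟩
    rw [h4, h5] at h6
    exact h6
  · intro h4
    exact ⟨_, _, rfl, rfl, h4⟩

theorem Df_rel83 {κ : Type} [Countable κ] (σ : Bool) {f g : (κ → ℝ) → ℝ} (hf : DF f) (hg : DF g) :
    U78.Df (fun v => rel83 σ (f v) (g v)) :=
  ((U78.Df.const (σ = true)).and (DF_le83 hf hg)).or
    ((U78.Df.const (σ = false)).and (DF_le83 hg hf))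

/-- the points near which everything is in `C`, `g` has the type `σ`, `l` the type `τ` -/
def V83 {k : ℕ} (C : Set (Fin (k + 1) → ℝ)) (g l : (Fin (k + 1) → ℝ) → ℝ) (σ τ : Bool) :
    Set (Fin (k + 1) → ℝ) :=
  {z | ∃ ε : ℝ, 0 < ε ∧ ∀ u u' : ℝ, (z 0 - ε < u ∧ u ≤ u' ∧ u' < z 0 + ε) →
    ((Fin.cons u (tl z) : Fin (k + 1) → ℝ) ∈ C ∧
      rel83 σ (g (Fin.cons u (tl z))) (g (Fin.cons u' (tl z))) ∧
      rel83 τ (l (Fin.cons u (tl z))) (l (Fin.cons u' (tl z))))}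

theorem DF_ren83 {κ κ' : Type} [Countable κ'] {f : (κ → ℝ) → ℝ} (hf : DF f) (ρ : κ → κ') :
    DF (fun v : κ' → ℝ => f (fun i => v (ρ i))) :=
  hf.comap (κ' := Option κ') (fun o => o.elim none (fun i => some (ρ i)))

theorem DS_V83 {k : ℕ} {C : Set (Fin (k + 1) → ℝ)} {g l : (Fin (k + 1) → ℝ) → ℝ} (hC : DS C)
    (hg : DF g) (hl : DF l) (σ τ : Bool) : DS (V83 C g l σ τ) := by
  -- `none = u'`, `some none = u`, `some (some none) = ε`
  set ρ1 : Fin (k + 1) → Option (Option (Option (Fin (k + 1)))) :=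
    Fin.cons (some none) (fun i => some (some (some i.succ))) with hρ1
  set ρ2 : Fin (k + 1) → Option (Option (Option (Fin (k + 1)))) :=
    Fin.cons none (fun i => some (some (some i.succ))) with hρ2
  have e1 : ∀ v : Option (Option (Option (Fin (k + 1)))) → ℝ, (fun i => v (ρ1 i)) =
      (Fin.cons (v (some none)) (fun i => v (some (some (some i.succ)))) : Fin (k + 1) → ℝ) := by
    intro v
    funext i
    refine Fin.cases ?_ (fun i => ?_) i <;> simp [hρ1]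
  have e2 : ∀ v : Option (Option (Option (Fin (k + 1)))) → ℝ, (fun i => v (ρ2 i)) =
      (Fin.cons (v none) (fun i => v (some (some (some i.succ)))) : Fin (k + 1) → ℝ) := by
    intro v
    funext i
    refine Fin.cases ?_ (fun i => ?_) i <;> simp [hρ2]
  have h1 : U78.Df (fun v : Option (Option (Option (Fin (k + 1)))) → ℝ =>
      (Fin.cons (v (some none)) (fun i => v (some (some (some i.succ)))) : Fin (k + 1) → ℝ) ∈ C) :=
    (U78.Df.comap (κ' := Option (Option (Option (Fin (k + 1))))) hC ρ1).congr fun v => by rw [e1]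
  have h2 : U78.Df (fun v : Option (Option (Option (Fin (k + 1)))) → ℝ => rel83 σ
      (g (Fin.cons (v (some none)) (fun i => v (some (some (some i.succ)))) : Fin (k + 1) → ℝ))
      (g (Fin.cons (v none) (fun i => v (some (some (some i.succ)))) : Fin (k + 1) → ℝ))) :=
    (Df_rel83 σ (DF_ren83 hg ρ1) (DF_ren83 hg ρ2)).congr fun v => by rw [e1, e2]
  have h3 : U78.Df (fun v : Option (Option (Option (Fin (k + 1)))) → ℝ => rel83 τ
      (l (Fin.cons (v (some none)) (fun i => v (some (some (some i.succ)))) : Fin (k + 1) → ℝ))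
      (l (Fin.cons (v none) (fun i => v (some (some (some i.succ)))) : Fin (k + 1) → ℝ))) :=
    (Df_rel83 τ (DF_ren83 hl ρ1) (DF_ren83 hl ρ2)).congr fun v => by rw [e1, e2]
  have h4 : U78.Df (fun v : Option (Option (Option (Fin (k + 1)))) → ℝ =>
      v (some (some (some 0))) - v (some (some none)) < v (some none)) :=
    U78.Df.lt ((U78.PolyFun.var _).sub (U78.PolyFun.var _)) (U78.PolyFun.var _)
  have h5 : U78.Df (fun v : Option (Option (Option (Fin (k + 1)))) → ℝ => v (some none) ≤ v none) :=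
    U78.Df.le (U78.PolyFun.var _) (U78.PolyFun.var _)
  have h6 : U78.Df (fun v : Option (Option (Option (Fin (k + 1)))) → ℝ =>
      v none < v (some (some (some 0))) + v (some (some none))) :=
    U78.Df.lt (U78.PolyFun.var _) ((U78.PolyFun.var _).add (U78.PolyFun.var _))
  have h7 : U78.Df (fun v : Option (Fin (k + 1)) → ℝ => ((0 : ℤ) : ℝ) < v none) :=
    U78.Df.lt (U78.PolyFun.const 0) (U78.PolyFun.var _)
  have h8 := ((h4.and (h5.and h6)).imp (h1.and (h2.and h3))).all.all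
  refine (h7.and h8).ex.congr fun z => ?_
  simp only [Option.elim_none, Option.elim_some, Int.cast_zero]
  rfl

theorem V83_open {k : ℕ} (C : Set (Fin (k + 1) → ℝ)) (g l : (Fin (k + 1) → ℝ) → ℝ) (σ τ : Bool)
    (x : Fin k → ℝ) : IsOpen (fib (V83 C g l σ τ) x) := by
  rw [Metric.isOpen_iff]
  rintro y ⟨ε, hε, h⟩
  simp only [Fin.cons_zero] at h
  refine ⟨ε / 2, by positivity, fun u hu => ?_⟩
  rw [Real.ball_eq_Ioo] at hu
  refine ⟨ε / 2, by positivity, fun w w' hw => ?_⟩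
  simp only [Fin.cons_zero] at hw
  exact h w w' ⟨by linarith [hw.1, hu.1], hw.2.1, by linarith [hw.2.2, hu.2]⟩

theorem tl_cons83 {k : ℕ} (y : ℝ) (x : Fin k → ℝ) : tl (Fin.cons y x : Fin (k + 1) → ℝ) = x := by
  funext i
  simp [tl]

/-- the fibers of `V83` -/
theorem mem_V83 {k : ℕ} {C : Set (Fin (k + 1) → ℝ)} {g l : (Fin (k + 1) → ℝ) → ℝ} {σ τ : Bool}
    {x : Fin k → ℝ} {y : ℝ} : y ∈ fib (V83 C g l σ τ) x ↔
    ∃ ε : ℝ, 0 < ε ∧ ∀ u u' : ℝ, (y - ε < u ∧ u ≤ u' ∧ u' < y + ε) →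
      ((Fin.cons u x : Fin (k + 1) → ℝ) ∈ C ∧
        rel83 σ (g (Fin.cons u x)) (g (Fin.cons u' x)) ∧
        rel83 τ (l (Fin.cons u x)) (l (Fin.cons u' x))) := by
  show (∃ ε : ℝ, 0 < ε ∧ ∀ u u' : ℝ, ((Fin.cons y x : Fin (k + 1) → ℝ) 0 - ε < u ∧ u ≤ u' ∧
    u' < (Fin.cons y x : Fin (k + 1) → ℝ) 0 + ε) → _) ↔ _
  rw [tl_cons83, Fin.cons_zero]

theorem V83_null {k : ℕ} {C : Set (Fin (k + 1) → ℝ)} {g l : (Fin (k + 1) → ℝ) → ℝ} (hC : DS C)
    (hg : DF g) (hl : DF l) :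
    volume (C \ ⋃ p : Bool × Bool, V83 C g l p.1 p.2) = 0 := by
  obtain ⟨Mg, hMg⟩ := mono_pieces g hg
  obtain ⟨Ml, hMl⟩ := mono_pieces l hl
  obtain ⟨MC, hMC⟩ := (DS_fib64 hC).uf
  have hm : MeasurableSet (C \ ⋃ p : Bool × Bool, V83 C g l p.1 p.2) :=
    hC.meas.diff (MeasurableSet.iUnion fun p => (DS_V83 hC hg hl p.1 p.2).meas)
  refine null_fib83 hm fun x => ?_
  classical
  obtain ⟨Eg, -, hEg⟩ := hMg x
  obtain ⟨El, -, hEl⟩ := hMl x
  obtain ⟨EC, -, hEC⟩ := hMC x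
  refine measure_mono_null (t := ((Eg ∪ (El ∪ EC) : Finset ℝ) : Set ℝ)) ?_
    ((Eg ∪ (El ∪ EC)).finite_toSet.measure_zero _)
  rintro y ⟨h1, h2⟩
  by_contra hcon
  have h3 : IsOpen (((Eg ∪ (El ∪ EC) : Finset ℝ) : Set ℝ)ᶜ) :=
    (Eg ∪ (El ∪ EC)).finite_toSet.isClosed.isOpen_compl
  obtain ⟨ε, hε, h4⟩ := Metric.isOpen_iff.1 h3 y hcon
  rw [Real.ball_eq_Ioo] at h4
  have h5 : ∀ z ∈ Ioo (y - ε) (y + ε), z ∉ Eg ∧ z ∉ El ∧ z ∉ EC := by
    intro z hz
    have h6 := h4 hz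
    simp only [Finset.coe_union, Set.mem_compl_iff, Set.mem_union, Finset.mem_coe, not_or] at h6
    exact h6
  have hlt : y - ε < y + ε := by linarith
  have hgm := hEg (y - ε) (y + ε) hlt fun z hz hz2 => (h5 z hz2).1 hz
  have hlm := hEl (y - ε) (y + ε) hlt fun z hz hz2 => (h5 z hz2).2.1 hz
  have hCm : ∀ u : ℝ, y - ε < u → u < y + ε → (Fin.cons u x : Fin (k + 1) → ℝ) ∈ C := by
    intro u hu1 hu2
    have h1' : (Fin.cons y x : Fin (k + 1) → ℝ) ∈ C := h1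
    rcases le_total u y with h | h
    · exact (hEC u y h fun z hz hz2 =>
        (h5 z ⟨lt_of_lt_of_le hu1 hz2.1, by linarith [hz2.2]⟩).2.2 hz).2 h1'
    · exact (hEC y u h fun z hz hz2 =>
        (h5 z ⟨by linarith [hz2.1], lt_of_le_of_lt hz2.2 hu2⟩).2.2 hz).1 h1'
  have key : ∀ f : (Fin (k + 1) → ℝ) → ℝ, (MonotoneOn (fun y : ℝ => f (Fin.cons y x))
      (Ioo (y - ε) (y + ε)) ∨ AntitoneOn (fun y : ℝ => f (Fin.cons y x)) (Ioo (y - ε) (y + ε))) →
      ∃ σ : Bool, ∀ u u' : ℝ, (y - ε < u ∧ u ≤ u' ∧ u' < y + ε) →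
        rel83 σ (f (Fin.cons u x)) (f (Fin.cons u' x)) := by
    rintro f (hf | hf)
    · exact ⟨true, fun u u' hu => Or.inl ⟨rfl, hf ⟨hu.1, by linarith⟩ ⟨by linarith, hu.2.2⟩ hu.2.1⟩⟩
    · exact ⟨false, fun u u' hu => Or.inr ⟨rfl, hf ⟨hu.1, by linarith⟩ ⟨by linarith, hu.2.2⟩ hu.2.1⟩⟩
  obtain ⟨σ, hσ⟩ := key g hgm
  obtain ⟨τ, hτ⟩ := key l hlm
  refine h2 (Set.mem_iUnion.2 ⟨(σ, τ), ?_⟩)
  show y ∈ fib (V83 C g l σ τ) x
  rw [mem_V83]
  exact ⟨ε, hε, fun u u' hu => ⟨hCm u hu.1 (by linarith [hu.2.1, hu.2.2]), hσ u u' hu, hτ u u' hu⟩⟩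

/-- the type of a function on a cell -/
theorem type83 {k : ℕ} {D : Set (Fin (k + 1) → ℝ)} {f : (Fin (k + 1) → ℝ) → ℝ} {σ : Bool}
    (ho : ∀ x, IsOpen (fib D x) ∧ OrdConnected (fib D x))
    (h : ∀ (x : Fin k → ℝ), ∀ y ∈ fib D x, ∃ ε : ℝ, 0 < ε ∧ ∀ u u' : ℝ,
      (y - ε < u ∧ u ≤ u' ∧ u' < y + ε) → rel83 σ (f (Fin.cons u x)) (f (Fin.cons u' x))) :
    (∀ x : Fin k → ℝ, MonotoneOn (fun y : ℝ => f (Fin.cons y x)) (fib D x)) ∨
      ∀ x : Fin k → ℝ, AntitoneOn (fun y : ℝ => f (Fin.cons y x)) (fib D x) := by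
  cases σ with
  | true =>
    left
    intro x
    refine mono_fib83 (ho x).1 (ho x).2 fun y hy => ?_
    obtain ⟨ε, hε, h1⟩ := h x y hy
    refine ⟨ε, hε, fun a b ha hab hb => ?_⟩
    rcases h1 a b ⟨ha, hab, hb⟩ with h2 | h2
    · exact h2.2
    · exact absurd h2.1 (by simp)
  | false =>
    right
    intro x
    have h3 : MonotoneOn (fun y : ℝ => - f (Fin.cons y x)) (fib D x) := by
      refine mono_fib83 (ho x).1 (ho x).2 fun y hy => ?_
      obtain ⟨ε, hε, h1⟩ := h x y hy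
      refine ⟨ε, hε, fun a b ha hab hb => ?_⟩
      rcases h1 a b ⟨ha, hab, hb⟩ with h2 | h2
      · exact absurd h2.1 (by simp)
      · exact neg_le_neg h2.2
    intro a ha b hb hab
    exact neg_le_neg_iff.1 (h3 ha hb hab)

theorem cells {k : ℕ} (C : Set (Fin (k + 1) → ℝ)) (hC : DS C) (g l : (Fin (k + 1) → ℝ) → ℝ)
    (hg : DF g) (hl : DF l) : ∃ (I : ℕ) (D : Fin I → Set (Fin (k + 1) → ℝ)),
      (∀ i, DS (D i) ∧ D i ⊆ C ∧
        (∀ x : Fin k → ℝ, IsOpen (fib (D i) x) ∧ OrdConnected (fib (D i) x) ∧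
          (MonotoneOn (fun y : ℝ => l (Fin.cons y x)) (fib (D i) x) ∨
            AntitoneOn (fun y : ℝ => l (Fin.cons y x)) (fib (D i) x))) ∧
        ((∀ x : Fin k → ℝ, MonotoneOn (fun y : ℝ => g (Fin.cons y x)) (fib (D i) x)) ∨
          ∀ x : Fin k → ℝ, AntitoneOn (fun y : ℝ => g (Fin.cons y x)) (fib (D i) x))) ∧
      (Pairwise fun i j => Disjoint (D i) (D j)) ∧ volume (C \ ⋃ i, D i) = 0 := by
  classical
  set e := Fintype.equivFin (Bool × Bool) with he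
  obtain ⟨W, hW, hWd, hW0⟩ := disj83 (fun i => V83 C g l (e.symm i).1 (e.symm i).2)
    (fun i => DS_V83 hC hg hl _ _) (fun i x => V83_open C g l _ _ x)
  choose I D hD hDd hDu using fun i => comps83 (W i) (hW i).1 (hW i).2.2
  have hsub : ∀ i j, D i j ⊆ V83 C g l (e.symm i).1 (e.symm i).2 := fun i j =>
    (hD i j).2.1.trans (hW i).2.1
  refine ⟨∑ i, I i, fun a => D (finSigmaFinEquiv.symm a).1 (finSigmaFinEquiv.symm a).2, ?_, ?_, ?_⟩
  · intro a
    set i := (finSigmaFinEquiv.symm a).1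
    set j := (finSigmaFinEquiv.symm a).2
    have hV : ∀ (x : Fin k → ℝ), ∀ y ∈ fib (D i j) x,
        y ∈ fib (V83 C g l (e.symm i).1 (e.symm i).2) x := fun x y hy => hsub i j hy
    have h1 := type83 (σ := (e.symm i).1) (f := g) (hD i j).2.2 fun x y hy => by
      obtain ⟨ε, hε, h2⟩ := mem_V83.1 (hV x y hy)
      exact ⟨ε, hε, fun u u' hu => (h2 u u' hu).2.1⟩
    have h2 := type83 (σ := (e.symm i).2) (f := l) (hD i j).2.2 fun x y hy => by
      obtain ⟨ε, hε, h2⟩ := mem_V83.1 (hV x y hy)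
      exact ⟨ε, hε, fun u u' hu => (h2 u u' hu).2.2⟩
    refine ⟨(hD i j).1, ?_, fun x => ⟨((hD i j).2.2 x).1, ((hD i j).2.2 x).2, ?_⟩, h1⟩
    · intro z hz
      obtain ⟨ε, hε, h3⟩ := hsub i j hz
      have h4 := (h3 (z 0) (z 0) ⟨by linarith, le_rfl, by linarith⟩).1
      exact (mem_fib_tl83 C z).1 h4
    · rcases h2 with h2 | h2
      · exact Or.inl (h2 x)
      · exact Or.inr (h2 x)
  · intro a b hab
    have hab' : finSigmaFinEquiv.symm a ≠ finSigmaFinEquiv.symm b := fun h =>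
      hab (finSigmaFinEquiv.symm.injective h)
    show Disjoint (D (finSigmaFinEquiv.symm a).1 (finSigmaFinEquiv.symm a).2)
      (D (finSigmaFinEquiv.symm b).1 (finSigmaFinEquiv.symm b).2)
    generalize finSigmaFinEquiv.symm a = p at hab' ⊢
    generalize finSigmaFinEquiv.symm b = q at hab' ⊢
    obtain ⟨i, j⟩ := p
    obtain ⟨i', j'⟩ := q
    by_cases h : i = i'
    · subst h
      have hjj : j ≠ j' := fun h => hab' (congrArg (Sigma.mk i) h)
      exact hDd i hjj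
    · exact (hWd h).mono (hD i j).2.1 (hD i' j').2.1
  · refine measure_mono_null (t := (C \ ⋃ p : Bool × Bool, V83 C g l p.1 p.2) ∪
      ((⋃ i, V83 C g l (e.symm i).1 (e.symm i).2) \ ⋃ i, W i)) ?_
      (measure_union_null (V83_null hC hg hl) hW0)
    rintro z ⟨h1, h2⟩
    by_cases h3 : z ∈ ⋃ p : Bool × Bool, V83 C g l p.1 p.2
    · right
      obtain ⟨p, hp⟩ := Set.mem_iUnion.1 h3
      refine ⟨Set.mem_iUnion.2 ⟨e p, by simpa using hp⟩, fun h4 => h2 ?_⟩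
      obtain ⟨i, hi⟩ := Set.mem_iUnion.1 h4
      rw [← hDu i] at hi
      obtain ⟨j, hj⟩ := Set.mem_iUnion.1 hi
      refine Set.mem_iUnion.2 ⟨finSigmaFinEquiv ⟨i, j⟩, ?_⟩
      rw [Equiv.symm_apply_apply]
      exact hj
    · exact Or.inl ⟨h1, h3⟩

end Pool.Agent.WSP
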