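import Pool.Agent.W_2cf66e_h23.LuA1
import Pool.Agent.W_2cf66e_h23.LuA2

/-!
# MP_2cf66e_nt: changes of the first coordinate (helper14)
-/

set_option autoImplicit false

noncomputable section

open MeasureTheory Set Filter Topology

namespace Pool.Agent.WSP

theorem fub14 {k : ℕ} {F : (Fin (k + 1) → ℝ) → ENNReal} (hF : Measurable F) :
    ∫⁻ z, F z = ∫⁻ x : Fin k → ℝ, ∫⁻ y : ℝ, F (Fin.cons y x) := by
  have h1 := (volume_preserving_piFinSuccAbove (fun _ : Fin (k + 1) => ℝ) 0).symm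
  have h2 := h1.lintegral_comp hF
  rw [← h2, Measure.volume_eq_prod, lintegral_prod_symm]
  · refine lintegral_congr fun x => lintegral_congr fun y => ?_
    congr 1
    exact Fin.insertNth_zero' y x
  · exact (hF.comp h1.measurable).aemeasurable

theorem tl_cons14 {k : ℕ} (y : ℝ) (x : Fin k → ℝ) : tl (Fin.cons y x : Fin (k + 1) → ℝ) = x := by
  funext j
  simp [tl]

theorem meas_tl14 {k : ℕ} : Measurable (tl : (Fin (k + 1) → ℝ) → Fin k → ℝ) :=
  measurable_pi_lambda _ fun _ => measurable_pi_apply _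

theorem meas_cons14 {k : ℕ} {φ : (Fin (k + 1) → ℝ) → ℝ} (hφ : Measurable φ) :
    Measurable fun z : Fin (k + 1) → ℝ => (Fin.cons (φ z) (tl z) : Fin (k + 1) → ℝ) := by
  refine measurable_pi_lambda _ fun j => ?_
  refine Fin.cases ?_ (fun i => ?_) j
  · simpa using hφ
  · simpa [tl] using measurable_pi_apply (X := fun _ : Fin (k + 1) => ℝ) i.succ

/-- The shear formula. -/
theorem lint_shear {k : ℕ} {H : Set (Fin (k + 1) → ℝ)} (hH : MeasurableSet H)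
    {e : (Fin k → ℝ) → ℝ} (he : Measurable e) (a : ℤ) (ha : a = 1 ∨ a = -1)
    {f : (Fin (k + 1) → ℝ) → ENNReal} (hf : Measurable f) :
    ∫⁻ z in H, f z = ∫⁻ z in {z : Fin (k + 1) → ℝ |
      (Fin.cons (e (tl z) + a * z 0) (tl z) : Fin (k + 1) → ℝ) ∈ H},
      f (Fin.cons (e (tl z) + a * z 0) (tl z)) := by
  have hT : Measurable fun z : Fin (k + 1) → ℝ =>
      (Fin.cons (e (tl z) + a * z 0) (tl z) : Fin (k + 1) → ℝ) :=
    meas_cons14 ((he.comp meas_tl14).add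
      ((measurable_pi_apply (X := fun _ : Fin (k + 1) => ℝ) 0).const_mul (a : ℝ)))
  have hF : Measurable (H.indicator f) := hf.indicator hH
  have hS : MeasurableSet {z : Fin (k + 1) → ℝ |
      (Fin.cons (e (tl z) + a * z 0) (tl z) : Fin (k + 1) → ℝ) ∈ H} := hT hH
  have hFT : Measurable fun z : Fin (k + 1) → ℝ =>
      H.indicator f (Fin.cons (e (tl z) + a * z 0) (tl z)) := hF.comp hT
  rw [← lintegral_indicator hH, ← lintegral_indicator hS]
  have e1 : (fun z : Fin (k + 1) → ℝ => ({z : Fin (k + 1) → ℝ |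
      (Fin.cons (e (tl z) + a * z 0) (tl z) : Fin (k + 1) → ℝ) ∈ H}).indicator
      (fun z => f (Fin.cons (e (tl z) + a * z 0) (tl z))) z) =
      fun z => H.indicator f (Fin.cons (e (tl z) + a * z 0) (tl z)) := by
    funext z
    by_cases h : (Fin.cons (e (tl z) + a * z 0) (tl z) : Fin (k + 1) → ℝ) ∈ H
    · rw [Set.indicator_of_mem h, Set.indicator_of_mem (by exact h)]
    · rw [Set.indicator_of_notMem h, Set.indicator_of_notMem (by exact h)]
  rw [show (∫⁻ z : Fin (k + 1) → ℝ, ({z : Fin (k + 1) → ℝ |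
      (Fin.cons (e (tl z) + a * z 0) (tl z) : Fin (k + 1) → ℝ) ∈ H}).indicator
      (fun z => f (Fin.cons (e (tl z) + a * z 0) (tl z))) z) =
      ∫⁻ z : Fin (k + 1) → ℝ, H.indicator f (Fin.cons (e (tl z) + a * z 0) (tl z)) from
      congrArg _ e1, fub14 hF, fub14 hFT]
  refine lintegral_congr fun x => ?_
  simp only [tl_cons14, Fin.cons_zero]
  rcases ha with rfl | rfl
  · have := lintegral_add_left_eq_self (μ := (volume : Measure ℝ))
      (fun y => H.indicator f (Fin.cons y x)) (e x)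
    rw [← this]
    refine lintegral_congr fun y => ?_
    simp
  · have := lintegral_sub_left_eq_self (μ := (volume : Measure ℝ))
      (fun y => H.indicator f (Fin.cons y x)) (e x)
    rw [← this]
    refine lintegral_congr fun y => ?_
    congr 2
    push_cast
    ring

theorem inv_line14 {G : ℝ → ENNReal} : ∫⁻ y : ℝ, G y =
    ∫⁻ y in {y : ℝ | y ≠ 0}, G y⁻¹ * ENNReal.ofReal ((y ^ 2)⁻¹) := by
  have h0 : (volume : Measure ℝ).restrict {y : ℝ | y ≠ 0} = volume := by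
    refine Measure.restrict_eq_self_of_ae_mem ?_
    have : ({0} : Set ℝ)ᶜ ∈ ae (volume : Measure ℝ) := compl_mem_ae_iff.mpr (measure_singleton 0)
    filter_upwards [this] with y hy
    exact hy
  have him : (fun y : ℝ => y⁻¹) '' {y : ℝ | y ≠ 0} = {y : ℝ | y ≠ 0} := by
    ext y
    constructor
    · rintro ⟨t, ht, rfl⟩
      exact inv_ne_zero ht
    · intro hy
      exact ⟨y⁻¹, inv_ne_zero hy, inv_inv y⟩
  have hms : MeasurableSet {y : ℝ | y ≠ 0} := (measurableSet_singleton (0 : ℝ)).compl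
  have h1 := lintegral_image_eq_lintegral_abs_deriv_mul hms
    (f := fun y : ℝ => y⁻¹) (f' := fun y => -(y ^ 2)⁻¹)
    (fun y hy => (hasDerivAt_inv hy).hasDerivWithinAt) (inv_injective.injOn) G
  rw [him, h0] at h1
  rw [h1]
  conv_rhs => rw [h0]
  refine lintegral_congr fun y => ?_
  rw [abs_neg, abs_of_nonneg (by positivity), mul_comm]

/-- The inversion formula. -/
theorem lint_inversion {k : ℕ} {H : Set (Fin (k + 1) → ℝ)} (hH : MeasurableSet H)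
    (_h1 : ∀ z ∈ H, 1 < |z 0|) {f : (Fin (k + 1) → ℝ) → ENNReal} (hf : Measurable f) :
    ∫⁻ z in H, f z = ∫⁻ z in {z : Fin (k + 1) → ℝ | z 0 ≠ 0 ∧
      (Fin.cons (z 0)⁻¹ (tl z) : Fin (k + 1) → ℝ) ∈ H},
      f (Fin.cons (z 0)⁻¹ (tl z)) * ENNReal.ofReal (((z 0) ^ 2)⁻¹) := by
  have m0 : Measurable fun z : Fin (k + 1) → ℝ => z 0 :=
    measurable_pi_apply (X := fun _ : Fin (k + 1) => ℝ) 0
  have hT : Measurable fun z : Fin (k + 1) → ℝ =>
      (Fin.cons (z 0)⁻¹ (tl z) : Fin (k + 1) → ℝ) := meas_cons14 m0.inv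
  have hF : Measurable (H.indicator f) := hf.indicator hH
  have hw : Measurable fun z : Fin (k + 1) → ℝ => ENNReal.ofReal (((z 0) ^ 2)⁻¹) :=
    ((m0.pow_const 2).inv).ennreal_ofReal
  have hN : MeasurableSet {z : Fin (k + 1) → ℝ | z 0 ≠ 0} :=
    (measurableSet_eq_fun m0 measurable_const).compl
  have hS : MeasurableSet {z : Fin (k + 1) → ℝ | z 0 ≠ 0 ∧
      (Fin.cons (z 0)⁻¹ (tl z) : Fin (k + 1) → ℝ) ∈ H} := hN.inter (hT hH)
  have hN0 : MeasurableSet {y : ℝ | y ≠ 0} := (measurableSet_singleton (0 : ℝ)).compl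
  have hG : Measurable fun z : Fin (k + 1) → ℝ =>
      ({z : Fin (k + 1) → ℝ | z 0 ≠ 0}).indicator (fun z =>
        H.indicator f (Fin.cons (z 0)⁻¹ (tl z)) * ENNReal.ofReal (((z 0) ^ 2)⁻¹)) z :=
    ((hF.comp hT).mul hw).indicator hN
  rw [← lintegral_indicator hH, ← lintegral_indicator hS]
  have e1 : (fun z : Fin (k + 1) → ℝ => ({z : Fin (k + 1) → ℝ | z 0 ≠ 0 ∧
      (Fin.cons (z 0)⁻¹ (tl z) : Fin (k + 1) → ℝ) ∈ H}).indicator
      (fun z => f (Fin.cons (z 0)⁻¹ (tl z)) * ENNReal.ofReal (((z 0) ^ 2)⁻¹)) z) =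
      fun z => ({z : Fin (k + 1) → ℝ | z 0 ≠ 0}).indicator (fun z =>
        H.indicator f (Fin.cons (z 0)⁻¹ (tl z)) * ENNReal.ofReal (((z 0) ^ 2)⁻¹)) z := by
    funext z
    by_cases h0 : z 0 = 0
    · have n1 : z ∉ {z : Fin (k + 1) → ℝ | z 0 ≠ 0 ∧
          (Fin.cons (z 0)⁻¹ (tl z) : Fin (k + 1) → ℝ) ∈ H} := fun h => h.1 h0
      have n2 : z ∉ {z : Fin (k + 1) → ℝ | z 0 ≠ 0} := fun h => h h0
      rw [Set.indicator_of_notMem n1, Set.indicator_of_notMem n2]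
    · have h0' : z ∈ {z : Fin (k + 1) → ℝ | z 0 ≠ 0} := h0
      rw [Set.indicator_of_mem h0']
      by_cases h : (Fin.cons (z 0)⁻¹ (tl z) : Fin (k + 1) → ℝ) ∈ H
      · rw [Set.indicator_of_mem (show z ∈ {z : Fin (k + 1) → ℝ | z 0 ≠ 0 ∧
          (Fin.cons (z 0)⁻¹ (tl z) : Fin (k + 1) → ℝ) ∈ H} from ⟨h0, h⟩),
          Set.indicator_of_mem h]
      · have n1 : z ∉ {z : Fin (k + 1) → ℝ | z 0 ≠ 0 ∧
            (Fin.cons (z 0)⁻¹ (tl z) : Fin (k + 1) → ℝ) ∈ H} := fun h2 => h h2.2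
        rw [Set.indicator_of_notMem n1, Set.indicator_of_notMem h, zero_mul]
  rw [show (∫⁻ z : Fin (k + 1) → ℝ, ({z : Fin (k + 1) → ℝ | z 0 ≠ 0 ∧
      (Fin.cons (z 0)⁻¹ (tl z) : Fin (k + 1) → ℝ) ∈ H}).indicator
      (fun z => f (Fin.cons (z 0)⁻¹ (tl z)) * ENNReal.ofReal (((z 0) ^ 2)⁻¹)) z) =
      ∫⁻ z : Fin (k + 1) → ℝ, ({z : Fin (k + 1) → ℝ | z 0 ≠ 0}).indicator (fun z =>
        H.indicator f (Fin.cons (z 0)⁻¹ (tl z)) * ENNReal.ofReal (((z 0) ^ 2)⁻¹)) z from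
      congrArg _ e1, fub14 hF, fub14 hG]
  refine lintegral_congr fun x => ?_
  rw [inv_line14 (G := fun y => H.indicator f (Fin.cons y x)),
    ← lintegral_indicator hN0]
  refine lintegral_congr fun y => ?_
  by_cases hy : y = 0
  · have n1 : y ∉ {y : ℝ | y ≠ 0} := fun h => h hy
    have n2 : (Fin.cons y x : Fin (k + 1) → ℝ) ∉ {z : Fin (k + 1) → ℝ | z 0 ≠ 0} :=
      fun h => h (by simpa using hy)
    rw [Set.indicator_of_notMem n1, Set.indicator_of_notMem n2]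
  · have n1 : y ∈ {y : ℝ | y ≠ 0} := hy
    have n2 : (Fin.cons y x : Fin (k + 1) → ℝ) ∈ {z : Fin (k + 1) → ℝ | z 0 ≠ 0} := by
      show (Fin.cons y x : Fin (k + 1) → ℝ) 0 ≠ 0
      simpa using hy
    rw [Set.indicator_of_mem n1, Set.indicator_of_mem n2]
    simp only [tl_cons14, Fin.cons_zero]

theorem DF_cons14 {k m : ℕ} {y : (Fin m → ℝ) → ℝ} (hy : DF y) {x : (Fin m → ℝ) → Fin k → ℝ}
    (hx : ∀ j, DF fun z => x z j) (j : Fin (k + 1)) :
    DF fun z => (Fin.cons (y z) (x z) : Fin (k + 1) → ℝ) j := by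
  refine Fin.cases ?_ (fun i => ?_) j
  · simpa using hy
  · simpa using hx i

/-- LEAF A8, shear. -/
theorem Tr.shear {k : ℕ} {H : Set (Fin (k + 1) → ℝ)} {g l : (Fin (k + 1) → ℝ) → ℝ} (hH : DS H)
    {e : (Fin k → ℝ) → ℝ} (he : DF e) (a : ℤ) (ha : a = 1 ∨ a = -1)
    (h : Tr (k + 1) {z | (Fin.cons (e (tl z) + a * z 0) (tl z) : Fin (k + 1) → ℝ) ∈ H}
      (fun z => g (Fin.cons (e (tl z) + a * z 0) (tl z)))
      (fun z => l (Fin.cons (e (tl z) + a * z 0) (tl z)))) : Tr (k + 1) H g l := by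
  obtain ⟨N, M, I, D, Φ, J, hN, hD, hf⟩ := h
  refine ⟨N, M, I, D, fun i u => Fin.cons (e (tl (Φ i u)) + a * Φ i u 0) (tl (Φ i u)), J, hN,
    fun i => ?_, fun f hfm => ?_⟩
  · obtain ⟨h1, h2, h3, h4, h5⟩ := hD i
    refine ⟨h1, h2, DF_cons14 ?_ fun j => h3 j.succ, h4, h5⟩
    exact (DF.comp (g := fun j u => tl (Φ i u) j) he fun j => h3 j.succ).add
      ((DF.const a).mul (h3 0))
  · have hT : Measurable fun z : Fin (k + 1) → ℝ =>
        (Fin.cons (e (tl z) + a * z 0) (tl z) : Fin (k + 1) → ℝ) :=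
      meas_cons14 ((he.meas.comp meas_tl14).add
        ((measurable_pi_apply (X := fun _ : Fin (k + 1) => ℝ) 0).const_mul (a : ℝ)))
    rw [lint_shear hH.meas he.meas a ha hfm]
    exact hf _ (hfm.comp hT)

/-- LEAF A8, inversion. -/
theorem Tr.inversion {k : ℕ} {H : Set (Fin (k + 1) → ℝ)} {g l : (Fin (k + 1) → ℝ) → ℝ}
    (hH : DS H) (h1 : ∀ z ∈ H, 1 < |z 0|)
    (h : Tr (k + 1) {z | z 0 ≠ 0 ∧ (Fin.cons (z 0)⁻¹ (tl z) : Fin (k + 1) → ℝ) ∈ H}
      (fun z => g (Fin.cons (z 0)⁻¹ (tl z)) / (z 0) ^ 2)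
      (fun z => l (Fin.cons (z 0)⁻¹ (tl z)))) : Tr (k + 1) H g l := by
  obtain ⟨N, M, I, D, Φ, J, hN, hD, hf⟩ := h
  refine ⟨N, M, I, D, fun i u => Fin.cons (Φ i u 0)⁻¹ (tl (Φ i u)),
    fun i u => ((Φ i u 0) ^ 2)⁻¹ * J i u, hN, fun i => ?_, fun f hfm => ?_⟩
  · obtain ⟨h1, h2, h3, h4, h5⟩ := hD i
    refine ⟨h1, h2, DF_cons14 (h3 0).inv fun j => h3 j.succ, ((h3 0).pow 2).inv.mul h4,
      fun u hu => ?_⟩
    obtain ⟨h6, h7, h8⟩ := h5 u hu
    refine ⟨h6.2, mul_nonneg (by positivity) h7, ?_⟩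
    have h9 : g (Fin.cons (Φ i u 0)⁻¹ (tl (Φ i u))) * ((Φ i u 0 ^ 2)⁻¹ * J i u) =
        g (Fin.cons (Φ i u 0)⁻¹ (tl (Φ i u))) / Φ i u 0 ^ 2 * J i u := by
      rw [div_eq_mul_inv, mul_assoc]
    rw [h9]
    exact h8
  · have m0 : Measurable fun z : Fin (k + 1) → ℝ => z 0 :=
      measurable_pi_apply (X := fun _ : Fin (k + 1) => ℝ) 0
    have hT : Measurable fun z : Fin (k + 1) → ℝ =>
        (Fin.cons (z 0)⁻¹ (tl z) : Fin (k + 1) → ℝ) := meas_cons14 m0.inv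
    have hw : Measurable fun z : Fin (k + 1) → ℝ => ENNReal.ofReal (((z 0) ^ 2)⁻¹) :=
      ((m0.pow_const 2).inv).ennreal_ofReal
    have hfG : Measurable fun z : Fin (k + 1) → ℝ =>
        f (Fin.cons (z 0)⁻¹ (tl z)) * ENNReal.ofReal (((z 0) ^ 2)⁻¹) := (hfm.comp hT).mul hw
    rw [lint_inversion hH.meas h1 hfm, hf _ hfG]
    refine Finset.sum_congr rfl fun i _ => lintegral_congr fun u => ?_
    rw [ENNReal.ofReal_mul (by positivity), mul_assoc]

end Pool.Agent.WSP
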