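import Pool.Agent.W_2cf66e_h23.PerX
import Pool.Agent.W_2cf66e_h23.LuA1
import Pool.Agent.W_2cf66e_h23.LuA2
import Pool.Agent.W_2cf66e_h23.LuA6
import Pool.Agent.W_2cf66e_h23.LuA7
import Pool.Agent.W_2cf66e_h23.LuA8
import Pool.Agent.W_2cf66e_h23.LuA10
import Pool.Agent.W_2cf66e_h23.LuA11
import Pool.Agent.W_2cf66e_h23.LuA12

/-!
# MP_2cf66e_nt, the transport theorem: the induction (helper23)
-/

set_option autoImplicit false

noncomputable section

open MeasureTheory Set Filter Topology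

namespace Pool.Agent.WSP

variable {k : ℕ}

theorem cons_tl (z : Fin (k + 1) → ℝ) : (Fin.cons (z 0) (tl z) : Fin (k + 1) → ℝ) = z := by
  funext i
  refine Fin.cases rfl (fun j => rfl) i

theorem mem_cons_tl (z : Fin (k + 1) → ℝ) (D : Set (Fin (k + 1) → ℝ)) :
    (Fin.cons (z 0) (tl z) : Fin (k + 1) → ℝ) ∈ D ↔ z ∈ D := by
  rw [cons_tl]

theorem sh_sq {a : ℤ} (ha : a = 1 ∨ a = -1) : (a : ℝ) * a = 1 := by
  rcases ha with h | h <;> rw [h] <;> norm_num

theorem side_DS {C : Set (Fin k → ℝ)} {c e : (Fin k → ℝ) → ℝ} (a : ℤ) (hC : DS C) (hc : DF c)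
    (he : DF e) : DS {z : Fin (k + 1) → ℝ | tl z ∈ C ∧ 0 < (a : ℝ) * (z 0 - e (tl z)) ∧
      (a : ℝ) * (z 0 - e (tl z)) < c (tl z)} := by
  have hz0 : DF (fun z : Fin (k + 1) → ℝ => z 0) := DF.var 0
  have het : DF (fun z : Fin (k + 1) → ℝ => e (tl z)) := DF.tl he
  have hct : DF (fun z : Fin (k + 1) → ℝ => c (tl z)) := DF.tl hc
  have hac : DF (fun _ : Fin (k + 1) → ℝ => (a : ℝ)) := DF.const a
  have h1 : DF (fun z : Fin (k + 1) → ℝ => (a : ℝ) * (z 0 - e (tl z))) :=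
    hac.mul (hz0.sub het)
  have h0 : DF (fun _ : Fin (k + 1) → ℝ => ((0 : ℤ) : ℝ)) := DF.const 0
  have h2 := DF.lt h0 h1
  simp only [Int.cast_zero] at h2
  exact (DS.tl hC).and (h2.and (DF.lt h1 hct))

/-- One side of a cell. -/
theorem side (IH : TrAll k) {C : Set (Fin k → ℝ)} {c e : (Fin k → ℝ) → ℝ} {a : ℤ}
    (ha : a = 1 ∨ a = -1) {D : Set (Fin (k + 1) → ℝ)} (hD : DS D) (hC : DS C) (hc : DF c)
    (he : DF e) (hc0 : ∀ x ∈ C, 0 < c x ∧ c x ≤ 1)
    (hDe : ∀ (x : Fin k → ℝ) (v : ℝ), (Fin.cons (e x + a * v) x : Fin (k + 1) → ℝ) ∈ D ↔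
      x ∈ C ∧ 0 < v ∧ v < 2 * c x)
    {g l : (Fin (k + 1) → ℝ) → ℝ} (hg : DF g) (hl : DF l) (hg0 : ∀ z ∈ D, 0 < g z)
    (hl1 : ∀ z ∈ D, 1 ≤ l z)
    (hgm : (∀ x ∈ C, AntitoneOn (fun v : ℝ => g (Fin.cons (e x + a * v) x)) (Ioo 0 (2 * c x))) ∨
      ∀ x ∈ C, MonotoneOn (fun v : ℝ => g (Fin.cons (e x + a * v) x)) (Ioo 0 (2 * c x)))
    (hlm : ∀ x ∈ C, MonotoneOn (fun v : ℝ => l (Fin.cons (e x + a * v) x)) (Ioo 0 (2 * c x)) ∨
      AntitoneOn (fun v : ℝ => l (Fin.cons (e x + a * v) x)) (Ioo 0 (2 * c x)))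
    (hi : ∫⁻ z in D, ENNReal.ofReal (g z) < ⊤) :
    Tr (k + 1) {z | tl z ∈ C ∧ 0 < (a : ℝ) * (z 0 - e (tl z)) ∧
      (a : ℝ) * (z 0 - e (tl z)) < c (tl z)} g l := by
  have haa := sh_sq ha
  have hz0 : DF (fun z : Fin (k + 1) → ℝ => z 0) := DF.var 0
  have het : DF (fun z : Fin (k + 1) → ℝ => e (tl z)) := DF.tl he
  have hct : DF (fun z : Fin (k + 1) → ℝ => c (tl z)) := DF.tl hc
  have hac : DF (fun _ : Fin (k + 1) → ℝ => (a : ℝ)) := DF.const a
  have htl : ∀ j, DF (fun z : Fin (k + 1) → ℝ => tl z j) := fun j => DF.var j.succ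
  have hy : DF (fun z : Fin (k + 1) → ℝ => e (tl z) + a * z 0) := het.add (hac.mul hz0)
  have hH := side_DS a hC hc he
  refine Tr.shear hH he a ha ?_
  have hset : {z : Fin (k + 1) → ℝ | (Fin.cons (e (tl z) + a * z 0) (tl z) : Fin (k + 1) → ℝ) ∈
      {z : Fin (k + 1) → ℝ | tl z ∈ C ∧ 0 < (a : ℝ) * (z 0 - e (tl z)) ∧
      (a : ℝ) * (z 0 - e (tl z)) < c (tl z)}} = under C c := by
    ext z
    simp only [Set.mem_ofPred_eq, tl_cons, Fin.cons_zero, under]
    have h3 : (a : ℝ) * (e (tl z) + a * z 0 - e (tl z)) = z 0 := by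
      have : (a : ℝ) * (e (tl z) + a * z 0 - e (tl z)) = (a * a) * z 0 := by ring
      rw [this, haa, one_mul]
    rw [h3]
  rw [hset]
  have hg' : DF (fun z : Fin (k + 1) → ℝ => g (Fin.cons (e (tl z) + a * z 0) (tl z))) :=
    DF.cons hg hy htl
  have hl' : DF (fun z : Fin (k + 1) → ℝ => l (Fin.cons (e (tl z) + a * z 0) (tl z))) :=
    DF.cons hl hy htl
  have hmem : ∀ z ∈ under C (fun x => 2 * c x),
      (Fin.cons (e (tl z) + a * z 0) (tl z) : Fin (k + 1) → ℝ) ∈ D := by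
    rintro z ⟨h1, h2, h3⟩
    exact (hDe _ _).2 ⟨h1, h2, h3⟩
  have hi' : ∫⁻ z in under C (fun x => 2 * c x),
      ENNReal.ofReal (g (Fin.cons (e (tl z) + a * z 0) (tl z))) < ⊤ := by
    have h4 := lint_shear hD.meas he.meas a ha (f := fun z => ENNReal.ofReal (g z))
      hg.meas.ennreal_ofReal
    rw [h4] at hi
    have h5 : {z : Fin (k + 1) → ℝ |
        (Fin.cons (e (tl z) + a * z 0) (tl z) : Fin (k + 1) → ℝ) ∈ D} =
        under C (fun x => 2 * c x) := by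
      ext z
      exact hDe _ _
    rw [h5] at hi
    exact hi
  rcases hgm with h | h
  · exact half_anti IH hC hc hg' hl' hc0 (fun z hz => hg0 _ (hmem z hz))
      (fun z hz => hl1 _ (hmem z hz)) (fun x hx => by simpa only [tl_cons, Fin.cons_zero] using h x hx)
      (fun x hx => by simpa only [tl_cons, Fin.cons_zero] using hlm x hx) hi'
  · exact half_mono IH hC hc hg' hl' hc0 (fun z hz => hg0 _ (hmem z hz))
      (fun z hz => hl1 _ (hmem z hz)) (fun x hx => by simpa only [tl_cons, Fin.cons_zero] using h x hx)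
      (fun x hx => by simpa only [tl_cons, Fin.cons_zero] using hlm x hx) hi'

/-- An open order connected nonempty bounded set is an open interval. -/
theorem eq_Ioo {F : Set ℝ} (ho : IsOpen F) (hc : OrdConnected F) (hn : F.Nonempty)
    (hb : ∀ y ∈ F, |y| < 1) : F = Ioo (sInf F) (sSup F) ∧ sInf F < sSup F ∧ -1 ≤ sInf F ∧
      sSup F ≤ 1 := by
  have hbb : BddBelow F := ⟨-1, fun y hy => (abs_lt.1 (hb y hy)).1.le⟩
  have hba : BddAbove F := ⟨1, fun y hy => (abs_lt.1 (hb y hy)).2.le⟩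
  have h1 : F = Ioo (sInf F) (sSup F) := by
    ext y
    constructor
    · intro hy
      obtain ⟨ε, hε, hball⟩ := Metric.isOpen_iff.1 ho y hy
      have hd : 0 < ε / 2 := by positivity
      have hm : y - ε / 2 ∈ F := hball (by
        rw [Metric.mem_ball, Real.dist_eq, sub_sub_cancel_left, abs_neg, abs_of_pos hd]
        linarith)
      have hp : y + ε / 2 ∈ F := hball (by
        rw [Metric.mem_ball, Real.dist_eq, add_sub_cancel_left, abs_of_pos hd]
        linarith)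
      exact ⟨lt_of_le_of_lt (csInf_le hbb hm) (by linarith),
        lt_of_lt_of_le (by linarith) (le_csSup hba hp)⟩
    · rintro ⟨h2, h3⟩
      obtain ⟨p, hp, hpy⟩ := exists_lt_of_csInf_lt hn h2
      obtain ⟨q, hq, hyq⟩ := exists_lt_of_lt_csSup hn h3
      exact hc.out hp hq ⟨hpy.le, hyq.le⟩
  refine ⟨h1, ?_, le_csInf hn fun y hy => (abs_lt.1 (hb y hy)).1.le,
    csSup_le hn fun y hy => (abs_lt.1 (hb y hy)).2.le⟩
  obtain ⟨y, hy⟩ := hn
  rw [h1] at hy
  exact hy.1.trans hy.2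

/-- One cell. -/
theorem cell_tr (IH : TrAll k) {D : Set (Fin (k + 1) → ℝ)} (hD : DS D)
    {g l : (Fin (k + 1) → ℝ) → ℝ} (hg : DF g) (hl : DF l) (hg0 : ∀ z ∈ D, 0 < g z)
    (hl1 : ∀ z ∈ D, 1 ≤ l z) (hb : ∀ z ∈ D, |z 0| < 1)
    (hfib : ∀ x : Fin k → ℝ, IsOpen (fib D x) ∧ OrdConnected (fib D x) ∧
      (MonotoneOn (fun y : ℝ => l (Fin.cons y x)) (fib D x) ∨
        AntitoneOn (fun y : ℝ => l (Fin.cons y x)) (fib D x)))
    (hgm : (∀ x : Fin k → ℝ, MonotoneOn (fun y : ℝ => g (Fin.cons y x)) (fib D x)) ∨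
      ∀ x : Fin k → ℝ, AntitoneOn (fun y : ℝ => g (Fin.cons y x)) (fib D x))
    (hi : ∫⁻ z in D, ENNReal.ofReal (g z) < ⊤) : Tr (k + 1) D g l := by
  classical
  obtain ⟨C, hCdef⟩ : ∃ C : Set (Fin k → ℝ), C = {x | (fib D x).Nonempty} := ⟨_, rfl⟩
  obtain ⟨a, hadef⟩ : ∃ a : (Fin k → ℝ) → ℝ, a = fun x => sInf (fib D x) := ⟨_, rfl⟩
  obtain ⟨b, hbdef⟩ : ∃ b : (Fin k → ℝ) → ℝ, b = fun x => sSup (fib D x) := ⟨_, rfl⟩
  have hC : DS C := hCdef ▸ DS.nonemptyFib hD
  have ha : DF a := hadef ▸ DF.fibInf hD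
  have hb' : DF b := hbdef ▸ DF.fibSup hD
  obtain ⟨c, hcdef⟩ : ∃ c : (Fin k → ℝ) → ℝ, c = fun x => (b x - a x) / ((2 : ℤ) : ℝ) := ⟨_, rfl⟩
  have hc : DF c := hcdef ▸ (hb'.sub ha).div (DF.const 2)
  have hint : ∀ x ∈ C, fib D x = Ioo (a x) (b x) ∧ a x < b x ∧ -1 ≤ a x ∧ b x ≤ 1 := by
    intro x hx
    rw [hCdef] at hx
    rw [hadef, hbdef]
    exact eq_Ioo (hfib x).1 (hfib x).2.1 hx fun y hy => by
      have := hb _ hy
      rwa [Fin.cons_zero] at this
  have hcx : ∀ x, b x = a x + 2 * c x := by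
    intro x
    rw [hcdef]
    push_cast
    ring
  have hc0 : ∀ x ∈ C, 0 < c x ∧ c x ≤ 1 := by
    intro x hx
    obtain ⟨-, h1, h2, h3⟩ := hint x hx
    have := hcx x
    exact ⟨by linarith, by linarith⟩
  have hmemD : ∀ (x : Fin k → ℝ) (y : ℝ), (Fin.cons y x : Fin (k + 1) → ℝ) ∈ D ↔
      x ∈ C ∧ a x < y ∧ y < b x := by
    intro x y
    constructor
    · intro h
      have hx : x ∈ C := by
        rw [hCdef]
        exact ⟨y, h⟩
      have h1 : y ∈ fib D x := h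
      rw [(hint x hx).1] at h1
      exact ⟨hx, h1.1, h1.2⟩
    · rintro ⟨hx, h1, h2⟩
      have h3 : y ∈ fib D x := by
        rw [(hint x hx).1]
        exact ⟨h1, h2⟩
      exact h3
  -- the two sides
  obtain ⟨H1, hH1⟩ : ∃ H1 : Set (Fin (k + 1) → ℝ), H1 = {z | tl z ∈ C ∧
    0 < ((1 : ℤ) : ℝ) * (z 0 - a (tl z)) ∧ ((1 : ℤ) : ℝ) * (z 0 - a (tl z)) < c (tl z)} := ⟨_, rfl⟩
  obtain ⟨H2, hH2⟩ : ∃ H2 : Set (Fin (k + 1) → ℝ), H2 = {z | tl z ∈ C ∧
    0 < ((-1 : ℤ) : ℝ) * (z 0 - b (tl z)) ∧ ((-1 : ℤ) : ℝ) * (z 0 - b (tl z)) < c (tl z)} :=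
      ⟨_, rfl⟩
  have hin1 : ∀ x ∈ C, ∀ v ∈ Ioo 0 (2 * c x), a x + ((1 : ℤ) : ℝ) * v ∈ fib D x := by
    intro x hx v hv
    rw [(hint x hx).1]
    have := hcx x
    push_cast
    exact ⟨by linarith [hv.1], by linarith [hv.2]⟩
  have hin2 : ∀ x ∈ C, ∀ v ∈ Ioo 0 (2 * c x), b x + ((-1 : ℤ) : ℝ) * v ∈ fib D x := by
    intro x hx v hv
    rw [(hint x hx).1]
    have := hcx x
    push_cast
    exact ⟨by linarith [hv.2], by linarith [hv.1]⟩
  have up : ∀ {F : (Fin (k + 1) → ℝ) → ℝ} {x : Fin k → ℝ}, x ∈ C →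
      (MonotoneOn (fun y : ℝ => F (Fin.cons y x)) (fib D x) →
        MonotoneOn (fun v : ℝ => F (Fin.cons (a x + ((1 : ℤ) : ℝ) * v) x)) (Ioo 0 (2 * c x)) ∧
        AntitoneOn (fun v : ℝ => F (Fin.cons (b x + ((-1 : ℤ) : ℝ) * v) x)) (Ioo 0 (2 * c x))) ∧
      (AntitoneOn (fun y : ℝ => F (Fin.cons y x)) (fib D x) →
        AntitoneOn (fun v : ℝ => F (Fin.cons (a x + ((1 : ℤ) : ℝ) * v) x)) (Ioo 0 (2 * c x)) ∧
        MonotoneOn (fun v : ℝ => F (Fin.cons (b x + ((-1 : ℤ) : ℝ) * v) x)) (Ioo 0 (2 * c x))) := by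
    intro F x hx
    refine ⟨fun h => ⟨fun v hv w hw hvw => ?_, fun v hv w hw hvw => ?_⟩,
      fun h => ⟨fun v hv w hw hvw => ?_, fun v hv w hw hvw => ?_⟩⟩
    · exact h (hin1 x hx v hv) (hin1 x hx w hw) (by push_cast; linarith)
    · exact h (hin2 x hx w hw) (hin2 x hx v hv) (by push_cast; linarith)
    · exact h (hin1 x hx v hv) (hin1 x hx w hw) (by push_cast; linarith)
    · exact h (hin2 x hx w hw) (hin2 x hx v hv) (by push_cast; linarith)
  have T1 : Tr (k + 1) H1 g l := by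
    rw [hH1]
    refine side IH (Or.inl rfl) hD hC hc ha hc0 ?_ hg hl hg0 hl1 ?_ ?_ hi
    · intro x v
      rw [hmemD, hcx x]
      push_cast
      constructor
      · rintro ⟨h1, h2, h3⟩
        exact ⟨h1, by linarith, by linarith⟩
      · rintro ⟨h1, h2, h3⟩
        exact ⟨h1, by linarith, by linarith⟩
    · rcases hgm with h | h
      · exact Or.inr fun x hx => ((up hx).1 (h x)).1
      · exact Or.inl fun x hx => ((up hx).2 (h x)).1
    · intro x hx
      rcases (hfib x).2.2 with h | h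
      · exact Or.inl ((up hx).1 h).1
      · exact Or.inr ((up hx).2 h).1
  have T2 : Tr (k + 1) H2 g l := by
    rw [hH2]
    refine side IH (Or.inr rfl) hD hC hc hb' hc0 ?_ hg hl hg0 hl1 ?_ ?_ hi
    · intro x v
      rw [hmemD, hcx x]
      push_cast
      constructor
      · rintro ⟨h1, h2, h3⟩
        exact ⟨h1, by linarith, by linarith⟩
      · rintro ⟨h1, h2, h3⟩
        exact ⟨h1, by linarith, by linarith⟩
    · rcases hgm with h | h
      · exact Or.inl fun x hx => ((up hx).1 (h x)).2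
      · exact Or.inr fun x hx => ((up hx).2 (h x)).2
    · intro x hx
      rcases (hfib x).2.2 with h | h
      · exact Or.inr ((up hx).1 h).2
      · exact Or.inl ((up hx).2 h).2
  -- the union
  have hDm : ∀ z : Fin (k + 1) → ℝ, z ∈ D ↔ tl z ∈ C ∧ a (tl z) < z 0 ∧ z 0 < b (tl z) := by
    intro z
    rw [← mem_cons_tl z D]
    exact hmemD _ _
  have hH1m : MeasurableSet H1 := by
    rw [hH1]
    exact (side_DS 1 hC hc ha).meas
  have hH2m : MeasurableSet H2 := by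
    rw [hH2]
    exact (side_DS (-1) hC hc hb').meas
  refine Tr.union (I := 2) ![H1, H2] ?_ ?_ ?_ ?_ (fun x hx => (hg0 x hx).le) hl1 ?_
  · intro i
    fin_cases i
    · exact hH1m
    · exact hH2m
  · intro i
    fin_cases i
    · show H1 ⊆ D
      intro z hz
      rw [hH1] at hz
      obtain ⟨h1, h2, h3⟩ := hz
      rw [hDm]
      have := hcx (tl z)
      have h4 := hc0 _ h1
      push_cast at h2 h3
      exact ⟨h1, by linarith, by linarith⟩
    · show H2 ⊆ D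
      intro z hz
      rw [hH2] at hz
      obtain ⟨h1, h2, h3⟩ := hz
      rw [hDm]
      have := hcx (tl z)
      have h4 := hc0 _ h1
      push_cast at h2 h3
      exact ⟨h1, by linarith, by linarith⟩
  · have h12 : Disjoint H1 H2 := by
      rw [Set.disjoint_left]
      intro z hz1 hz2
      rw [hH1] at hz1
      rw [hH2] at hz2
      obtain ⟨-, h2, h3⟩ := hz1
      obtain ⟨-, h5, h6⟩ := hz2
      have := hcx (tl z)
      push_cast at h2 h3 h5 h6
      linarith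
    intro i j hij
    fin_cases i <;> fin_cases j
    · exact absurd rfl hij
    · exact h12
    · exact h12.symm
    · exact absurd rfl hij
  · refine measure_mono_null ?_ (null_graph (c := fun x => a x + c x) (ha.add hc).meas)
    rintro z ⟨hz, hn⟩
    rw [Set.mem_iUnion, not_exists] at hn
    have n1 := hn 0
    have n2 := hn 1
    have n1' : z ∉ H1 := n1
    have n2' : z ∉ H2 := n2
    rw [hDm] at hz
    obtain ⟨h1, h2, h3⟩ := hz
    have hx := hcx (tl z)
    show z 0 = a (tl z) + c (tl z)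
    rcases lt_trichotomy (z 0) (a (tl z) + c (tl z)) with h | h | h
    · exfalso
      apply n1'
      rw [hH1]
      refine ⟨h1, ?_, ?_⟩ <;> push_cast <;> linarith
    · exact h
    · exfalso
      apply n2'
      rw [hH2]
      refine ⟨h1, ?_, ?_⟩ <;> push_cast <;> linarith
  · intro i
    fin_cases i
    · exact T1
    · exact T2

/-- The case of a bounded first coordinate. -/
theorem unit_tr (IH : TrAll k) {C : Set (Fin (k + 1) → ℝ)} (hC : DS C)
    {g l : (Fin (k + 1) → ℝ) → ℝ} (hg : DF g) (hl : DF l) (hg0 : ∀ z ∈ C, 0 < g z)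
    (hl1 : ∀ z ∈ C, 1 ≤ l z) (hb : ∀ z ∈ C, |z 0| < 1)
    (hi : ∫⁻ z in C, ENNReal.ofReal (g z) < ⊤) : Tr (k + 1) C g l := by
  obtain ⟨I, D, h1, h2, h3⟩ := cells C hC g l hg hl
  refine Tr.union D (fun i => (h1 i).1.meas) (fun i => (h1 i).2.1) h2 h3
    (fun x hx => (hg0 x hx).le) hl1 fun i => ?_
  obtain ⟨i1, i2, i3, i4⟩ := h1 i
  exact cell_tr IH i1 hg hl (fun z hz => hg0 z (i2 hz)) (fun z hz => hl1 z (i2 hz))
    (fun z hz => hb z (i2 hz)) i3 i4 (lt_of_le_of_lt (lintegral_mono_set i2) hi)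

theorem trAll (k : ℕ) : TrAll k := by
  induction k with
  | zero => exact fun C g l hC _ _ _ _ _ => Tr.zero C hC g l
  | succ k IH =>
    intro C g l hC hg hl hg0 hl1 hi
    have hz0 : DF (fun z : Fin (k + 1) → ℝ => z 0) := DF.var 0
    have hone : DF (fun _ : Fin (k + 1) → ℝ => ((1 : ℤ) : ℝ)) := DF.const 1
    have hsq : DF (fun z : Fin (k + 1) → ℝ => (z 0) ^ 2) := hz0.pow 2
    have hsq1 : ∀ t : ℝ, |t| < 1 ↔ t ^ 2 < ((1 : ℤ) : ℝ) := by
      intro t
      push_cast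
      rw [sq_lt_one_iff_abs_lt_one]
    have hsq2 : ∀ t : ℝ, 1 < |t| ↔ ((1 : ℤ) : ℝ) < t ^ 2 := by
      intro t
      push_cast
      rw [one_lt_sq_iff_one_lt_abs]
    obtain ⟨C1, hC1⟩ : ∃ C1 : Set (Fin (k + 1) → ℝ), C1 = {z | z ∈ C ∧ |z 0| < 1} := ⟨_, rfl⟩
    obtain ⟨C2, hC2⟩ : ∃ C2 : Set (Fin (k + 1) → ℝ), C2 = {z | z ∈ C ∧ 1 < |z 0|} := ⟨_, rfl⟩
    have dC1 : DS C1 := by
      rw [hC1]
      simp only [hsq1]
      exact hC.and (DF.lt hsq hone)
    have dC2 : DS C2 := by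
      rw [hC2]
      simp only [hsq2]
      exact hC.and (DF.lt hone hsq)
    have s1 : C1 ⊆ C := by
      rw [hC1]
      exact fun z hz => hz.1
    have s2 : C2 ⊆ C := by
      rw [hC2]
      exact fun z hz => hz.1
    have T1 : Tr (k + 1) C1 g l := by
      refine unit_tr IH dC1 hg hl (fun z hz => hg0 z (s1 hz)) (fun z hz => hl1 z (s1 hz)) ?_
        (lt_of_le_of_lt (lintegral_mono_set s1) hi)
      rw [hC1]
      exact fun z hz => hz.2
    have b2 : ∀ z ∈ C2, 1 < |z 0| := by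
      rw [hC2]
      exact fun z hz => hz.2
    have T2 : Tr (k + 1) C2 g l := by
      refine Tr.inversion dC2 b2 ?_
      have htl : ∀ j, DF (fun z : Fin (k + 1) → ℝ => tl z j) := fun j => DF.var j.succ
      have hinv : DF (fun z : Fin (k + 1) → ℝ => (z 0)⁻¹) := hz0.inv
      have hzero : DF (fun _ : Fin (k + 1) → ℝ => ((0 : ℤ) : ℝ)) := DF.const 0
      have d1 : DS {z : Fin (k + 1) → ℝ | z 0 ≠ 0 ∧
          (Fin.cons (z 0)⁻¹ (tl z) : Fin (k + 1) → ℝ) ∈ C2} := by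
        have h4 := (DF.eq hz0 hzero).not
        simp only [Int.cast_zero] at h4
        exact h4.and (DS.cons dC2 hinv htl)
      have hi2 := lt_of_le_of_lt (lintegral_mono_set s2) hi
      have h5 := lint_inversion dC2.meas b2 (f := fun z => ENNReal.ofReal (g z))
        hg.meas.ennreal_ofReal
      refine unit_tr IH d1 ((DF.cons hg hinv htl).div hsq) (DF.cons hl hinv htl) ?_ ?_ ?_ ?_
      · rintro z ⟨h6, h7⟩
        have : 0 < (z 0) ^ 2 := by positivity
        exact div_pos (hg0 _ (s2 h7)) this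
      · rintro z ⟨h6, h7⟩
        exact hl1 _ (s2 h7)
      · rintro z ⟨h6, h7⟩
        have h8 := b2 _ h7
        rw [Fin.cons_zero, abs_inv] at h8
        have h9 : 0 < |z 0| := abs_pos.2 h6
        exact (one_lt_inv₀ h9).1 h8
      · rw [h5] at hi2
        refine lt_of_le_of_lt (le_of_eq ?_) hi2
        refine lintegral_congr fun z => ?_
        rw [div_eq_mul_inv, ENNReal.ofReal_mul' (by positivity)]
    refine Tr.union (I := 2) ![C1, C2] ?_ ?_ ?_ ?_ (fun x hx => (hg0 x hx).le) hl1 ?_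
    · intro i
      fin_cases i
      · exact dC1.meas
      · exact dC2.meas
    · intro i
      fin_cases i
      · exact s1
      · exact s2
    · have h12 : Disjoint C1 C2 := by
        rw [Set.disjoint_left]
        intro z hz1 hz2
        rw [hC1] at hz1
        rw [hC2] at hz2
        exact absurd hz1.2 (not_lt.2 hz2.2.le)
      intro i j hij
      fin_cases i <;> fin_cases j
      · exact absurd rfl hij
      · exact h12
      · exact h12.symm
      · exact absurd rfl hij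
    · have n1 : volume {z : Fin (k + 1) → ℝ | z 0 = 1} = 0 :=
        null_graph (c := fun _ => (1 : ℝ)) measurable_const
      have n2 : volume {z : Fin (k + 1) → ℝ | z 0 = -1} = 0 :=
        null_graph (c := fun _ => (-1 : ℝ)) measurable_const
      refine measure_mono_null ?_ (measure_union_null n1 n2)
      rintro z ⟨hz, hn⟩
      rw [Set.mem_iUnion, not_exists] at hn
      have m1 : z ∉ C1 := hn 0
      have m2 : z ∉ C2 := hn 1
      rw [hC1] at m1
      rw [hC2] at m2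
      have h6 : |z 0| = 1 := le_antisymm (not_lt.1 fun h => m2 ⟨hz, h⟩) (not_lt.1 fun h => m1 ⟨hz, h⟩)
      rcases (abs_eq zero_le_one).1 h6 with h | h
      · exact Or.inl h
      · exact Or.inr h
    · intro i
      fin_cases i
      · exact T1
      · exact T2

end Pool.Agent.WSP
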