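import Pool.Agent.W_2cf66e_h23.DefsU
import Pool.Agent.W_2cf66e_h65.ESA

/-!
# MP_2cf66e_nt, THEOREM S+, leaf A15: one bounded set (helper68)
-/

set_option autoImplicit false

noncomputable section

open MeasureTheory Set Filter Topology MvPolynomial

namespace Pool.Agent.WSP

/-- Translates of semialgebraic sets by a rational vector with equal coordinates. -/
theorem isSA_shift68 {ι : Type} {S : Set (ι → ℝ)} (hS : Pool.Agent.CVol.IsSA S) (a : ℚ) :
    Pool.Agent.CVol.IsSA {z : ι → ℝ | (fun j => z j - (a : ℝ)) ∈ S} := by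
  have h := hS.preimage (fun j : ι => (X j - C a : MvPolynomial ι ℚ))
  simpa only [map_sub, aeval_X, aeval_C, eq_ratCast] using h

theorem one_bdd {k I : ℕ} (B : Fin I → Set (Fin (k + 1) → ℝ))
    (hB : ∀ i, Pool.Agent.CVol.IsSA (B i) ∧ Bornology.IsBounded (B i)) :
    ∃ T : Set (Fin (k + 1) → ℝ), Pool.Agent.CVol.IsSA T ∧ Bornology.IsBounded T ∧
      volume T = ∑ i, volume (B i) := by
  have h1 : ∀ i, ∃ R : ℝ, ∀ x ∈ B i, ‖x‖ ≤ R := fun i => (hB i).2.exists_norm_le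
  choose r hr using h1
  obtain ⟨R, hR0, hR⟩ : ∃ R : ℕ, 0 < R ∧ ∀ i, r i < R := by
    obtain ⟨R, hR⟩ := exists_nat_gt (∑ i, |r i|)
    refine ⟨R + 1, Nat.succ_pos R, fun i => ?_⟩
    have h2 : |r i| ≤ ∑ i, |r i| :=
      Finset.single_le_sum (f := fun i => |r i|) (fun j _ => abs_nonneg _) (Finset.mem_univ i)
    have h3 := le_abs_self (r i)
    push_cast
    linarith
  have hb : ∀ i, ∀ x ∈ B i, |x 0| < R := fun i x hx =>
    lt_of_le_of_lt ((Real.norm_eq_abs (x 0) ▸ norm_le_pi_norm x 0).trans (hr i x hx)) (hR i)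
  set T : Fin I → Set (Fin (k + 1) → ℝ) := fun i =>
    {z | (fun j => z j - (((2 * R * (i : ℕ) : ℕ) : ℚ) : ℝ)) ∈ B i} with hT
  have hsa : ∀ i, Pool.Agent.CVol.IsSA (T i) := fun i => isSA_shift68 (hB i).1 _
  have hm : ∀ i, MeasurableSet (T i) := fun i => (hsa i).measurable
  have hv : ∀ i, volume (T i) = volume (B i) := by
    intro i
    have hp := measurePreserving_sub_right (volume : Measure (Fin (k + 1) → ℝ))
      (fun _ => (((2 * R * (i : ℕ) : ℕ) : ℚ) : ℝ))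
    exact hp.measure_preimage (hB i).1.measurable.nullMeasurableSet
  have hd : Pairwise fun i j => Disjoint (T i) (T j) := by
    intro i j hij
    rw [Set.disjoint_left]
    intro z hi hj
    have a1 := hb i _ hi
    have a2 := hb j _ hj
    rw [abs_lt] at a1 a2
    push_cast at a1 a2
    have hne : (i : ℕ) ≠ (j : ℕ) := fun h => hij (Fin.ext h)
    have hRr : (0 : ℝ) < R := by exact_mod_cast hR0
    rcases lt_or_gt_of_ne hne with h | h
    · have h' : ((i : ℕ) : ℝ) + 1 ≤ ((j : ℕ) : ℝ) := by exact_mod_cast h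
      nlinarith [a1.1, a1.2, a2.1, a2.2]
    · have h' : ((j : ℕ) : ℝ) + 1 ≤ ((i : ℕ) : ℝ) := by exact_mod_cast h
      nlinarith [a1.1, a1.2, a2.1, a2.2]
  refine ⟨⋃ i, T i, Pool.Agent.CVol.IsSA.iUnion T hsa, ?_, ?_⟩
  · rw [Bornology.isBounded_iUnion]
    intro i
    rw [isBounded_iff_forall_norm_le]
    refine ⟨R + ‖(fun _ => (((2 * R * (i : ℕ) : ℕ) : ℚ) : ℝ) : Fin (k + 1) → ℝ)‖, fun z hz => ?_⟩
    have h2 := (hr i _ hz).trans (hR i).le
    have h3 : z = (fun j => z j - (((2 * R * (i : ℕ) : ℕ) : ℚ) : ℝ)) +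
        (fun _ => (((2 * R * (i : ℕ) : ℕ) : ℚ) : ℝ)) := by
      funext j
      simp
    calc ‖z‖ = ‖(fun j => z j - (((2 * R * (i : ℕ) : ℕ) : ℚ) : ℝ)) +
        (fun _ => (((2 * R * (i : ℕ) : ℕ) : ℚ) : ℝ))‖ := by rw [← h3]
      _ ≤ _ := (norm_add_le _ _).trans (add_le_add_left h2 _)
  · rw [measure_iUnion hd hm, tsum_fintype]
    exact Finset.sum_congr rfl fun i _ => hv i

end Pool.Agent.WSP
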