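import Pool.Agent.W_2cf66e_h23.LuA1
import Pool.Agent.W_2cf66e_h23.LuA2
import Pool.Agent.W_2cf66e_h23.LuA3

/-!
# MP_2cf66e_nt, S+: leaf A4 (helper88): decay
-/

set_option autoImplicit false

noncomputable section

open MeasureTheory Set Filter Topology

namespace Pool.Agent.WSP

/-- the definable set behind the modulus -/
def Pd88 {k : ℕ} (φ : (Fin (k + 1) → ℝ) → ℝ) (w : Option (Fin (k + 1)) → ℝ) : Prop :=
  0 < w none ∧ w none ≤ 1 ∧ ∀ v : ℝ, 0 < v → v < w none →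
    |φ (Fin.cons v (fun j => w (some j.succ)))| < w (some 0)

theorem Pd88_df {k : ℕ} {φ : (Fin (k + 1) → ℝ) → ℝ} (hφ : DF φ) : U78.Df (Pd88 φ) := by
  have h0 : DF fun _ : Option (Fin (k + 1)) → ℝ => (0 : ℝ) := by
    simpa using DF.const (κ := Option (Fin (k + 1))) 0
  have h1 : DF fun _ : Option (Fin (k + 1)) → ℝ => (1 : ℝ) := by
    simpa using DF.const (κ := Option (Fin (k + 1))) 1
  have h0' : DF fun _ : Option (Option (Fin (k + 1))) → ℝ => (0 : ℝ) := by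
    simpa using DF.const (κ := Option (Option (Fin (k + 1)))) 0
  have hg : ∀ i, DF fun z : Option (Option (Fin (k + 1))) → ℝ =>
      (Fin.cons (z none) (fun j => z (some (some j.succ))) : Fin (k + 1) → ℝ) i := by
    intro i
    refine Fin.cases ?_ (fun j => ?_) i
    · simpa using DF.var (κ := Option (Option (Fin (k + 1)))) none
    · simpa using DF.var (κ := Option (Option (Fin (k + 1)))) (some (some j.succ))
  have hφ' : DF fun z : Option (Option (Fin (k + 1))) → ℝ =>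
      φ (Fin.cons (z none) (fun j => z (some (some j.succ)))) :=
    DF.comp hφ (g := fun i z => (Fin.cons (z none) (fun j => z (some (some j.succ))) :
      Fin (k + 1) → ℝ) i) hg
  have hneg : DF fun z : Option (Option (Fin (k + 1))) → ℝ =>
      0 - φ (Fin.cons (z none) (fun j => z (some (some j.succ)))) := h0'.sub hφ'
  have hall : U78.Df (fun z : Option (Option (Fin (k + 1))) → ℝ => 0 < z none →
      z none < z (some none) → |φ (Fin.cons (z none) (fun j => z (some (some j.succ))))| <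
        z (some (some 0))) := by
    refine U78.Df.imp (DF.lt h0' (DF.var none)) (U78.Df.imp (DF.lt (DF.var none) (DF.var (some none))) ?_)
    refine (U78.Df.and (DF.lt hφ' (DF.var (some (some 0)))) (DF.lt hneg (DF.var (some (some 0))))).congr
      fun z => ?_
    rw [abs_lt]
    constructor
    · rintro ⟨h2, h3⟩
      exact ⟨by linarith, h2⟩
    · rintro ⟨h2, h3⟩
      exact ⟨h3, by linarith⟩
  exact U78.Df.and (DF.lt h0 (DF.var none)) (U78.Df.and (DF.le (DF.var none) h1) hall.all)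

theorem decay {k : ℕ} (φ : (Fin (k + 1) → ℝ) → ℝ) (hφ : DF φ) :
    ∃ K : ℕ, 0 < K ∧ ∀ x : Fin k → ℝ, Tendsto (fun v : ℝ => φ (Fin.cons v x)) (𝓝[>] 0) (𝓝 0) →
      ∃ c : ℝ, 0 < c ∧ ∀ v : ℝ, 0 < v → v < c → |φ (Fin.cons v x)| ^ K ≤ v := by
  have hψ := DF.dsup (Pd88_df hφ)
  obtain ⟨s, hs⟩ := growth (fun y : Fin (k + 1) → ℝ =>
    (sSup {c : ℝ | Pd88 φ (fun o => o.elim c y)})⁻¹) hψ.inv
  refine ⟨s + 1, Nat.succ_pos s, fun x hx => ?_⟩
  obtain ⟨c0, hc0, hb⟩ := hs x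
  have hset : ∀ t : ℝ, {c : ℝ | Pd88 φ (fun o => o.elim c (Fin.cons t x : Fin (k + 1) → ℝ))} =
      {c : ℝ | 0 < c ∧ c ≤ 1 ∧ ∀ v : ℝ, 0 < v → v < c → |φ (Fin.cons v x)| < t} := by
    intro t
    ext c
    simp [Pd88]
  have hpos : ∀ t : ℝ, 0 < t → 0 < sSup {c : ℝ | 0 < c ∧ c ≤ 1 ∧
      ∀ v : ℝ, 0 < v → v < c → |φ (Fin.cons v x)| < t} := by
    intro t ht
    have h1 : ∀ᶠ v in 𝓝[>] (0 : ℝ), |φ (Fin.cons v x)| < t := by
      have h2 := hx.eventually (Metric.ball_mem_nhds (0 : ℝ) ht)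
      filter_upwards [h2] with v hv
      simpa [Real.norm_eq_abs] using hv
    obtain ⟨δ, hδ, h3⟩ := (mem_nhdsGT_iff_exists_Ioo_subset).1 h1
    have h4 : min δ 1 ∈ {c : ℝ | 0 < c ∧ c ≤ 1 ∧
        ∀ v : ℝ, 0 < v → v < c → |φ (Fin.cons v x)| < t} :=
      ⟨lt_min hδ one_pos, min_le_right _ _, fun v hv0 hv1 =>
        h3 ⟨hv0, hv1.trans_le (min_le_left _ _)⟩⟩
    exact h4.1.trans_le (le_csSup ⟨1, fun c hc => hc.2.1⟩ h4)
  set c1 := min c0 1 with hc1
  have hc1pos : 0 < c1 := lt_min hc0 one_pos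
  refine ⟨c1 ^ (s + 1), pow_pos hc1pos _, fun v hv0 hv1 => ?_⟩
  set t : ℝ := v ^ (((s + 1 : ℕ) : ℝ)⁻¹) with htdef
  have htp : t ^ (s + 1) = v := Real.rpow_inv_natCast_pow hv0.le (Nat.succ_ne_zero s)
  have ht0 : 0 < t := Real.rpow_pos_of_pos hv0 _
  have ht1 : t < c1 := by
    by_contra hcon
    push Not at hcon
    have h5 := pow_le_pow_left₀ hc1pos.le hcon (s + 1)
    rw [htp] at h5
    linarith
  have ht2 : t < 1 := ht1.trans_le (min_le_right _ _)
  have h6 := hb t ht0 (ht1.trans_le (min_le_left _ _))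
  rw [hset t] at h6
  have h7 := hpos t ht0
  rw [abs_of_pos (inv_pos.2 h7)] at h6
  have h8 : t ^ s ≤ sSup {c : ℝ | 0 < c ∧ c ≤ 1 ∧
      ∀ v : ℝ, 0 < v → v < c → |φ (Fin.cons v x)| < t} := (inv_le_inv₀ h7 (pow_pos ht0 s)).1 h6
  have h9 : v < t ^ s := by
    rw [← htp, pow_succ]
    exact mul_lt_of_lt_one_right (pow_pos ht0 s) ht2
  have hne : {c : ℝ | 0 < c ∧ c ≤ 1 ∧
      ∀ v : ℝ, 0 < v → v < c → |φ (Fin.cons v x)| < t}.Nonempty := by
    by_contra hcon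
    rw [not_nonempty_iff_eq_empty] at hcon
    rw [hcon, Real.sSup_empty] at h7
    exact lt_irrefl _ h7
  obtain ⟨c, hc, hvc⟩ := exists_lt_of_lt_csSup hne (h9.trans_le h8)
  have h10 := hc.2.2 v hv0 hvc
  calc |φ (Fin.cons v x)| ^ (s + 1) ≤ t ^ (s + 1) := pow_le_pow_left₀ (abs_nonneg _) h10.le _
    _ = v := htp

end Pool.Agent.WSP
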