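import Pool.Agent.W_2cf66e_h23.LuA2

/-! MP_2cf66e_nt, THEOREM S+, leaf A6, part 3: components of the fibers (helper83). -/

set_option autoImplicit false

noncomputable section

open MeasureTheory Set Filter Topology

namespace Pool.Agent.WSP

/-- points of `S` with at least `j` gaps below -/
def al83 (S : Set ℝ) : ℕ → Set ℝ
  | 0 => S
  | j + 1 => {y | y ∈ S ∧ ∃ w : ℝ, ∃ y' : ℝ, w < y ∧ w ∉ S ∧ y' < w ∧ y' ∈ al83 S j}

theorem al83_sub (S : Set ℝ) (j : ℕ) : al83 S j ⊆ S := by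
  cases j with
  | zero => exact subset_rfl
  | succ j => exact fun y hy => hy.1

theorem al83_anti (S : Set ℝ) (j : ℕ) : al83 S (j + 1) ⊆ al83 S j := by
  induction j with
  | zero => exact fun y hy => hy.1
  | succ j ih =>
    rintro y ⟨h1, w, y', h2, h3, h4, h5⟩
    exact ⟨h1, w, y', h2, h3, h4, ih h5⟩

theorem al83_antitone (S : Set ℝ) : Antitone (al83 S) := antitone_nat_of_succ_le (al83_anti S)

theorem al83_card (S : Set ℝ) (E : Finset ℝ)
    (hE : ∀ x y : ℝ, x ≤ y → (∀ z ∈ E, z ∉ Icc x y) → (x ∈ S ↔ y ∈ S)) (j : ℕ) :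
    ∀ y ∈ al83 S j, j ≤ (E.filter (fun e => e < y)).card := by
  induction j with
  | zero => exact fun _ _ => Nat.zero_le _
  | succ j ih =>
    rintro y ⟨h1, w, y', h2, h3, h4, h5⟩
    have h6 : y' ∈ S := al83_sub S j h5
    obtain ⟨e, he, he2⟩ : ∃ e ∈ E, e ∈ Icc y' w := by
      by_contra hcon
      push Not at hcon
      exact h3 ((hE y' w h4.le hcon).1 h6)
    have h7 := ih y' h5
    have h8 : insert e (E.filter (fun e => e < y')) ⊆ E.filter (fun e => e < y) := by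
      intro a ha
      rw [Finset.mem_insert] at ha
      rw [Finset.mem_filter]
      rcases ha with rfl | ha
      · exact ⟨he, lt_of_le_of_lt he2.2 h2⟩
      · rw [Finset.mem_filter] at ha
        exact ⟨ha.1, ha.2.trans (h4.trans h2)⟩
    have h9 : e ∉ E.filter (fun e => e < y') := by
      rw [Finset.mem_filter]
      exact fun h => absurd h.2 (not_lt.2 he2.1)
    have h10 := Finset.card_le_card h8
    rw [Finset.card_insert_of_notMem h9] at h10
    omega

/-- nearby points have the same gaps below -/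
theorem al83_iff {S : Set ℝ} {y u : ℝ} (hyu : y ≤ u) (h : Icc y u ⊆ S) (j : ℕ) :
    y ∈ al83 S j ↔ u ∈ al83 S j := by
  cases j with
  | zero => exact ⟨fun _ => h ⟨hyu, le_rfl⟩, fun _ => h ⟨le_rfl, hyu⟩⟩
  | succ j =>
    constructor
    · rintro ⟨h1, w, y', h2, h3, h4, h5⟩
      exact ⟨h ⟨hyu, le_rfl⟩, w, y', h2.trans_le hyu, h3, h4, h5⟩
    · rintro ⟨h1, w, y', h2, h3, h4, h5⟩
      refine ⟨h ⟨le_rfl, hyu⟩, w, y', ?_, h3, h4, h5⟩
      by_contra hcon
      push Not at hcon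
      exact h3 (h ⟨hcon, h2.le⟩)

/-- the component number `j` -/
def co83 (S : Set ℝ) (j : ℕ) : Set ℝ := al83 S j \ al83 S (j + 1)

theorem co83_open {S : Set ℝ} (hS : IsOpen S) (j : ℕ) : IsOpen (co83 S j) := by
  rw [Metric.isOpen_iff]
  rintro y ⟨h1, h2⟩
  obtain ⟨ε, hε, h3⟩ := Metric.isOpen_iff.1 hS y (al83_sub S j h1)
  refine ⟨ε, hε, fun u hu => ?_⟩
  rw [Real.ball_eq_Ioo] at h3 hu
  rcases le_total y u with h | h
  · have h4 : Icc y u ⊆ S := fun a ha => h3 ⟨by linarith [ha.1], lt_of_le_of_lt ha.2 hu.2⟩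
    exact ⟨(al83_iff h h4 j).1 h1, fun h5 => h2 ((al83_iff h h4 (j + 1)).2 h5)⟩
  · have h4 : Icc u y ⊆ S := fun a ha => h3 ⟨lt_of_lt_of_le hu.1 ha.1, by linarith [ha.2]⟩
    exact ⟨(al83_iff h h4 j).2 h1, fun h5 => h2 ((al83_iff h h4 (j + 1)).1 h5)⟩

theorem co83_ord (S : Set ℝ) (j : ℕ) : OrdConnected (co83 S j) := by
  refine ⟨fun y hy y' hy' u hu => ?_⟩
  have h1 : Icc y y' ⊆ S := by
    intro a ha
    by_contra hcon
    have hya : y < a := by
      rcases ha.1.lt_or_eq with h | h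
      · exact h
      · exact absurd (al83_sub S j hy.1) (h ▸ hcon)
    have hay : a < y' := by
      rcases ha.2.lt_or_eq with h | h
      · exact h
      · exact absurd (al83_sub S j hy'.1) (h ▸ hcon)
    exact hy'.2 ⟨al83_sub S j hy'.1, a, y, hay, hcon, hya, hy.1⟩
  have h2 : Icc y u ⊆ S := fun a ha => h1 ⟨ha.1, ha.2.trans hu.2⟩
  exact ⟨(al83_iff hu.1 h2 j).1 hy.1, fun h3 => hy.2 ((al83_iff hu.1 h2 (j + 1)).2 h3)⟩

theorem co83_disj (S : Set ℝ) {i j : ℕ} (hij : i ≠ j) : Disjoint (co83 S i) (co83 S j) := by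
  have h : ∀ {i j : ℕ}, i < j → Disjoint (co83 S i) (co83 S j) := by
    intro i j hij
    rw [Set.disjoint_left]
    rintro y ⟨-, h1⟩ ⟨h2, -⟩
    exact h1 (al83_antitone S hij h2)
  rcases lt_or_gt_of_ne hij with h1 | h1
  · exact h h1
  · exact (h h1).symm

theorem co83_union {S : Set ℝ} {M : ℕ} (hM : ∀ y, y ∉ al83 S (M + 1)) {y : ℝ} (hy : y ∈ S) :
    ∃ j : Fin (M + 1), y ∈ co83 S j := by
  classical
  have h1 : ∃ j, y ∉ al83 S j := ⟨M + 1, hM y⟩
  have h2 : 0 < Nat.find h1 := by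
    rw [Nat.find_pos]
    exact fun h => h hy
  have h3 : Nat.find h1 ≤ M + 1 := Nat.find_min' h1 (hM y)
  refine ⟨⟨Nat.find h1 - 1, by omega⟩, ?_, ?_⟩
  · have h4 := Nat.find_min h1 (m := Nat.find h1 - 1) (by omega)
    exact not_not.1 h4
  · have h4 := Nat.find_spec h1
    have h5 : Nat.find h1 - 1 + 1 = Nat.find h1 := by omega
    show y ∉ al83 S (Nat.find h1 - 1 + 1)
    rw [h5]
    exact h4

/-- the relative version -/
def AL83 {k : ℕ} (W : Set (Fin (k + 1) → ℝ)) (j : ℕ) : Set (Fin (k + 1) → ℝ) :=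
  {z | z 0 ∈ al83 (fib W (tl z)) j}

theorem fib_AL83 {k : ℕ} (W : Set (Fin (k + 1) → ℝ)) (j : ℕ) (x : Fin k → ℝ) :
    fib (AL83 W j) x = al83 (fib W x) j := by
  ext y
  show (Fin.cons y x : Fin (k + 1) → ℝ) 0 ∈ al83 (fib W (tl (Fin.cons y x : Fin (k + 1) → ℝ))) j ↔ _
  have h : tl (Fin.cons y x : Fin (k + 1) → ℝ) = x := by
    funext i
    simp [tl]
  rw [h, Fin.cons_zero]

theorem mem_fib_tl83 {k : ℕ} (W : Set (Fin (k + 1) → ℝ)) (z : Fin (k + 1) → ℝ) :
    z 0 ∈ fib W (tl z) ↔ z ∈ W := by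
  have h : (Fin.cons (z 0) (tl z) : Fin (k + 1) → ℝ) = z := by
    funext i
    refine Fin.cases ?_ (fun j => ?_) i
    · simp
    · simp [tl]
  show (Fin.cons (z 0) (tl z) : Fin (k + 1) → ℝ) ∈ W ↔ _
  rw [h]

theorem DS_AL83 {k : ℕ} {W : Set (Fin (k + 1) → ℝ)} (hW : DS W) (j : ℕ) : DS (AL83 W j) := by
  induction j with
  | zero =>
    refine hW.congr fun z => ?_
    exact (mem_fib_tl83 W z).symm
  | succ j ih =>
    have h1 : U78.Df (fun v : Option (Option (Fin (k + 1))) → ℝ =>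
        ((Fin.cons (v (some none)) (fun i => v (some (some i.succ))) : Fin (k + 1) → ℝ) ∈ W)) := by
      refine (U78.Df.comap (κ' := Option (Option (Fin (k + 1)))) hW
        (Fin.cons (some none) (fun i => some (some i.succ)))).congr fun v => ?_
      have : (fun i => v ((Fin.cons (some none) (fun i => some (some i.succ)) :
          Fin (k + 1) → Option (Option (Fin (k + 1)))) i)) =
          (Fin.cons (v (some none)) (fun i => v (some (some i.succ))) : Fin (k + 1) → ℝ) := by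
        funext i
        refine Fin.cases ?_ (fun i => ?_) i <;> simp
      rw [this]
    have h2 : U78.Df (fun v : Option (Option (Fin (k + 1))) → ℝ =>
        ((Fin.cons (v none) (fun i => v (some (some i.succ))) : Fin (k + 1) → ℝ) ∈ AL83 W j)) := by
      refine (U78.Df.comap (κ' := Option (Option (Fin (k + 1)))) ih
        (Fin.cons none (fun i => some (some i.succ)))).congr fun v => ?_
      have : (fun i => v ((Fin.cons none (fun i => some (some i.succ)) :
          Fin (k + 1) → Option (Option (Fin (k + 1)))) i)) =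
          (Fin.cons (v none) (fun i => v (some (some i.succ))) : Fin (k + 1) → ℝ) := by
        funext i
        refine Fin.cases ?_ (fun i => ?_) i <;> simp
      rw [this]
    have h3 : U78.Df (fun v : Option (Option (Fin (k + 1))) → ℝ => v (some none) < v (some (some 0))) :=
      U78.Df.lt (U78.PolyFun.var _) (U78.PolyFun.var _)
    have h4 : U78.Df (fun v : Option (Option (Fin (k + 1))) → ℝ => v none < v (some none)) :=
      U78.Df.lt (U78.PolyFun.var _) (U78.PolyFun.var _)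
    refine (hW.and ((h3.and (h1.not.and (h4.and h2))).ex.ex)).congr fun z => ?_
    show (z ∈ W ∧ ∃ w y' : ℝ, w < z 0 ∧ ¬ ((Fin.cons w (fun i => z i.succ) : Fin (k + 1) → ℝ) ∈ W) ∧
      y' < w ∧ (Fin.cons y' (fun i => z i.succ) : Fin (k + 1) → ℝ) ∈ AL83 W j) ↔
      (z 0 ∈ fib W (tl z) ∧ ∃ w y' : ℝ, w < z 0 ∧ w ∉ fib W (tl z) ∧ y' < w ∧
        y' ∈ al83 (fib W (tl z)) j)
    rw [mem_fib_tl83]
    simp only [← fib_AL83]
    rfl

/-- Components of the fibers: a definable set with open fibers is a finite disjoint union of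
definable sets whose fibers are open intervals. -/
theorem comps83 {k : ℕ} (W : Set (Fin (k + 1) → ℝ)) (hW : DS W) (ho : ∀ x, IsOpen (fib W x)) :
    ∃ (I : ℕ) (D : Fin I → Set (Fin (k + 1) → ℝ)),
      (∀ i, DS (D i) ∧ D i ⊆ W ∧ ∀ x, IsOpen (fib (D i) x) ∧ OrdConnected (fib (D i) x)) ∧
      (Pairwise fun i j => Disjoint (D i) (D j)) ∧ (⋃ i, D i) = W := by
  obtain ⟨M, hM⟩ := (DS_fib64 hW).uf
  have hfib : ∀ (j : ℕ) (x : Fin k → ℝ), fib (AL83 W j \ AL83 W (j + 1)) x = co83 (fib W x) j := by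
    intro j x
    have h1 := fib_AL83 W j x
    have h2 := fib_AL83 W (j + 1) x
    ext y
    show ((Fin.cons y x : Fin (k + 1) → ℝ) ∈ AL83 W j ∧
      ¬ (Fin.cons y x : Fin (k + 1) → ℝ) ∈ AL83 W (j + 1)) ↔ _
    show (y ∈ fib (AL83 W j) x ∧ ¬ y ∈ fib (AL83 W (j + 1)) x) ↔ _
    rw [h1, h2]
    rfl
  have hemp : ∀ (x : Fin k → ℝ) (y : ℝ), y ∉ al83 (fib W x) (M + 1) := by
    intro x y hy
    obtain ⟨E, hE1, hE2⟩ := hM x
    have h1 := al83_card (fib W x) E (fun a b hab hz => hE2 a b hab hz) (M + 1) y hy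
    have h2 := Finset.card_filter_le E (fun e => e < y)
    omega
  have hmem : ∀ (j : ℕ) (z : Fin (k + 1) → ℝ), z ∈ AL83 W j \ AL83 W (j + 1) ↔
      z 0 ∈ co83 (fib W (tl z)) j := fun j z => Iff.rfl
  refine ⟨M + 1, fun j => AL83 W j \ AL83 W (j + 1), fun j => ⟨?_, ?_, fun x => ?_⟩, ?_, ?_⟩
  · exact (DS_AL83 hW j).and (DS_AL83 hW (j + 1)).not
  · intro z hz
    exact (mem_fib_tl83 W z).1 (al83_sub _ _ hz.1)
  · rw [hfib]
    exact ⟨co83_open (ho x) j, co83_ord _ j⟩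
  · intro i j hij
    rw [Set.disjoint_left]
    intro z hz1 hz2
    rw [hmem] at hz1 hz2
    exact (Set.disjoint_left.1 (co83_disj (fib W (tl z)) (fun h => hij (Fin.ext h)))) hz1 hz2
  · ext z
    rw [Set.mem_iUnion]
    constructor
    · rintro ⟨j, hj⟩
      exact (mem_fib_tl83 W z).1 (al83_sub _ _ hj.1)
    · intro hz
      obtain ⟨j, hj⟩ := co83_union (hemp (tl z)) ((mem_fib_tl83 W z).2 hz)
      exact ⟨j, hj⟩

end Pool.Agent.WSP
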