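import Pool.Agent.W_2cf66e_h23.LuA6c

/-! MP_2cf66e_nt, THEOREM S+, leaf A6, part 2: disjoint open fibers; sets with finite fibers are
null (helper83). -/

set_option autoImplicit false

noncomputable section

open MeasureTheory Set Filter Topology

namespace Pool.Agent.WSP

/-- a measurable set with null fibers is null -/
theorem null_fib83 {k : ℕ} {N : Set (Fin (k + 1) → ℝ)} (hN : MeasurableSet N)
    (h : ∀ x : Fin k → ℝ, volume (fib N x) = 0) : volume N = 0 := by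
  have h1 := volume_preserving_piFinSuccAbove (fun _ : Fin (k + 1) => ℝ) 0
  have h2 := h1.symm
  rw [← h2.measure_preimage hN.nullMeasurableSet]
  rw [Measure.volume_eq_prod, Measure.prod_apply_symm (h2.measurable hN)]
  refine (lintegral_congr fun x => ?_).trans lintegral_zero
  rw [← h x]
  congr 1
  ext y
  have e : (MeasurableEquiv.piFinSuccAbove (fun _ : Fin (k + 1) => ℝ) 0).symm (y, x) =
      (Fin.cons y x : Fin (k + 1) → ℝ) := by
    show (Fin.insertNth 0 y x : Fin (k + 1) → ℝ) = Fin.cons y x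
    rw [Fin.insertNth_zero']
  show (MeasurableEquiv.piFinSuccAbove (fun _ : Fin (k + 1) => ℝ) 0).symm (y, x) ∈ N ↔ _
  rw [e]
  rfl

/-- the exterior of the fibers -/
def ext83 {k : ℕ} (U : Set (Fin (k + 1) → ℝ)) : Set (Fin (k + 1) → ℝ) :=
  {z | ∃ ε : ℝ, 0 < ε ∧ ∀ u : ℝ, (z 0 - ε < u ∧ u < z 0 + ε) →
    ¬ (Fin.cons u (tl z) : Fin (k + 1) → ℝ) ∈ U}

theorem DS_ext83 {k : ℕ} {U : Set (Fin (k + 1) → ℝ)} (hU : DS U) : DS (ext83 U) := by
  have h2 : U78.Df (fun v : Option (Option (Fin (k + 1))) → ℝ =>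
      ((Fin.cons (v none) (fun i => v (some (some i.succ))) : Fin (k + 1) → ℝ) ∈ U)) := by
    refine (U78.Df.comap (κ' := Option (Option (Fin (k + 1)))) hU
      (Fin.cons none (fun i => some (some i.succ)))).congr fun v => ?_
    have : (fun i => v ((Fin.cons none (fun i => some (some i.succ)) :
        Fin (k + 1) → Option (Option (Fin (k + 1)))) i)) =
        (Fin.cons (v none) (fun i => v (some (some i.succ))) : Fin (k + 1) → ℝ) := by
      funext i
      refine Fin.cases ?_ (fun i => ?_) i <;> simp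
    rw [this]
  have h3 : U78.Df (fun v : Option (Option (Fin (k + 1))) → ℝ =>
      v (some (some 0)) - v (some none) < v none) :=
    U78.Df.lt ((U78.PolyFun.var _).sub (U78.PolyFun.var _)) (U78.PolyFun.var _)
  have h4 : U78.Df (fun v : Option (Option (Fin (k + 1))) → ℝ =>
      v none < v (some (some 0)) + v (some none)) :=
    U78.Df.lt (U78.PolyFun.var _) ((U78.PolyFun.var _).add (U78.PolyFun.var _))
  have h5 := ((h3.and h4).imp h2.not).all
  have h6 : U78.Df (fun v : Option (Fin (k + 1)) → ℝ => ((0 : ℤ) : ℝ) < v none) :=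
    U78.Df.lt (U78.PolyFun.const 0) (U78.PolyFun.var _)
  refine (h6.and h5).ex.congr fun z => ?_
  simp only [Option.elim_none, Option.elim_some, Int.cast_zero]
  rfl

theorem fib_ext_open83 {k : ℕ} (U : Set (Fin (k + 1) → ℝ)) (x : Fin k → ℝ) :
    IsOpen (fib (ext83 U) x) := by
  rw [Metric.isOpen_iff]
  rintro y ⟨ε, hε, h⟩
  simp only [Fin.cons_zero] at h
  refine ⟨ε / 2, by positivity, fun u hu => ?_⟩
  rw [Real.ball_eq_Ioo] at hu
  refine ⟨ε / 2, by positivity, fun w hw => ?_⟩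
  simp only [Fin.cons_zero] at hw
  have h1 := h w ⟨by linarith [hw.1, hu.1], by linarith [hw.2, hu.2]⟩
  exact h1

theorem ext_not83 {k : ℕ} {U : Set (Fin (k + 1) → ℝ)} {z : Fin (k + 1) → ℝ} (hz : z ∈ ext83 U) :
    z ∉ U := by
  obtain ⟨ε, hε, h⟩ := hz
  have h1 := h (z 0) ⟨by linarith, by linarith⟩
  intro h2
  exact h1 ((mem_fib_tl83 U z).2 h2)

/-- points away from the exceptional set of `Df.uf` -/
theorem near83 {S : Set ℝ} {E : Finset ℝ}
    (hE : ∀ x y : ℝ, x ≤ y → (∀ z ∈ E, z ∉ Icc x y) → (x ∈ S ↔ y ∈ S)) {y : ℝ} (hy : y ∉ E) :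
    ∃ ε : ℝ, 0 < ε ∧ ∀ u : ℝ, (y - ε < u ∧ u < y + ε) → (u ∈ S ↔ y ∈ S) := by
  have h1 : IsOpen ((E : Set ℝ)ᶜ) := E.finite_toSet.isClosed.isOpen_compl
  obtain ⟨ε, hε, h2⟩ := Metric.isOpen_iff.1 h1 y (by simpa using hy)
  rw [Real.ball_eq_Ioo] at h2
  refine ⟨ε, hε, fun u hu => ?_⟩
  rcases le_total u y with h | h
  · exact hE u y h fun z hz hz2 =>
      h2 (a := z) ⟨lt_of_lt_of_le hu.1 hz2.1, by linarith [hz2.2]⟩ (by simpa using hz)
  · exact (hE y u h fun z hz hz2 =>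
      h2 (a := z) ⟨by linarith [hz2.1], lt_of_le_of_lt hz2.2 hu.2⟩ (by simpa using hz)).symm

/-- the boundary of the fibers is null -/
theorem bdry_null83 {k : ℕ} {U : Set (Fin (k + 1) → ℝ)} (hU : DS U) :
    volume {z : Fin (k + 1) → ℝ | z ∉ U ∧ z ∉ ext83 U} = 0 := by
  obtain ⟨M, hM⟩ := (DS_fib64 hU).uf
  have hm : DS {z : Fin (k + 1) → ℝ | z ∉ U ∧ z ∉ ext83 U} := hU.not.and (DS_ext83 hU).not
  refine null_fib83 hm.meas fun x => ?_
  obtain ⟨E, -, hE⟩ := hM x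
  have hE' : ∀ a b : ℝ, a ≤ b → (∀ z ∈ E, z ∉ Icc a b) → (a ∈ fib U x ↔ b ∈ fib U x) :=
    fun a b hab hz => hE a b hab hz
  refine measure_mono_null (t := (E : Set ℝ)) ?_ (E.finite_toSet.measure_zero _)
  rintro y ⟨h1, h2⟩
  by_contra hcon
  obtain ⟨ε, hε, h3⟩ := near83 hE' (y := y) (by simpa using hcon)
  refine h2 ⟨ε, hε, fun u hu => ?_⟩
  simp only [Fin.cons_zero] at hu
  intro h4
  have h5 : u ∈ fib U x := h4
  exact h1 ((h3 u hu).1 h5)

/-- Disjoint pieces with open fibers. -/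
theorem disj83 {k I : ℕ} (V : Fin I → Set (Fin (k + 1) → ℝ)) (hV : ∀ i, DS (V i))
    (ho : ∀ i x, IsOpen (fib (V i) x)) :
    ∃ W : Fin I → Set (Fin (k + 1) → ℝ), (∀ i, DS (W i) ∧ W i ⊆ V i ∧ ∀ x, IsOpen (fib (W i) x)) ∧
      (Pairwise fun i j => Disjoint (W i) (W j)) ∧ volume ((⋃ i, V i) \ ⋃ i, W i) = 0 := by
  classical
  set U : Fin I → Set (Fin (k + 1) → ℝ) := fun i => {z | ∃ j : Fin I, j < i ∧ z ∈ V j} with hUd
  have hU : ∀ i, DS (U i) := fun i =>
    U78.Df.exists_fin fun j => (U78.Df.const (j < i)).and (hV j)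
  have hW : ∀ i x, fib (V i ∩ ext83 (U i)) x = fib (V i) x ∩ fib (ext83 (U i)) x := fun i x => rfl
  refine ⟨fun i => V i ∩ ext83 (U i), fun i => ⟨(hV i).and (DS_ext83 (hU i)),
    Set.inter_subset_left, fun x => ?_⟩, ?_, ?_⟩
  · rw [hW]
    exact (ho i x).inter (fib_ext_open83 _ x)
  · have h : ∀ {i j : Fin I}, i < j → Disjoint (V i ∩ ext83 (U i)) (V j ∩ ext83 (U j)) := by
      intro i j hij
      rw [Set.disjoint_left]
      rintro z ⟨h1, -⟩ ⟨-, h2⟩
      exact ext_not83 h2 ⟨i, hij, h1⟩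
    intro i j hij
    rcases lt_or_gt_of_ne hij with h1 | h1
    · exact h h1
    · exact (h h1).symm
  · refine measure_mono_null (t := ⋃ i : Fin I, {z : Fin (k + 1) → ℝ | z ∉ U i ∧ z ∉ ext83 (U i)})
      ?_ (measure_iUnion_null fun i => bdry_null83 (hU i))
    rintro z ⟨h1, h2⟩
    rw [Set.mem_iUnion] at h1 h2
    obtain ⟨i, hi, hmin⟩ : ∃ i : Fin I, z ∈ V i ∧ ∀ j : Fin I, j < i → z ∉ V j := by
      obtain ⟨i0, hi0⟩ := h1
      obtain ⟨i, hi, hm⟩ := exists_minimal_of_wellFoundedLT (fun i : Fin I => z ∈ V i) ⟨i0, hi0⟩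
      exact ⟨i, hi, fun j hj hz => absurd (hm hz hj.le) (not_le.2 hj)⟩
    rw [Set.mem_iUnion]
    refine ⟨i, ?_, fun h3 => h2 ⟨i, hi, h3⟩⟩
    rintro ⟨j, hj, hz⟩
    exact hmin j hj hz

end Pool.Agent.WSP
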