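import Pool.Agent.W_2cf66e_h23.LuA15
import Pool.Agent.W_2cf66e_h65.ISet

/-! MP_2cf66e_nt, THEOREM S+, leaf B1: differences of volumes are volumes (helper83). -/

set_option autoImplicit false

noncomputable section

open MeasureTheory Set Filter Topology MvPolynomial

namespace Pool.Agent.WSP

open Pool.Agent.CVol BoxIntegral BoxIntegral.unitPartition

theorem isSA_ubox83 {k : ℕ} (n : ℕ) [NeZero n] (ν : Fin k → ℤ) :
    IsSA (box n ν : Set (Fin k → ℝ)) := by
  have h := IsSA.iInter (fun i : Fin k =>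
    {x : Fin k → ℝ | 0 < aeval x (C (n : ℚ) * X i - C (ν i : ℚ) : MvPolynomial (Fin k) ℚ)} ∩
      {x : Fin k → ℝ | 0 ≤ aeval x (C ((ν i : ℚ) + 1) - C (n : ℚ) * X i : MvPolynomial (Fin k) ℚ)})
    (fun i => (IsSA.pos _).inter (IsSA.nonneg _))
  have e : (⋂ i : Fin k,
    {x : Fin k → ℝ | 0 < aeval x (C (n : ℚ) * X i - C (ν i : ℚ) : MvPolynomial (Fin k) ℚ)} ∩
      {x : Fin k → ℝ | 0 ≤ aeval x (C ((ν i : ℚ) + 1) - C (n : ℚ) * X i :
        MvPolynomial (Fin k) ℚ)}) = (box n ν : Set (Fin k → ℝ)) := by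
    ext x
    rw [Set.mem_iInter, BoxIntegral.Box.mem_coe, mem_box_iff']
    refine forall_congr' fun i => ?_
    show (0 < aeval x (C (n : ℚ) * X i - C (ν i : ℚ) : MvPolynomial (Fin k) ℚ) ∧
      0 ≤ aeval x (C ((ν i : ℚ) + 1) - C (n : ℚ) * X i : MvPolynomial (Fin k) ℚ)) ↔ _
    simp only [map_sub, map_mul, aeval_C, aeval_X, eq_ratCast]
    push_cast
    rw [sub_pos, sub_nonneg]
  rwa [e] at h

/-- the open cube of radius `R` -/
def cub83 (k R : ℕ) : Set (Fin k → ℝ) := {x | ∀ i, -(R : ℝ) < x i ∧ x i < R}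

theorem isSA_cub83 (k R : ℕ) : IsSA (cub83 k R) := by
  have h := IsSA.iInter (fun i : Fin k =>
    {x : Fin k → ℝ | 0 < aeval x (X i + C (R : ℚ) : MvPolynomial (Fin k) ℚ)} ∩
      {x : Fin k → ℝ | 0 < aeval x (C (R : ℚ) - X i : MvPolynomial (Fin k) ℚ)})
    (fun i => (IsSA.pos _).inter (IsSA.pos _))
  have e : (⋂ i : Fin k,
    {x : Fin k → ℝ | 0 < aeval x (X i + C (R : ℚ) : MvPolynomial (Fin k) ℚ)} ∩
      {x : Fin k → ℝ | 0 < aeval x (C (R : ℚ) - X i : MvPolynomial (Fin k) ℚ)}) = cub83 k R := by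
    ext x
    rw [Set.mem_iInter]
    refine forall_congr' fun i => ?_
    show (0 < aeval x (X i + C (R : ℚ) : MvPolynomial (Fin k) ℚ) ∧
      0 < aeval x (C (R : ℚ) - X i : MvPolynomial (Fin k) ℚ)) ↔ _
    simp only [map_sub, map_add, aeval_C, aeval_X, eq_ratCast]
    push_cast
    constructor
    · rintro ⟨h1, h2⟩
      exact ⟨by linarith, by linarith⟩
    · rintro ⟨h1, h2⟩
      exact ⟨by linarith, by linarith⟩
  rwa [e] at h

theorem cub83_pi (k R : ℕ) : cub83 k R = Set.pi Set.univ fun _ => Ioo (-(R : ℝ)) R := by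
  ext x
  simp [cub83]

theorem cub83_open (k R : ℕ) : IsOpen (cub83 k R) := by
  rw [cub83_pi]
  exact isOpen_set_pi Set.finite_univ fun _ _ => isOpen_Ioo

theorem cub83_vol (k R : ℕ) : volume (cub83 k R) = (((2 * R) ^ k : ℕ) : ENNReal) := by
  rw [cub83_pi, volume_pi_pi]
  simp only [Real.volume_Ioo, Finset.prod_const, Finset.card_univ, Fintype.card_fin]
  have h : (R : ℝ) - -(R : ℝ) = ((2 * R : ℕ) : ℝ) := by push_cast; ring
  rw [h, ENNReal.ofReal_natCast]
  push_cast
  rfl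

theorem cub83_bdd (k R : ℕ) : Bornology.IsBounded (cub83 k R) := by
  rw [cub83_pi]
  exact Bornology.IsBounded.pi fun _ => Metric.isBounded_Ioo _ _

theorem exists_cub83 {k : ℕ} {S : Set (Fin k → ℝ)} (h : Bornology.IsBounded S) :
    ∃ R : ℕ, S ⊆ cub83 k R := by
  obtain ⟨r, hr⟩ := h.exists_norm_le
  obtain ⟨R, hR⟩ := exists_nat_gt r
  refine ⟨R, fun x hx i => ?_⟩
  have h1 : |x i| < R := lt_of_le_of_lt ((norm_le_pi_norm x i).trans (hr x hx)) hR
  exact abs_lt.1 h1

/-- an integer is removed from the volume -/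
theorem sub_nat83 {k : ℕ} (W : Set (Fin k → ℝ)) (hW : IsSA W) (hb : Bornology.IsBounded W)
    (N : ℕ) (h : (N : ENNReal) < volume W) :
    ∃ U : Set (Fin k → ℝ), IsSA U ∧ Bornology.IsBounded U ∧ volume U + N = volume W := by
  classical
  obtain ⟨a, b, p, hp⟩ := sa_dnf hW
  obtain ⟨R, hR⟩ := exists_cub83 hb
  set O' : Set (Fin k → ℝ) := {x : Fin k → ℝ | ∃ j, ∀ i, 0 < aeval x (p j i)} with hO'
  have hO'sa : IsSA O' := by
    have h1 := IsSA.iUnion (fun j : Fin a => ⋂ i : Fin b, {x : Fin k → ℝ | 0 < aeval x (p j i)})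
      fun j => IsSA.iInter _ fun i => IsSA.pos _
    have e : (⋃ j : Fin a, ⋂ i : Fin b, {x : Fin k → ℝ | 0 < aeval x (p j i)}) = O' := by
      ext x
      simp [hO']
    rwa [e] at h1
  have hcont : ∀ q : MvPolynomial (Fin k) ℚ, Continuous fun x : Fin k → ℝ => (aeval x q : ℝ) := by
    intro q
    induction q using MvPolynomial.induction_on with
    | C a => simpa using continuous_const
    | add p q hp hq =>
      simp only [map_add]
      exact hp.add hq
    | mul_X p j hp =>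
      simp only [map_mul, aeval_X]
      exact hp.mul (continuous_apply j)
  have hO'op : IsOpen O' := by
    have e : O' = ⋃ j : Fin a, ⋂ i : Fin b, {x : Fin k → ℝ | 0 < aeval x (p j i)} := by
      ext x
      simp [hO']
    rw [e]
    exact isOpen_iUnion fun j => isOpen_iInter_of_finite fun i =>
      isOpen_lt continuous_const (hcont _)
  set O : Set (Fin k → ℝ) := O' ∩ cub83 k R with hO
  have hOsa : IsSA O := hO'sa.inter (isSA_cub83 k R)
  have hOop : IsOpen O := hO'op.inter (cub83_open k R)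
  have hOv : volume O = volume W := by
    have h1 : W =ᵐ[volume] O := by
      have h2 : W ∩ cub83 k R = W := Set.inter_eq_left.2 hR
      have h3 : (W ∩ cub83 k R : Set (Fin k → ℝ)) =ᵐ[volume] O :=
        hp.inter (ae_eq_refl _)
      rwa [h2] at h3
    exact (measure_congr h1).symm
  have hOfin : volume O ≠ ⊤ := by
    have h1 : volume O ≤ volume (cub83 k R) := measure_mono Set.inter_subset_right
    rw [cub83_vol] at h1
    exact (h1.trans_lt (ENNReal.natCast_lt_top _)).ne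
  rw [← hOv] at h ⊢
  obtain ⟨K, hKO, hK, hKv⟩ := hOop.exists_lt_isCompact h
  obtain ⟨δ, hδ, hδO⟩ := hK.exists_thickening_subset_open hOop hKO
  obtain ⟨m, hm⟩ := exists_nat_one_div_lt hδ
  set n : ℕ := m + 1 with hn
  have hn0 : (0 : ℝ) < n := by rw [hn]; positivity
  have hnδ : 1 / (n : ℝ) < δ := by rw [hn]; push_cast; exact hm
  set A : Set (Fin k → ℤ) := {ν | ((box n ν : Set (Fin k → ℝ)) ∩ K).Nonempty} with hA
  have hAO : ∀ ν ∈ A, (box n ν : Set (Fin k → ℝ)) ⊆ O := by
    rintro ν ⟨x, hx, hxK⟩ y hy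
    refine hδO (Metric.mem_thickening_iff.2 ⟨x, hxK, ?_⟩)
    rw [BoxIntegral.Box.mem_coe, mem_box_iff] at hx hy
    refine lt_of_le_of_lt ((dist_pi_le_iff (by positivity)).2 fun i => ?_) hnδ
    rw [Real.dist_eq, abs_le]
    have h1 := hx i
    have h2 := hy i
    have h3 : ((ν i : ℝ) + 1) / n = ν i / n + 1 / n := by rw [add_div]
    rw [h3] at h1 h2
    constructor <;> linarith [h1.1, h1.2, h2.1, h2.2]
  have hAfin : A.Finite :=
    (setFinite_index n hOsa.measurable.nullMeasurableSet hOfin).subset fun ν hν => hAO ν hν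
  set F : Finset (Fin k → ℤ) := hAfin.toFinset with hF
  have hKF : K ⊆ ⋃ ν ∈ F, (box n ν : Set (Fin k → ℝ)) := by
    intro x hx
    have h1 : x ∈ box n (index n x) := mem_box_iff_index.2 rfl
    rw [Set.mem_iUnion₂]
    refine ⟨index n x, ?_, h1⟩
    rw [hF, Set.Finite.mem_toFinset]
    exact ⟨x, h1, hx⟩
  have hvb : ∀ ν : Fin k → ℤ, volume (box n ν : Set (Fin k → ℝ)) = 1 / (n : ENNReal) ^ k := by
    intro ν
    rw [BoxIntegral.unitPartition.volume_box, Fintype.card_fin]
  have hcard : N * n ^ k ≤ F.card := by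
    have h1 : (N : ENNReal) < ∑ _ν ∈ F, 1 / (n : ENNReal) ^ k := by
      refine hKv.trans_le ((measure_mono hKF).trans ((measure_biUnion_finset_le F _).trans ?_))
      exact le_of_eq (Finset.sum_congr rfl fun ν _ => hvb ν)
    rw [Finset.sum_const, nsmul_eq_mul, mul_one_div] at h1
    have h2 : (n : ENNReal) ^ k ≠ 0 := pow_ne_zero _ (by rw [hn]; simp)
    have h3 : (n : ENNReal) ^ k ≠ ⊤ := ENNReal.pow_ne_top (ENNReal.natCast_ne_top n)
    rw [ENNReal.lt_div_iff_mul_lt (Or.inl h2) (Or.inl h3)] at h1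
    have h4 : ((N * n ^ k : ℕ) : ENNReal) < (F.card : ENNReal) := by
      push_cast
      exact h1
    exact_mod_cast h4.le
  obtain ⟨F', hF', hF'c⟩ := Finset.exists_subset_card_eq hcard
  set Bx : Set (Fin k → ℝ) := ⋃ ν ∈ F', (box n ν : Set (Fin k → ℝ)) with hBx
  have hBsa : IsSA Bx := IsSA.biUnion F' _ fun ν => isSA_ubox83 n ν
  have hBO : Bx ⊆ O := by
    refine Set.iUnion₂_subset fun ν hν => hAO ν ?_
    have h1 := hF' hν
    rwa [hF, Set.Finite.mem_toFinset] at h1
  have hBv : volume Bx = N := by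
    rw [hBx, measure_biUnion_finset]
    · rw [Finset.sum_congr rfl fun ν _ => hvb ν, Finset.sum_const, hF'c, nsmul_eq_mul,
        mul_one_div]
      have h2 : (n : ENNReal) ^ k ≠ 0 := pow_ne_zero _ (by rw [hn]; simp)
      have h3 : (n : ENNReal) ^ k ≠ ⊤ := ENNReal.pow_ne_top (ENNReal.natCast_ne_top n)
      push_cast
      rw [ENNReal.mul_div_cancel_right h2 h3]
    · intro ν _ ν' _ hne
      exact disjoint.1 hne
    · intro ν _
      exact (isSA_ubox83 n ν).measurable
  refine ⟨O \ Bx, ?_, ?_, ?_⟩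
  · rw [Set.diff_eq]
    exact hOsa.inter hBsa.compl
  · exact (cub83_bdd k R).subset (Set.diff_subset.trans Set.inter_subset_right)
  · have h1 := measure_diff_add_inter (μ := volume) O hBsa.measurable
    rw [Set.inter_eq_right.2 hBO, hBv] at h1
    exact h1

theorem one_set {k : ℕ} (S T : Set (Fin (k + 1) → ℝ)) (hS : Pool.Agent.CVol.IsSA S)
    (hT : Pool.Agent.CVol.IsSA T) (hbS : Bornology.IsBounded S) (hbT : Bornology.IsBounded T)
    (h : (volume T).toReal ≤ (volume S).toReal) :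
    ∃ U : Set (Fin (k + 1) → ℝ), Pool.Agent.CVol.IsSA U ∧ Bornology.IsBounded U ∧
      (volume U).toReal = (volume S).toReal - (volume T).toReal := by
  rcases h.eq_or_lt with h | h
  · refine ⟨∅, IsSA.empty, Bornology.isBounded_empty, ?_⟩
    rw [h]
    simp
  obtain ⟨R, hR⟩ := exists_cub83 hbT
  have hQT : IsSA (cub83 (k + 1) R \ T) := by
    rw [Set.diff_eq]
    exact (isSA_cub83 (k + 1) R).inter hT.compl
  obtain ⟨W, hW, hbW, hWv⟩ := one_bdd (k := k) (I := 2) ![S, cub83 (k + 1) R \ T] (by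
    intro i
    fin_cases i
    · exact ⟨hS, hbS⟩
    · exact ⟨hQT, (cub83_bdd (k + 1) R).subset Set.diff_subset⟩)
  rw [Fin.sum_univ_two] at hWv
  change volume W = volume S + volume (cub83 (k + 1) R \ T) at hWv
  set N : ℕ := (2 * R) ^ (k + 1) with hN
  have h1 : volume (cub83 (k + 1) R \ T) + volume T = N := by
    have h2 := measure_diff_add_inter (μ := volume) (cub83 (k + 1) R) hT.measurable
    rw [Set.inter_eq_right.2 hR, cub83_vol] at h2
    exact h2
  have fS : volume S ≠ ⊤ := hbS.measure_lt_top.ne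
  have fT : volume T ≠ ⊤ := hbT.measure_lt_top.ne
  have fQ : volume (cub83 (k + 1) R \ T) ≠ ⊤ :=
    ((cub83_bdd (k + 1) R).subset Set.diff_subset).measure_lt_top.ne
  have r1 : (volume (cub83 (k + 1) R \ T)).toReal + (volume T).toReal = N := by
    rw [← ENNReal.toReal_add fQ fT, h1]
    simp
  have fW : volume W ≠ ⊤ := hbW.measure_lt_top.ne
  have r2 : (volume W).toReal = (volume S).toReal + (volume (cub83 (k + 1) R \ T)).toReal := by
    rw [hWv, ENNReal.toReal_add fS fQ]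
  have h3 : (N : ENNReal) < volume W := by
    rw [← ENNReal.ofReal_toReal fW, ← ENNReal.ofReal_natCast]
    rw [ENNReal.ofReal_lt_ofReal_iff_of_nonneg (by positivity)]
    linarith
  obtain ⟨U, hU, hbU, hUv⟩ := sub_nat83 W hW hbW N h3
  refine ⟨U, hU, hbU, ?_⟩
  have fU : volume U ≠ ⊤ := hbU.measure_lt_top.ne
  have r3 : (volume U).toReal + N = (volume W).toReal := by
    rw [← hUv, ENNReal.toReal_add fU (ENNReal.natCast_ne_top N)]
    simp
  linarith

end Pool.Agent.WSP
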