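import Pool.Agent.W_2cf66e_h23.DefsS
import Pool.Agent.W_2cf66e_h65.KPer
import Pool.Agent.W_2cf66e_h65.KSer

/-!
# MP_2cf66e_nt, constant terms with the exact power of `π`: leaf C1 (helper78)
-/

set_option autoImplicit false

noncomputable section

open MeasureTheory Set Filter Topology

namespace Pool.Agent.WSP

open Pool.Agent.CVol

theorem ct_change {M : ℕ} (F : (Fin M → ℝ) → ℝ) :
    (IntegrableOn (fun θ => F (cs θ)) (ucube (Fin M)) ↔
      Integrable (fun t : Fin M → ℝ => (∏ i, (1 / (1 + (t i) ^ 2) / Real.pi)) * F (KPer_psi t))) ∧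
    ∫ θ in ucube (Fin M), F (cs θ) =
      ∫ t : Fin M → ℝ, (∏ i, (1 / (1 + (t i) ^ 2) / Real.pi)) * F (KPer_psi t) := by
  have hae : (Set.univ.pi fun _ : Fin M => Set.Ioo (0 : ℝ) 1) =ᵐ[volume] ucube (Fin M) := by
    have h1 := Measure.univ_pi_Ioo_ae_eq_Icc (μ := fun _ : Fin M => (volume : Measure ℝ))
      (f := fun _ => 0) (g := fun _ => 1)
    exact h1
  have hc := KPer_change (n := M) fun θ => F (cs θ)
  simp only [KPer_cs, integrableOn_univ, setIntegral_univ] at hc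
  refine ⟨?_, ?_⟩
  · rw [← hc.1]
    exact ⟨fun h => h.congr_set_ae hae, fun h => h.congr_set_ae hae.symm⟩
  · rw [← setIntegral_congr_set hae, hc.2]

theorem ct_ri {n : ℕ} (A T : MvPolynomial (Fin (n + 1)) ℚ)
    (hi : IntegrableOn (fun θ => (MvPolynomial.aeval (cs θ) A : ℝ) /
      (1 - MvPolynomial.aeval (cs θ) T)) (ucube (Fin (n + 1)))) :
    RI (n + 1) (Real.pi ^ n * ∫ θ in ucube (Fin (n + 1)),
      (MvPolynomial.aeval (cs θ) A : ℝ) / (1 - MvPolynomial.aeval (cs θ) T)) := by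
  have hpi := Real.pi_ne_zero
  obtain ⟨dA, qA, hA⟩ := KPer_pull A
  obtain ⟨dB, qB, hB⟩ := KPer_pull (1 - T)
  have hval : ∀ t : Fin (n + 1) → ℝ,
      Real.pi ^ (n + 1) * ((∏ i, (1 / (1 + (t i) ^ 2) / Real.pi)) *
        ((MvPolynomial.aeval (KPer_psi t) A : ℝ) / (1 - MvPolynomial.aeval (KPer_psi t) T))) =
      (MvPolynomial.aeval t (qA * num (n + 1) ^ dB) : ℝ) /
        MvPolynomial.aeval t (qB * num (n + 1) ^ (dA + 1)) := by
    intro t
    have hN := (KPer_num_pos t).ne'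
    have h1 : ∏ i, (1 / (1 + (t i) ^ 2) / Real.pi) =
        (MvPolynomial.aeval t (num (n + 1)) : ℝ)⁻¹ * (Real.pi ^ (n + 1))⁻¹ := by
      rw [Finset.prod_div_distrib, Finset.prod_div_distrib, HSub_num]
      simp [div_eq_mul_inv]
    have h2 : (MvPolynomial.aeval (KPer_psi t) A : ℝ) =
        MvPolynomial.aeval t qA / (MvPolynomial.aeval t (num (n + 1))) ^ dA := by
      rw [hA t, mul_div_cancel_right₀ _ (pow_ne_zero _ hN)]
    have h3 : (1 - MvPolynomial.aeval (KPer_psi t) T : ℝ) =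
        MvPolynomial.aeval t qB / (MvPolynomial.aeval t (num (n + 1))) ^ dB := by
      rw [hB t, mul_div_cancel_right₀ _ (pow_ne_zero _ hN), map_sub, map_one]
    rw [h1, h2, h3, map_mul, map_mul, map_pow, map_pow]
    by_cases hq : (MvPolynomial.aeval t qB : ℝ) = 0
    · rw [hq]
      simp
    · have hpM : Real.pi ^ (n + 1) ≠ 0 := pow_ne_zero _ hpi
      field_simp
      ring
  have hc := ct_change (M := n + 1) fun c => (MvPolynomial.aeval c A : ℝ) /
    (1 - MvPolynomial.aeval c T)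
  have hi1 := hc.1.mp hi
  refine ⟨qA * num (n + 1) ^ dB, qB * num (n + 1) ^ (dA + 1), ?_, ?_⟩
  · have h1 := hi1.const_mul (Real.pi ^ (n + 1))
    simp only [hval] at h1
    exact h1
  · rw [hc.2, ← mul_assoc, ← pow_succ', ← integral_const_mul]
    simp only [hval]

end Pool.Agent.WSP
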