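import Pool.Agent.W_2cf66e_h23.MainA
import Pool.Agent.W_2cf66e_h23.LfG
import Pool.Agent.W_2cf66e_h23.LfJ
import Pool.Agent.W_2cf66e_h23.LfV

/-!
# MP_2cf66e_nt, same dimension: volumes (helper23)
-/

set_option autoImplicit false

noncomputable section

open MeasureTheory Set Filter Topology

namespace Pool.Agent.WSP

variable {n : ℕ}

theorem RI_zero (m : ℕ) : RI m 0 := by
  refine ⟨0, 1, ?_, ?_⟩
  · simp
  · simp

theorem cons_cube (w : ℝ) (x : Fin n → ℝ) :
    (Fin.cons w x : Fin (n + 1) → ℝ) ∈ cube (n + 1) ↔ w ∈ Icc (0 : ℝ) 1 ∧ x ∈ cube n := by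
  unfold cube
  simp only [Set.mem_ofPred_eq, mem_Icc]
  constructor
  · intro h
    refine ⟨?_, fun i => ?_⟩
    · have := h 0
      simpa using this
    · have := h i.succ
      simpa using this
  · rintro ⟨h1, h2⟩ i
    refine Fin.cases ?_ (fun j => ?_) i
    · simpa using h1
    · simpa using h2 j

theorem cube_fin (n : ℕ) : volume (cube n) < ⊤ := by
  rw [lt_top_iff_ne_top]
  intro h
  have := cube_vol n
  rw [h] at this
  simp at this

theorem meas_cons_left {f : (Fin (n + 1) → ℝ) → ℝ} (hf : Measurable f) :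
    StronglyMeasurable (fun p : (Fin n → ℝ) × ℝ => f (Fin.cons p.2 p.1)) := by
  have h : (fun p : (Fin n → ℝ) × ℝ => f (Fin.cons p.2 p.1)) =
      fun p : (Fin n → ℝ) × ℝ => f ((EE n).symm p) := by
    funext p
    rw [← EE_symm]
  rw [h]
  exact (hf.comp (EE n).symm.measurable).stronglyMeasurable

theorem cube_fub {f : (Fin (n + 1) → ℝ) → ℝ} (hf : Measurable f) (hb : ∀ z, |f z| ≤ 1) :
    ∫ z in cube (n + 1), f z = ∫ x in cube n, ∫ y in Icc (0 : ℝ) 1, f (Fin.cons y x) ∧
    IntegrableOn (fun x : Fin n → ℝ => ∫ y in Icc (0 : ℝ) 1, f (Fin.cons y x)) (cube n) := by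
  have hsec : ∀ x : Fin n → ℝ, IntegrableOn (fun y : ℝ => f (Fin.cons y x)) (Icc (0 : ℝ) 1) := by
    intro x
    have hm : Measurable (fun y : ℝ => f (Fin.cons y x)) :=
      (meas_cons_left hf).measurable.comp (measurable_const.prodMk measurable_id)
    refine Measure.integrableOn_of_bounded (M := 1) ?_ hm.aestronglyMeasurable
      (Eventually.of_forall fun y => hb _)
    rw [Real.volume_Icc]
    exact ENNReal.ofReal_ne_top
  have hle : ∀ x : Fin n → ℝ, ∫ y in Icc (0 : ℝ) 1, ‖f (Fin.cons y x)‖ ≤ 1 := by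
    intro x
    calc ∫ y in Icc (0 : ℝ) 1, ‖f (Fin.cons y x)‖ ≤ ∫ _y in Icc (0 : ℝ) 1, (1 : ℝ) := by
          refine setIntegral_mono (hsec x).norm ?_ fun y => hb _
          exact integrableOn_const (by rw [Real.volume_Icc]; exact ENNReal.ofReal_ne_top)
      _ = 1 := by simp
  have hind : ∀ (x : Fin n → ℝ) (w : ℝ), (cube (n + 1)).indicator f (Fin.cons w x) =
      (cube n).indicator (fun x => (Icc (0 : ℝ) 1).indicator (fun w => f (Fin.cons w x)) w) x := by
    intro x w
    by_cases h2 : x ∈ cube n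
    · rw [Set.indicator_of_mem h2]
      by_cases h1 : w ∈ Icc (0 : ℝ) 1
      · rw [Set.indicator_of_mem h1, Set.indicator_of_mem ((cons_cube w x).2 ⟨h1, h2⟩)]
      · rw [Set.indicator_of_notMem h1, Set.indicator_of_notMem fun h => h1 ((cons_cube w x).1 h).1]
    · rw [Set.indicator_of_notMem h2, Set.indicator_of_notMem fun h => h2 ((cons_cube w x).1 h).2]
  obtain ⟨h1, h2⟩ := fub_integrable (G := (cube (n + 1)).indicator f)
    (b := (cube n).indicator fun _ => (1 : ℝ)) (hf.indicator (cube_meas _))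
    (Eventually.of_forall fun x => by
      simp only [hind]
      by_cases h2 : x ∈ cube n
      · simp only [Set.indicator_of_mem h2]
        exact (integrable_indicator_iff measurableSet_Icc).2 (hsec x)
      · simp only [Set.indicator_of_notMem h2]
        exact integrable_zero _ _ _)
    ((integrable_indicator_iff (cube_meas n)).2 (integrableOn_const (cube_fin n).ne))
    (Eventually.of_forall fun x => by
      simp only [hind]
      by_cases h2 : x ∈ cube n
      · simp only [Set.indicator_of_mem h2, norm_indicator_eq_indicator_norm]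
        rw [integral_indicator measurableSet_Icc]
        exact hle x
      · simp only [Set.indicator_of_notMem h2]
        simp)
  refine ⟨?_, ?_⟩
  · rw [← integral_indicator (cube_meas _), h2, ← integral_indicator (cube_meas _)]
    congr 1
    funext x
    simp only [hind]
    by_cases h2 : x ∈ cube n
    · simp only [Set.indicator_of_mem h2]
      rw [integral_indicator measurableSet_Icc]
    · simp only [Set.indicator_of_notMem h2]
      simp
  · have hm : StronglyMeasurable (fun x : Fin n → ℝ => ∫ y in Icc (0 : ℝ) 1, f (Fin.cons y x)) :=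
      (meas_cons_left hf).integral_prod_right
    refine Measure.integrableOn_of_bounded (M := 1) (cube_fin n).ne hm.aestronglyMeasurable
      (Eventually.of_forall fun x => ?_)
    exact (norm_integral_le_integral_norm _).trans (hle x)

theorem jump_ri (p : MvPolynomial (Fin (n + 1)) ℚ) :
    RI (n + 1) (∫ z in cube (n + 1), sg (MvPolynomial.aeval z p)) := by
  classical
  by_cases hp : p = 0
  · rw [hp]
    simp only [map_zero, sg_zero, integral_zero]
    exact RI_zero _
  obtain ⟨P, hP, hpP⟩ := exists_gen p hp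
  obtain ⟨f, hf⟩ : ∃ f : MvPolynomial (Fin n) ℚ, ∀ x : Fin n → ℝ,
      (MvPolynomial.aeval x f : ℝ) = MvPolynomial.aeval (Fin.cons 1 x : Fin (n + 1) → ℝ) P := by
    refine ⟨MvPolynomial.bind₁ (Fin.cons 1 MvPolynomial.X :
      Fin (n + 1) → MvPolynomial (Fin n) ℚ) P, fun x => ?_⟩
    rw [MvPolynomial.aeval_bind₁]
    congr 1
    congr 1
    funext i
    refine Fin.cases ?_ (fun j => ?_) i
    · simp
    · simp
  have hsm : ∀ {m : ℕ} (q : MvPolynomial (Fin m) ℚ),
      Measurable (fun z : Fin m → ℝ => sg (MvPolynomial.aeval z q)) := fun q =>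
    sg_meas.comp (meas_aeval q)
  have h1 : ∫ z in cube (n + 1), sg (MvPolynomial.aeval z p) =
      ∫ z in cube (n + 1), sg (MvPolynomial.aeval z P) := by
    refine setIntegral_congr_ae (cube_meas _) ?_
    have h0 : ∀ᵐ z : Fin (n + 1) → ℝ, z 0 ≠ 1 := by
      rw [ae_iff]
      simp only [not_not]
      exact Measure.pi_hyperplane (fun _ : Fin (n + 1) => (volume : Measure ℝ)) 0 1
    filter_upwards [hpP, h0] with z hz hz0 hc
    exact hz (lt_of_le_of_ne (hc 0).2 hz0)
  obtain ⟨h2, h3⟩ := cube_fub (hsm P) fun z => sg_abs _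
  have h4 : ∀ᵐ x : Fin n → ℝ, ∫ y in Icc (0 : ℝ) 1,
      sg (MvPolynomial.aeval (Fin.cons y x : Fin (n + 1) → ℝ) P) =
        sg (MvPolynomial.aeval x f) - 2 * JJ P x := by
    filter_upwards [hP] with x hx
    have h5 := jump (sec P x) hx.1 (fun r hr => by
      intro h6
      have h7 := Polynomial.aeval_algebraMap_apply ℂ r (sec P x)
      have h8 := Polynomial.aeval_algebraMap_apply ℂ r (Polynomial.derivative (sec P x))
      rw [Polynomial.coe_aeval_eq_eval, hr, map_zero] at h7
      rw [Polynomial.coe_aeval_eq_eval, h6, map_zero] at h8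
      exact hx.2.1 _ h7 h8) hx.2.2
    rw [hf, ← sec_eval]
    simp only [← sec_eval]
    exact h5
  have hfi : IntegrableOn (fun x : Fin n → ℝ => sg (MvPolynomial.aeval x f)) (cube n) :=
    Measure.integrableOn_of_bounded (M := 1) (cube_fin n).ne (hsm f).aestronglyMeasurable
      (Eventually.of_forall fun x => sg_abs _)
  have hJi : IntegrableOn (fun x : Fin n → ℝ => 2 * JJ P x) (cube n) := by
    have h5 : IntegrableOn (fun x : Fin n → ℝ => sg (MvPolynomial.aeval x f) -
        ∫ y in Icc (0 : ℝ) 1, sg (MvPolynomial.aeval (Fin.cons y x : Fin (n + 1) → ℝ) P))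
        (cube n) := hfi.sub h3
    refine h5.congr (ae_restrict_of_ae ?_)
    filter_upwards [h4] with x hx
    rw [hx]
    ring
  have h6 : ∫ z in cube (n + 1), sg (MvPolynomial.aeval z p) =
      (∫ x in cube n, sg (MvPolynomial.aeval x f)) +
        ((-2 / 2 ^ (n + 1) : ℚ) : ℝ) * (2 ^ (n + 1) * ∫ x in cube n, JJ P x) := by
    rw [h1, h2, integral_congr_ae (ae_restrict_of_ae h4), integral_sub hfi hJi,
      integral_const_mul]
    push_cast
    field_simp
    ring
  rw [h6]
  exact (RI_first f).add (RI.smul _ (gen_ri hP))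

theorem vol_ri (S : Set (Fin (n + 1) → ℝ)) (hS : Pool.Agent.CVol.IsSA S)
    (hb : Bornology.IsBounded S) : RI (n + 1) (volume S).toReal := by
  obtain ⟨k, c, p, h⟩ := vol_sgdec S hS hb
  rw [h]
  exact RI.sum c _ fun i => jump_ri (p i)

end Pool.Agent.WSP
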