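import Pool.Agent.W_2cf66e_h23.MainB
import Pool.Agent.W_2cf66e_h23.LfB

/-!
# MP_2cf66e_nt, same dimension: differences of volumes (helper23)
-/

set_option autoImplicit false

noncomputable section

open MeasureTheory Set Filter Topology

namespace Pool.Agent.WSP

variable {n : ℕ}

/-- Differences of volumes of bounded semialgebraic sets of the same dimension. -/
theorem diff_ri (S T : Set (Fin (n + 1) → ℝ)) (hS : Pool.Agent.CVol.IsSA S)
    (hT : Pool.Agent.CVol.IsSA T) (hbS : Bornology.IsBounded S) (hbT : Bornology.IsBounded T) :
    RI (n + 1) ((volume S).toReal - (volume T).toReal) := by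
  have h := (vol_ri S hS hbS).add (RI.smul (-1) (vol_ri T hT hbT))
  have e : (volume S).toReal - (volume T).toReal =
      (volume S).toReal + ((-1 : ℚ) : ℝ) * (volume T).toReal := by
    push_cast
    ring
  rw [e]
  exact h

end Pool.Agent.WSP
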