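import Pool.Agent.W_2cf66e_h23.MainC
import Pool.Agent.W_2cf66e_h23.LuA14
import Pool.Agent.W_2cf66e_h23.LuA15
import Pool.Agent.W_2cf66e_h23.LuB1

/-!
# MP_2cf66e_nt: integrals over the whole space and volumes in the same dimension (helper23)
-/

set_option autoImplicit false

noncomputable section

open MeasureTheory Set Filter Topology

namespace Pool.Agent.WSP

variable {n : ℕ}

/-- A semialgebraic set of finite volume has the volume of a bounded semialgebraic set of the same
dimension. -/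
theorem fin_single (S : Set (Fin (n + 1) → ℝ)) (hS : Pool.Agent.CVol.IsSA S)
    (hv : volume S ≠ ⊤) : ∃ B : Set (Fin (n + 1) → ℝ), Pool.Agent.CVol.IsSA B ∧
      Bornology.IsBounded B ∧ volume B = volume S := by
  obtain ⟨I, B, hB, h⟩ := fin_bdd S (isSA_DS hS) hv
  obtain ⟨T, h1, h2, h3⟩ := one_bdd B fun i => ⟨DS_isSA (hB i).1, (hB i).2⟩
  exact ⟨T, h1, h2, by rw [h3, h]⟩

/-- Integrals over the whole space and volumes in the same dimension. -/
theorem ri_iff {x : ℝ} (hx : 0 ≤ x) : RI (n + 1) x ↔ ∃ S : Set (Fin (n + 1) → ℝ),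
    Pool.Agent.CVol.IsSA S ∧ Bornology.IsBounded S ∧ volume S = ENNReal.ofReal x := by
  constructor
  · rintro ⟨P, Q, hi, hv⟩
    obtain ⟨S, T, hS, hT, hvS, hvT, h⟩ := back_sets P Q hi
    obtain ⟨S', h1, h2, h3⟩ := fin_single S hS hvS
    obtain ⟨T', h4, h5, h6⟩ := fin_single T hT hvT
    have hxe : x = (volume S).toReal - (volume T).toReal := by
      rw [hv] at h
      exact mul_left_cancel₀ Real.pi_pos.ne' h
    obtain ⟨U, h7, h8, h9⟩ := one_set S' T' h1 h4 h2 h5 (by rw [h3, h6]; linarith)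
    refine ⟨U, h7, h8, ?_⟩
    rw [h3, h6, ← hxe] at h9
    rw [← h9, ENNReal.ofReal_toReal h8.measure_lt_top.ne]
  · rintro ⟨S, h1, h2, h3⟩
    have h := vol_ri S h1 h2
    rwa [h3, ENNReal.toReal_ofReal hx] at h

end Pool.Agent.WSP
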