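import Pool.Agent.W_2cf66e_h23.DefsS

/-!
# MP_2cf66e_nt, same dimension: the inner integral (helper23)
-/

set_option autoImplicit false

noncomputable section

open MeasureTheory Set Filter Topology

namespace Pool.Agent.WSP

variable {n : ℕ}

theorem tl_cons (w : ℝ) (x : Fin n → ℝ) : tl (Fin.cons w x : Fin (n + 1) → ℝ) = x := by
  funext j
  simp [tl]

theorem ctp_eval (N : ℕ) (b : Bool) (t : ℝ) :
    (ctp N b).eval t = (1 + t ^ (2 * N)) * cf N b t := by
  have h := (cf_den_pos N t).ne'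
  cases b
  · simp only [ctp, cf, Bool.false_eq_true, if_false, Polynomial.eval_mul, Polynomial.eval_sub,
      Polynomial.eval_add, Polynomial.eval_one, Polynomial.eval_X, Polynomial.eval_pow]
    ring
  · simp only [ctp, cf, if_true, Polynomial.eval_sub, Polynomial.eval_add, Polynomial.eval_X,
      Polynomial.eval_pow]
    field_simp
    ring

/-- The function of the derivative. -/
def ff (P : MvPolynomial (Fin (n + 1)) ℚ) (u : Fin (n + 1) → ℝ) : ℝ :=
  (Polynomial.derivative (sec P (tl u))).eval (u 0) * ∏ i, (1 + (u i) ^ (2 * (n + 1)))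

theorem hp_eval (P : MvPolynomial (Fin (n + 1)) ℚ) (e : Fin (n + 1) → Bool) (x : Fin n → ℝ)
    (r : ℝ) : (hp P e x).eval r = gg (ff P) e (Fin.cons r x) := by
  unfold hp gg ff
  rw [tl_cons]
  simp only [Polynomial.eval_mul, Polynomial.eval_C, ctp_eval, Fin.prod_univ_succ, Fin.cons_zero,
    Fin.cons_succ, Finset.prod_mul_distrib]
  ring

theorem hp_aeval (P : MvPolynomial (Fin (n + 1)) ℚ) (e : Fin (n + 1) → Bool) (x : Fin n → ℝ)
    (r : ℝ) : Polynomial.aeval (r : ℂ) (hp P e x) = ((gg (ff P) e (Fin.cons r x) : ℝ) : ℂ) := by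
  rw [← hp_eval]
  exact Polynomial.aeval_algebraMap_apply ℂ r _

theorem EK_real (h r t w : ℝ) (ht : 0 < t) :
    EK (h : ℂ) (r : ℂ) t w = ((t⁻¹ * K h ((w - r) / t) : ℝ) : ℂ) := by
  unfold EK K
  have h1 : t ^ 2 + h ^ 2 * (w - r) ^ 2 ≠ 0 := by positivity
  have h2 : (1 + h ^ 2 * ((w - r) / t) ^ 2) ≠ 0 := by positivity
  have h3 : h * t / (t ^ 2 + h ^ 2 * (w - r) ^ 2) = t⁻¹ * (h / (1 + h ^ 2 * ((w - r) / t) ^ 2)) := by
    have ht' := ht.ne'
    rw [← div_eq_inv_mul, div_div, div_eq_div_iff h1 (by positivity)]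
    field_simp
  rw [← h3]
  push_cast
  rfl

/-- The sum over the signs for one root. -/
def ER (P : MvPolynomial (Fin (n + 1)) ℚ) (x : Fin n → ℝ) (t : ℝ) (r : ℂ) (w : ℝ) : ℂ :=
  ∑ e : Fin (n + 1) → Bool, EK (Polynomial.aeval r (hp P e x)) r t w

theorem ER_real (P : MvPolynomial (Fin (n + 1)) ℚ) (x : Fin n → ℝ) (t r w : ℝ) (ht : 0 < t) :
    ER P x t (r : ℂ) w = ((t⁻¹ * FF (ff P) (Fin.cons r x) ((w - r) / t) : ℝ) : ℂ) := by
  unfold ER FF
  simp only [hp_aeval]
  rw [Finset.mul_sum, Complex.ofReal_sum]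
  refine Finset.sum_congr rfl fun e _ => ?_
  exact EK_real _ _ _ _ ht

theorem scale_int {φ : ℝ → ℝ} (hφ : Integrable φ) (t r : ℝ) (ht : 0 < t) :
    Integrable (fun w => t⁻¹ * φ ((w - r) / t)) ∧
      ∫ w, t⁻¹ * φ ((w - r) / t) = ∫ w, φ w := by
  have h1 : Integrable (fun w => φ (w / t)) := hφ.comp_div ht.ne'
  have h2 : Integrable (fun w => φ ((w - r) / t)) := h1.comp_sub_right r
  refine ⟨h2.const_mul _, ?_⟩
  rw [integral_const_mul, integral_sub_right_eq_self (fun w => φ (w / t)) r,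
    Measure.integral_comp_div, abs_of_pos ht, smul_eq_mul]
  field_simp

end Pool.Agent.WSP
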