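import Pool.Agent.W_2cf66e_h23.PerX
import Pool.Agent.W_2cf66e_h23.LfN

/-!
# MP_2cf66e_nt, same dimension: the inner integral of one root (helper23)
-/

set_option autoImplicit false

noncomputable section

open MeasureTheory Set Filter Topology

namespace Pool.Agent.WSP

variable {n : ℕ}

theorem ER_real_all (P : MvPolynomial (Fin (n + 1)) ℚ) (x : Fin n → ℝ) (t r : ℝ) (ht : 0 < t) :
    Integrable (ER P x t (r : ℂ)) ∧
    ∫ w, ER P x t (r : ℂ) w = ((Real.pi * (sg (ff P (Fin.cons r x)) *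
      ∏ i, (sg (cf (n + 1) true ((Fin.cons r x : Fin (n + 1) → ℝ) i)) +
        sg (cf (n + 1) false ((Fin.cons r x : Fin (n + 1) → ℝ) i)))) : ℝ) : ℂ) ∧
    ‖(r : ℂ)‖ * ∫ w, ‖ER P x t (r : ℂ) w‖ ≤
      Real.pi * 10 ^ (n + 1) * (∏ j : Fin n, (1 + (x j) ^ 2))⁻¹ := by
  have h1 := scale_int (FF_int (ff P) (Fin.cons r x)) t r ht
  have h2 := scale_int (FF_int (ff P) (Fin.cons r x)).norm t r ht
  have he : ER P x t (r : ℂ) = fun w =>
      ((t⁻¹ * FF (ff P) (Fin.cons r x) ((w - r) / t) : ℝ) : ℂ) := by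
    funext w
    exact ER_real P x t r w ht
  refine ⟨?_, ?_, ?_⟩
  · rw [he]
    exact h1.1.ofReal
  · rw [he, integral_complex_ofReal, h1.2, FF_inner]
  · have h3 : ∀ w, ‖ER P x t (r : ℂ) w‖ = t⁻¹ * ‖FF (ff P) (Fin.cons r x) ((w - r) / t)‖ := by
      intro w
      rw [he]
      simp only
      rw [Complex.norm_real, norm_mul, Real.norm_of_nonneg (inv_nonneg.2 ht.le)]
    simp only [h3]
    rw [h2.2]
    have h4 := FF_abs_le (ff P) (Fin.cons r x)
    rw [Fin.prod_univ_succ] at h4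
    simp only [Fin.cons_zero, Fin.cons_succ] at h4
    rw [Finset.prod_inv_distrib] at h4
    have hp0 : 0 < ∏ j : Fin n, (1 + (x j) ^ 2) := Finset.prod_pos fun i _ => by positivity
    rw [Complex.norm_real, Real.norm_eq_abs]
    have h5 : |r| * (1 + r ^ 2)⁻¹ ≤ 1 := by
      rw [← div_eq_mul_inv, div_le_one (by positivity)]
      nlinarith [sq_nonneg (|r| - 1), sq_abs r]
    calc |r| * ∫ w, ‖FF (ff P) (Fin.cons r x) w‖
        ≤ |r| * (Real.pi * 10 ^ (n + 1) * ((1 + r ^ 2)⁻¹ * (∏ j : Fin n, (1 + (x j) ^ 2))⁻¹)) :=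
          mul_le_mul_of_nonneg_left h4 (abs_nonneg _)
      _ = (|r| * (1 + r ^ 2)⁻¹) *
          (Real.pi * 10 ^ (n + 1) * (∏ j : Fin n, (1 + (x j) ^ 2))⁻¹) := by ring
      _ ≤ 1 * (Real.pi * 10 ^ (n + 1) * (∏ j : Fin n, (1 + (x j) ^ 2))⁻¹) :=
          mul_le_mul_of_nonneg_right h5 (by positivity)
      _ = _ := one_mul _

theorem ER_nonreal (P : MvPolynomial (Fin (n + 1)) ℚ) (x : Fin n → ℝ) (t : ℝ) (r : ℂ)
    (hM : (Fin.cons t x : Fin (n + 1) → ℝ) ∈ Mset P)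
    (h0 : Polynomial.aeval r (sec P x) = 0) (hr : r.im ≠ 0) :
    Integrable (ER P x t r) ∧ ∫ w, ER P x t r w = 0 ∧
    ‖r‖ * ∫ w, ‖ER P x t r w‖ ≤
      Real.pi * 10 ^ (n + 1) * (∏ j : Fin n, (1 + (x j) ^ 2))⁻¹ := by
  obtain ⟨ht, hM2⟩ := hM
  simp only [Fin.cons_zero, tl_cons] at ht hM2
  have hrr : (r.re : ℂ) + (r.im : ℂ) * Complex.I = r := Complex.re_add_im r
  have hM3 := hM2 r.re r.im (by rw [hrr]; exact h0) hr
  rw [hrr] at hM3
  set pd : ℝ := ∏ j : Fin n, (1 + (x j) ^ 2) with hpd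
  have hpd1 : 1 ≤ pd := by
    rw [hpd]
    calc (1 : ℝ) = ∏ _j : Fin n, (1 : ℝ) := by simp
      _ ≤ ∏ j : Fin n, (1 + (x j) ^ 2) :=
          Finset.prod_le_prod (fun _ _ => zero_le_one) fun j _ => by nlinarith [sq_nonneg (x j)]
  have hpd0 : 0 < pd := by linarith
  have hpi := Real.pi_pos
  have key : ∀ e : Fin (n + 1) → Bool,
      Integrable (EK (Polynomial.aeval r (hp P e x)) r t) ∧
      ∫ w, EK (Polynomial.aeval r (hp P e x)) r t w = 0 ∧
      ‖r‖ * ∫ w, ‖EK (Polynomial.aeval r (hp P e x)) r t w‖ ≤ Real.pi * pd⁻¹ := by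
    intro e
    have hh := hM3 e
    set h : ℂ := Polynomial.aeval r (hp P e x) with hdef
    have hh2 : h = 0 ∨ 4 * t ^ 2 ≤ Complex.normSq h * r.im ^ 2 := by
      rcases hh with hh | hh
      · exact Or.inl hh
      · refine Or.inr (le_trans ?_ hh)
        have h2 : 1 ≤ (1 + r.re ^ 2 + r.im ^ 2) * pd ^ 2 := by
          have h3 : 1 ≤ pd ^ 2 := one_le_pow₀ hpd1
          have h4 : 1 ≤ 1 + r.re ^ 2 + r.im ^ 2 := by nlinarith [sq_nonneg r.re, sq_nonneg r.im]
          exact one_le_mul_of_one_le_of_one_le h4 h3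
        calc 4 * t ^ 2 = 4 * t ^ 2 * 1 := by ring
          _ ≤ 4 * t ^ 2 * ((1 + r.re ^ 2 + r.im ^ 2) * pd ^ 2) :=
              mul_le_mul_of_nonneg_left h2 (by positivity)
          _ = _ := by ring
    obtain ⟨i1, i2, i3, -⟩ := nonreal h r t ht hr hh2
    refine ⟨i1, i2, ?_⟩
    rcases eq_or_ne h 0 with hz | hz
    · have h5 : ∀ w, EK h r t w = 0 := by
        intro w
        unfold EK
        rw [hz]
        simp
      simp only [h5, norm_zero, integral_zero, mul_zero]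
      positivity
    · have hh3 : 4 * t ^ 2 * (1 + r.re ^ 2 + r.im ^ 2) * pd ^ 2 ≤
          Complex.normSq h * r.im ^ 2 := hh.resolve_left hz
      have hn : 0 < ‖h‖ := norm_pos_iff.2 hz
      have hb : 0 < |r.im| := abs_pos.2 hr
      have h6 : 2 * t * ‖r‖ * pd ≤ ‖h‖ * |r.im| := by
        refine le_of_sq_le_sq ?_ (by positivity)
        have h7 : ‖r‖ ^ 2 = r.re ^ 2 + r.im ^ 2 := by
          rw [← Complex.normSq_eq_norm_sq, Complex.normSq_apply]
          ring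
        have h8 : Complex.normSq h = ‖h‖ ^ 2 := Complex.normSq_eq_norm_sq h
        rw [h8] at hh3
        calc (2 * t * ‖r‖ * pd) ^ 2 = 4 * t ^ 2 * ‖r‖ ^ 2 * pd ^ 2 := by ring
          _ ≤ 4 * t ^ 2 * (1 + r.re ^ 2 + r.im ^ 2) * pd ^ 2 := by
              rw [h7]
              gcongr
              linarith
          _ ≤ ‖h‖ ^ 2 * r.im ^ 2 := hh3
          _ = (‖h‖ * |r.im|) ^ 2 := by rw [mul_pow, sq_abs]
      calc ‖r‖ * ∫ w, ‖EK h r t w‖ ≤ ‖r‖ * (2 * Real.pi * t / (‖h‖ * |r.im|)) :=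
            mul_le_mul_of_nonneg_left i3 (norm_nonneg _)
        _ = Real.pi * ((2 * t * ‖r‖) / (‖h‖ * |r.im|)) := by ring
        _ ≤ Real.pi * pd⁻¹ := by
            refine mul_le_mul_of_nonneg_left ?_ hpi.le
            rw [inv_eq_one_div, div_le_div_iff₀ (by positivity) hpd0, one_mul]
            exact h6
  have hint : ∀ e ∈ (Finset.univ : Finset (Fin (n + 1) → Bool)),
      Integrable (fun w => EK (Polynomial.aeval r (hp P e x)) r t w) := fun e _ => (key e).1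
  refine ⟨?_, ?_, ?_⟩
  · unfold ER
    exact integrable_finsetSum _ hint
  · unfold ER
    rw [integral_finsetSum _ hint]
    exact Finset.sum_eq_zero fun e _ => (key e).2.1
  · have h9 : ∫ w, ‖ER P x t r w‖ ≤
        ∑ e : Fin (n + 1) → Bool, ∫ w, ‖EK (Polynomial.aeval r (hp P e x)) r t w‖ := by
      rw [← integral_finsetSum _ fun e he => (hint e he).norm]
      refine integral_mono_of_nonneg (Eventually.of_forall fun w => norm_nonneg _)
        (integrable_finsetSum _ fun e he => (hint e he).norm) (Eventually.of_forall fun w => ?_)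
      exact norm_sum_le _ _
    calc ‖r‖ * ∫ w, ‖ER P x t r w‖
        ≤ ‖r‖ * ∑ e : Fin (n + 1) → Bool, ∫ w, ‖EK (Polynomial.aeval r (hp P e x)) r t w‖ :=
          mul_le_mul_of_nonneg_left h9 (norm_nonneg _)
      _ = ∑ e : Fin (n + 1) → Bool, ‖r‖ * ∫ w, ‖EK (Polynomial.aeval r (hp P e x)) r t w‖ :=
          Finset.mul_sum _ _ _
      _ ≤ ∑ _e : Fin (n + 1) → Bool, Real.pi * pd⁻¹ := Finset.sum_le_sum fun e _ => (key e).2.2
      _ = Real.pi * 2 ^ (n + 1) * pd⁻¹ := by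
          rw [Finset.sum_const, Finset.card_univ, Fintype.card_fun, Fintype.card_bool,
            Fintype.card_fin, nsmul_eq_mul]
          push_cast
          ring
      _ ≤ Real.pi * 10 ^ (n + 1) * pd⁻¹ := by
          gcongr
          norm_num

end Pool.Agent.WSP
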