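import Pool.Agent.W_2cf66e_h23.Sound
import Pool.Agent.W_2cf66e_h23.FwdB
import Pool.Agent.W_2cf66e_h78.Dfn

/-!
# MP_2cf66e_nt, integrals over the whole space: the sections (helper23)
-/

set_option autoImplicit false

noncomputable section

open MeasureTheory Set Filter Topology

open scoped ComplexConjugate

namespace Pool.Agent.WSP

/-- The section of a polynomial. -/
def sec {n : ℕ} (P : MvPolynomial (Fin (n + 1)) ℚ) (x : Fin n → ℝ) : Polynomial ℝ :=
  Polynomial.map (MvPolynomial.eval x)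
    (MvPolynomial.finSuccEquiv ℝ n (MvPolynomial.map (algebraMap ℚ ℝ) P))

theorem sec_eval {n : ℕ} (P : MvPolynomial (Fin (n + 1)) ℚ) (x : Fin n → ℝ) (w : ℝ) :
    (sec P x).eval w = MvPolynomial.aeval (Fin.cons w x : Fin (n + 1) → ℝ) P := by
  unfold sec
  rw [← MvPolynomial.eval_eq_eval_mv_eval', MvPolynomial.eval_map, MvPolynomial.aeval_def]

theorem sec_deg {n : ℕ} (P : MvPolynomial (Fin (n + 1)) ℚ) (x : Fin n → ℝ) :
    (sec P x).natDegree ≤
      (MvPolynomial.finSuccEquiv ℝ n (MvPolynomial.map (algebraMap ℚ ℝ) P)).natDegree :=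
  Polynomial.natDegree_map_le

theorem rel_sec {n : ℕ} (P Q : MvPolynomial (Fin (n + 1)) ℚ) (m : ℕ) (x : Fin n → ℝ) (s : ℝ) :
    Rel P Q m x s ↔ Rel1 (sec P x) (sec Q x) m s := by
  unfold Rel Rel1
  simp only [sec_eval]

/-- The point with the given coordinates. -/
theorem EE_symm {n : ℕ} (x : Fin n → ℝ) (w : ℝ) : (EE n).symm (x, w) = Fin.cons w x := by
  rw [MeasurableEquiv.symm_apply_eq, EE_apply]
  simp

variable {n : ℕ} {P Q : MvPolynomial (Fin (n + 1)) ℚ}

/-- The integrand on the product. -/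
def qq (P Q : MvPolynomial (Fin (n + 1)) ℚ) (x : Fin n → ℝ) (w : ℝ) : ℝ :=
  (MvPolynomial.aeval (Fin.cons w x : Fin (n + 1) → ℝ) P : ℝ) /
    MvPolynomial.aeval (Fin.cons w x : Fin (n + 1) → ℝ) Q

theorem qq_comp (z : Fin (n + 1) → ℝ) : qq P Q (EE n z).1 (EE n z).2 =
    (MvPolynomial.aeval z P : ℝ) / MvPolynomial.aeval z Q := by
  unfold qq
  rw [EE_apply]
  have h : (Fin.cons (z 0) (fun j : Fin n => z j.succ) : Fin (n + 1) → ℝ) = z := by
    funext i
    refine Fin.cases rfl (fun j => rfl) i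
  rw [h]

theorem qq_int (hi : Integrable fun z : Fin (n + 1) → ℝ =>
    (MvPolynomial.aeval z P : ℝ) / MvPolynomial.aeval z Q) :
    Integrable (fun p : (Fin n → ℝ) × ℝ => qq P Q p.1 p.2)
      ((volume : Measure (Fin n → ℝ)).prod (volume : Measure ℝ)) := by
  refine ((EE_mp n).integrable_comp_emb (EE n).measurableEmbedding
    (g := fun p : (Fin n → ℝ) × ℝ => qq P Q p.1 p.2)).1 ?_
  refine hi.congr (Eventually.of_forall fun z => ?_)
  exact (qq_comp z).symm

/-- The inner integral over pi. -/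
def gin (P Q : MvPolynomial (Fin (n + 1)) ℚ) (x : Fin n → ℝ) : ℝ := Real.pi⁻¹ * ∫ w, qq P Q x w

theorem gin_int (hi : Integrable fun z : Fin (n + 1) → ℝ =>
    (MvPolynomial.aeval z P : ℝ) / MvPolynomial.aeval z Q) : Integrable (gin P Q) :=
  (qq_int hi).integral_prod_left.const_mul _

theorem gin_total (hi : Integrable fun z : Fin (n + 1) → ℝ =>
    (MvPolynomial.aeval z P : ℝ) / MvPolynomial.aeval z Q) :
    ∫ x, gin P Q x = Real.pi⁻¹ * ∫ z : Fin (n + 1) → ℝ,
      (MvPolynomial.aeval z P : ℝ) / MvPolynomial.aeval z Q := by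
  unfold gin
  rw [integral_const_mul]
  congr 1
  have h1 := integral_prod (fun p : (Fin n → ℝ) × ℝ => qq P Q p.1 p.2) (qq_int hi)
  have h2 := (EE_mp n).integral_comp (EE n).measurableEmbedding
    (fun p : (Fin n → ℝ) × ℝ => qq P Q p.1 p.2)
  simp only [qq_comp] at h2
  rw [h2, h1]

theorem null_sec (hQ : Q ≠ 0) : ∀ᵐ x : Fin n → ℝ, sec Q x ≠ 0 := by
  have h0 := Pool.Agent.CVol.null_rat Q hQ
  have h1 : ∀ᵐ z : Fin (n + 1) → ℝ, (MvPolynomial.aeval z Q : ℝ) ≠ 0 := by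
    rw [ae_iff]
    simp only [not_not]
    exact h0
  have h2 : ∀ᵐ p : (Fin n → ℝ) × ℝ ∂((volume : Measure (Fin n → ℝ)).prod (volume : Measure ℝ)),
      (MvPolynomial.aeval ((EE n).symm p) Q : ℝ) ≠ 0 := by
    have h3 : MeasurePreserving (EE n).symm
      ((volume : Measure (Fin n → ℝ)).prod (volume : Measure ℝ)) volume := (EE_mp n).symm
    exact h3.quasiMeasurePreserving.ae h1
  have h3 := Measure.ae_ae_of_ae_prod h2
  filter_upwards [h3] with x hx h4
  obtain ⟨w, hw⟩ := hx.exists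
  apply hw
  rw [EE_symm, ← sec_eval, h4]
  simp

theorem rel_ae (hQ : Q ≠ 0) (hi : Integrable fun z : Fin (n + 1) → ℝ =>
    (MvPolynomial.aeval z P : ℝ) / MvPolynomial.aeval z Q) {m : ℕ}
    (hm : (MvPolynomial.finSuccEquiv ℝ n (MvPolynomial.map (algebraMap ℚ ℝ) Q)).natDegree ≤ m) :
    ∀ᵐ x : Fin n → ℝ, ∀ s : ℝ, Rel P Q m x s ↔ s = gin P Q x := by
  filter_upwards [null_sec hQ, (qq_int hi).prod_right_ae] with x hx hx2 s
  have h1 : Integrable (fun w : ℝ => (sec P x).eval w / (sec Q x).eval w) := by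
    refine hx2.congr (Eventually.of_forall fun w => ?_)
    simp only [sec_eval]
    rfl
  rw [rel_sec, rel_iff _ _ hx h1 m ((sec_deg Q x).trans hm)]
  unfold gin qq
  simp only [sec_eval]

theorem sub_ae (hQ : Q ≠ 0) (hi : Integrable fun z : Fin (n + 1) → ℝ =>
    (MvPolynomial.aeval z P : ℝ) / MvPolynomial.aeval z Q) {m : ℕ}
    (hm : (MvPolynomial.finSuccEquiv ℝ n (MvPolynomial.map (algebraMap ℚ ℝ) Q)).natDegree ≤ m) :
    ∀ᵐ x : Fin n → ℝ, ∀ t : ℝ, (Fin.cons t x : Fin (n + 1) → ℝ) ∈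
      {y : Fin (n + 1) → ℝ | Sub P Q m y} ↔ 0 < t ∧ t < gin P Q x := by
  filter_upwards [rel_ae hQ hi hm] with x hx t
  show Sub P Q m (Fin.cons t x) ↔ _
  unfold Sub
  simp only [Fin.cons_zero, Fin.cons_succ]
  refine and_congr_right fun _ => ?_
  constructor
  · rintro ⟨s, hs, h⟩
    rwa [(hx s).1 h] at hs
  · intro h
    exact ⟨_, h, (hx _).2 rfl⟩

end Pool.Agent.WSP
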