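import Pool.Agent.W_2cf66e_h23.Ex
import Pool.Agent.W_2cf66e_h23.Rel

/-!
# MP_2cf66e_nt, integrals over the whole space: the relation gives the integral (helper23)
-/

set_option autoImplicit false

noncomputable section

open MeasureTheory Set Filter Topology Polynomial

open scoped ComplexConjugate

namespace Pool.Agent.WSP

theorem ZZ_im {m : ℕ} (a b : Fin (m + 1) → ℝ) (j : Fin (m + 1)) : (ZZ a b j).im = b j := by
  simp [ZZ]

/-- The one variable relation. -/
def Rel1 (A B : ℝ[X]) (m : ℕ) (s : ℝ) : Prop :=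
  ∃ a b u v : Fin (m + 1) → ℝ, (∀ j, 0 < b j) ∧ s = -2 * v (Fin.last m) ∧
    ∀ w : ℝ, A.eval w * Complex.normSq (CC (ZZ a b) (w : ℂ)) =
      2 * B.eval w * (UU u v w * conj (CC (ZZ a b) (w : ℂ))).re

theorem rel_sound {A B : ℝ[X]} (hB : B ≠ 0)
    (hi : Integrable (fun w : ℝ => A.eval w / B.eval w)) {m : ℕ} {s : ℝ} (h : Rel1 A B m s) :
    ∫ w : ℝ, A.eval w / B.eval w = Real.pi * s := by
  classical
  obtain ⟨a, b, u, v, hb, rfl, h⟩ := h
  have hz : ∀ j, 0 < (ZZ a b j).im := fun j => by rw [ZZ_im]; exact hb j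
  obtain ⟨U, hU⟩ : ∃ U : ℂ[X], U = ∑ j : Fin (m + 1),
      C ((u j : ℂ) + (v j : ℂ) * Complex.I) * X ^ (j : ℕ) := ⟨_, rfl⟩
  have hUe : ∀ w : ℝ, U.eval (w : ℂ) = UU u v w := by
    intro w
    rw [hU, eval_finsetSum]
    simp [UU]
  have hUd : U.degree < ((m + 1 : ℕ) : WithBot ℕ) := by
    rw [hU]
    refine lt_of_le_of_lt (degree_sum_le _ _) ?_
    rw [Finset.sup_lt_iff (WithBot.bot_lt_coe _)]
    intro j _
    refine lt_of_le_of_lt (degree_C_mul_X_pow_le _ _) ?_
    exact_mod_cast j.2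
  have hUc : U.coeff m = (u (Fin.last m) : ℂ) + (v (Fin.last m) : ℂ) * Complex.I := by
    rw [hU, finsetSum_coeff]
    rw [Finset.sum_eq_single (Fin.last m)]
    · rw [coeff_C_mul, coeff_X_pow, if_pos (by simp), mul_one]
    · intro j _ hj
      rw [coeff_C_mul, coeff_X_pow, if_neg, mul_zero]
      intro h1
      apply hj
      apply Fin.ext
      simpa using h1.symm
    · intro h1
      exact absurd (Finset.mem_univ _) h1
  have hlim := lemR (ZZ a b) hz U hUd
  have hre := ((Complex.continuous_re.tendsto _).comp hlim).const_mul 2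
  have hne : ∀ w : ℝ, CC (ZZ a b) (w : ℂ) ≠ 0 := fun w => CC_ne hz (by simp)
  have hae : ∀ᵐ w : ℝ, A.eval w / B.eval w =
      2 * (U.eval (w : ℂ) / CC (ZZ a b) (w : ℂ)).re := by
    have h1 : ∀ᵐ w : ℝ, w ∉ (B.roots.toFinset : Set ℝ) := by
      rw [ae_iff]
      simp only [not_not]
      exact (Finset.finite_toSet _).measure_zero _
    filter_upwards [h1] with w hw
    have h2 : B.eval w ≠ 0 := by
      intro h3
      apply hw
      simp only [Finset.mem_coe, Multiset.mem_toFinset]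
      exact (mem_roots hB).2 h3
    have h3 : Complex.normSq (CC (ZZ a b) (w : ℂ)) ≠ 0 := fun h4 =>
      hne w (Complex.normSq_eq_zero.1 h4)
    have h4 : (U.eval (w : ℂ) / CC (ZZ a b) (w : ℂ)).re =
        (UU u v w * conj (CC (ZZ a b) (w : ℂ))).re /
          Complex.normSq (CC (ZZ a b) (w : ℂ)) := by
      rw [hUe, Complex.div_re]
      simp only [Complex.mul_re, Complex.conj_re, Complex.conj_im]
      field_simp
      ring
    rw [h4, ← mul_div_assoc, div_eq_div_iff h2 h3, h w]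
    ring
  have hint : ∀ R : ℝ, ∫ w in (-R)..R, A.eval w / B.eval w =
      2 * (∫ w in (-R)..R, U.eval (w : ℂ) / CC (ZZ a b) (w : ℂ)).re := by
    intro R
    have h1 : ∫ w in (-R)..R, A.eval w / B.eval w =
        ∫ w in (-R)..R, 2 * (U.eval (w : ℂ) / CC (ZZ a b) (w : ℂ)).re :=
      intervalIntegral.integral_congr_ae (hae.mono fun w hw _ => hw)
    rw [h1, intervalIntegral.integral_const_mul]
    congr 1
    exact Complex.reCLM.intervalIntegral_comp_comm (ii_CC _ hz U _ _)
  have h1 := intervalIntegral_tendsto_integral hi tendsto_neg_atTop_atBot tendsto_id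
  have h2 : Tendsto (fun R : ℝ => ∫ w in (-R)..R, A.eval w / B.eval w) atTop
      (𝓝 (2 * (U.coeff m * (Complex.I * (Real.pi : ℂ))).re)) := by
    simp_rw [hint]
    exact hre
  have h3 := tendsto_nhds_unique h1 h2
  rw [h3, hUc]
  simp
  ring

theorem rel_exists (A B : ℝ[X]) (hB : B ≠ 0)
    (hi : Integrable (fun w : ℝ => A.eval w / B.eval w)) (m : ℕ) (hm : B.natDegree ≤ m) :
    ∃ s, Rel1 A B m s := by
  obtain ⟨z, U, hz, hU, h⟩ := exist_rep A B hB hi m hm
  refine ⟨_, fun j => (z j).re, fun j => (z j).im, fun j => (U.coeff j).re,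
    fun j => (U.coeff j).im, hz, rfl, fun w => ?_⟩
  have h1 : ZZ (fun j => (z j).re) (fun j => (z j).im) = z := by
    funext j
    exact Complex.re_add_im (z j)
  have h2 : UU (m := m) (fun j => (U.coeff j).re) (fun j => (U.coeff j).im) w =
      U.eval (w : ℂ) := by
    unfold UU
    simp only [Complex.re_add_im]
    rcases eq_or_ne U 0 with h3 | h3
    · rw [h3]
      simp
    · have h4 : U.natDegree < m + 1 := by
        rw [degree_eq_natDegree h3] at hU
        exact_mod_cast hU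
      rw [eval_eq_sum_range' h4, Finset.sum_range]
  rw [h1, h2]
  exact h w

theorem rel_iff (A B : ℝ[X]) (hB : B ≠ 0)
    (hi : Integrable (fun w : ℝ => A.eval w / B.eval w)) (m : ℕ) (hm : B.natDegree ≤ m) (s : ℝ) :
    Rel1 A B m s ↔ s = Real.pi⁻¹ * ∫ w : ℝ, A.eval w / B.eval w := by
  have hpi := Real.pi_pos.ne'
  constructor
  · intro h
    rw [rel_sound hB hi h]
    field_simp
  · rintro rfl
    obtain ⟨s, hs⟩ := rel_exists A B hB hi m hm
    rw [rel_sound hB hi hs]
    have : Real.pi⁻¹ * (Real.pi * s) = s := by field_simp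
    rwa [this]

end Pool.Agent.WSP
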